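import Pool.Agent.H50.TM.Geo

/-!
# Module CP: the maximum principle (pure topology)

Suppose `u x₀ < 0`, `x₀ ∈ O`. `K = {x ∈ O | u x ≤ u x₀}` is compact and nonempty, so `u` has a minimum `m = u x₁ ≤ u x₀ < 0` on `K`, which is the minimum of `u` on
`O`. `M = {x ∈ O | u x = m}` is compact (a closed subset of `K`: `M = {x ∈ K | u x ≤ m}`, `K ⊆ O` compact, `u` continuous on `K`) and nonempty. `M` is open: for
`x ∈ M` take `r < r₀ x`: `m = u x ≥ ⨍_{ball x r} u` and `u ≥ m` on the ball, so `u = m` a.e. on the ball (`setIntegral` of the nonnegative continuous function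
`u - m` is `≤ 0`), by continuity everywhere on the ball. A nonempty clopen subset of the connected space `E3` is `univ` (`IsClopen.eq_univ`), but `E3` is not compact
(`noncompact_univ` / `NoncompactSpace`). The integrability of `u` on small balls is part of the hypothesis `h2`.
-/

set_option autoImplicit false

open MeasureTheory Set Filter Topology
open scoped ENNReal NNReal

namespace Pool.Agent.H50.TM

open Pool.Agent.H23.TF

theorem max_principle {O : Set E3} (hO : IsOpen O) {u : E3 → ℝ} (hu : ContinuousOn u O)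
    (h1 : ∀ ε : ℝ, 0 < ε → IsCompact {x | x ∈ O ∧ u x ≤ -ε})
    (h2 : ∀ x ∈ O, u x < 0 → ∃ r₀ : ℝ, 0 < r₀ ∧ Metric.ball x r₀ ⊆ O ∧ ∀ r : ℝ, 0 < r → r < r₀ →
      IntegrableOn u (Metric.ball x r) ∧ ⨍ y in Metric.ball x r, u y ≤ u x) :
    ∀ x ∈ O, 0 ≤ u x := by
  intro x₀ hx₀
  by_contra hneg
  have hneg' : u x₀ < 0 := lt_of_not_ge hneg
  have hK : IsCompact {x | x ∈ O ∧ u x ≤ -(-u x₀)} := h1 (-u x₀) (by linarith)
  have hKne : ({x | x ∈ O ∧ u x ≤ -(-u x₀)} : Set E3).Nonempty := ⟨x₀, hx₀, by simp⟩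
  have hKu : ContinuousOn u {x | x ∈ O ∧ u x ≤ -(-u x₀)} := hu.mono (fun x hx => hx.1)
  obtain ⟨x₁, hx₁, hmin⟩ := hK.exists_isMinOn hKne hKu
  have hm0 : u x₁ < 0 := by
    have := hx₁.2
    linarith
  have hall : ∀ x ∈ O, u x₁ ≤ u x := by
    intro x hx
    by_cases hxK : u x ≤ u x₀
    · exact hmin ⟨hx, by simpa using hxK⟩
    · have := hx₁.2
      have h3 := lt_of_not_ge hxK
      linarith
  have hM : IsCompact {x | x ∈ O ∧ u x ≤ -(-u x₁)} := h1 (-u x₁) (by linarith)
  have hMopen : IsOpen {x | x ∈ O ∧ u x ≤ -(-u x₁)} := by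
    rw [Metric.isOpen_iff]
    intro x hx
    have hxO : x ∈ O := hx.1
    have hxm : u x = u x₁ := le_antisymm (by have := hx.2; linarith) (hall x hxO)
    obtain ⟨r₀, hr₀, hball, hr⟩ := h2 x hxO (by rw [hxm]; exact hm0)
    have hr2 : 0 < r₀ / 2 := by linarith
    obtain ⟨hint, havg⟩ := hr (r₀ / 2) hr2 (by linarith)
    have hsub : Metric.ball x (r₀ / 2) ⊆ O :=
      (Metric.ball_subset_ball (by linarith)).trans hball
    have hfin : volume (Metric.ball x (r₀ / 2)) ≠ ⊤ := measure_ball_lt_top.ne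
    have hpos : 0 < volume (Metric.ball x (r₀ / 2)) := Metric.measure_ball_pos volume x hr2
    have hposR : 0 < volume.real (Metric.ball x (r₀ / 2)) := by
      rw [Measure.real]
      exact ENNReal.toReal_pos hpos.ne' hfin
    have hintc : IntegrableOn (fun _ : E3 => u x₁) (Metric.ball x (r₀ / 2)) :=
      integrableOn_const hfin
    have hintd : IntegrableOn (fun y => u y - u x₁) (Metric.ball x (r₀ / 2)) := hint.sub hintc
    have hnn : 0 ≤ᵐ[volume.restrict (Metric.ball x (r₀ / 2))] fun y => u y - u x₁ := by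
      filter_upwards [ae_restrict_mem measurableSet_ball] with y hy
      have := hall y (hsub hy)
      simp only [Pi.zero_apply]
      linarith
    have hI : ∫ y in Metric.ball x (r₀ / 2), (u y - u x₁) = 0 := by
      apply le_antisymm _ (integral_nonneg_of_ae hnn)
      rw [integral_sub hint hintc, setIntegral_const]
      rw [setAverage_eq, hxm, smul_eq_mul] at havg
      rw [smul_eq_mul]
      have h5 : ∫ y in Metric.ball x (r₀ / 2), u y
          = volume.real (Metric.ball x (r₀ / 2)) *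
            ((volume.real (Metric.ball x (r₀ / 2)))⁻¹ * ∫ y in Metric.ball x (r₀ / 2), u y) := by
        rw [← mul_assoc, mul_inv_cancel₀ hposR.ne', one_mul]
      have h6 := mul_le_mul_of_nonneg_left havg hposR.le
      linarith
    have hae : (fun y => u y - u x₁) =ᵐ[volume.restrict (Metric.ball x (r₀ / 2))] 0 :=
      (integral_eq_zero_iff_of_nonneg_ae hnn hintd).1 hI
    have heq : EqOn (fun y => u y - u x₁) (0 : E3 → ℝ) (Metric.ball x (r₀ / 2)) :=
      MeasureTheory.Measure.eqOn_open_of_ae_eq hae Metric.isOpen_ball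
        ((hu.mono hsub).sub continuousOn_const) continuousOn_const
    refine ⟨r₀ / 2, hr2, ?_⟩
    intro y hy
    refine ⟨hsub hy, ?_⟩
    have h7 := heq hy
    simp only [Pi.zero_apply] at h7
    linarith
  have hclopen : IsClopen {x | x ∈ O ∧ u x ≤ -(-u x₁)} := ⟨hM.isClosed, hMopen⟩
  rcases isClopen_iff.1 hclopen with he | hun
  · have : x₁ ∈ ({x | x ∈ O ∧ u x ≤ -(-u x₁)} : Set E3) := ⟨hx₁.1, by simp⟩
    rw [he] at this
    exact this.elim
  · haveI : NoncompactSpace E3 := NormedSpace.noncompactSpace ℝ E3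
    rw [hun] at hM
    exact noncompact_univ E3 hM

end Pool.Agent.H50.TM
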