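import Pool.Agent.H50.TM.Geo

/-!
# Module GeoM: measure theory of `rf`, `mk` and translations

* `mp_rf`: `rf` is (the underlying map of) a linear isometry equivalence of `E3` onto itself (`LinearIsometryEquiv.measurePreserving`); e.g. build the
  isometry from `LinearMap` `x ↦ x - 2 x₀ e0` with `norm_rf`, inverse itself. `integral_rf`: `MeasurePreserving.integral_comp` with the measurable embedding.
* `mp_mk`: `EuclideanSpace.volume_preserving_measurableEquiv` (now `EuclideanSpace.volume_preserving_symm_measurableEquiv_toLp` or similar) for `Fin 3`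
  and `Fin 2`, and `volume_preserving_piFinSuccAbove (fun _ => ℝ) 0` (`Fin 3 → ℝ ≃ ℝ × (Fin 2 → ℝ)`). See `N1_split` in `H23/TF/N1_Arch` for a similar proof.
* `integral_mk`, `lintegral_mk`: `integral_prod`, `lintegral_prod` after `mp_mk` (which is a measurable equivalence, inverse `x ↦ (x 0, pr x)`).
* `G_rf`: change of variables `y ↦ rf y`, `‖x - rf y‖ = ‖rf x - y‖`. `G_shift`: translation invariance.
-/

set_option autoImplicit false

open MeasureTheory Set Filter Topology
open scoped ENNReal NNReal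

namespace Pool.Agent.H50.TM

open Pool.Agent.H23.TF

private noncomputable def geoM_rfL : E3 →ₗ[ℝ] E3 where
  toFun := rf
  map_add' x y := by
    unfold rf
    rw [PiLp.add_apply, mul_add, add_smul]
    abel
  map_smul' c x := by
    unfold rf
    rw [PiLp.smul_apply, RingHom.id_apply, smul_sub, smul_smul, smul_eq_mul]
    congr 2
    ring

private noncomputable def geoM_rfI : E3 ≃ₗᵢ[ℝ] E3 where
  toLinearEquiv := LinearEquiv.ofInvolutive geoM_rfL rf_rf
  norm_map' := norm_rf

private theorem geoM_emb : MeasurableEmbedding rf :=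
  geoM_rfI.toHomeomorph.toMeasurableEquiv.measurableEmbedding

theorem mp_rf : MeasurePreserving rf (volume : Measure E3) volume :=
  geoM_rfI.measurePreserving

theorem integral_rf (f : E3 → ℝ) : ∫ x, f (rf x) = ∫ x, f x :=
  mp_rf.integral_comp geoM_emb f

theorem integrable_rf {f : E3 → ℝ} (hf : Integrable f) : Integrable (fun x => f (rf x)) :=
  (mp_rf.integrable_comp_emb geoM_emb).mpr hf

theorem ae_rf {P : E3 → Prop} (h : ∀ᵐ x, P x) : ∀ᵐ x, P (rf x) :=
  mp_rf.quasiMeasurePreserving.ae h

theorem Ld_rf {f : E3 → ℝ} (hf : Ld f) : Ld (fun x => f (rf x)) :=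
  ⟨integrable_rf hf.i1, integrable_rf (f := fun x => |f x| ^ (5 / 3 : ℝ)) hf.i2⟩

theorem G_rf (f : E3 → ℝ) (x : E3) : G (fun y => f (rf y)) x = G f (rf x) := by
  unfold G
  have h1 := integral_rf (fun y => f y / ‖x - rf y‖)
  simp only [rf_rf] at h1
  rw [h1]
  refine integral_congr_ae (Filter.Eventually.of_forall fun y => ?_)
  simp only
  rw [norm_rf_sub']

theorem Ld_shift {f : E3 → ℝ} (hf : Ld f) (a : E3) : Ld (fun x => f (x - a)) :=
  ⟨hf.i1.comp_sub_right a, hf.i2.comp_sub_right a⟩

theorem G_shift (f : E3 → ℝ) (a x : E3) : G (fun y => f (y - a)) x = G f (x - a) := by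
  unfold G
  have h1 := integral_sub_right_eq_self (μ := (volume : Measure E3))
    (fun y => f y / ‖x - a - y‖) a
  rw [← h1]
  refine integral_congr_ae (Filter.Eventually.of_forall fun y => ?_)
  simp only
  congr 2
  abel

private noncomputable def geoM_mkE : ℝ × P2 ≃ᵐ E3 where
  toFun q := mk q.1 q.2
  invFun x := (x 0, pr x)
  left_inv q := by
    show ((mk q.1 q.2) 0, pr (mk q.1 q.2)) = q
    rw [mk_zero, pr_mk]
  right_inv x := mk_pr x
  measurable_toFun := continuous_mk.measurable
  measurable_invFun := (continuous_zero.prodMk continuous_pr).measurable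

theorem mp_mk : MeasurePreserving (fun q : ℝ × P2 => mk q.1 q.2) ((volume : Measure ℝ).prod (volume : Measure P2)) (volume : Measure E3) := by
  have h1 : MeasurePreserving (Prod.map (id : ℝ → ℝ) (WithLp.ofLp : P2 → (Fin 2 → ℝ)))
      ((volume : Measure ℝ).prod (volume : Measure P2))
      ((volume : Measure ℝ).prod (volume : Measure (Fin 2 → ℝ))) :=
    (MeasurePreserving.id volume).prod (PiLp.volume_preserving_ofLp (Fin 2))
  have h2 := (volume_preserving_piFinSuccAbove (fun _ : Fin 3 => ℝ) 0).symm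
  have h3 := PiLp.volume_preserving_toLp (Fin 3)
  have h4 := h3.comp (h2.comp h1)
  have h5 : (fun q : ℝ × P2 => mk q.1 q.2) = (WithLp.toLp 2 ∘
      ((MeasurableEquiv.piFinSuccAbove (fun _ : Fin 3 => ℝ) 0).symm ∘
        Prod.map (id : ℝ → ℝ) (WithLp.ofLp : P2 → (Fin 2 → ℝ)))) := by
    funext q
    ext i
    fin_cases i
    · exact mk_zero _ _
    · exact mk_one _ _
    · exact mk_two _ _
  rw [h5]
  exact h4

private theorem geoM_memb : MeasurableEmbedding (fun q : ℝ × P2 => mk q.1 q.2) :=
  geoM_mkE.measurableEmbedding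

theorem integrable_mk_iff {f : E3 → ℝ} :
    Integrable (fun q : ℝ × P2 => f (mk q.1 q.2)) ((volume : Measure ℝ).prod (volume : Measure P2)) ↔ Integrable f :=
  mp_mk.integrable_comp_emb geoM_memb

theorem integral_mk {f : E3 → ℝ} (hf : Integrable f) : ∫ x, f x = ∫ t : ℝ, ∫ p : P2, f (mk t p) := by
  rw [← mp_mk.integral_comp geoM_memb f]
  exact integral_prod _ (integrable_mk_iff.mpr hf)

theorem integral_mk' {f : E3 → ℝ} (hf : Integrable f) : ∫ x, f x = ∫ p : P2, ∫ t : ℝ, f (mk t p) := by
  rw [← mp_mk.integral_comp geoM_memb f]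
  exact integral_prod_symm _ (integrable_mk_iff.mpr hf)

theorem lintegral_mk {f : E3 → ℝ≥0∞} (hf : Measurable f) : ∫⁻ x, f x = ∫⁻ t : ℝ, ∫⁻ p : P2, f (mk t p) := by
  rw [← mp_mk.lintegral_comp hf]
  exact lintegral_prod _ (hf.comp continuous_mk.measurable).aemeasurable

theorem plane_null : (volume : Measure E3) {x | x 0 = 0} = 0 := by
  rw [← mp_mk.measure_preimage_emb geoM_memb]
  have h1 : (fun q : ℝ × P2 => mk q.1 q.2) ⁻¹' {x | x 0 = 0} = ({0} : Set ℝ) ×ˢ univ := by
    ext q
    simp only [mem_preimage, mem_setOf_eq, mk_zero, mem_prod, mem_singleton_iff, mem_univ,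
      and_true]
  rw [h1, Measure.prod_prod, Real.volume_singleton, zero_mul]

theorem plane_ae : ∀ᵐ x : E3, x 0 ≠ 0 := by
  rw [ae_iff]
  simp only [ne_eq, not_not]
  exact plane_null

end Pool.Agent.H50.TM
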