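import Pool.Agent.H50.TM.GCont
import Pool.Agent.H50.TM.GeoM

/-!
# Module MeanV: averages of potentials over balls (Newton)

* `ball_avg`: translate to `x = 0`; `newton` (H23/TF/N2_Newton) with `h = 1_{[0,r)}` and `lintegral_radial`:
  `∫_{‖u‖<r} du/‖y-u‖ = ∫_{‖u‖<r} du/max(‖y‖,‖u‖)`; for `‖y‖ ≥ r` it is `(4π/3) r³/‖y‖`; for `‖y‖ = d < r` it is
  `(4π/3) d³/d + 4π ∫_d^r s ds = (4π/3) d² + 2π (r²-d²) = 2π (r² - d²/3)`, divide by `(4π/3) r³`.
* `kap_le`: for `0 < d < r`: `3 r² d - d³ ≤ 2 r³` (`= 2r³ - (r-d)²(2r+d)`). `kap_nonneg`.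
* `G_mv`: Fubini (`|f(y)|/‖u-y‖` is integrable on `ball × E3`: inner `y`-integrals bounded, `Ld.G_bdd` for `|f|`):
  `⨍ G f = ∫ f(y) kap r ‖x-y‖ dy`; the integrand of the difference vanishes for `‖x-y‖ ≥ r`.
* `V_mv`: finite sum of `ball_avg` with `‖x-R i‖ ≥ r`.
-/

set_option autoImplicit false

open MeasureTheory Set Filter Topology
open scoped ENNReal NNReal

namespace Pool.Agent.H50.TM

open Pool.Agent.H23.TF

theorem kap_nonneg {r d : ℝ} (hr : 0 < r) (hd : 0 ≤ d) : 0 ≤ kap r d := by
  unfold kap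
  split_ifs with h
  · have h1 : d ^ 2 ≤ r ^ 2 := pow_le_pow_left₀ hd h.le 2
    have h2 : 0 < r ^ 2 := by positivity
    have h3 : 0 ≤ 3 * r ^ 2 - d ^ 2 := by linarith
    positivity
  · positivity

theorem kap_le {r d : ℝ} (hr : 0 < r) (hd : 0 < d) : kap r d ≤ 1 / d := by
  unfold kap
  split_ifs with h
  · rw [div_le_div_iff₀ (by positivity) hd]
    nlinarith [mul_nonneg (sq_nonneg (r - d)) (by positivity : (0 : ℝ) ≤ 2 * r + d)]
  · exact le_rfl

theorem kap_eq {r d : ℝ} (h : r ≤ d) : kap r d = 1 / d := by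
  unfold kap
  rw [if_neg (not_lt.2 h)]

theorem kap_le_const {r d : ℝ} (hr : 0 < r) (hd : 0 ≤ d) : kap r d ≤ 3 / (2 * r) := by
  unfold kap
  split_ifs with h
  · rw [div_le_div_iff₀ (by positivity) (by positivity)]
    have h1 : 0 ≤ r * d ^ 2 := by positivity
    nlinarith
  · push Not at h
    rw [div_le_div_iff₀ (by linarith) (by positivity)]
    linarith

theorem ball_int (x y : E3) (r : ℝ) : IntegrableOn (fun u => 1 / ‖u - y‖) (Metric.ball x r) := by
  have h1 := integrableOn_ball (p := 1) (by norm_num) (by norm_num) y (r + ‖x - y‖)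
  have h2 : Metric.ball x r ⊆ Metric.ball y (r + ‖x - y‖) := by
    apply Metric.ball_subset_ball'
    rw [dist_eq_norm]
  refine (h1.mono_set h2).congr_fun (fun u _ => ?_) measurableSet_ball
  simp only [Real.rpow_one, one_div]

private theorem mv_vol (x : E3) {r : ℝ} (hr : 0 < r) : (volume : Measure E3).real (Metric.ball x r) = 4 / 3 * Real.pi * r ^ 3 := by
  rw [Measure.real, volume_ball_real x hr.le, ENNReal.toReal_ofReal]
  have := Real.pi_pos
  positivity

/-- the radial integral -/
private theorem mv_rad {r d : ℝ} (hr : 0 < r) (hd : 0 ≤ d) :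
    ∫ t in (0 : ℝ)..r, 4 * Real.pi * t ^ 2 / max d t = 4 / 3 * Real.pi * r ^ 3 * kap r d := by
  have hin : ∀ a b : ℝ, 0 ≤ a → a ≤ b → b ≤ d →
      ∫ t in a..b, 4 * Real.pi * t ^ 2 / max d t = 4 / 3 * Real.pi * (b ^ 3 - a ^ 3) / d := by
    intro a b ha hab hb
    have e1 : ∫ t in a..b, 4 * Real.pi * t ^ 2 / max d t = ∫ t in a..b, 4 * Real.pi / d * t ^ 2 := by
      apply intervalIntegral.integral_congr
      intro t ht
      rw [uIcc_of_le hab] at ht
      simp only
      rw [max_eq_left (ht.2.trans hb)]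
      ring
    rw [e1, intervalIntegral.integral_const_mul, integral_pow]
    norm_num
    ring
  have hout : d < r → ∫ t in d..r, 4 * Real.pi * t ^ 2 / max d t = 2 * Real.pi * (r ^ 2 - d ^ 2) := by
    intro h
    have e1 : ∫ t in d..r, 4 * Real.pi * t ^ 2 / max d t = ∫ t in d..r, 4 * Real.pi * t := by
      apply intervalIntegral.integral_congr
      intro t ht
      rw [uIcc_of_le h.le] at ht
      simp only
      rw [max_eq_right ht.1]
      rcases eq_or_ne t 0 with h0 | h0
      · rw [h0]; simp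
      · field_simp
    rw [e1, intervalIntegral.integral_const_mul, integral_id]
    ring
  rcases le_or_gt r d with h | h
  · rw [hin 0 r le_rfl hr.le h, kap_eq h]
    ring
  · have i1 : IntervalIntegrable (fun t : ℝ => 4 * Real.pi * t ^ 2 / max d t) volume 0 d := by
      have : IntervalIntegrable (fun t : ℝ => 4 * Real.pi / d * t ^ 2) volume 0 d :=
        (by fun_prop : Continuous (fun t : ℝ => 4 * Real.pi / d * t ^ 2)).intervalIntegrable _ _
      refine this.congr fun t ht => ?_
      rw [uIoc_of_le hd] at ht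
      rw [max_eq_left ht.2]
      ring
    have i2 : IntervalIntegrable (fun t : ℝ => 4 * Real.pi * t ^ 2 / max d t) volume d r := by
      have : IntervalIntegrable (fun t : ℝ => 4 * Real.pi * t) volume d r :=
        (by fun_prop : Continuous (fun t : ℝ => 4 * Real.pi * t)).intervalIntegrable _ _
      refine this.congr fun t ht => ?_
      rw [uIoc_of_le h.le] at ht
      have ht0 : 0 < t := lt_of_le_of_lt hd ht.1
      rw [max_eq_right ht.1.le]
      field_simp
    rw [← intervalIntegral.integral_add_adjacent_intervals i1 i2, hin 0 d le_rfl hd le_rfl, hout h]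
    unfold kap
    rw [if_pos h]
    rcases eq_or_lt_of_le hd with h0 | h0
    · rw [← h0]
      field_simp
      ring
    · field_simp
      ring

private theorem mv_lint (y : E3) {r : ℝ} (hr : 0 < r) :
    ∫⁻ u in Metric.ball (0 : E3) r, ‖u - y‖ₑ⁻¹ = ENNReal.ofReal (4 / 3 * Real.pi * r ^ 3 * kap r ‖y‖) := by
  have hm : Measurable ((Iio r).indicator (fun _ => (1 : ℝ≥0∞))) :=
    measurable_const.indicator measurableSet_Iio
  have h1 := newton _ hm y
  have e1 : ∫⁻ x in Metric.ball (0 : E3) r, ‖x - y‖ₑ⁻¹ =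
      ∫⁻ x : E3, (Iio r).indicator (fun _ => (1 : ℝ≥0∞)) ‖x‖ * ‖y - x‖ₑ⁻¹ := by
    rw [← lintegral_indicator Metric.isOpen_ball.measurableSet]
    apply lintegral_congr
    intro x
    by_cases h : ‖x‖ < r
    · rw [indicator_of_mem (by simpa using h), indicator_of_mem (by simpa using h), one_mul,
        enorm_sub_rev]
    · rw [indicator_of_notMem (by simpa using h), indicator_of_notMem (by simpa using h), zero_mul]
  have e2 : ∫⁻ x : E3, (Iio r).indicator (fun _ => (1 : ℝ≥0∞)) ‖x‖ * (max ‖y‖ₑ ‖x‖ₑ)⁻¹ =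
      ∫⁻ x : E3, (fun t : ℝ => (Iio r).indicator (fun _ => (1 : ℝ≥0∞)) t * (max (ENNReal.ofReal ‖y‖) (ENNReal.ofReal t))⁻¹) ‖x‖ := by
    apply lintegral_congr
    intro x
    simp only
    rw [← ofReal_norm, ← ofReal_norm]
  have hm2 : Measurable (fun t : ℝ => (Iio r).indicator (fun _ => (1 : ℝ≥0∞)) t * (max (ENNReal.ofReal ‖y‖) (ENNReal.ofReal t))⁻¹) :=
    hm.mul (measurable_const.max ENNReal.measurable_ofReal).inv
  rw [e1, h1, e2, lintegral_radial _ hm2]
  have e3 : ∀ t ∈ Ioi (0 : ℝ), ENNReal.ofReal (4 * Real.pi * t ^ 2) *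
      ((Iio r).indicator (fun _ => (1 : ℝ≥0∞)) t * (max (ENNReal.ofReal ‖y‖) (ENNReal.ofReal t))⁻¹) =
      (Iio r).indicator (fun t => ENNReal.ofReal (4 * Real.pi * t ^ 2 / max ‖y‖ t)) t := by
    intro t ht
    have ht' : (0 : ℝ) < t := ht
    by_cases h : t ∈ Iio r
    · rw [indicator_of_mem h, indicator_of_mem h, one_mul]
      have h2 : max (ENNReal.ofReal ‖y‖) (ENNReal.ofReal t) = ENNReal.ofReal (max ‖y‖ t) := by
        rcases le_total ‖y‖ t with h3 | h3
        · rw [max_eq_right h3, max_eq_right (ENNReal.ofReal_le_ofReal h3)]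
        · rw [max_eq_left h3, max_eq_left (ENNReal.ofReal_le_ofReal h3)]
      have h4 : 0 < max ‖y‖ t := lt_max_of_lt_right ht'
      rw [h2, ← ENNReal.ofReal_inv_of_pos h4, ← ENNReal.ofReal_mul (by positivity), div_eq_mul_inv]
    · rw [indicator_of_notMem h, indicator_of_notMem h, zero_mul, mul_zero]
  rw [setLIntegral_congr_fun measurableSet_Ioi e3, ← lintegral_indicator measurableSet_Ioi,
    indicator_indicator, lintegral_indicator (measurableSet_Ioi.inter measurableSet_Iio)]
  have e4 : Ioi (0 : ℝ) ∩ Iio r = Ioo 0 r := rfl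
  rw [e4]
  have hint : IntegrableOn (fun t : ℝ => 4 * Real.pi * t ^ 2 / max ‖y‖ t) (Ioo 0 r) := by
    have hb : IntegrableOn (fun _ : ℝ => 4 * Real.pi * r) (Ioo 0 r) := by
      exact integrableOn_const (by rw [Real.volume_Ioo]; exact ENNReal.ofReal_ne_top)
    have hmm : Measurable (fun t : ℝ => 4 * Real.pi * t ^ 2 / max ‖y‖ t) := by fun_prop
    refine hb.mono' hmm.aestronglyMeasurable ?_
    rw [ae_restrict_iff' measurableSet_Ioo]
    refine ae_of_all _ fun t ht => ?_
    have ht0 : 0 < t := ht.1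
    have h4 : 0 < max ‖y‖ t := lt_max_of_lt_right ht0
    have hpi := Real.pi_pos
    rw [Real.norm_eq_abs, abs_of_nonneg (by positivity), div_le_iff₀ h4]
    have h5 : t * t ≤ r * max ‖y‖ t := mul_le_mul ht.2.le (le_max_right _ _) ht0.le hr.le
    nlinarith
  rw [← ofReal_integral_eq_lintegral_ofReal hint
    ((ae_restrict_iff' measurableSet_Ioo).2 (ae_of_all _ fun t ht => by
      have h0 : 0 < t := ht.1
      have h4 : 0 < max ‖y‖ t := lt_max_of_lt_right h0
      have := Real.pi_pos
      show 0 ≤ 4 * Real.pi * t ^ 2 / max ‖y‖ t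
      positivity))]
  rw [← integral_Ioc_eq_integral_Ioo, ← intervalIntegral.integral_of_le hr.le, mv_rad hr (norm_nonneg y)]

private theorem mv_int (x y : E3) {r : ℝ} (hr : 0 < r) :
    ∫ u in Metric.ball x r, 1 / ‖u - y‖ = 4 / 3 * Real.pi * r ^ 3 * kap r ‖x - y‖ := by
  have h0 : ∫ u in Metric.ball x r, 1 / ‖u - y‖ = (∫⁻ u in Metric.ball x r, ‖u - y‖ₑ⁻¹).toReal := by
    rw [integral_eq_lintegral_of_nonneg_ae (ae_of_all _ fun u => by positivity)
      (ball_int x y r).aestronglyMeasurable]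
    congr 1
    apply lintegral_congr_ae
    have hne : ∀ᵐ u : E3, u ≠ y := compl_mem_ae_iff.2 (measure_singleton y)
    filter_upwards [ae_restrict_of_ae hne] with u hu
    have hpos : 0 < ‖u - y‖ := norm_pos_iff.mpr (sub_ne_zero.mpr hu)
    rw [one_div, ENNReal.ofReal_inv_of_pos hpos, ofReal_norm]
  have h1 : ∫⁻ u in Metric.ball x r, ‖u - y‖ₑ⁻¹ = ∫⁻ u in Metric.ball (0 : E3) r, ‖u - (y - x)‖ₑ⁻¹ := by
    rw [← lintegral_indicator Metric.isOpen_ball.measurableSet, ← lintegral_indicator Metric.isOpen_ball.measurableSet]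
    rw [← lintegral_add_right_eq_self (μ := (volume : Measure E3)) _ x]
    apply lintegral_congr
    intro u
    by_cases h : u ∈ Metric.ball (0 : E3) r
    · have h2 : u + x ∈ Metric.ball x r := by
        rw [Metric.mem_ball, dist_eq_norm] at h ⊢
        rwa [add_sub_cancel_right, ← sub_zero u]
      rw [indicator_of_mem h, indicator_of_mem h2, show u + x - y = u - (y - x) by abel]
    · have h2 : u + x ∉ Metric.ball x r := by
        rw [Metric.mem_ball, dist_eq_norm] at h ⊢
        rwa [add_sub_cancel_right, ← sub_zero u]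
      rw [indicator_of_notMem h, indicator_of_notMem h2]
  rw [h0, h1, mv_lint _ hr, ENNReal.toReal_ofReal, norm_sub_rev y x]
  have := kap_nonneg hr (norm_nonneg (y - x))
  have := Real.pi_pos
  positivity

theorem ball_avg (x y : E3) {r : ℝ} (hr : 0 < r) : ⨍ u in Metric.ball x r, 1 / ‖u - y‖ = kap r ‖x - y‖ := by
  rw [setAverage_eq, mv_int x y hr, mv_vol x hr, smul_eq_mul]
  have := Real.pi_pos
  field_simp

theorem G_int_ball {f : E3 → ℝ} (hf : Ld f) (x : E3) (r : ℝ) : IntegrableOn (G f) (Metric.ball x r) :=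
  ((continuous_G hf).continuousOn.integrableOn_compact (isCompact_closedBall x r)).mono_set Metric.ball_subset_closedBall

private theorem mv_meas (r : ℝ) : Measurable (kap r) := by
  unfold kap
  refine Measurable.ite (measurableSet_lt measurable_id measurable_const) ?_ ?_ <;> fun_prop

private theorem mv_kapf {f : E3 → ℝ} (hf : Ld f) (x : E3) {r : ℝ} (hr : 0 < r) :
    Integrable (fun y => kap r ‖x - y‖ * f y) := by
  refine hf.i1.bdd_mul (c := 3 / (2 * r)) ?_ (Eventually.of_forall fun y => ?_)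
  · exact ((mv_meas r).comp (by fun_prop : Measurable fun y : E3 => ‖x - y‖)).aestronglyMeasurable
  · rw [Real.norm_eq_abs, abs_of_nonneg (kap_nonneg hr (norm_nonneg _))]
    exact kap_le_const hr (norm_nonneg _)

theorem kap_int {f : E3 → ℝ} (hf : Ld f) (x : E3) {r : ℝ} (hr : 0 < r) :
    Integrable (fun y => (1 / ‖x - y‖ - kap r ‖x - y‖) * f y) := by
  have h1 := (hf.int_div x).sub (mv_kapf hf x hr)
  refine h1.congr (Eventually.of_forall fun y => ?_)
  simp only [Pi.sub_apply]
  ring

theorem G_mv {f : E3 → ℝ} (hf : Ld f) (x : E3) {r : ℝ} (hr : 0 < r) :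
    G f x = (⨍ u in Metric.ball x r, G f u) + ∫ y, (1 / ‖x - y‖ - kap r ‖x - y‖) * f y := by
  have e1 : ∫ y, (1 / ‖x - y‖ - kap r ‖x - y‖) * f y = G f x - ∫ y, kap r ‖x - y‖ * f y := by
    unfold G
    rw [← integral_sub (hf.int_div x) (mv_kapf hf x hr)]
    congr 1
    funext y
    ring
  have hg1 : Integrable ((Metric.ball x r).indicator (fun _ : E3 => (1 : ℝ))) := by
    rw [integrable_indicator_iff Metric.isOpen_ball.measurableSet]
    exact integrableOn_const (measure_ball_lt_top).ne
  have hg : Ld ((Metric.ball x r).indicator (fun _ : E3 => (1 : ℝ))) := by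
    refine Ld.of_bdd (C := 1) hg1 fun u => ?_
    by_cases h : u ∈ Metric.ball x r
    · rw [indicator_of_mem h, abs_one]
    · rw [indicator_of_notMem h, abs_zero]
      exact zero_le_one
  have e2 := G_symm hg hf
  have e3 : ∫ u, (Metric.ball x r).indicator (fun _ : E3 => (1 : ℝ)) u * G f u = ∫ u in Metric.ball x r, G f u := by
    rw [← integral_indicator Metric.isOpen_ball.measurableSet]
    congr 1
    funext u
    by_cases h : u ∈ Metric.ball x r
    · rw [indicator_of_mem h, indicator_of_mem h, one_mul]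
    · rw [indicator_of_notMem h, indicator_of_notMem h, zero_mul]
  have e4 : ∀ y, G ((Metric.ball x r).indicator (fun _ : E3 => (1 : ℝ))) y = 4 / 3 * Real.pi * r ^ 3 * kap r ‖x - y‖ := by
    intro y
    rw [← mv_int x y hr, ← integral_indicator Metric.isOpen_ball.measurableSet]
    unfold G
    congr 1
    funext u
    by_cases h : u ∈ Metric.ball x r
    · rw [indicator_of_mem h, indicator_of_mem h, norm_sub_rev]
    · rw [indicator_of_notMem h, indicator_of_notMem h, zero_div]
  have e5 : ∫ y, f y * G ((Metric.ball x r).indicator (fun _ : E3 => (1 : ℝ))) y =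
      4 / 3 * Real.pi * r ^ 3 * ∫ y, kap r ‖x - y‖ * f y := by
    rw [← integral_const_mul]
    congr 1
    funext y
    rw [e4]
    ring
  rw [e3, e5] at e2
  have e6 : (⨍ u in Metric.ball x r, G f u) = ∫ y, kap r ‖x - y‖ * f y := by
    rw [setAverage_eq, e2, mv_vol x hr, smul_eq_mul]
    have := Real.pi_pos
    field_simp
  rw [e1, e6]
  ring

theorem V_int_ball {k : ℕ} (R : Fin k → E3) (z : Fin k → ℝ) (x : E3) (r : ℝ) : IntegrableOn (V R z) (Metric.ball x r) := by
  have h1 : V R z = fun u => ∑ j, z j * (1 / ‖u - R j‖) := by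
    funext u
    unfold V
    refine Finset.sum_congr rfl fun j _ => ?_
    ring
  rw [h1]
  exact integrable_finsetSum _ fun j _ => (ball_int x (R j) r).const_mul _

theorem V_mv {k : ℕ} (R : Fin k → E3) (z : Fin k → ℝ) {x : E3} {r : ℝ} (hr : 0 < r) (h : ∀ i, z i ≠ 0 → r ≤ ‖x - R i‖) :
    V R z x = ⨍ u in Metric.ball x r, V R z u := by
  have h1 : V R z = fun u => ∑ j, z j * (1 / ‖u - R j‖) := by
    funext u
    unfold V
    refine Finset.sum_congr rfl fun j _ => ?_
    ring
  rw [h1, setAverage_eq, integral_finsetSum _ fun j _ => (ball_int x (R j) r).const_mul _, Finset.smul_sum]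
  refine Finset.sum_congr rfl fun j _ => ?_
  rw [integral_const_mul]
  by_cases hz : z j = 0
  · rw [hz, zero_mul, zero_mul, smul_zero]
  · have h2 := ball_avg x (R j) hr
    rw [kap_eq (h j hz), setAverage_eq, smul_eq_mul] at h2
    rw [← h2, smul_eq_mul]
    ring

/-- averages over reflected balls -/
theorem avg_rf (f : E3 → ℝ) (x : E3) (r : ℝ) : ⨍ u in Metric.ball x r, f (rf u) = ⨍ u in Metric.ball (rf x) r, f u := by
  have e0 : ∀ u, u ∈ Metric.ball x r ↔ rf u ∈ Metric.ball (rf x) r := by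
    intro u
    rw [Metric.mem_ball, Metric.mem_ball, dist_eq_norm, dist_eq_norm, norm_rf_sub]
  have e1 : ∫ u in Metric.ball x r, f (rf u) = ∫ u in Metric.ball (rf x) r, f u := by
    rw [← integral_indicator Metric.isOpen_ball.measurableSet, ← integral_indicator Metric.isOpen_ball.measurableSet,
      ← integral_rf ((Metric.ball (rf x) r).indicator f)]
    congr 1
    funext u
    by_cases h : u ∈ Metric.ball x r
    · rw [indicator_of_mem h, indicator_of_mem ((e0 u).1 h)]
    · rw [indicator_of_notMem h, indicator_of_notMem fun h' => h ((e0 u).2 h')]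
  have e2 : (volume : Measure E3).real (Metric.ball x r) = (volume : Measure E3).real (Metric.ball (rf x) r) := by
    rw [Measure.real, Measure.real, Measure.addHaar_ball_center volume x, Measure.addHaar_ball_center volume (rf x)]
  rw [setAverage_eq, setAverage_eq, e1, e2]

end Pool.Agent.H50.TM
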