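import Mathlib

/-!
# Module Dini: one real variable

* `dini`: `f` drops immediately to the right of every `t ∈ [0, h)` and is lower semicontinuous from the left at every `t ∈ (0, h]`; then `f h < f 0`.
  Proof: choose `t₁ ∈ (0, h)` with `f t₁ < f 0` (`h1` at `0`). Let `A = {t ∈ [t₁, h] | ∀ s ∈ [t₁, t], f s ≤ f t₁}`, `T = sup A`. For `s < T`: `f s ≤ f t₁`; by `h2` (if `T > t₁`)
  `f T ≤ f s + ε ≤ f t₁ + ε` for all `ε`, so `T ∈ A`. If `T < h`, `h1` at `T` gives `f (T + e) < f T ≤ f t₁` for small `e`, so `T` is not the supremum. So `T = h` and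
  `f h ≤ f t₁ < f 0`.
* `mid_convex`: continuous and midpoint convex on an open half line implies convex. Proof: for `a < b` in `Ioi c` let `g(t) = f((1-t)a+tb) - (1-t) f a - t f b` on `[0,1]`;
  `g` is continuous, `g 0 = g 1 = 0`, midpoint convex. If `M = max g > 0`, let `t₀` be the smallest point where `g = M` (closed set); `0 < t₀ < 1`, for small `h`:
  `M = g t₀ ≤ (g(t₀-h) + g(t₀+h))/2 < M` because `g(t₀-h) < M`; contradiction.
-/

set_option autoImplicit false

open Set Filter Topology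

namespace Pool.Agent.H50.TM

theorem dini {f : ℝ → ℝ} {h : ℝ} (hh : 0 < h)
    (h1 : ∀ t, 0 ≤ t → t < h → ∃ δ : ℝ, 0 < δ ∧ ∀ e, 0 < e → e < δ → f (t + e) < f t)
    (h2 : ∀ t, 0 < t → t ≤ h → ∀ ε : ℝ, 0 < ε → ∃ δ : ℝ, 0 < δ ∧ ∀ s, t - δ < s → s < t → f t ≤ f s + ε) :
    f h < f 0 := by
  obtain ⟨δ0, hδ0, h10⟩ := h1 0 le_rfl hh
  obtain ⟨t1, ht1, ht1h, ht1f⟩ : ∃ t1 : ℝ, 0 < t1 ∧ t1 < h ∧ f t1 < f 0 := by
    refine ⟨min (δ0 / 2) (h / 2), lt_min (by positivity) (by positivity), ?_, ?_⟩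
    · exact lt_of_le_of_lt (min_le_right _ _) (by linarith)
    · have h3 := h10 (min (δ0 / 2) (h / 2)) (lt_min (by positivity) (by positivity))
        (lt_of_le_of_lt (min_le_left _ _) (by linarith))
      rwa [zero_add] at h3
  set A : Set ℝ := {t | t ∈ Icc t1 h ∧ ∀ s ∈ Icc t1 t, f s ≤ f t1} with hA
  have hmem : t1 ∈ A := by
    refine ⟨⟨le_rfl, ht1h.le⟩, fun s hs => ?_⟩
    have : s = t1 := le_antisymm hs.2 hs.1
    rw [this]
  have hbdd : BddAbove A := ⟨h, fun t ht => ht.1.2⟩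
  set T := sSup A with hT
  have hT1 : t1 ≤ T := le_csSup hbdd hmem
  have hTh : T ≤ h := csSup_le ⟨t1, hmem⟩ fun t ht => ht.1.2
  have hlt : ∀ s, t1 ≤ s → s < T → f s ≤ f t1 := by
    intro s hs hsT
    obtain ⟨t, ht, hst⟩ := exists_lt_of_lt_csSup ⟨t1, hmem⟩ hsT
    exact ht.2 s ⟨hs, hst.le⟩
  have hfT : f T ≤ f t1 := by
    rcases hT1.eq_or_lt with h3 | h3
    · rw [← h3]
    · refine le_of_forall_pos_le_add fun ε hε => ?_
      obtain ⟨δ, hδ, h4⟩ := h2 T (ht1.trans h3) hTh ε hε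
      obtain ⟨s, hs1, hs2⟩ := exists_between (max_lt (show T - δ < T by linarith) h3)
      have h5 := h4 s ((le_max_left _ _).trans_lt hs1) hs2
      have h6 := hlt s ((le_max_right _ _).trans hs1.le) hs2
      linarith
  have hTeq : T = h := by
    by_contra hne
    have hlt' : T < h := lt_of_le_of_ne hTh hne
    obtain ⟨δ, hδ, h4⟩ := h1 T (ht1.le.trans hT1) hlt'
    obtain ⟨e, he1, he2⟩ := exists_between (lt_min hδ (show (0 : ℝ) < h - T by linarith))
    have he3 : e < δ := he2.trans_le (min_le_left _ _)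
    have he4 : e < h - T := he2.trans_le (min_le_right _ _)
    have h5 : T + e ∈ A := by
      refine ⟨⟨by linarith, by linarith⟩, fun s hs => ?_⟩
      rcases lt_trichotomy s T with h6 | h6 | h6
      · exact hlt s hs.1 h6
      · rw [h6]; exact hfT
      · have h7 := h4 (s - T) (by linarith) (by linarith [hs.2])
        rw [add_sub_cancel] at h7
        linarith
    have h6 := le_csSup hbdd h5
    linarith
  rw [hTeq] at hfT
  linarith

theorem mid_convex {f : ℝ → ℝ} {c : ℝ} (hc : ContinuousOn f (Ioi c))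
    (hm : ∀ a b : ℝ, c < a → c < b → f ((a + b) / 2) ≤ (f a + f b) / 2) : ConvexOn ℝ (Ioi c) f := by
  refine ⟨convex_Ioi c, fun x hx y hy a b ha hb hab => ?_⟩
  have hx' : c < x := hx
  have hy' : c < y := hy
  set g : ℝ → ℝ := fun t => f ((1 - t) * x + t * y) - (1 - t) * f x - t * f y with hg
  have hin : ∀ t ∈ Icc (0 : ℝ) 1, c < (1 - t) * x + t * y := by
    intro t ht
    have h0 : 0 ≤ t * (y - c) := mul_nonneg ht.1 (by linarith)
    have h1 : 0 ≤ (1 - t) * (x - c) := mul_nonneg (by linarith [ht.2]) (by linarith)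
    rcases lt_or_ge t 1 with h3 | h3
    · have h4 : 0 < (1 - t) * (x - c) := mul_pos (by linarith) (by linarith)
      nlinarith
    · have h4 : 0 < t * (y - c) := mul_pos (by linarith) (by linarith)
      nlinarith
  have hgc : ContinuousOn g (Icc 0 1) := by
    have h1 : ContinuousOn (fun t : ℝ => f ((1 - t) * x + t * y)) (Icc 0 1) :=
      hc.comp (by fun_prop) fun t ht => hin t ht
    exact (h1.sub (by fun_prop)).sub (by fun_prop)
  have hgm : ∀ s ∈ Icc (0 : ℝ) 1, ∀ t ∈ Icc (0 : ℝ) 1, g ((s + t) / 2) ≤ (g s + g t) / 2 := by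
    intro s hs t ht
    have h1 := hm _ _ (hin s hs) (hin t ht)
    have h2 : (1 - (s + t) / 2) * x + (s + t) / 2 * y =
        ((1 - s) * x + s * y + ((1 - t) * x + t * y)) / 2 := by ring
    simp only [hg]
    rw [h2]
    linarith
  have hg0 : g 0 = 0 := by simp [hg]
  have hg1 : g 1 = 0 := by simp [hg]
  have hle : ∀ t ∈ Icc (0 : ℝ) 1, g t ≤ 0 := by
    by_contra hcon
    push Not at hcon
    obtain ⟨t', ht', hgt'⟩ := hcon
    obtain ⟨tm, htm, hmax⟩ := isCompact_Icc.exists_isMaxOn (nonempty_Icc.2 zero_le_one) hgc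
    have hmax' : ∀ t ∈ Icc (0 : ℝ) 1, g t ≤ g tm := fun t ht => hmax ht
    have hM : 0 < g tm := hgt'.trans_le (hmax' t' ht')
    set S : Set ℝ := Icc 0 1 ∩ g ⁻¹' {g tm} with hS
    have hSc : IsCompact S := by
      have h1 : IsClosed S := hgc.preimage_isClosed_of_isClosed isClosed_Icc isClosed_singleton
      exact isCompact_Icc.of_isClosed_subset h1 inter_subset_left
    obtain ⟨t0, ht0, hleast⟩ := hSc.exists_isLeast ⟨tm, htm, rfl⟩
    have ht0g : g t0 = g tm := ht0.2
    have ht00 : 0 < t0 := by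
      rcases ht0.1.1.eq_or_lt with h1 | h1
      · rw [← h1, hg0] at ht0g
        linarith
      · exact h1
    have ht01 : t0 < 1 := by
      rcases ht0.1.2.eq_or_lt with h1 | h1
      · rw [h1, hg1] at ht0g
        linarith
      · exact h1
    set e := min t0 (1 - t0) with he
    have he0 : 0 < e := lt_min ht00 (by linarith)
    have he1 : e ≤ t0 := min_le_left _ _
    have he2 : e ≤ 1 - t0 := min_le_right _ _
    have hm1 : t0 - e ∈ Icc (0 : ℝ) 1 := ⟨by linarith, by linarith⟩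
    have hm2 : t0 + e ∈ Icc (0 : ℝ) 1 := ⟨by linarith, by linarith⟩
    have h3 := hgm _ hm1 _ hm2
    rw [show (t0 - e + (t0 + e)) / 2 = t0 by ring] at h3
    have h4 := hmax' _ hm2
    have h5 : g (t0 - e) < g tm := by
      rcases (hmax' _ hm1).eq_or_lt with h6 | h6
      · exfalso
        have h7 : t0 ≤ t0 - e := hleast ⟨hm1, h6⟩
        linarith
      · exact h6
    linarith
  have h1 := hle b ⟨hb, by linarith⟩
  simp only [hg] at h1
  have e1 : (1 - b) = a := by linarith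
  rw [e1] at h1
  simp only [smul_eq_mul]
  linarith

end Pool.Agent.H50.TM
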