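import Pool.Agent.H50.TM.RegB

/-!
# Module DenB: the concrete measures `nu R z`, `dens f`

* `integral_nu`: `integral_finset_sum_measure`, `integral_smul_measure`, `integral_dirac` (every function is integrable for a Dirac mass).
* `integral_dens`: `integral_withDensity_eq_integral_toReal_smul` (measurable `ENNReal.ofReal ∘ f`, finite), `(ofReal (f x)).toReal = f x`.
* `reg_nu`: `d = min_i |(R i) 0|` over the `i` with `0 < z i` (or `1`): the restriction to the open slab is `0`.
* `reg_dens`: on the slab the density is `≤ C`.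
* sides: weights/densities vanish there (`withDensity_apply`, `setLIntegral` of a function vanishing on the set).
* `fld_nuL`, `fld_fold`: `integral_nu` and `norm_plane`: `fld (nu (fold R) z) = fld (nu R (zL R z)) + fld (nu R (zR R z))` if no nucleus is on the plane.
* `fld_foldf`: `fld (dens (foldf ρ)) = fld (dens (lp ρ)) + fld (dens (rp ρ))`: `integral_dens`, `integral_rf` (change of variables in the second part).
* `fld_rf`: `fld (dens (σ ∘ rf)) = fld (dens σ)`.
-/

set_option autoImplicit false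

open MeasureTheory Set Filter Topology
open scoped ENNReal NNReal

namespace Pool.Agent.H50.TM

open Pool.Agent.H23.TF

variable {k : ℕ} {R : Fin k → E3} {z : Fin k → ℝ} {ρ σ f : E3 → ℝ}

private theorem denB_slabM (d : ℝ) : MeasurableSet {x : E3 | |x 0| < d} :=
  measurableSet_lt (continuous_abs.comp continuous_zero).measurable measurable_const

private theorem denB_leftM : MeasurableSet {x : E3 | x 0 ≤ 0} :=
  measurableSet_le continuous_zero.measurable measurable_const

private theorem denB_int (a : ℝ) (p : E3) (g : E3 → ℝ) :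
    Integrable g (ENNReal.ofReal a • Measure.dirac p) :=
  Integrable.smul_measure (integrable_dirac (by simp)) ENNReal.ofReal_ne_top

private theorem denB_null {S : Set E3} (hS : MeasurableSet S) (h : ∀ i, 0 < z i → R i ∉ S) :
    (nu R z) S = 0 := by
  unfold nu
  rw [Measure.finsetSum_apply]
  refine Finset.sum_eq_zero fun i _ => ?_
  rw [Measure.smul_apply, smul_eq_mul, Measure.dirac_apply' _ hS]
  rcases le_or_gt (z i) 0 with h1 | h1
  · rw [ENNReal.ofReal_of_nonpos h1, zero_mul]
  · rw [Set.indicator_of_notMem (h i h1), mul_zero]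

theorem integral_nu (hz : ∀ i, 0 ≤ z i) (R : Fin k → E3) (g : E3 → ℝ) : ∫ x, g x ∂(nu R z) = ∑ i, z i * g (R i) := by
  unfold nu
  rw [integral_finsetSum_measure (fun i _ => denB_int (z i) (R i) g)]
  refine Finset.sum_congr rfl fun i _ => ?_
  rw [integral_smul_measure, integral_dirac, ENNReal.toReal_ofReal (hz i), smul_eq_mul]

theorem integrable_nu (R : Fin k → E3) (z : Fin k → ℝ) (g : E3 → ℝ) : Integrable g (nu R z) := by
  unfold nu
  exact integrable_finsetSum_measure.mpr fun i _ => denB_int (z i) (R i) g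

theorem integral_dens (hf : Measurable f) (h0 : ∀ x, 0 ≤ f x) (g : E3 → ℝ) : ∫ x, g x ∂(dens f) = ∫ x, f x * g x := by
  unfold dens
  rw [integral_withDensity_eq_integral_toReal_smul hf.ennreal_ofReal
    (Filter.Eventually.of_forall fun x => ENNReal.ofReal_lt_top)]
  refine integral_congr_ae (Filter.Eventually.of_forall fun x => ?_)
  simp only [smul_eq_mul]
  rw [ENNReal.toReal_ofReal (h0 x)]

theorem integrable_dens (hf : Measurable f) (h0 : ∀ x, 0 ≤ f x) {g : E3 → ℝ} :
    Integrable g (dens f) ↔ Integrable (fun x => f x * g x) := by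
  unfold dens
  rw [integrable_withDensity_iff_integrable_smul' hf.ennreal_ofReal
    (Filter.Eventually.of_forall fun x => ENNReal.ofReal_lt_top)]
  have h1 : (fun x => (ENNReal.ofReal (f x)).toReal • g x) = fun x => f x * g x := by
    funext x
    rw [ENNReal.toReal_ofReal (h0 x), smul_eq_mul]
  rw [h1]

theorem reg_nu (h : ∀ i, 0 < z i → (R i) 0 ≠ 0) : Reg (nu R z) := by
  have h1 : ∃ d : ℝ, 0 < d ∧ ∀ i, 0 < z i → d ≤ |(R i) 0| := by
    rcases (Finset.univ.filter fun i => 0 < z i).eq_empty_or_nonempty with he | he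
    · refine ⟨1, one_pos, fun i hi => ?_⟩
      have h2 : i ∈ Finset.univ.filter fun i => 0 < z i := by simpa using hi
      rw [he] at h2
      exact absurd h2 (Finset.notMem_empty i)
    · obtain ⟨j, hj, hm⟩ := Finset.exists_min_image _ (fun i => |(R i) 0|) he
      have hj' : 0 < z j := by simpa using hj
      exact ⟨|(R j) 0|, abs_pos.mpr (h j hj'), fun i hi => hm i (by simpa using hi)⟩
  obtain ⟨d, hd, h2⟩ := h1
  refine ⟨?_, d, hd, 0, ?_⟩
  · unfold nu
    rw [Measure.finsetSum_apply]
    refine ENNReal.sum_lt_top.mpr fun i _ => ?_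
    rw [Measure.smul_apply, smul_eq_mul, measure_univ, mul_one]
    exact ENNReal.ofReal_lt_top
  · rw [Measure.restrict_eq_zero.mpr
      (denB_null (denB_slabM d) fun i hi hm => absurd hm (not_lt.mpr (h2 i hi)))]
    exact Measure.zero_le _

theorem reg_dens (hf : Measurable f) (h0 : ∀ x, 0 ≤ f x) (hi : Integrable f)
    (hb : ∃ d : ℝ, 0 < d ∧ ∃ C : ℝ, ∀ x : E3, |x 0| < d → f x ≤ C) : Reg (dens f) := by
  obtain ⟨d, hd, C, hC⟩ := hb
  refine ⟨?_, d, hd, C.toNNReal, ?_⟩
  · unfold dens
    rw [withDensity_apply _ MeasurableSet.univ, Measure.restrict_univ]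
    exact hi.lintegral_lt_top
  · refine Measure.le_iff.mpr fun s hs => ?_
    unfold dens
    rw [Measure.restrict_apply hs, withDensity_apply _ (hs.inter (denB_slabM d)),
      Measure.smul_apply, smul_eq_mul]
    calc ∫⁻ x in s ∩ {x : E3 | |x 0| < d}, ENNReal.ofReal (f x)
        ≤ ∫⁻ _ in s ∩ {x : E3 | |x 0| < d}, ((C.toNNReal : ℝ≥0) : ℝ≥0∞) := by
          refine setLIntegral_mono' (hs.inter (denB_slabM d)) fun x hx => ?_
          exact ENNReal.ofReal_le_ofReal (hC x hx.2)
      _ = ((C.toNNReal : ℝ≥0) : ℝ≥0∞) * volume (s ∩ {x : E3 | |x 0| < d}) := by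
          rw [setLIntegral_const]
      _ ≤ ((C.toNNReal : ℝ≥0) : ℝ≥0∞) * volume s :=
          mul_le_mul_right (measure_mono inter_subset_left) _

theorem side_nuL (R : Fin k → E3) (z : Fin k → ℝ) : (nu R (zL R z)) Hp = 0 := by
  refine denB_null isOpen_Hp.measurableSet fun i hi hm => ?_
  unfold zL at hi
  split_ifs at hi with h1
  · exact absurd hm (not_lt.mpr h1.le)
  · exact absurd hi (lt_irrefl 0)

theorem side_nuR (R : Fin k → E3) (z : Fin k → ℝ) : (nu R (zR R z)) {x | x 0 ≤ 0} = 0 := by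
  refine denB_null denB_leftM fun i hi hm => ?_
  unfold zR at hi
  split_ifs at hi with h1
  · exact absurd h1 (not_lt.mpr hm)
  · exact absurd hi (lt_irrefl 0)

private theorem denB_fold_neg {i : Fin k} (hoff : (R i) 0 ≠ 0) : (fold R i) 0 < 0 := by
  unfold fold
  split_ifs with h1
  · exact h1
  · rw [rf_zero]
    have h2 : 0 < (R i) 0 := lt_of_le_of_ne (not_lt.mp h1) (Ne.symm hoff)
    linarith

theorem side_fold (hoff : ∀ i, (R i) 0 ≠ 0) (z : Fin k → ℝ) : (nu (fold R) z) Hp = 0 :=
  denB_null isOpen_Hp.measurableSet fun i _ hm => absurd hm (not_lt.mpr (denB_fold_neg (hoff i)).le)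

private theorem denB_side {S : Set E3} (hS : MeasurableSet S) (h : ∀ x ∈ S, f x = 0) :
    (dens f) S = 0 := by
  unfold dens
  rw [withDensity_apply _ hS]
  rw [setLIntegral_congr_fun hS (g := fun _ => 0) fun x hx => by
    simp only
    rw [h x hx, ENNReal.ofReal_zero]]
  exact lintegral_zero

theorem side_left (h : ∀ x : E3, 0 < x 0 → f x = 0) : (dens f) Hp = 0 :=
  denB_side isOpen_Hp.measurableSet h

theorem side_right (h : ∀ x : E3, x 0 ≤ 0 → f x = 0) : (dens f) {x | x 0 ≤ 0} = 0 :=
  denB_side denB_leftM h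

private theorem denB_lp (ρ : E3 → ℝ) : lp ρ = {x : E3 | x 0 < 0}.indicator ρ := by
  funext x
  unfold lp
  by_cases h : x 0 < 0
  · rw [if_pos h, Set.indicator_of_mem (by exact h)]
  · rw [if_neg h, Set.indicator_of_notMem (by exact h)]

private theorem denB_rp (ρ : E3 → ℝ) : rp ρ = {x : E3 | 0 < x 0}.indicator ρ := by
  funext x
  unfold rp
  by_cases h : 0 < x 0
  · rw [if_pos h, Set.indicator_of_mem (by exact h)]
  · rw [if_neg h, Set.indicator_of_notMem (by exact h)]

private theorem denB_ltM : MeasurableSet {x : E3 | x 0 < 0} :=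
  measurableSet_lt continuous_zero.measurable measurable_const

private theorem denB_gtM : MeasurableSet {x : E3 | 0 < x 0} :=
  measurableSet_lt measurable_const continuous_zero.measurable

theorem measurable_lp (hρ : Measurable ρ) : Measurable (lp ρ) := by
  rw [denB_lp]
  exact hρ.indicator denB_ltM

theorem measurable_rp (hρ : Measurable ρ) : Measurable (rp ρ) := by
  rw [denB_rp]
  exact hρ.indicator denB_gtM

theorem measurable_foldf (hρ : Measurable ρ) : Measurable (foldf ρ) :=
  (measurable_lp hρ).add ((measurable_rp hρ).comp continuous_rf.measurable)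

theorem Ld_lp (hρ : Ld ρ) : Ld (lp ρ) := by
  rw [denB_lp]
  exact hρ.indicator denB_ltM

theorem Ld_rp (hρ : Ld ρ) : Ld (rp ρ) := by
  rw [denB_rp]
  exact hρ.indicator denB_gtM

theorem Ld_foldf (hρ : Ld ρ) : Ld (foldf ρ) := (Ld_lp hρ).add (Ld_rf (Ld_rp hρ))

private theorem denB_ker (p : P2) (x : E3) :
    |(rf x) 0| / ‖mk 0 p - rf x‖ ^ 3 = |x 0| / ‖mk 0 p - x‖ ^ 3 := by
  rw [rf_zero, abs_neg, norm_plane]

theorem fld_fold (hoff : ∀ i, (R i) 0 ≠ 0) (hz : ∀ i, 0 ≤ z i) (p : P2) :
    fld (nu (fold R) z) p = fld (nu R (zL R z)) p + fld (nu R (zR R z)) p := by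
  have hL : ∀ i, 0 ≤ zL R z i := fun i => by
    unfold zL
    split_ifs
    · exact hz i
    · exact le_rfl
  have hR : ∀ i, 0 ≤ zR R z i := fun i => by
    unfold zR
    split_ifs
    · exact hz i
    · exact le_rfl
  unfold fld
  rw [integral_nu hz, integral_nu hL, integral_nu hR, ← Finset.sum_add_distrib]
  refine Finset.sum_congr rfl fun i _ => ?_
  unfold fold zL zR
  rcases lt_or_gt_of_ne (hoff i) with h1 | h1
  · rw [if_pos h1, if_pos h1, if_neg (not_lt.mpr h1.le), zero_mul, add_zero]
  · rw [if_neg (not_lt.mpr h1.le), if_neg (not_lt.mpr h1.le), if_pos h1, denB_ker, zero_mul,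
      zero_add]

theorem fld_foldf (hρ : Measurable ρ) (h0 : ∀ x, 0 ≤ ρ x) (hi : Integrable ρ)
    (hb : ∃ d : ℝ, 0 < d ∧ ∃ C : ℝ, ∀ x : E3, |x 0| < d → ρ x ≤ C) (p : P2) :
    fld (dens (foldf ρ)) p = fld (dens (lp ρ)) p + fld (dens (rp ρ)) p := by
  have hl0 : ∀ x, 0 ≤ lp ρ x := fun x => by
    rw [denB_lp]
    exact Set.indicator_nonneg (fun x _ => h0 x) x
  have hr0 : ∀ x, 0 ≤ rp ρ x := fun x => by
    rw [denB_rp]
    exact Set.indicator_nonneg (fun x _ => h0 x) x
  have hll : ∀ x, lp ρ x ≤ ρ x := fun x => by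
    rw [denB_lp]
    exact Set.indicator_le_self' (fun x _ => h0 x) x
  have hrl : ∀ x, rp ρ x ≤ ρ x := fun x => by
    rw [denB_rp]
    exact Set.indicator_le_self' (fun x _ => h0 x) x
  obtain ⟨d, hd, C, hC⟩ := hb
  have hli : Integrable (lp ρ) := by
    rw [denB_lp]
    exact hi.indicator denB_ltM
  have hri : Integrable (rp ρ) := by
    rw [denB_rp]
    exact hi.indicator denB_gtM
  have hlR : Reg (dens (lp ρ)) :=
    reg_dens (measurable_lp hρ) hl0 hli ⟨d, hd, C, fun x hx => (hll x).trans (hC x hx)⟩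
  have hrR : Reg (dens (rp ρ)) :=
    reg_dens (measurable_rp hρ) hr0 hri ⟨d, hd, C, fun x hx => (hrl x).trans (hC x hx)⟩
  have hls : (dens (lp ρ)) Hp = 0 := side_left fun x hx => by
    unfold lp
    rw [if_neg (not_lt.mpr hx.le)]
  have hrs : (dens (rp ρ)) {x | x 0 ≤ 0} = 0 := side_right fun x hx => by
    unfold rp
    rw [if_neg (not_lt.mpr hx)]
  have h1 := (integrable_dens (measurable_lp hρ) hl0).mp (fld_int hlR (Or.inl hls) p)
  have h2 := (integrable_dens (measurable_rp hρ) hr0).mp (fld_int hrR (Or.inr hrs) p)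
  have h3 := integrable_rf h2
  simp only [denB_ker] at h3
  have h4 := integral_rf fun x => rp ρ x * (|x 0| / ‖mk 0 p - x‖ ^ 3)
  simp only [denB_ker] at h4
  unfold fld
  rw [integral_dens (measurable_foldf hρ) (fun x => add_nonneg (hl0 x) (hr0 _)),
    integral_dens (measurable_lp hρ) hl0, integral_dens (measurable_rp hρ) hr0, ← h4,
    ← integral_add h1 h3]
  refine integral_congr_ae (Filter.Eventually.of_forall fun x => ?_)
  simp only [foldf]
  ring

theorem fld_rf (hσ : Measurable σ) (h0 : ∀ x, 0 ≤ σ x) (p : P2) : fld (dens (fun x => σ (rf x))) p = fld (dens σ) p := by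
  unfold fld
  have h1 : Measurable fun x => σ (rf x) := hσ.comp continuous_rf.measurable
  rw [integral_dens h1 (fun x => h0 (rf x)), integral_dens hσ h0]
  have h4 := integral_rf fun x => σ x * (|x 0| / ‖mk 0 p - x‖ ^ 3)
  simp only [denB_ker] at h4
  exact h4

end Pool.Agent.H50.TM
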