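import Pool.Agent.H50.TM.ExD
import Pool.Agent.H50.TM.DenB

/-!
# Module ExE: existence for the molecule and for the half space problem

`exists_gen` with `θ = 0`, `D = univ`, `κ = 0` (`G 0 = 0`), resp. `θ = 1`, `D = Hp`. `exists_cfg`: `foldf ρ ≥ 0`, `Ld_foldf`, `measurable_foldf`.
-/

set_option autoImplicit false

open MeasureTheory Set Filter Topology
open scoped ENNReal NNReal

namespace Pool.Agent.H50.TM

open Pool.Agent.H23.TF

variable {γ μ : ℝ} {k : ℕ} {R : Fin k → E3} {z : Fin k → ℝ}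

theorem exists_full (hγ : 0 < γ) (hμ : 0 < μ) (R : Fin k → E3) (hz : ∀ i, 0 ≤ z i) : ∃ ρ, IsTF γ μ R z ρ := by
  obtain ⟨f, hm, hl, _, he⟩ := exists_gen (θ := 0) (D := univ) (κ := fun _ => 0) hγ hμ R hz Ld.zero measurable_const
    (fun _ => le_rfl) (Or.inl ⟨rfl, rfl⟩)
  refine ⟨f, hm, hl, fun x => ?_⟩
  have h := he x (mem_univ x)
  have h0 : G (fun _ => 0) x = 0 := by simp [G]
  rw [h0] at h
  unfold TT at h
  rw [h]
  congr 1
  ring

theorem exists_half (hγ : 0 < γ) (hμ : 0 < μ) (R : Fin k → E3) (hz : ∀ i, 0 ≤ z i) {κ : E3 → ℝ} (hκ : Ld κ) (hκm : Measurable κ)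
    (hκ0 : ∀ x, 0 ≤ κ x) : ∃ σ, IsHalf γ μ R z κ σ := by
  obtain ⟨f, hm, hl, h0, he⟩ := exists_gen (θ := 1) (D := Hp) hγ hμ R hz hκ hκm hκ0 (Or.inr ⟨rfl, rfl⟩)
  refine ⟨f, hm, hl, fun x hx => h0 x fun hx' => ?_, fun x hx => ?_⟩
  · exact absurd hx' (not_lt.2 hx)
  · have h := he x hx
    unfold TT at h
    rw [h]
    congr 1
    ring

theorem exists_cfg (hγ : 0 < γ) (hμ : 0 < μ) (hz : ∀ i, 0 < z i) (hoff : ∀ i, (R i) 0 ≠ 0) : ∃ ρ σ, Cfg γ μ R z ρ σ := by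
  obtain ⟨ρ, hρ⟩ := exists_full hγ hμ R fun i => (hz i).le
  have h0 : ∀ x, 0 ≤ ρ x := fun x => by
    rw [hρ.eq x]
    exact jj_nonneg hγ _
  have h1 : ∀ x, 0 ≤ foldf ρ x := fun x => by
    unfold foldf lp rp
    refine add_nonneg ?_ ?_
    · split_ifs
      · exact h0 x
      · exact le_rfl
    · split_ifs
      · exact h0 _
      · exact le_rfl
  obtain ⟨σ, hσ⟩ := exists_half hγ hμ (fold R) (fun i => (hz i).le) (Ld_foldf hρ.ld) (measurable_foldf hρ.meas) h1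
  exact ⟨ρ, σ, hγ, hμ, hz, hoff, hρ, hσ⟩

end Pool.Agent.H50.TM
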