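import Pool.Agent.H50.TM.TfB

/-!
# Module Coer: coercivity, uniformly in the positions of the nuclei

`∫ V ρ = ∑ z_i G ρ (R_i)` (`int_V_mul`). For every `δ > 0` and `a`: `G ρ (a) ≤ (1/δ) ∫ ρ + ∫_{‖y-a‖<δ} ρ/‖y-a‖`, and by Young (exponents `5/3`, `5/2`, a factor
`s > 0`) `ρ/‖y-a‖ ≤ s ρ^(5/3) + c(s) ‖y-a‖^(-5/2)`, `∫_{‖y-a‖<δ} ‖y-a‖^(-5/2) dy = C(δ) < ∞` (independent of `a`; `integrableOn_ball` in H23/TF/A1_Rad). So with
`Z' = max Z 1`, `δ = 2 Z'/μ`, `s = 3γ/(10 Z')`: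
`gc ρ ≥ 3/5 γ ∫ρ^(5/3) - Z' [(1/δ) ∫ ρ + s ∫ρ^(5/3) + c(s) C(δ)] + μ ∫ ρ + U = (3γ/10) ∫ρ^(5/3) + (μ/2) ∫ρ - C + U`
(the Coulomb term is `≥ 0`). `c = min (3γ/10) (μ/2)`.
`tf_bdd`: for fixed `N`: `tf = gc - μ N` with `μ = 1` (for `N < 0` the set is empty). `exists_density`: `N/|B| 1_B`, `B` the unit ball. `En_le`, `exists_near`: `csInf`.
-/

set_option autoImplicit false

open MeasureTheory Set Filter Topology
open scoped ENNReal NNReal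

namespace Pool.Agent.H50.TM

open Pool.Agent.H23.TF

variable {γ μ : ℝ}

private theorem coer_young {t r ε s : ℝ} (ht : 0 ≤ t) (hr : 0 ≤ r) (hε : 0 < ε) (hs : 0 < s) :
    t / r ≤ ε * t + s * t ^ (5 / 3 : ℝ) +
      (if r < 1 / ε then ((s ^ (3 / 5 : ℝ))⁻¹) ^ (5 / 2 : ℝ) * (r ^ (5 / 2 : ℝ))⁻¹ else 0) := by
  have h1 : 0 ≤ ε * t := by positivity
  have h2 : 0 ≤ s * t ^ (5 / 3 : ℝ) := by positivity
  split_ifs with h
  · rcases hr.eq_or_lt with h0 | h0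
    · rw [← h0, div_zero]
      positivity
    · have hy := Real.young_inequality_of_nonneg (a := s ^ (3 / 5 : ℝ) * t) (b := (s ^ (3 / 5 : ℝ))⁻¹ * r⁻¹)
        (p := 5 / 3) (q := 5 / 2) (by positivity) (by positivity) (by
          rw [Real.holderConjugate_iff]
          norm_num)
      have e1 : s ^ (3 / 5 : ℝ) * t * ((s ^ (3 / 5 : ℝ))⁻¹ * r⁻¹) = t / r := by
        have : s ^ (3 / 5 : ℝ) ≠ 0 := (Real.rpow_pos_of_pos hs _).ne'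
        field_simp
      have e2 : (s ^ (3 / 5 : ℝ) * t) ^ (5 / 3 : ℝ) = s * t ^ (5 / 3 : ℝ) := by
        rw [Real.mul_rpow (by positivity) ht, ← Real.rpow_mul hs.le]
        norm_num
      have e3 : ((s ^ (3 / 5 : ℝ))⁻¹ * r⁻¹) ^ (5 / 2 : ℝ) =
          ((s ^ (3 / 5 : ℝ))⁻¹) ^ (5 / 2 : ℝ) * (r ^ (5 / 2 : ℝ))⁻¹ := by
        rw [Real.mul_rpow (by positivity) (by positivity), Real.inv_rpow h0.le]
      rw [e1, e2, e3] at hy
      have h3 : 0 ≤ ((s ^ (3 / 5 : ℝ))⁻¹) ^ (5 / 2 : ℝ) * (r ^ (5 / 2 : ℝ))⁻¹ := by positivity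
      have h4 : s * t ^ (5 / 3 : ℝ) / (5 / 3) ≤ s * t ^ (5 / 3 : ℝ) := by
        rw [div_le_iff₀ (by norm_num)]
        linarith
      have h5 : ((s ^ (3 / 5 : ℝ))⁻¹) ^ (5 / 2 : ℝ) * (r ^ (5 / 2 : ℝ))⁻¹ / (5 / 2) ≤
          ((s ^ (3 / 5 : ℝ))⁻¹) ^ (5 / 2 : ℝ) * (r ^ (5 / 2 : ℝ))⁻¹ := by
        rw [div_le_iff₀ (by norm_num)]
        linarith
      linarith
  · have h0 : 0 < 1 / ε := by positivity
    have hr1 : 1 / ε ≤ r := not_lt.1 h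
    have : t / r ≤ ε * t := by
      rw [div_le_iff₀ (h0.trans_le hr1)]
      have h3 : 1 ≤ ε * r := by
        have := mul_le_mul_of_nonneg_left hr1 hε.le
        rwa [mul_one_div_cancel hε.ne'] at this
      nlinarith
    linarith

private theorem coer_G {ε s : ℝ} (hε : 0 < ε) (hs : 0 < s) : ∃ C : ℝ, 0 ≤ C ∧ ∀ ρ, DN ρ → ∀ a,
    G ρ a ≤ ε * (∫ x, ρ x) + s * (∫ x, ρ x ^ (5 / 3 : ℝ)) + C := by
  set c := ((s ^ (3 / 5 : ℝ))⁻¹) ^ (5 / 2 : ℝ) with hc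
  have hc0 : 0 ≤ c := by positivity
  set f : E3 → ℝ := (Metric.ball (0 : E3) (1 / ε)).indicator (fun y : E3 => (‖y‖ ^ (5 / 2 : ℝ))⁻¹) with hf
  have hf0 : ∀ y, 0 ≤ f y := fun y => indicator_nonneg (fun y _ => by positivity) y
  have hfi : Integrable f := by
    rw [hf, integrable_indicator_iff Metric.isOpen_ball.measurableSet]
    have := integrableOn_ball (p := 5 / 2) (by norm_num) (by norm_num) (0 : E3) (1 / ε)
    simpa using this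
  refine ⟨c * ∫ y, f y, mul_nonneg hc0 (integral_nonneg hf0), fun ρ hρ a => ?_⟩
  have hfa : Integrable (fun y => f (y - a)) := hfi.comp_sub_right a
  have hfa2 : ∫ y, f (y - a) = ∫ y, f y := integral_sub_right_eq_self f a
  have hI : Integrable (fun y => ε * ρ y + s * ρ y ^ (5 / 3 : ℝ) + c * f (y - a)) :=
    ((hρ.int.const_mul ε).add (hρ.int53.const_mul s)).add (hfa.const_mul c)
  have h1 : G ρ a ≤ ∫ y, (ε * ρ y + s * ρ y ^ (5 / 3 : ℝ) + c * f (y - a)) := by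
    unfold G
    refine integral_mono (hρ.ld.int_div a) hI fun y => ?_
    have h2 := coer_young (hρ.nonneg y) (norm_nonneg (a - y)) hε hs
    have h3 : (if ‖a - y‖ < 1 / ε then ((s ^ (3 / 5 : ℝ))⁻¹) ^ (5 / 2 : ℝ) * (‖a - y‖ ^ (5 / 2 : ℝ))⁻¹ else 0) =
        c * f (y - a) := by
      rw [hf, norm_sub_rev a y]
      by_cases h : ‖y - a‖ < 1 / ε
      · rw [if_pos h, indicator_of_mem (by simpa [Metric.mem_ball, dist_zero_right] using h)]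
      · rw [if_neg h, indicator_of_notMem (by simpa [Metric.mem_ball, dist_zero_right] using h), mul_zero]
    rw [h3] at h2
    exact h2
  have h4 : ∫ y, (ε * ρ y + s * ρ y ^ (5 / 3 : ℝ) + c * f (y - a)) =
      ε * (∫ x, ρ x) + s * (∫ x, ρ x ^ (5 / 3 : ℝ)) + c * ∫ y, f y := by
    have i12 : Integrable (fun y => ε * ρ y + s * ρ y ^ (5 / 3 : ℝ)) := (hρ.int.const_mul ε).add (hρ.int53.const_mul s)
    rw [integral_add i12 (hfa.const_mul c),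
      integral_add (hρ.int.const_mul ε) (hρ.int53.const_mul s), integral_const_mul, integral_const_mul,
      integral_const_mul, hfa2]
  rw [h4] at h1
  exact h1

theorem coer (hγ : 0 < γ) (hμ : 0 < μ) (Z : ℝ) : ∃ c C : ℝ, 0 < c ∧ 0 ≤ C ∧ ∀ (k : ℕ) (R : Fin k → E3) (z : Fin k → ℝ),
    (∀ i, 0 ≤ z i) → (∑ i, z i) ≤ Z → ∀ ρ, DN ρ →
      c * ((∫ x, ρ x ^ (5 / 3 : ℝ)) + ∫ x, ρ x) - C + U R z ≤ gc γ μ R z ρ := by
  set Z' := max Z 1 with hZ'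
  have hZ1 : 1 ≤ Z' := le_max_right _ _
  have hZ0 : 0 < Z' := by linarith
  obtain ⟨C, hC0, hC⟩ := coer_G (ε := μ / (2 * Z')) (s := 3 * γ / (10 * Z')) (by positivity) (by positivity)
  refine ⟨min (3 * γ / 10) (μ / 2), Z' * C, lt_min (by positivity) (by positivity), by positivity,
    fun k R z hz hzZ ρ hρ => ?_⟩
  have hK : 0 ≤ ∫ x, ρ x ^ (5 / 3 : ℝ) := integral_nonneg fun x => Real.rpow_nonneg (hρ.nonneg x) _
  have hM : 0 ≤ ∫ x, ρ x := integral_nonneg hρ.nonneg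
  have hP : 0 ≤ ∫ x, ρ x * G ρ x := pos hρ.ld
  have hV : ∫ x, V R z x * ρ x ≤ μ / 2 * (∫ x, ρ x) + 3 * γ / 10 * (∫ x, ρ x ^ (5 / 3 : ℝ)) + Z' * C := by
    rw [int_V_mul hρ.ld]
    have hB : 0 ≤ μ / (2 * Z') * (∫ x, ρ x) + 3 * γ / (10 * Z') * (∫ x, ρ x ^ (5 / 3 : ℝ)) + C := by positivity
    calc ∑ j, z j * G ρ (R j) ≤ ∑ j, z j * (μ / (2 * Z') * (∫ x, ρ x) + 3 * γ / (10 * Z') * (∫ x, ρ x ^ (5 / 3 : ℝ)) + C) :=
          Finset.sum_le_sum fun j _ => mul_le_mul_of_nonneg_left (hC ρ hρ _) (hz j)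
      _ = (∑ j, z j) * (μ / (2 * Z') * (∫ x, ρ x) + 3 * γ / (10 * Z') * (∫ x, ρ x ^ (5 / 3 : ℝ)) + C) := by
          rw [Finset.sum_mul]
      _ ≤ Z' * (μ / (2 * Z') * (∫ x, ρ x) + 3 * γ / (10 * Z') * (∫ x, ρ x ^ (5 / 3 : ℝ)) + C) :=
          mul_le_mul_of_nonneg_right (hzZ.trans (le_max_left _ _)) hB
      _ = _ := by
          field_simp
  have h1 : min (3 * γ / 10) (μ / 2) * (∫ x, ρ x ^ (5 / 3 : ℝ)) ≤ 3 * γ / 10 * (∫ x, ρ x ^ (5 / 3 : ℝ)) :=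
    mul_le_mul_of_nonneg_right (min_le_left _ _) hK
  have h2 : min (3 * γ / 10) (μ / 2) * (∫ x, ρ x) ≤ μ / 2 * (∫ x, ρ x) :=
    mul_le_mul_of_nonneg_right (min_le_right _ _) hM
  unfold gc
  rw [tf_eq]
  nlinarith

theorem gc_bdd (hγ : 0 < γ) (hμ : 0 < μ) {k : ℕ} (R : Fin k → E3) {z : Fin k → ℝ} (hz : ∀ i, 0 ≤ z i) :
    BddBelow {e | ∃ ρ, DN ρ ∧ e = gc γ μ R z ρ} := by
  obtain ⟨c, C, hc, hC, h⟩ := coer hγ hμ (∑ i, z i)
  refine ⟨-C + U R z, ?_⟩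
  rintro e ⟨ρ, hρ, rfl⟩
  have h1 := h k R z hz le_rfl ρ hρ
  have hK : 0 ≤ ∫ x, ρ x ^ (5 / 3 : ℝ) := integral_nonneg fun x => Real.rpow_nonneg (hρ.nonneg x) _
  have hM : 0 ≤ ∫ x, ρ x := integral_nonneg hρ.nonneg
  have h2 : 0 ≤ c * ((∫ x, ρ x ^ (5 / 3 : ℝ)) + ∫ x, ρ x) := by positivity
  linarith

theorem tf_bdd (hγ : 0 < γ) {k : ℕ} (R : Fin k → E3) {z : Fin k → ℝ} (hz : ∀ i, 0 ≤ z i) (N : ℝ) :
    BddBelow {e | ∃ ρ, Density N ρ ∧ e = tf γ R z ρ} := by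
  obtain ⟨b, hb⟩ := gc_bdd (μ := 1) hγ one_pos R hz
  refine ⟨b - N, ?_⟩
  rintro e ⟨ρ, hρ, rfl⟩
  have h1 := hb ⟨ρ, Density.dn hρ, rfl⟩
  unfold gc at h1
  rw [hρ.mass] at h1
  linarith

theorem exists_density {N : ℝ} (hN : 0 ≤ N) : ∃ ρ, Density N ρ := by
  set B : Set E3 := Metric.ball (0 : E3) 1 with hB
  have hBm : MeasurableSet B := Metric.isOpen_ball.measurableSet
  have hBf : volume B ≠ ∞ := measure_ball_lt_top.ne
  have hBp : 0 < volume.real B := by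
    rw [measureReal_def]
    exact ENNReal.toReal_pos (Metric.measure_ball_pos _ _ one_pos).ne' hBf
  set c := N / volume.real B with hc
  have hc0 : 0 ≤ c := by positivity
  have hi : ∀ d : ℝ, Integrable (B.indicator (fun _ => d)) := fun d => by
    rw [integrable_indicator_iff hBm]
    exact integrableOn_const hBf
  refine ⟨B.indicator (fun _ => c), fun x => indicator_nonneg (fun _ _ => hc0) x, hi c, ?_, ?_⟩
  · have e : (fun x => B.indicator (fun _ => c) x ^ (5 / 3 : ℝ)) = B.indicator (fun _ => c ^ (5 / 3 : ℝ)) := by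
      funext x
      by_cases h : x ∈ B
      · rw [indicator_of_mem h, indicator_of_mem h]
      · rw [indicator_of_notMem h, indicator_of_notMem h, Real.zero_rpow (by norm_num)]
    rw [e]
    exact hi _
  · rw [integral_indicator hBm, setIntegral_const, smul_eq_mul, hc]
    field_simp

theorem En_le (hγ : 0 < γ) {k : ℕ} (R : Fin k → E3) {z : Fin k → ℝ} (hz : ∀ i, 0 ≤ z i) {N : ℝ} {ρ : E3 → ℝ} (h : Density N ρ) :
    En γ R z N ≤ tf γ R z ρ :=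
  csInf_le (tf_bdd hγ R hz N) ⟨ρ, h, rfl⟩

theorem exists_near (hγ : 0 < γ) {k : ℕ} (R : Fin k → E3) {z : Fin k → ℝ} (hz : ∀ i, 0 ≤ z i) {N : ℝ} (hN : 0 ≤ N) {ε : ℝ} (hε : 0 < ε) :
    ∃ ρ, Density N ρ ∧ tf γ R z ρ < En γ R z N + ε := by
  obtain ⟨ρ0, h0⟩ := exists_density hN
  obtain ⟨e, ⟨ρ, hρ, rfl⟩, h⟩ := exists_lt_of_csInf_lt (s := {e | ∃ ρ, Density N ρ ∧ e = tf γ R z ρ})
    ⟨_, ρ0, h0, rfl⟩ (show sInf {e | ∃ ρ, Density N ρ ∧ e = tf γ R z ρ} < En γ R z N + ε by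
      unfold En
      linarith)
  exact ⟨ρ, hρ, h⟩

end Pool.Agent.H50.TM
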