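import Pool.Agent.H50.TM.MinG
import Pool.Agent.H50.TM.Coer

/-!
# Module TfC: continuity in the positions of the nuclei

* `tf_cont`: `tf R' ρ - tf R ρ = ∑ z_i (G ρ (R i) - G ρ (R' i)) + U R' z - U R z` (`int_V_mul`); `G_equi` (uniform for `∫ρ, ∫ρ^(5/3) ≤ A`), `U` is continuous at an
  injective `R` (finite sum of `z_i z_j/‖R' i - R' j‖`, `i < j`).
* `Om_lsc`: near `R` (injective) `U R' z ≤ U R z + 1`. Let `ρ'` solve the equation for `R'` (`exists_full`): `gc R' ρ' = Om R' ≤ gc R' 0 = U R' z`, so by `coer`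
  `c (∫ρ'^(5/3) + ∫ρ') ≤ C` (with the same `c, C` for all `R'`): `A = C/c`. Then `Om R ≤ gc R ρ' ≤ gc R' ρ' + ε = Om R' + ε`.
* `En_cont`: both directions: for `R''` near `R` choose `ρ''` with `tf R'' ρ'' < En R'' + ε/2`; a fixed density `ρ_N` gives `En R'' ≤ tf R'' ρ_N ≤ tf R ρ_N + 1` near `R`
  (`tf_cont`), so `coer` (with `μ = 1`) bounds `∫ρ''^(5/3) + ∫ρ''` uniformly; then `tf_cont`.
-/

set_option autoImplicit false

open MeasureTheory Set Filter Topology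
open scoped ENNReal NNReal

namespace Pool.Agent.H50.TM

open Pool.Agent.H23.TF

variable {γ μ : ℝ} {k : ℕ} {R : Fin k → E3} {z : Fin k → ℝ}

private lemma tfc_U (hR : Function.Injective R) (z : Fin k → ℝ) {ε : ℝ} (hε : 0 < ε) :
    ∃ δ : ℝ, 0 < δ ∧ ∀ R' : Fin k → E3, (∀ i, ‖R' i - R i‖ < δ) → |U R' z - U R z| < ε := by
  have hc : ContinuousAt (fun R' : Fin k → E3 => U R' z) R := by
    unfold U
    refine tendsto_finsetSum _ fun i _ => tendsto_finsetSum _ fun j hj => ?_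
    rw [Finset.mem_filter] at hj
    have hne : ‖R i - R j‖ ≠ 0 := by
      rw [norm_ne_zero_iff, sub_ne_zero]
      intro h
      exact hj.2.ne (hR h)
    have h1 : ContinuousAt (fun R' : Fin k → E3 => ‖R' i - R' j‖) R := by fun_prop
    exact (continuousAt_const.div h1 hne)
  rw [Metric.continuousAt_iff] at hc
  obtain ⟨δ, hδ, h⟩ := hc ε hε
  refine ⟨δ, hδ, fun R' hR' => ?_⟩
  have h1 : dist R' R < δ := by
    rw [dist_pi_lt_iff hδ]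
    intro i
    rw [dist_eq_norm]
    exact hR' i
  have h2 := h h1
  rwa [Real.dist_eq] at h2

theorem tf_cont (hR : Function.Injective R) (hz : ∀ i, 0 ≤ z i) (γ A : ℝ) {ε : ℝ} (hε : 0 < ε) : ∃ δ : ℝ, 0 < δ ∧
    ∀ R' : Fin k → E3, (∀ i, ‖R' i - R i‖ < δ) → ∀ ρ, DN ρ → (∫ x, ρ x) ≤ A → (∫ x, ρ x ^ (5 / 3 : ℝ)) ≤ A →
      |tf γ R' z ρ - tf γ R z ρ| ≤ ε := by
  set Z : ℝ := ∑ i, z i with hZ
  have hZ0 : 0 ≤ Z := Finset.sum_nonneg fun i _ => hz i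
  have hε1 : 0 < ε / (2 * (Z + 1)) := by positivity
  obtain ⟨δ1, hδ1, h1⟩ := G_equi A hε1
  obtain ⟨δ2, hδ2, h2⟩ := tfc_U hR z (half_pos hε)
  refine ⟨min δ1 δ2, lt_min hδ1 hδ2, fun R' hR' ρ hρ hA1 hA2 => ?_⟩
  have hld := hρ.ld
  have a1 : ∫ y, |ρ y| ≤ A := by
    have : (fun y => |ρ y|) = ρ := funext fun y => abs_of_nonneg (hρ.nonneg y)
    rw [this]
    exact hA1
  have a2 : ∫ y, |ρ y| ^ (5 / 3 : ℝ) ≤ A := by
    have : (fun y => |ρ y| ^ (5 / 3 : ℝ)) = fun y => ρ y ^ (5 / 3 : ℝ) :=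
      funext fun y => by rw [abs_of_nonneg (hρ.nonneg y)]
    rw [this]
    exact hA2
  have hG : ∀ i, |G ρ (R' i) - G ρ (R i)| ≤ ε / (2 * (Z + 1)) := fun i =>
    (h1 ρ hld a1 a2 _ _ (lt_of_lt_of_le (hR' i) (min_le_left _ _))).le
  have hU := h2 R' fun i => lt_of_lt_of_le (hR' i) (min_le_right _ _)
  have e : tf γ R' z ρ - tf γ R z ρ =
      -(∑ j, z j * (G ρ (R' j) - G ρ (R j))) + (U R' z - U R z) := by
    rw [tf_eq, tf_eq, int_V_mul hld, int_V_mul hld]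
    simp only [mul_sub, Finset.sum_sub_distrib]
    ring
  rw [e]
  have hS : |∑ j, z j * (G ρ (R' j) - G ρ (R j))| ≤ ε / 2 := by
    calc |∑ j, z j * (G ρ (R' j) - G ρ (R j))| ≤ ∑ j, |z j * (G ρ (R' j) - G ρ (R j))| :=
          Finset.abs_sum_le_sum_abs _ _
      _ ≤ ∑ j, z j * (ε / (2 * (Z + 1))) := by
          refine Finset.sum_le_sum fun j _ => ?_
          rw [abs_mul, abs_of_nonneg (hz j)]
          exact mul_le_mul_of_nonneg_left (hG j) (hz j)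
      _ = Z * (ε / (2 * (Z + 1))) := by rw [← Finset.sum_mul]
      _ ≤ ε / 2 := by
          rw [mul_div_assoc', div_le_div_iff₀ (by positivity) (by norm_num)]
          nlinarith
  calc |-(∑ j, z j * (G ρ (R' j) - G ρ (R j))) + (U R' z - U R z)|
      ≤ |-(∑ j, z j * (G ρ (R' j) - G ρ (R j)))| + |U R' z - U R z| := abs_add_le _ _
    _ ≤ ε / 2 + ε / 2 := by
        rw [abs_neg]
        exact add_le_add hS hU.le
    _ = ε := by ring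

private lemma tfc_zero : DN (fun _ : E3 => (0 : ℝ)) := by
  refine ⟨fun _ => le_rfl, integrable_zero _ _ _, ?_⟩
  have : (fun _ : E3 => (0:ℝ) ^ (5 / 3 : ℝ)) = fun _ => 0 := by
    funext x
    rw [Real.zero_rpow (by norm_num)]
  rw [this]
  exact integrable_zero _ _ _

private lemma tfc_gc_zero (γ μ : ℝ) (R : Fin k → E3) (z : Fin k → ℝ) :
    gc γ μ R z (fun _ => 0) = U R z := by
  unfold gc tf
  have : (0:ℝ) ^ (5 / 3 : ℝ) = 0 := Real.zero_rpow (by norm_num)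
  simp [this]

private lemma tfc_bd {ρ : E3 → ℝ} (hρ : DN ρ) {B : ℝ}
    (h : (∫ x, ρ x ^ (5 / 3 : ℝ)) + ∫ x, ρ x ≤ B) :
    (∫ x, ρ x) ≤ B ∧ (∫ x, ρ x ^ (5 / 3 : ℝ)) ≤ B := by
  have h1 : 0 ≤ ∫ x, ρ x := integral_nonneg hρ.nonneg
  have h2 : 0 ≤ ∫ x, ρ x ^ (5 / 3 : ℝ) :=
    integral_nonneg fun x => Real.rpow_nonneg (hρ.nonneg x) _
  exact ⟨by linarith, by linarith⟩

theorem Om_lsc (hγ : 0 < γ) (hμ : 0 < μ) (hR : Function.Injective R) (hz : ∀ i, 0 ≤ z i)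
    (hex : ∀ R' : Fin k → E3, ∃ ρ, IsTF γ μ R' z ρ) {ε : ℝ} (hε : 0 < ε) : ∃ δ : ℝ, 0 < δ ∧
    ∀ R' : Fin k → E3, (∀ i, ‖R' i - R i‖ < δ) → Om γ μ R z ≤ Om γ μ R' z + ε := by
  obtain ⟨c, C, hc, hC, hco⟩ := coer hγ hμ (∑ i, z i)
  obtain ⟨δ, hδ, h⟩ := tf_cont hR hz γ (C / c) hε
  refine ⟨δ, hδ, fun R' hR' => ?_⟩
  obtain ⟨ρ', hρ'⟩ := hex R'
  obtain ⟨ρ0, hρ0⟩ := hex R
  have hdn := hρ'.dn hγ
  have h1 := hco k R' z hz le_rfl ρ' hdn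
  have h2 : gc γ μ R' z ρ' ≤ U R' z := by
    rw [← tfc_gc_zero γ μ R' z]
    exact gc_min hγ hρ' tfc_zero
  have h3 : (∫ x, ρ' x ^ (5 / 3 : ℝ)) + ∫ x, ρ' x ≤ C / c := by
    rw [le_div_iff₀ hc]
    linarith
  obtain ⟨b1, b2⟩ := tfc_bd hdn h3
  have h4 := h R' hR' ρ' hdn b1 b2
  rw [abs_le] at h4
  have h5 := Om_le hγ hρ0 hdn
  rw [Om_eq hγ hρ']
  unfold gc at h5 ⊢
  linarith [h4.1]

theorem En_cont (hγ : 0 < γ) (hR : Function.Injective R) (hz : ∀ i, 0 ≤ z i) {N : ℝ} (hN : 0 ≤ N) {ε : ℝ} (hε : 0 < ε) : ∃ δ : ℝ, 0 < δ ∧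
    ∀ R' : Fin k → E3, (∀ i, ‖R' i - R i‖ < δ) → |En γ R' z N - En γ R z N| ≤ ε := by
  obtain ⟨ρN, hρN⟩ := exists_density hN
  obtain ⟨c, C, hc, hC, hco⟩ := coer hγ one_pos (∑ i, z i)
  obtain ⟨δ0, hδ0, h0⟩ := tf_cont hR hz γ (max (∫ x, ρN x) (∫ x, ρN x ^ (5 / 3 : ℝ))) one_pos
  set B : ℝ := (tf γ R z ρN + 1 + ε / 2 + N + C) / c with hB
  obtain ⟨δ1, hδ1, h1⟩ := tf_cont hR hz γ B (half_pos hε)
  -- near minimisers are bounded
  have key : ∀ R'' : Fin k → E3, (∀ i, ‖R'' i - R i‖ < δ0) → ∀ ρ, Density N ρ →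
      tf γ R'' z ρ < En γ R'' z N + ε / 2 → (∫ x, ρ x) ≤ B ∧ (∫ x, ρ x ^ (5 / 3 : ℝ)) ≤ B := by
    intro R'' hR'' ρ hρ hlt
    have a1 := En_le hγ R'' hz hρN
    have a2 := h0 R'' hR'' ρN (Density.dn hρN) (le_max_left _ _) (le_max_right _ _)
    rw [abs_le] at a2
    have a3 := hco k R'' z hz le_rfl ρ (Density.dn hρ)
    have a4 := U_nonneg R'' hz
    unfold gc at a3
    rw [hρ.mass] at a3
    refine tfc_bd (Density.dn hρ) ?_
    rw [hB, le_div_iff₀ hc, hρ.mass]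
    nlinarith [a2.2]
  refine ⟨min δ0 δ1, lt_min hδ0 hδ1, fun R' hR' => ?_⟩
  have hR0 : ∀ i, ‖R' i - R i‖ < δ0 := fun i => lt_of_lt_of_le (hR' i) (min_le_left _ _)
  have hR1 : ∀ i, ‖R' i - R i‖ < δ1 := fun i => lt_of_lt_of_le (hR' i) (min_le_right _ _)
  rw [abs_le]
  constructor
  · obtain ⟨ρ, hρ, hlt⟩ := exists_near hγ R' hz hN (half_pos hε)
    obtain ⟨b1, b2⟩ := key R' hR0 ρ hρ hlt
    have a1 := h1 R' hR1 ρ (Density.dn hρ) b1 b2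
    rw [abs_le] at a1
    have a2 := En_le hγ R hz hρ
    linarith [a1.1]
  · obtain ⟨ρ, hρ, hlt⟩ := exists_near hγ R hz hN (half_pos hε)
    obtain ⟨b1, b2⟩ := key R (fun i => by rw [sub_self, norm_zero]; exact hδ0) ρ hρ hlt
    have a1 := h1 R' hR1 ρ (Density.dn hρ) b1 b2
    rw [abs_le] at a1
    have a2 := En_le hγ R' hz hρ
    linarith [a1.2]

end Pool.Agent.H50.TM
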