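import Pool.Agent.H50.TM.TrE
import Pool.Agent.H50.TM.TfC
import Pool.Agent.H50.TM.ExE
import Pool.Agent.H50.TM.Dini

/-!
# Module Step: translating the right nuclei strictly decreases `Om`

`dini` with `f t = Om (shR R t) z` on `[0, h]`. `shR R 0 = R`; `shR (shR R t) e = shR R (t + e)` for `t, e ≥ 0` (a nucleus is on the right of the plane before iff after the
translation); `shR R t` is injective (`t ≥ 0`: left and right nuclei stay separated), off the plane, has left and right nuclei. `h1`: `local_drop` for `shR R t`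
(`exists_cfg`, `exists_full`). `h2`: `Om_lsc` at `shR R t`: `‖shR R s i - shR R t i‖ ≤ |s - t|` (restrict to `s ≥ 0`, i.e. `δ ≤ t`).
-/

set_option autoImplicit false

open MeasureTheory Set Filter Topology
open scoped ENNReal NNReal

namespace Pool.Agent.H50.TM

open Pool.Agent.H23.TF

variable {γ μ : ℝ} {k : ℕ} {R : Fin k → E3} {z : Fin k → ℝ}

private lemma step_pos {t : ℝ} (ht : 0 ≤ t) (i : Fin k) : 0 < (shR R t i) 0 ↔ 0 < (R i) 0 := by
  unfold shR
  split_ifs with h
  · rw [add_e0_zero]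
    exact ⟨fun _ => h, fun _ => by linarith⟩
  · exact Iff.rfl

private lemma step_neg {t : ℝ} (ht : 0 ≤ t) (i : Fin k) : (shR R t i) 0 < 0 ↔ (R i) 0 < 0 := by
  unfold shR
  split_ifs with h
  · rw [add_e0_zero]
    exact ⟨fun h' => by linarith, fun h' => by linarith⟩
  · exact Iff.rfl

private lemma step_off (hoff : ∀ i, (R i) 0 ≠ 0) {t : ℝ} (ht : 0 ≤ t) (i : Fin k) :
    (shR R t i) 0 ≠ 0 := by
  rcases lt_or_gt_of_ne (hoff i) with h | h
  · exact ne_of_lt ((step_neg ht i).2 h)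
  · exact ne_of_gt ((step_pos ht i).2 h)

private lemma step_inj (hR : Function.Injective R) {t : ℝ} (ht : 0 ≤ t) :
    Function.Injective (shR R t) := by
  intro i j hij
  have h1 : 0 < (R i) 0 ↔ 0 < (R j) 0 := by
    rw [← step_pos ht i, ← step_pos ht j, hij]
  apply hR
  unfold shR at hij
  by_cases hi : 0 < (R i) 0
  · rw [if_pos hi, if_pos (h1.1 hi)] at hij
    exact add_right_cancel hij
  · rw [if_neg hi, if_neg fun h => hi (h1.2 h)] at hij
    exact hij

private lemma step_zero : shR R 0 = R := by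
  funext i
  unfold shR
  split_ifs
  · rw [zero_smul, add_zero]
  · rfl

private lemma step_norm (s t : ℝ) (i : Fin k) : ‖shR R s i - shR R t i‖ ≤ |s - t| := by
  unfold shR
  split_ifs
  · have h1 : R i + s • e0 - (R i + t • e0) = (s - t) • e0 := by
      rw [sub_smul]; abel
    rw [h1, norm_smul, norm_e0, mul_one, Real.norm_eq_abs]
  · rw [sub_self, norm_zero]
    exact abs_nonneg _

theorem shR_shR (hoff : ∀ i, (R i) 0 ≠ 0) {t e : ℝ} (ht : 0 ≤ t) : shR (shR R t) e = shR R (t + e) := by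
  funext i
  show (if 0 < (shR R t i) 0 then shR R t i + e • e0 else shR R t i) = shR R (t + e) i
  by_cases hi : 0 < (R i) 0
  · rw [if_pos ((step_pos ht i).2 hi)]
    unfold shR
    rw [if_pos hi, if_pos hi, add_smul, add_assoc]
  · rw [if_neg fun h => hi ((step_pos ht i).1 h)]
    unfold shR
    rw [if_neg hi, if_neg hi]

theorem om_step (hγ : 0 < γ) (hμ : 0 < μ) (hR : Function.Injective R) (hz : ∀ i, 0 < z i) (hoff : ∀ i, (R i) 0 ≠ 0)
    (hl : ∃ i, (R i) 0 < 0) (hr : ∃ i, 0 < (R i) 0) {h : ℝ} (hh : 0 < h) :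
    Om γ μ (shR R h) z < Om γ μ R z := by
  have hex : ∀ R' : Fin k → E3, ∃ ρ, IsTF γ μ R' z ρ := fun R' =>
    exists_full hγ hμ R' fun i => (hz i).le
  have key := dini (f := fun t => Om γ μ (shR R t) z) hh ?_ ?_
  · have key' : Om γ μ (shR R h) z < Om γ μ (shR R 0) z := key
    rwa [step_zero] at key'
  · intro t ht _
    obtain ⟨ρ, σ, hc⟩ := exists_cfg hγ hμ hz (step_off hoff ht)
    obtain ⟨il, hil⟩ := hl
    obtain ⟨ir, hir⟩ := hr
    obtain ⟨e₀, he₀, hd⟩ := local_drop hc ⟨il, (step_neg ht il).2 hil⟩ ⟨ir, (step_pos ht ir).2 hir⟩ hex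
    refine ⟨e₀, he₀, fun e he1 he2 => ?_⟩
    have h1 := hd e he1 he2
    rwa [shR_shR hoff ht] at h1
  · intro t ht _ ε hε
    obtain ⟨δ, hδ, hl⟩ := Om_lsc hγ hμ (step_inj hR ht.le) (fun i => (hz i).le) hex hε
    refine ⟨δ, hδ, fun s hs1 hs2 => hl _ fun i => ?_⟩
    refine lt_of_le_of_lt (step_norm s t i) ?_
    rw [abs_sub_comm, abs_of_pos (by linarith)]
    linarith

end Pool.Agent.H50.TM
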