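import Pool.Agent.H50.TM.ConvN
import Pool.Agent.H50.TM.Step

/-!
# Module Dual: `E(N) = Om(μ) - μ N`, and the translation step for `E`

* `sub_grad`: a convex `f` on `[0, ∞)`, `0 < N < Z`, `f Z < f N`: with `s = sup {(f N - f a)/(N - a) | 0 ≤ a < N}` (bounded above by `(f y - f N)/(y - N)` for every
  `y > N`: slopes of a convex function increase), `f y ≥ f N + s (y - N)` for all `y ≥ 0`, and `s ≤ (f Z - f N)/(Z - N) < 0`; `μ = -s`.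
* `En_ge`: for `μ > 0` and `ρ` of mass `N`: `tf ρ = gc ρ - μ N ≥ Om - μ N` (`gc_bdd`, `csInf_le`).
* `dual`: `μ` from `sub_grad` for `f = En` (`convexOn_En`, `En_Z_lt`): every `ρ` with `DN ρ` has mass `M = ∫ρ ≥ 0`, `gc ρ = tf ρ + μ M ≥ En M + μ M ≥ En N + μ N`, so
  `Om ≥ En N + μ N`; with `En_ge` equality.
* `en_step`: `μ` from `dual` for `shR R h`: `En (shR R h) N = Om μ (shR R h) - μ N < Om μ R - μ N ≤ En R N` (`om_step`, `En_ge`).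
-/

set_option autoImplicit false

open MeasureTheory Set Filter Topology
open scoped ENNReal NNReal

namespace Pool.Agent.H50.TM

open Pool.Agent.H23.TF

variable {γ μ : ℝ} {k : ℕ} {R : Fin k → E3} {z : Fin k → ℝ}

theorem sub_grad {f : ℝ → ℝ} (hf : ConvexOn ℝ (Ici 0) f) {N Z : ℝ} (hN : 0 < N) (hNZ : N < Z) (h : f Z < f N) :
    ∃ μ : ℝ, 0 < μ ∧ ∀ y, 0 ≤ y → f N - μ * (y - N) ≤ f y := by
  set S : Set ℝ := {t | ∃ a, 0 ≤ a ∧ a < N ∧ t = (f N - f a) / (N - a)} with hS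
  have hne : S.Nonempty := ⟨_, 0, le_rfl, hN, rfl⟩
  have hub : ∀ y, N < y → ∀ t ∈ S, t ≤ (f y - f N) / (y - N) := by
    rintro y hy t ⟨a, ha0, haN, rfl⟩
    exact hf.slope_mono_adjacent (mem_Ici.2 ha0) (mem_Ici.2 (hN.le.trans hy.le)) haN hy
  have hb : BddAbove S := ⟨_, hub Z hNZ⟩
  have hZ : sSup S ≤ (f Z - f N) / (Z - N) := csSup_le hne (hub Z hNZ)
  have hneg : (f Z - f N) / (Z - N) < 0 := div_neg_of_neg_of_pos (by linarith) (by linarith)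
  refine ⟨-sSup S, by linarith, fun y hy => ?_⟩
  rcases lt_trichotomy y N with hlt | heq | hgt
  · have h1 : (f N - f y) / (N - y) ≤ sSup S := le_csSup hb ⟨y, hy, hlt, rfl⟩
    rw [div_le_iff₀ (by linarith)] at h1
    linarith
  · rw [heq]; linarith
  · have h1 : sSup S ≤ (f y - f N) / (y - N) := csSup_le hne (hub y hgt)
    rw [le_div_iff₀ (by linarith)] at h1
    linarith

theorem En_ge (hγ : 0 < γ) (hμ : 0 < μ) (R : Fin k → E3) (hz : ∀ i, 0 ≤ z i) {N : ℝ} (hN : 0 ≤ N) :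
    Om γ μ R z - μ * N ≤ En γ R z N := by
  obtain ⟨ρ0, h0⟩ := exists_density hN
  refine le_csInf ⟨_, ρ0, h0, rfl⟩ ?_
  rintro e ⟨ρ, hρ, rfl⟩
  have h1 : Om γ μ R z ≤ gc γ μ R z ρ := csInf_le (gc_bdd hγ hμ R hz) ⟨ρ, Density.dn hρ, rfl⟩
  have h2 : (∫ x, ρ x) = N := hρ.mass
  unfold gc at h1
  rw [h2] at h1
  linarith

theorem dual (hγ : 0 < γ) (R : Fin k → E3) (hz : ∀ i, 0 ≤ z i) {N : ℝ} (hN : 0 < N) (hNZ : N < ∑ i, z i) :
    ∃ μ : ℝ, 0 < μ ∧ En γ R z N = Om γ μ R z - μ * N := by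
  obtain ⟨μ, hμ, h⟩ := sub_grad (convexOn_En hγ R hz) hN hNZ (En_Z_lt hγ R hz hN.le hNZ)
  refine ⟨μ, hμ, le_antisymm ?_ (En_ge hγ hμ R hz hN.le)⟩
  have h1 : En γ R z N + μ * N ≤ Om γ μ R z := by
    obtain ⟨ρ0, h0⟩ := exists_density hN.le
    refine le_csInf ⟨_, ρ0, Density.dn h0, rfl⟩ ?_
    rintro e ⟨ρ, hρ, rfl⟩
    have hM : 0 ≤ ∫ x, ρ x := integral_nonneg hρ.nonneg
    have h2 := h _ hM
    have h3 : En γ R z (∫ x, ρ x) ≤ tf γ R z ρ := En_le hγ R hz hρ.density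
    unfold gc
    have h4 : En γ R z N - μ * ((∫ x, ρ x) - N) ≤ En γ R z (∫ x, ρ x) := h2
    linarith
  linarith

theorem en_step (hγ : 0 < γ) (hR : Function.Injective R) (hz : ∀ i, 0 < z i) (hoff : ∀ i, (R i) 0 ≠ 0)
    (hl : ∃ i, (R i) 0 < 0) (hr : ∃ i, 0 < (R i) 0) {N : ℝ} (hN : 0 < N) (hNZ : N < ∑ i, z i) {h : ℝ} (hh : 0 < h) :
    En γ (shR R h) z N < En γ R z N := by
  obtain ⟨μ, hμ, h1⟩ := dual hγ (shR R h) (fun i => (hz i).le) hN hNZ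
  rw [h1]
  have h2 := om_step hγ hμ hR hz hoff hl hr hh
  have h3 := En_ge hγ hμ R (fun i => (hz i).le) hN.le
  linarith

end Pool.Agent.H50.TM
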