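import Pool.Agent.H50.TM.PoisH
import Pool.Agent.H50.TM.GeoM

/-!
# Module PoisB: the Poisson semigroup on the plane

`Lv`, `gt`, `Pk` from `PoisA`, `PoisH`.
* `pois`: `∫⁻ p Pa(p-c) Pb(p-d) = ∫⁻_u ∫⁻_v Lv a u Lv b v gt (u+v) (c-d)` (Tonelli, `heat_conv`), shift `v = T - u` (translation invariance, Tonelli),
  `= ∫⁻_T (Lv_conv) gt T (c-d) = P(a+b)(c-d)`.
* `pois_mk`: the same in terms of `E3`: for `x₀ < 0 < y₀`, `x = mk x₀ c`, `y = mk y₀ d`: `(‖p-c‖²+x₀²)^(3/2) = ‖mk 0 p - x‖³`;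
  `∫⁻ p, |x₀|/‖mk 0 p-x‖³ · |y₀|/‖mk 0 p-y‖³ = 2π (y₀-x₀)/‖x-y‖³`.
-/

set_option autoImplicit false

open MeasureTheory Set Filter Topology
open scoped ENNReal NNReal

namespace Pool.Agent.H50.TM

open Pool.Agent.H23.TF

private theorem poisB_gt_nn {u : ℝ} (hu : 0 < u) (q : P2) : 0 ≤ gt u q := by
  unfold gt
  have := Real.pi_pos
  positivity

private theorem poisB_meas : Measurable fun z : ℝ × P2 => gt z.1 z.2 := by
  unfold gt
  refine Measurable.div ?_ ?_
  · refine Real.measurable_exp.comp (Measurable.neg (Measurable.div ?_ ?_))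
    · exact (measurable_snd.norm).pow_const 2
    · exact measurable_fst.const_mul 4
  · exact measurable_fst.const_mul (4 * Real.pi)

private theorem poisB_g1 (q : P2) : Measurable fun u : ℝ => ENNReal.ofReal (gt u q) := by
  have h : Measurable fun u : ℝ => ((u, q) : ℝ × P2) := measurable_id.prodMk measurable_const
  exact (poisB_meas.comp h).ennreal_ofReal

private theorem poisB_g2 (u : ℝ) (c : P2) : Measurable fun p : P2 => ENNReal.ofReal (gt u (p - c)) := by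
  have h : Measurable fun p : P2 => ((u, p - c) : ℝ × P2) := measurable_const.prodMk (measurable_id.sub_const c)
  exact (poisB_meas.comp h).ennreal_ofReal

private theorem poisB_Lv_zero {a u : ℝ} (hu : ¬ 0 < u) : Lv a u = 0 := by
  unfold Lv
  rw [if_neg hu]

theorem pois {a b : ℝ} (ha : 0 < a) (hb : 0 < b) (c d : P2) :
    ∫⁻ p : P2, ENNReal.ofReal (Pk a (p - c)) * ENNReal.ofReal (Pk b (p - d)) = ENNReal.ofReal (Pk (a + b) (c - d)) := by
  have hLa : Measurable fun u => ENNReal.ofReal (Lv a u) := (measurable_Lv a).ennreal_ofReal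
  have hLb : Measurable fun u => ENNReal.ofReal (Lv b u) := (measurable_Lv b).ennreal_ofReal
  have hg1 : ∀ q : P2, Measurable fun u : ℝ => ENNReal.ofReal (gt u q) := poisB_g1
  have hg2 : ∀ (u : ℝ) (c : P2), Measurable fun p : P2 => ENNReal.ofReal (gt u (p - c)) := poisB_g2
  have h1 : ∀ p : P2, ENNReal.ofReal (Pk a (p - c)) * ENNReal.ofReal (Pk b (p - d)) =
      ∫⁻ u, ∫⁻ v, (ENNReal.ofReal (Lv a u) * ENNReal.ofReal (Lv b v)) *
        (ENNReal.ofReal (gt u (p - c)) * ENNReal.ofReal (gt v (p - d))) := by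
    intro p
    have m1 : Measurable fun u => ENNReal.ofReal (Lv a u) * ENNReal.ofReal (gt u (p - c)) := hLa.mul (hg1 _)
    have m2 : Measurable fun u => ENNReal.ofReal (Lv b u) * ENNReal.ofReal (gt u (p - d)) := hLb.mul (hg1 _)
    rw [← pois_rep ha, ← pois_rep hb, ← lintegral_mul_const _ m1]
    refine lintegral_congr fun u => ?_
    rw [← lintegral_const_mul _ m2]
    refine lintegral_congr fun v => ?_
    ring
  have hm0 : Measurable fun z : (P2 × ℝ) × ℝ => (ENNReal.ofReal (Lv a z.1.2) * ENNReal.ofReal (Lv b z.2)) *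
        (ENNReal.ofReal (gt z.1.2 (z.1.1 - c)) * ENNReal.ofReal (gt z.2 (z.1.1 - d))) := by
    have k1 : Measurable fun z : (P2 × ℝ) × ℝ => z.1.2 := measurable_snd.comp measurable_fst
    have k2 : Measurable fun z : (P2 × ℝ) × ℝ => z.1.1 := measurable_fst.comp measurable_fst
    have k3 : Measurable fun z : (P2 × ℝ) × ℝ => z.2 := measurable_snd
    have k4 : Measurable fun z : (P2 × ℝ) × ℝ => ((z.1.2, z.1.1 - c) : ℝ × P2) := k1.prodMk (k2.sub_const c)
    have k5 : Measurable fun z : (P2 × ℝ) × ℝ => ((z.2, z.1.1 - d) : ℝ × P2) := k3.prodMk (k2.sub_const d)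
    have k6 : Measurable fun z : (P2 × ℝ) × ℝ => ENNReal.ofReal (Lv a z.1.2) := hLa.comp k1
    have k7 : Measurable fun z : (P2 × ℝ) × ℝ => ENNReal.ofReal (Lv b z.2) := hLb.comp k3
    have k8 : Measurable fun z : (P2 × ℝ) × ℝ => ENNReal.ofReal (gt z.1.2 (z.1.1 - c)) := (poisB_meas.comp k4).ennreal_ofReal
    have k9 : Measurable fun z : (P2 × ℝ) × ℝ => ENNReal.ofReal (gt z.2 (z.1.1 - d)) := (poisB_meas.comp k5).ennreal_ofReal
    exact (k6.mul k7).mul (k8.mul k9)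
  have hm1 : Measurable fun z : P2 × ℝ => ∫⁻ v, (ENNReal.ofReal (Lv a z.2) * ENNReal.ofReal (Lv b v)) *
        (ENNReal.ofReal (gt z.2 (z.1 - c)) * ENNReal.ofReal (gt v (z.1 - d))) := hm0.lintegral_prod_right'
  rw [lintegral_congr h1]
  rw [lintegral_lintegral_swap hm1.aemeasurable]
  have h2 : ∀ u, ∫⁻ p : P2, ∫⁻ v, (ENNReal.ofReal (Lv a u) * ENNReal.ofReal (Lv b v)) *
        (ENNReal.ofReal (gt u (p - c)) * ENNReal.ofReal (gt v (p - d))) =
      ∫⁻ v, ENNReal.ofReal (Lv a u) * ENNReal.ofReal (Lv b v) * ENNReal.ofReal (gt (u + v) (c - d)) := by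
    intro u
    have hm2 : Measurable fun z : P2 × ℝ => (ENNReal.ofReal (Lv a u) * ENNReal.ofReal (Lv b z.2)) *
        (ENNReal.ofReal (gt u (z.1 - c)) * ENNReal.ofReal (gt z.2 (z.1 - d))) := by
      have k : Measurable fun z : P2 × ℝ => (((z.1, u), z.2) : (P2 × ℝ) × ℝ) :=
        (measurable_fst.prodMk measurable_const).prodMk measurable_snd
      exact hm0.comp k
    rw [lintegral_lintegral_swap hm2.aemeasurable]
    refine lintegral_congr fun v => ?_
    have m3 : Measurable fun p : P2 => ENNReal.ofReal (gt u (p - c)) * ENNReal.ofReal (gt v (p - d)) :=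
      (hg2 u c).mul (hg2 v d)
    rw [lintegral_const_mul _ m3]
    by_cases hu : 0 < u
    · by_cases hv : 0 < v
      · rw [heat_conv hu hv]
      · simp [poisB_Lv_zero hv]
    · simp [poisB_Lv_zero hu]
  rw [lintegral_congr h2]
  have h3 : ∀ u, ∫⁻ v, ENNReal.ofReal (Lv a u) * ENNReal.ofReal (Lv b v) * ENNReal.ofReal (gt (u + v) (c - d)) =
      ∫⁻ T, ENNReal.ofReal (Lv a u) * ENNReal.ofReal (Lv b (T - u)) * ENNReal.ofReal (gt T (c - d)) := by
    intro u
    rw [← lintegral_sub_right_eq_self (fun v => ENNReal.ofReal (Lv a u) * ENNReal.ofReal (Lv b v) *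
      ENNReal.ofReal (gt (u + v) (c - d))) u]
    refine lintegral_congr fun T => ?_
    rw [add_sub_cancel]
  rw [lintegral_congr h3]
  have hm3 : Measurable fun z : ℝ × ℝ => ENNReal.ofReal (Lv a z.1) * ENNReal.ofReal (Lv b (z.2 - z.1)) *
      ENNReal.ofReal (gt z.2 (c - d)) := by
    have k1 : Measurable fun z : ℝ × ℝ => z.2 - z.1 := measurable_snd.sub measurable_fst
    have k2 : Measurable fun z : ℝ × ℝ => ENNReal.ofReal (Lv a z.1) := hLa.comp measurable_fst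
    have k3 : Measurable fun z : ℝ × ℝ => ENNReal.ofReal (Lv b (z.2 - z.1)) := hLb.comp k1
    have k4 : Measurable fun z : ℝ × ℝ => ENNReal.ofReal (gt z.2 (c - d)) := (hg1 (c - d)).comp measurable_snd
    exact (k2.mul k3).mul k4
  rw [lintegral_lintegral_swap hm3.aemeasurable, ← pois_rep (add_pos ha hb)]
  refine lintegral_congr fun T => ?_
  have hm4 : Measurable fun u => ENNReal.ofReal (Lv a u) * ENNReal.ofReal (Lv b (T - u)) := by
    have k1 : Measurable fun u : ℝ => T - u := measurable_const.sub measurable_id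
    have k2 : Measurable fun u : ℝ => ENNReal.ofReal (Lv b (T - u)) := hLb.comp k1
    exact hLa.mul k2
  rw [lintegral_mul_const _ hm4]
  congr 1
  by_cases hT : 0 < T
  · exact Lv_conv ha hb hT
  · rw [poisB_Lv_zero hT, ENNReal.ofReal_zero]
    refine lintegral_eq_zero_of_ae_eq_zero (Eventually.of_forall fun u => ?_)
    show ENNReal.ofReal (Lv a u) * ENNReal.ofReal (Lv b (T - u)) = 0
    by_cases hu : 0 < u
    · rw [poisB_Lv_zero (a := b) (u := T - u) (by linarith)]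
      simp
    · rw [poisB_Lv_zero hu]
      simp

private theorem poisB_Pk {t : ℝ} (ht : t ≠ 0) (p q : P2) :
    |t| / ‖mk 0 p - mk t q‖ ^ 3 = 2 * Real.pi * Pk |t| (p - q) := by
  have hpi := Real.pi_pos
  unfold Pk
  have h1 : ‖mk 0 p - mk t q‖ ^ 2 = t ^ 2 + ‖p - q‖ ^ 2 := by
    rw [norm_mk_sub_sq]
    ring
  have h2 : (‖p - q‖ ^ 2 + |t| ^ 2) ^ (3 / 2 : ℝ) = ‖mk 0 p - mk t q‖ ^ 3 := by
    rw [sq_abs, add_comm, ← h1, ← Real.rpow_natCast, ← Real.rpow_mul (norm_nonneg _)]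
    norm_num
  rw [h2]
  have h3 : 0 < t ^ 2 := by positivity
  have h4 : 0 < ‖mk 0 p - mk t q‖ := by
    rcases (norm_nonneg (mk 0 p - mk t q)).eq_or_lt with h | h
    · rw [← h] at h1
      nlinarith [sq_nonneg ‖p - q‖]
    · exact h
  field_simp

theorem pois_mk {x y : E3} (hx : x 0 < 0) (hy : 0 < y 0) :
    ∫⁻ p : P2, ENNReal.ofReal (|x 0| / ‖mk 0 p - x‖ ^ 3) * ENNReal.ofReal (|y 0| / ‖mk 0 p - y‖ ^ 3) =
      ENNReal.ofReal (2 * Real.pi * ((y 0 - x 0) / ‖x - y‖ ^ 3)) := by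
  have hpi := Real.pi_pos
  have e1 : ∀ p, |x 0| / ‖mk 0 p - x‖ ^ 3 = 2 * Real.pi * Pk |x 0| (p - pr x) := fun p => by
    have h := poisB_Pk hx.ne p (pr x)
    rwa [mk_pr] at h
  have e2 : ∀ p, |y 0| / ‖mk 0 p - y‖ ^ 3 = 2 * Real.pi * Pk |y 0| (p - pr y) := fun p => by
    have h := poisB_Pk hy.ne' p (pr y)
    rwa [mk_pr] at h
  have hx' : 0 < |x 0| := abs_pos.2 hx.ne
  have hy' : 0 < |y 0| := abs_pos.2 hy.ne'
  have e3 : ∀ p, ENNReal.ofReal (|x 0| / ‖mk 0 p - x‖ ^ 3) * ENNReal.ofReal (|y 0| / ‖mk 0 p - y‖ ^ 3) =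
      ENNReal.ofReal ((2 * Real.pi) ^ 2) * (ENNReal.ofReal (Pk |x 0| (p - pr x)) * ENNReal.ofReal (Pk |y 0| (p - pr y))) := by
    intro p
    have e4 : (0 : ℝ) ≤ 2 * Real.pi := by positivity
    obtain ⟨w, hw⟩ : ∃ w : ℝ, w = 2 * Real.pi := ⟨_, rfl⟩
    rw [e1, e2]
    rw [← hw] at e4 ⊢
    rw [ENNReal.ofReal_mul e4, ENNReal.ofReal_mul e4, sq, ENNReal.ofReal_mul e4]
    ring
  simp_rw [e3]
  rw [lintegral_const_mul' _ _ ENNReal.ofReal_ne_top, pois hx' hy', ← ENNReal.ofReal_mul (by positivity)]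
  congr 1
  have h5 : |x 0| + |y 0| = y 0 - x 0 := by
    rw [abs_of_neg hx, abs_of_pos hy]
    ring
  have h6 : 0 < y 0 - x 0 := by linarith
  have h7 : ‖x - y‖ ^ 2 = ‖pr x - pr y‖ ^ 2 + (y 0 - x 0) ^ 2 := by
    have h := norm_mk_sub_sq (x 0) (y 0) (pr x) (pr y)
    rw [mk_pr, mk_pr] at h
    rw [h]
    ring
  unfold Pk
  rw [h5]
  have h8 : (‖pr x - pr y‖ ^ 2 + (y 0 - x 0) ^ 2) ^ (3 / 2 : ℝ) = ‖x - y‖ ^ 3 := by
    rw [← h7, ← Real.rpow_natCast, ← Real.rpow_mul (norm_nonneg _)]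
    norm_num
  rw [h8]
  have h9 : 0 < ‖x - y‖ := by
    rcases (norm_nonneg (x - y)).eq_or_lt with h | h
    · rw [← h] at h7
      nlinarith [sq_nonneg ‖pr x - pr y‖]
    · exact h
  field_simp

end Pool.Agent.H50.TM
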