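import Pool.Agent.H50.TM.RegB
import Pool.Agent.H50.TM.PoisB

/-!
# Module BrEq: `⟨m, n⟩ = (1/2π) ∫_P fld m · fld n`

`m` on `{x₀ ≤ 0}`, `n` on `{x₀ > 0}`, both Reg (so the plane is a null set of `m`).
* `inv2_prod`: `∬ ‖x-y‖^(-2) dm dn ≤ B · m univ` (`inv2`, `integrable_prod_iff`).
* `br_int`: `0 ≤ (y₀-x₀)/‖x-y‖³ ≤ ‖x-y‖^(-2)` for `(m × n)`-a.e. `(x,y)`.
* `br_eq`: Tonelli for the nonnegative function `|x₀|/‖mk 0 p-x‖³ · |y₀|/‖mk 0 p-y‖³` on `m × n × P2` (`pois_mk` for `x₀ < 0 < y₀`); all quantities are finite by `br_int`;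
  `ENNReal.ofReal`/`toReal`. Then `Integrable (fld m · fld n)`.
-/

set_option autoImplicit false

open MeasureTheory Set Filter Topology
open scoped ENNReal NNReal

namespace Pool.Agent.H50.TM

open Pool.Agent.H23.TF

variable {m n : Measure E3}

private theorem meas_inv : Measurable (fun q : E3 × E3 => (‖q.1 - q.2‖ ^ 2)⁻¹) :=
  (((measurable_fst.sub measurable_snd).norm).pow_const 2).inv

private theorem meas_co : Measurable (fun x : E3 => x 0) := continuous_zero.measurable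

private theorem meas_K : Measurable (fun q : E3 × E3 => (q.2 0 - q.1 0) / ‖q.1 - q.2‖ ^ 3) := by
  have h1 : Measurable (fun q : E3 × E3 => q.2 0) := meas_co.comp measurable_snd
  have h2 : Measurable (fun q : E3 × E3 => q.1 0) := meas_co.comp measurable_fst
  exact (h1.sub h2).div (((measurable_fst.sub measurable_snd).norm).pow_const 3)

private theorem meas_f : Measurable (fun q : P2 × E3 => |q.2 0| / ‖mk 0 q.1 - q.2‖ ^ 3) := by
  have h1 : Measurable (fun q : P2 × E3 => q.2 0) := meas_co.comp measurable_snd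
  have h0 : Continuous (fun p : P2 => mk 0 p) :=
    continuous_mk.comp (continuous_const.prodMk continuous_id)
  have h2 : Measurable (fun q : P2 × E3 => mk 0 q.1) := h0.measurable.comp measurable_fst
  exact (measurable_norm.comp h1).div (((h2.sub measurable_snd).norm).pow_const 3)

private theorem ae_le (hm0 : m Hp = 0) : ∀ᵐ x ∂m, x 0 ≤ 0 := by
  rw [ae_iff]
  have : {x : E3 | ¬ x 0 ≤ 0} = Hp := by ext x; simp [Hp]
  rw [this]; exact hm0

private theorem ae_lt (hm : Reg m) (hm0 : m Hp = 0) : ∀ᵐ x ∂m, x 0 < 0 := by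
  have h1 := ae_le hm0
  have h2 : ∀ᵐ x ∂m, x 0 ≠ 0 := by
    rw [ae_iff]
    have : {x : E3 | ¬ x 0 ≠ 0} = {x | x 0 = 0} := by ext x; simp
    rw [this]; exact hm.plane
  filter_upwards [h1, h2] with x a b
  exact lt_of_le_of_ne a b

private theorem ae_gt (hn0 : n {x | x 0 ≤ 0} = 0) : ∀ᵐ x ∂n, 0 < x 0 := by
  rw [ae_iff]
  have : {x : E3 | ¬ 0 < x 0} = {x | x 0 ≤ 0} := by ext x; simp
  rw [this]; exact hn0

theorem inv2_prod (hm : Reg m) (hn : Reg n) (hm0 : m Hp = 0) (hn0 : n {x | x 0 ≤ 0} = 0) :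
    Integrable (fun q : E3 × E3 => (‖q.1 - q.2‖ ^ 2)⁻¹) (m.prod n) := by
  haveI := hm.isFin
  haveI := hn.isFin
  obtain ⟨B, hB⟩ := inv2 hn hn0
  rw [integrable_prod_iff meas_inv.aestronglyMeasurable]
  constructor
  · filter_upwards [ae_le hm0] with x hx
    exact (hB x hx).1
  · have hms : AEStronglyMeasurable (fun x : E3 => ∫ y, ‖(‖x - y‖ ^ 2)⁻¹‖ ∂n) m := by
      have h1 : StronglyMeasurable (Function.uncurry fun (x y : E3) => ‖(‖x - y‖ ^ 2)⁻¹‖) :=
        meas_inv.norm.stronglyMeasurable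
      exact h1.integral_prod_right.aestronglyMeasurable
    refine Integrable.mono' (integrable_const B) hms ?_
    filter_upwards [ae_le hm0] with x hx
    have h0 : ∀ y : E3, ‖(‖x - y‖ ^ 2)⁻¹‖ = (‖x - y‖ ^ 2)⁻¹ := fun y =>
      Real.norm_of_nonneg (by positivity)
    simp only [h0]
    rw [Real.norm_of_nonneg (integral_nonneg (fun y => by positivity))]
    exact (hB x hx).2

theorem br_int (hm : Reg m) (hn : Reg n) (hm0 : m Hp = 0) (hn0 : n {x | x 0 ≤ 0} = 0) :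
    Integrable (fun q : E3 × E3 => (q.2 0 - q.1 0) / ‖q.1 - q.2‖ ^ 3) (m.prod n) := by
  refine Integrable.mono' (inv2_prod hm hn hm0 hn0) meas_K.aestronglyMeasurable
    (Eventually.of_forall fun q => ?_)
  have h1 : |q.2 0 - q.1 0| ≤ ‖q.1 - q.2‖ := by
    have := abs_zero_le (q.2 - q.1)
    rw [norm_sub_rev] at this
    simpa using this
  rw [Real.norm_eq_abs, abs_div, abs_of_nonneg (by positivity : 0 ≤ ‖q.1 - q.2‖ ^ 3)]
  rcases (norm_nonneg (q.1 - q.2)).eq_or_lt with h0 | h0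
  · rw [← h0]; simp
  · rw [div_le_iff₀ (by positivity)]
    have : (‖q.1 - q.2‖ ^ 2)⁻¹ * ‖q.1 - q.2‖ ^ 3 = ‖q.1 - q.2‖ := by
      field_simp
    rw [this]; exact h1

private theorem ofReal_fld (hm : Reg m) (h : m Hp = 0 ∨ m {x | x 0 ≤ 0} = 0) (p : P2) :
    ENNReal.ofReal (fld m p) = ∫⁻ y, ENNReal.ofReal (|y 0| / ‖mk 0 p - y‖ ^ 3) ∂m := by
  unfold fld
  exact ofReal_integral_eq_lintegral_ofReal (fld_int hm h p)
    (Eventually.of_forall fun y => by positivity)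

private theorem K_nonneg (hm : Reg m) (hn : Reg n) (hm0 : m Hp = 0) (hn0 : n {x | x 0 ≤ 0} = 0) :
    ∀ᵐ q ∂(m.prod n), q.1 0 < 0 ∧ 0 < q.2 0 := by
  haveI := hm.isFin
  haveI := hn.isFin
  have h1 : ∀ᵐ q ∂(m.prod n), q.1 0 < 0 :=
    Measure.quasiMeasurePreserving_fst.ae (ae_lt hm hm0)
  have h2 : ∀ᵐ q ∂(m.prod n), 0 < q.2 0 :=
    Measure.quasiMeasurePreserving_snd.ae (ae_gt hn0)
  filter_upwards [h1, h2] with q a b
  exact ⟨a, b⟩

private theorem key (hm : Reg m) (hn : Reg n) (hm0 : m Hp = 0) (hn0 : n {x | x 0 ≤ 0} = 0) :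
    ∫⁻ p : P2, ENNReal.ofReal (fld m p * fld n p) =
      ENNReal.ofReal (2 * Real.pi * br m n) := by
  haveI := hm.isFin
  haveI := hn.isFin
  have e1 : ∀ p : P2, ENNReal.ofReal (fld m p * fld n p) =
      ∫⁻ q : E3 × E3, ENNReal.ofReal (|q.1 0| / ‖mk 0 p - q.1‖ ^ 3) *
        ENNReal.ofReal (|q.2 0| / ‖mk 0 p - q.2‖ ^ 3) ∂(m.prod n) := by
    intro p
    rw [ENNReal.ofReal_mul (fld_nonneg m p), ofReal_fld hm (Or.inl hm0) p,
      ofReal_fld hn (Or.inr hn0) p]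
    have hme : Measurable (fun y : E3 => ENNReal.ofReal (|y 0| / ‖mk 0 p - y‖ ^ 3)) :=
      (meas_f.comp (measurable_const.prodMk measurable_id)).ennreal_ofReal
    exact (lintegral_prod_mul hme.aemeasurable hme.aemeasurable).symm
  simp only [e1]
  have hjm : Measurable (Function.uncurry fun (p : P2) (q : E3 × E3) =>
      ENNReal.ofReal (|q.1 0| / ‖mk 0 p - q.1‖ ^ 3) *
        ENNReal.ofReal (|q.2 0| / ‖mk 0 p - q.2‖ ^ 3)) := by
    have a1 : Measurable (fun w : P2 × (E3 × E3) => ENNReal.ofReal (|w.2.1 0| / ‖mk 0 w.1 - w.2.1‖ ^ 3)) :=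
      (meas_f.comp (measurable_fst.prodMk (measurable_fst.comp measurable_snd))).ennreal_ofReal
    have a2 : Measurable (fun w : P2 × (E3 × E3) => ENNReal.ofReal (|w.2.2 0| / ‖mk 0 w.1 - w.2.2‖ ^ 3)) :=
      (meas_f.comp (measurable_fst.prodMk (measurable_snd.comp measurable_snd))).ennreal_ofReal
    exact a1.mul a2
  rw [lintegral_lintegral_swap hjm.aemeasurable]
  have e2 : ∫⁻ q : E3 × E3, (∫⁻ p : P2, ENNReal.ofReal (|q.1 0| / ‖mk 0 p - q.1‖ ^ 3) *
        ENNReal.ofReal (|q.2 0| / ‖mk 0 p - q.2‖ ^ 3)) ∂(m.prod n) =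
      ∫⁻ q : E3 × E3, ENNReal.ofReal (2 * Real.pi * ((q.2 0 - q.1 0) / ‖q.1 - q.2‖ ^ 3)) ∂(m.prod n) := by
    refine lintegral_congr_ae ?_
    filter_upwards [K_nonneg hm hn hm0 hn0] with q hq
    exact pois_mk hq.1 hq.2
  rw [e2]
  have e3 : br m n = ∫ q : E3 × E3, (q.2 0 - q.1 0) / ‖q.1 - q.2‖ ^ 3 ∂(m.prod n) := by
    unfold br
    exact (integral_prod _ (br_int hm hn hm0 hn0)).symm
  rw [e3, ← integral_const_mul]
  refine (ofReal_integral_eq_lintegral_ofReal ((br_int hm hn hm0 hn0).const_mul _) ?_).symm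
  filter_upwards [K_nonneg hm hn hm0 hn0] with q hq
  have h1 : 0 < q.2 0 - q.1 0 := by linarith [hq.1, hq.2]
  show (0:ℝ) ≤ 2 * Real.pi * ((q.2 0 - q.1 0) / ‖q.1 - q.2‖ ^ 3)
  have := Real.pi_pos
  positivity

theorem fld_mul_int (hm : Reg m) (hn : Reg n) (hm0 : m Hp = 0) (hn0 : n {x | x 0 ≤ 0} = 0) :
    Integrable (fun p : P2 => fld m p * fld n p) := by
  have hme : Measurable (fun p : P2 => fld m p * fld n p) :=
    (measurable_fld hm).mul (measurable_fld hn)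
  refine ⟨hme.aestronglyMeasurable, ?_⟩
  rw [hasFiniteIntegral_iff_ofReal (Eventually.of_forall fun p =>
    mul_nonneg (fld_nonneg m p) (fld_nonneg n p)), key hm hn hm0 hn0]
  exact ENNReal.ofReal_lt_top

theorem br_eq (hm : Reg m) (hn : Reg n) (hm0 : m Hp = 0) (hn0 : n {x | x 0 ≤ 0} = 0) :
    br m n = 1 / (2 * Real.pi) * ∫ p : P2, fld m p * fld n p := by
  haveI := hm.isFin
  haveI := hn.isFin
  have hme : Measurable (fun p : P2 => fld m p * fld n p) :=
    (measurable_fld hm).mul (measurable_fld hn)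
  have h1 : ∫ p : P2, fld m p * fld n p = 2 * Real.pi * br m n := by
    rw [integral_eq_lintegral_of_nonneg_ae (Eventually.of_forall fun p =>
      mul_nonneg (fld_nonneg m p) (fld_nonneg n p)) hme.aestronglyMeasurable, key hm hn hm0 hn0]
    refine ENNReal.toReal_ofReal ?_
    have h2 : 0 ≤ br m n := by
      have e3 : br m n = ∫ q : E3 × E3, (q.2 0 - q.1 0) / ‖q.1 - q.2‖ ^ 3 ∂(m.prod n) := by
        unfold br
        exact (integral_prod _ (br_int hm hn hm0 hn0)).symm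
      rw [e3]
      refine integral_nonneg_of_ae ?_
      filter_upwards [K_nonneg hm hn hm0 hn0] with q hq
      have h1 : 0 < q.2 0 - q.1 0 := by linarith [hq.1, hq.2]
      show (0:ℝ) ≤ (q.2 0 - q.1 0) / ‖q.1 - q.2‖ ^ 3
      positivity
    have := Real.pi_pos
    positivity
  rw [h1]
  have := Real.pi_pos
  field_simp

end Pool.Agent.H50.TM
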