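import Pool.Agent.H50.TM.Dual

/-!
# Module Comp: separation in a direction, and dilation

* `En_iso`: `tf_iso` and `Density N ρ ↔ Density N (ρ ∘ (L · + b))` (change of variables).
* `en_cut`: a cut at height `t` (no nucleus at height `t`): translate by `-t e0`, `en_step`, translate back: moving all nuclei with `(R i) 0 > t` by `h e0`.
* `sep_e0` (direction `e0`): `a` monotone, strong induction on the number `m` of distinct values of `i ↦ a((R i) 0)`.
  `m ≤ 1`: the map is a translation (or there is no nucleus): equality (`En_iso`). `m ≥ 2`: let `v₁ < v₂` be the two smallest values, `a₁(c) = max (a c) v₂` (monotone,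
  `m - 1` values): `E(R + a₁) ≤ E(R)` by induction. The low nuclei (`a = v₁`) are strictly below all others in `R` (monotonicity), so also in `R + a₁`, where the gap
  contains a height `t`. `R + a` is, up to the global translation by `-(v₂-v₁) e0`, the configuration `R + a₁` with the nuclei above `t` moved by `h = v₂ - v₁ > 0`
  (low: `c + v₁ = (c + v₂) - h`; high: `c + a(c) = (c + a(c) + h) - h`). So `E(R + a) < E(R + a₁) ≤ E(R)` (`en_cut`; `R + a₁` is injective and has the same transverse
  coordinates; injectivity: two nuclei with the same image have the same transverse coordinates and `c + a₁(c)` is strictly increasing in `c`).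
  Conclusion: `≤`, and `<` if `m ≥ 2`.
* `sep`: a linear isometry equivalence `L` with `L n = e0` (a reflection, or extend `n` to an orthonormal basis); `⟪n, x⟫ = (L x) 0`; apply `sep_e0` to `L ∘ R`, `En_iso`.
* `dil`: `0 < l < l'`, `s = l'/l > 1`: `l' R = A₂ A₁ A₀ (l R)`, `A_j x = x + (s-1) x_j e_j` = separation in the direction `e_j` with `a(c) = (s-1) c`. Each step is `≤`, and at
  least one is `<`: two distinct nuclei differ in some coordinate `j`, `a` is injective.
-/

set_option autoImplicit false

open MeasureTheory Set Filter Topology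
open scoped ENNReal NNReal

namespace Pool.Agent.H50.TM

open Pool.Agent.H23.TF

variable {γ : ℝ} {k : ℕ} {R : Fin k → E3} {z : Fin k → ℝ}

private noncomputable def comp_h (L : E3 ≃ₗᵢ[ℝ] E3) (b : E3) : E3 ≃ₜ E3 :=
  L.toHomeomorph.trans (Homeomorph.addRight b)

private theorem comp_h_apply (L : E3 ≃ₗᵢ[ℝ] E3) (b x : E3) : comp_h L b x = L x + b := rfl

private theorem comp_emb (L : E3 ≃ₗᵢ[ℝ] E3) (b : E3) : MeasurableEmbedding (fun x : E3 => L x + b) :=
  (comp_h L b).measurableEmbedding

private theorem comp_mp (L : E3 ≃ₗᵢ[ℝ] E3) (b : E3) :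
    MeasurePreserving (fun x : E3 => L x + b) (volume : Measure E3) volume :=
  (measurePreserving_add_right (volume : Measure E3) b).comp L.measurePreserving

private theorem comp_int (L : E3 ≃ₗᵢ[ℝ] E3) (b : E3) (f : E3 → ℝ) : ∫ x, f (L x + b) = ∫ x, f x :=
  (comp_mp L b).integral_comp (comp_emb L b) f

private theorem comp_intble (L : E3 ≃ₗᵢ[ℝ] E3) (b : E3) {f : E3 → ℝ} (hf : Integrable f) :
    Integrable (fun x => f (L x + b)) :=
  ((comp_mp L b).integrable_comp_emb (comp_emb L b)).mpr hf

private theorem comp_dens (L : E3 ≃ₗᵢ[ℝ] E3) (b : E3) {N : ℝ} {ρ : E3 → ℝ} (h : Density N ρ) :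
    Density N (fun x => ρ (L x + b)) :=
  ⟨fun _ => h.nonneg _, comp_intble L b h.int, comp_intble L b (f := fun x => ρ x ^ (5 / 3 : ℝ)) h.int53,
    (comp_int L b ρ).trans h.mass⟩

theorem En_iso (γ : ℝ) (R : Fin k → E3) (z : Fin k → ℝ) (L : E3 ≃ₗᵢ[ℝ] E3) (b : E3) (N : ℝ) :
    En γ (fun i => L (R i) + b) z N = En γ R z N := by
  unfold En
  congr 1
  ext e
  constructor
  · rintro ⟨ρ, hρ, rfl⟩
    exact ⟨_, comp_dens L b hρ, tf_iso γ R z L b ρ⟩
  · rintro ⟨ρ, hρ, rfl⟩
    refine ⟨_, comp_dens L.symm (-(L.symm b)) hρ, ?_⟩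
    rw [tf_iso]
    congr 1
    funext x
    congr 1
    simp

private theorem comp_shift (γ : ℝ) (R : Fin k → E3) (z : Fin k → ℝ) (b : E3) (N : ℝ) :
    En γ (fun i => R i + b) z N = En γ R z N := En_iso γ R z (LinearIsometryEquiv.refl ℝ E3) b N

theorem en_cut (hγ : 0 < γ) (hR : Function.Injective R) (hz : ∀ i, 0 < z i) {t : ℝ} (hoff : ∀ i, (R i) 0 ≠ t)
    (hl : ∃ i, (R i) 0 < t) (hr : ∃ i, t < (R i) 0) {N : ℝ} (hN : 0 < N) (hNZ : N < ∑ i, z i) {h : ℝ} (hh : 0 < h) :
    En γ (fun i => if t < (R i) 0 then R i + h • e0 else R i) z N < En γ R z N := by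
  have e1 : ∀ i, (R i + (-t) • e0) 0 = (R i) 0 - t := fun i => by
    rw [add_e0_zero]
    ring
  have hR' : Function.Injective (fun i => R i + (-t) • e0) := fun i j hij => hR (add_right_cancel hij)
  have h1 := en_step hγ (R := fun i => R i + (-t) • e0) hR' hz (fun i => by
      rw [e1]
      exact sub_ne_zero.2 (hoff i))
    (by
      obtain ⟨i, hi⟩ := hl
      exact ⟨i, by rw [e1]; linarith⟩)
    (by
      obtain ⟨i, hi⟩ := hr
      exact ⟨i, by rw [e1]; linarith⟩) hN hNZ hh
  have e2 : shR (fun i => R i + (-t) • e0) h = fun i => (if t < (R i) 0 then R i + h • e0 else R i) + (-t) • e0 := by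
    funext i
    unfold shR
    rw [e1]
    by_cases hi : t < (R i) 0
    · rw [if_pos (sub_pos.2 hi), if_pos hi, add_right_comm]
    · rw [if_neg (fun h => hi (sub_pos.1 h)), if_neg hi]
  rw [e2, comp_shift, comp_shift] at h1
  exact h1

private theorem comp_main (hγ : 0 < γ) (hR : Function.Injective R) (hz : ∀ i, 0 < z i)
    {N : ℝ} (hN : 0 < N) (hNZ : N < ∑ i, z i) (n : ℕ) : ∀ b : Fin k → ℝ, (Finset.univ.image b).card = n →
      (∀ i j, (R i) 0 ≤ (R j) 0 → b i ≤ b j) →
      En γ (fun i => R i + b i • e0) z N ≤ En γ R z N ∧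
        ((∃ i j, b i ≠ b j) → En γ (fun i => R i + b i • e0) z N < En γ R z N) := by
  induction n using Nat.strong_induction_on with
  | _ n ih =>
    intro b hn hb
    by_cases hne : ∃ i j, b i ≠ b j
    · suffices hlt : En γ (fun i => R i + b i • e0) z N < En γ R z N from ⟨hlt.le, fun _ => hlt⟩
      obtain ⟨i1, i2, h12⟩ := hne
      set S := Finset.univ.image b with hS
      have hmem : ∀ i, b i ∈ S := fun i => Finset.mem_image_of_mem b (Finset.mem_univ i)
      have hSne : S.Nonempty := ⟨_, hmem i1⟩
      set v := S.max' hSne with hv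
      have hvS : v ∈ S := S.max'_mem hSne
      have hle : ∀ i, b i ≤ v := fun i => S.le_max' _ (hmem i)
      have hTne : (S.erase v).Nonempty := by
        by_cases h1 : b i1 = v
        · exact ⟨b i2, Finset.mem_erase.2 ⟨fun h => h12 (h1.trans h.symm), hmem i2⟩⟩
        · exact ⟨b i1, Finset.mem_erase.2 ⟨h1, hmem i1⟩⟩
      set w := (S.erase v).max' hTne with hw
      have hwS : w ∈ S.erase v := (S.erase v).max'_mem hTne
      have hwv : w < v := lt_of_le_of_ne (S.le_max' _ (Finset.mem_of_mem_erase hwS)) (Finset.ne_of_mem_erase hwS)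
      have hlow : ∀ i, b i ≠ v → b i ≤ w := fun i hi => (S.erase v).le_max' _ (Finset.mem_erase.2 ⟨hi, hmem i⟩)
      set c : Fin k → ℝ := fun i => min (b i) w with hc
      have hcb : ∀ i j, (R i) 0 ≤ (R j) 0 → c i ≤ c j := fun i j hij => min_le_min_right _ (hb i j hij)
      have hcard : (Finset.univ.image c).card < n := by
        rw [← hn]
        apply Finset.card_lt_card
        refine ⟨fun x hx => ?_, fun hsub => ?_⟩
        · obtain ⟨i, _, rfl⟩ := Finset.mem_image.1 hx
          rcases min_choice (b i) w with h | h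
          · show min (b i) w ∈ S
            rw [h]
            exact hmem i
          · show min (b i) w ∈ S
            rw [h]
            exact Finset.mem_of_mem_erase hwS
        · obtain ⟨i, _, hi⟩ := Finset.mem_image.1 (hsub hvS)
          have : c i ≤ w := min_le_right _ _
          rw [hi] at this
          exact absurd this (not_le.2 hwv)
      have h1 := (ih _ hcard c rfl hcb).1
      refine lt_of_lt_of_le ?_ h1
      -- top and low nuclei
      obtain ⟨i0, hi0, hi0'⟩ := Finset.exists_min_image (Finset.univ.filter fun i => b i = v) (fun i => (R i) 0 + c i) (by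
        obtain ⟨i, _, hi⟩ := Finset.mem_image.1 hvS
        exact ⟨i, Finset.mem_filter.2 ⟨Finset.mem_univ _, hi⟩⟩)
      obtain ⟨j0, hj0, hj0'⟩ := Finset.exists_max_image (Finset.univ.filter fun i => b i ≠ v) (fun i => (R i) 0 + c i) (by
        obtain ⟨i, _, hi⟩ := Finset.mem_image.1 (Finset.mem_of_mem_erase hwS)
        exact ⟨i, Finset.mem_filter.2 ⟨Finset.mem_univ _, by rw [hi]; exact hwv.ne⟩⟩)
      have hi0v : b i0 = v := (Finset.mem_filter.1 hi0).2
      have hj0v : b j0 ≠ v := (Finset.mem_filter.1 hj0).2
      have hgap : (R j0) 0 + c j0 < (R i0) 0 + c i0 := by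
        have h2 : (R j0) 0 < (R i0) 0 := by
          by_contra hcon
          have h3 := hb i0 j0 (not_lt.1 hcon)
          rw [hi0v] at h3
          exact hj0v (le_antisymm (hle j0) h3)
        exact add_lt_add_of_lt_of_le h2 (hcb j0 i0 h2.le)
      set t := ((R j0) 0 + c j0 + ((R i0) 0 + c i0)) / 2 with ht
      have htop : ∀ i, b i = v → t < (R i) 0 + c i := fun i hi => by
        have := hi0' i (Finset.mem_filter.2 ⟨Finset.mem_univ _, hi⟩)
        simp only at this
        linarith
      have hbot : ∀ i, b i ≠ v → (R i) 0 + c i < t := fun i hi => by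
        have := hj0' i (Finset.mem_filter.2 ⟨Finset.mem_univ _, hi⟩)
        simp only at this
        linarith
      have eQ : ∀ i, (R i + c i • e0) 0 = (R i) 0 + c i := fun i => add_e0_zero _ _
      have hQ : Function.Injective (fun i => R i + c i • e0) := by
        intro i j hij
        have hij' : R i + c i • e0 = R j + c j • e0 := hij
        have h0 : (R i) 0 + c i = (R j) 0 + c j := by rw [← eQ, ← eQ, hij']
        have h5 : (R i) 0 = (R j) 0 := by
          rcases lt_trichotomy ((R i) 0) ((R j) 0) with h | h | h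
          · have := hcb i j h.le
            linarith
          · exact h
          · have := hcb j i h.le
            linarith
        have h6 : c i = c j := by linarith
        rw [h6] at hij'
        exact hR (add_right_cancel hij')
      have h2 := en_cut hγ (R := fun i => R i + c i • e0) (t := t) hQ hz
        (fun i => by
          rw [eQ]
          by_cases h : b i = v
          · exact (htop i h).ne'
          · exact (hbot i h).ne)
        ⟨j0, by rw [eQ]; exact hbot j0 hj0v⟩ ⟨i0, by rw [eQ]; exact htop i0 hi0v⟩ hN hNZ (h := v - w) (by linarith)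
      have e3 : (fun i => if t < (R i + c i • e0) 0 then (R i + c i • e0) + (v - w) • e0 else R i + c i • e0) =
          fun i => R i + b i • e0 := by
        funext i
        rw [eQ]
        by_cases h : b i = v
        · rw [if_pos (htop i h)]
          have : c i = w := by
            show min (b i) w = w
            rw [h]
            exact min_eq_right hwv.le
          rw [this, h, add_assoc, ← add_smul]
          congr 2
          ring
        · rw [if_neg (not_lt.2 (hbot i h).le)]
          have : c i = b i := min_eq_left (hlow i h)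
          rw [this]
      simp only [e3] at h2
      exact h2
    · refine ⟨?_, fun h => absurd h hne⟩
      have hall : ∀ i j, b i = b j := fun i j => by
        by_contra h
        exact hne ⟨i, j, h⟩
      rcases k.eq_zero_or_pos with h0 | h0
      · subst h0
        have : (fun i => R i + b i • e0) = R := Subsingleton.elim _ _
        rw [this]
      · have : (fun i => R i + b i • e0) = fun i => R i + (b ⟨0, h0⟩) • e0 := by
          funext i
          rw [hall i ⟨0, h0⟩]
        rw [this, comp_shift]

theorem sep_e0 (hγ : 0 < γ) (hR : Function.Injective R) (hz : ∀ i, 0 < z i) {a : ℝ → ℝ} (ha : Monotone a)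
    {N : ℝ} (hN : 0 < N) (hNZ : N < ∑ i, z i) :
    En γ (fun i => R i + a ((R i) 0) • e0) z N ≤ En γ R z N ∧
      ((∃ i j, a ((R i) 0) ≠ a ((R j) 0)) → En γ (fun i => R i + a ((R i) 0) • e0) z N < En γ R z N) :=
  comp_main hγ hR hz hN hNZ _ (fun i => a ((R i) 0)) rfl fun _ _ hij => ha hij

end Pool.Agent.H50.TM
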