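import Pool.Agent.H50.TM.TfB

/-!
# Module TfI: isometries and convexity of the functional `tf`

* `tf_iso`: `L` linear isometry equivalence, `b : E3`: change of variables `x ↦ L x + b` (`L.measurePreserving`, translation invariance).
* `tf_conv`: convexity: `t ↦ t^(5/3)` convex, the other terms linear, the Coulomb term by `pos` (`∫ ((1-t)ρ1+tρ2) G(...) = (1-t) ∫ρ1Gρ1 + t ∫ρ2Gρ2 - t(1-t) ∫ (ρ1-ρ2) G (ρ1-ρ2)`).
-/

set_option autoImplicit false

open MeasureTheory Set Filter Topology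
open scoped ENNReal NNReal

namespace Pool.Agent.H50.TM

open Pool.Agent.H23.TF

variable {γ μ : ℝ} {k : ℕ} {R : Fin k → E3} {z : Fin k → ℝ} {ρ ρ1 ρ2 : E3 → ℝ}

private lemma tfi_int (L : E3 ≃ₗᵢ[ℝ] E3) (b : E3) (f : E3 → ℝ) :
    ∫ x, f (L x + b) = ∫ x, f x := by
  have h1 : ∫ x, (fun y => f (y + b)) (L x) = ∫ y, f (y + b) :=
    (L.measurePreserving).integral_comp L.toHomeomorph.measurableEmbedding (fun y => f (y + b))
  rw [integral_add_right_eq_self (μ := (volume : Measure E3)) f b] at h1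
  exact h1

private lemma tfi_norm (L : E3 ≃ₗᵢ[ℝ] E3) (b x y : E3) : ‖L x + b - (L y + b)‖ = ‖x - y‖ := by
  rw [add_sub_add_right_eq_sub, ← map_sub, L.norm_map]

theorem tf_iso (γ : ℝ) (R : Fin k → E3) (z : Fin k → ℝ) (L : E3 ≃ₗᵢ[ℝ] E3) (b : E3) (ρ : E3 → ℝ) :
    tf γ (fun i => L (R i) + b) z ρ = tf γ R z (fun x => ρ (L x + b)) := by
  have e1 : ∫ x, ρ (L x + b) ^ (5 / 3 : ℝ) = ∫ x, ρ x ^ (5 / 3 : ℝ) :=
    tfi_int L b (fun x => ρ x ^ (5 / 3 : ℝ))
  have e2 : ∫ x, V (fun i => L (R i) + b) z x * ρ x = ∫ x, V R z x * ρ (L x + b) := by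
    rw [← tfi_int L b (fun x => V (fun i => L (R i) + b) z x * ρ x)]
    congr 1
    funext x
    congr 1
    unfold V
    simp only [tfi_norm]
  have e3 : ∫ x, ∫ y, ρ x * ρ y / ‖x - y‖ = ∫ x, ∫ y, ρ (L x + b) * ρ (L y + b) / ‖x - y‖ := by
    rw [← tfi_int L b (fun x => ∫ y, ρ x * ρ y / ‖x - y‖)]
    congr 1
    funext x
    rw [← tfi_int L b (fun y => ρ (L x + b) * ρ y / ‖(L x + b) - y‖)]
    congr 1
    funext y
    rw [tfi_norm]
  have e4 : U (fun i => L (R i) + b) z = U R z := by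
    unfold U
    simp only [tfi_norm]
  unfold tf
  rw [e1, e2, e3, e4]

private lemma tfi_bil {f g : E3 → ℝ} (hf : Ld f) (hg : Ld g) (α β : ℝ) :
    ∫ x, (α * f x + β * g x) * G (fun y => α * f y + β * g y) x =
      α ^ 2 * (∫ x, f x * G f x) + 2 * α * β * (∫ x, f x * G g x) +
        β ^ 2 * (∫ x, g x * G g x) := by
  have hG : ∀ x, G (fun y => α * f y + β * g y) x = α * G f x + β * G g x := by
    intro x
    rw [G_add (hf.const_mul α) (hg.const_mul β), G_const_mul, G_const_mul]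
  have hs := G_symm hf hg
  have i1 := (hf.int_mul_G hf).const_mul (α ^ 2)
  have i2 := (hf.int_mul_G hg).const_mul (α * β)
  have i3 := (hg.int_mul_G hf).const_mul (α * β)
  have i4 := (hg.int_mul_G hg).const_mul (β ^ 2)
  have e : ∀ x, (α * f x + β * g x) * G (fun y => α * f y + β * g y) x =
      (α ^ 2 * (f x * G f x) + α * β * (f x * G g x)) +
        (α * β * (g x * G f x) + β ^ 2 * (g x * G g x)) := by
    intro x
    rw [hG]
    ring
  simp only [e]
  have j1 : Integrable (fun x => α ^ 2 * (f x * G f x) + α * β * (f x * G g x)) := i1.add i2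
  have j2 : Integrable (fun x => α * β * (g x * G f x) + β ^ 2 * (g x * G g x)) := i3.add i4
  rw [integral_add j1 j2, integral_add i1 i2, integral_add i3 i4,
    integral_const_mul, integral_const_mul, integral_const_mul, integral_const_mul, hs]
  ring

theorem tf_conv (hγ : 0 < γ) (R : Fin k → E3) (z : Fin k → ℝ) (h1 : DN ρ1) (h2 : DN ρ2) {t : ℝ} (h0 : 0 ≤ t) (ht : t ≤ 1) :
    tf γ R z (fun x => (1 - t) * ρ1 x + t * ρ2 x) ≤ (1 - t) * tf γ R z ρ1 + t * tf γ R z ρ2 := by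
  have h1t : 0 ≤ 1 - t := by linarith
  have hρ : DN (fun x => (1 - t) * ρ1 x + t * ρ2 x) := (h1.smul h1t).add (h2.smul h0)
  have l1 := h1.ld
  have l2 := h2.ld
  -- the kinetic term
  have hK : ∫ x, ((1 - t) * ρ1 x + t * ρ2 x) ^ (5 / 3 : ℝ) ≤
      (1 - t) * (∫ x, ρ1 x ^ (5 / 3 : ℝ)) + t * ∫ x, ρ2 x ^ (5 / 3 : ℝ) := by
    rw [← integral_const_mul, ← integral_const_mul,
      ← integral_add (h1.int53.const_mul _) (h2.int53.const_mul _)]
    refine integral_mono hρ.int53 ((h1.int53.const_mul _).add (h2.int53.const_mul _)) fun x => ?_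
    have hc := (convexOn_rpow (p := (5 / 3 : ℝ)) (by norm_num)).2 (h1.nonneg x : ρ1 x ∈ Ici 0)
      (h2.nonneg x : ρ2 x ∈ Ici 0) h1t h0 (by ring)
    simpa [smul_eq_mul] using hc
  -- the nuclear term
  have hV : ∫ x, V R z x * ((1 - t) * ρ1 x + t * ρ2 x) =
      (1 - t) * (∫ x, V R z x * ρ1 x) + t * ∫ x, V R z x * ρ2 x := by
    rw [← integral_const_mul, ← integral_const_mul,
      ← integral_add ((l1.int_V R z).const_mul _) ((l2.int_V R z).const_mul _)]
    congr 1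
    funext x
    ring
  -- the Coulomb term
  have hC := tfi_bil l1 l2 (1 - t) t
  have hP : 0 ≤ (∫ x, ρ1 x * G ρ1 x) - 2 * (∫ x, ρ1 x * G ρ2 x) + ∫ x, ρ2 x * G ρ2 x := by
    have h3 := pos (l1.sub l2)
    have h4 := tfi_bil l1 l2 1 (-1)
    have h5 : (fun y => (1 : ℝ) * ρ1 y + -1 * ρ2 y) = fun y => ρ1 y - ρ2 y := by
      funext y
      ring
    rw [h5] at h4
    have h6 : ∫ x, ((1 : ℝ) * ρ1 x + -1 * ρ2 x) * G (fun y => ρ1 y - ρ2 y) x =
        ∫ x, (ρ1 x - ρ2 x) * G (fun y => ρ1 y - ρ2 y) x := by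
      congr 1
      funext x
      ring
    rw [h6] at h4
    linarith
  rw [tf_eq, tf_eq, tf_eq, hV, hC]
  set a := ∫ x, ρ1 x * G ρ1 x
  set b := ∫ x, ρ2 x * G ρ2 x
  set c := ∫ x, ρ1 x * G ρ2 x
  have hq : 0 ≤ t * (1 - t) * (a - 2 * c + b) := mul_nonneg (mul_nonneg h0 h1t) hP
  have hK' := mul_le_mul_of_nonneg_left hK (by positivity : 0 ≤ 3 / 5 * γ)
  nlinarith

end Pool.Agent.H50.TM
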