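import Pool.Agent.H50.TM.Coer
import Pool.Agent.H50.TM.TfI

/-!
# Module ConvN: `E(N)` is convex in `N`; `E(Z) < E(N)` for `N < Z`

* `convexOn_En`: `N1, N2 ≥ 0`, weights `1-t, t`: near minimisers `ρ1, ρ2` (`exists_near`), `(1-t) ρ1 + t ρ2` is a density of mass `(1-t) N1 + t N2` (`DN.add`, `DN.smul`),
  `tf_conv`, `En_le`; let `ε → 0`.
* `shell`: `0 ≤ N < Z = ∑ z_i`, `η = Z - N`. For `r > 0` large, `B = ball 0 r`, `v = (4/3) π r³` its volume, `s = (η/v) 1_B`. For every `ρ` with mass `N`: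
  `tf (ρ + s) - tf ρ = 3/5 γ ∫ [(ρ+s)^(5/3) - ρ^(5/3)] - ∫ V s + ∫ ρ G s + 1/2 ∫ s G s`, where
  `G s ≤ 3η/(2r)` everywhere (`ball_le` in H23/TF/N3_Cons), `G s (R i) ≥ (3η/(2r)) (1 - ‖R i‖²/r²)` (`ball_ge`), so
  `-∫ V s + ∫ ρ G s + 1/2 ∫ s G s ≤ -(3η/(2r)) (Z - ∑ z_i ‖R i‖²/r² - N - η/2) = -(3η/(2r)) (η/2 - C₁/r²)`, and with `a = η/v`, on `B`:
  `(ρ+a)^(5/3) - ρ^(5/3) ≤ (5/3) a (ρ+a)^(2/3) ≤ (5/3) a (r ρ + r^(-2) + a^(2/3))` (`t^(2/3) ≤ r t + r^(-2)`: if `t ≥ r^(-3)` then `t^(2/3) ≤ r t`), integral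
  `≤ (5/3) (a r N + η r^(-2) + η a^(2/3)) ≤ C₂ r^(-2)`, `C₂` independent of `ρ` and `r ≥ 1`.
  So for one large `r` there is `δ > 0` with `tf (ρ + s) ≤ tf ρ - δ` for ALL `ρ` of mass `N`; take a near minimiser with `ε = δ`.
-/

set_option autoImplicit false

open MeasureTheory Set Filter Topology
open scoped ENNReal NNReal

namespace Pool.Agent.H50.TM

open Pool.Agent.H23.TF

variable {γ : ℝ} {k : ℕ} {R : Fin k → E3} {z : Fin k → ℝ}

theorem convexOn_En (hγ : 0 < γ) (R : Fin k → E3) (hz : ∀ i, 0 ≤ z i) : ConvexOn ℝ (Ici 0) (fun N => En γ R z N) := by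
  refine ⟨convex_Ici 0, fun N1 h1 N2 h2 a b ha hb hab => ?_⟩
  rw [mem_Ici] at h1 h2
  simp only [smul_eq_mul]
  refine le_of_forall_pos_le_add fun ε hε => ?_
  obtain ⟨ρ1, hd1, hn1⟩ := exists_near hγ R hz h1 hε
  obtain ⟨ρ2, hd2, hn2⟩ := exists_near hγ R hz h2 hε
  have ha' : a = 1 - b := by linarith
  have hb1 : b ≤ 1 := by linarith
  have hd : Density (a * N1 + b * N2) (fun x => (1 - b) * ρ1 x + b * ρ2 x) := by
    have h3 : DN (fun x => (1 - b) * ρ1 x + b * ρ2 x) :=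
      ((Density.dn hd1).smul (by linarith)).add ((Density.dn hd2).smul hb)
    have h4 := h3.density
    have h5 : ∫ x, ((1 - b) * ρ1 x + b * ρ2 x) = a * N1 + b * N2 := by
      rw [integral_add (hd1.int.const_mul _) (hd2.int.const_mul _), integral_const_mul,
        integral_const_mul, hd1.mass, hd2.mass, ha']
    rw [h5] at h4
    exact h4
  have h6 := En_le hγ R hz hd
  have h7 := tf_conv hγ R z (Density.dn hd1) (Density.dn hd2) hb hb1
  rw [← ha'] at h7
  have h8 : a * tf γ R z ρ1 ≤ a * (En γ R z N1 + ε) := mul_le_mul_of_nonneg_left hn1.le ha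
  have h9 : b * tf γ R z ρ2 ≤ b * (En γ R z N2 + ε) := mul_le_mul_of_nonneg_left hn2.le hb
  have h10 : a * (En γ R z N1 + ε) + b * (En γ R z N2 + ε) =
      a * En γ R z N1 + b * En γ R z N2 + ε := by
    rw [ha']
    ring
  rw [ha'] at h7 h8 h10 h6 ⊢
  linarith

/-- the pointwise inequality for the kinetic energy -/
private lemma pw {r t a : ℝ} (hr : 1 ≤ r) (ht : 0 ≤ t) (ha : 0 ≤ a) :
    (t + a) ^ (5 / 3 : ℝ) - t ^ (5 / 3 : ℝ) ≤
      5 / 3 * a * (r * t + (r ^ 2)⁻¹ + a ^ (2 / 3 : ℝ)) := by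
  have hr0 : 0 < r := by linarith
  have h1 : (t + a) ^ (5 / 3 : ℝ) - t ^ (5 / 3 : ℝ) ≤ 5 / 3 * a * (t + a) ^ (2 / 3 : ℝ) := by
    rcases (add_nonneg ht ha).eq_or_lt with h0 | h0
    · have ht0 : t = 0 := by linarith
      have ha0 : a = 0 := by linarith
      rw [ht0, ha0]
      simp
    · have h2 := one_add_mul_self_le_rpow_one_add (s := -a / (t + a)) (by
        rw [le_div_iff₀ h0]
        linarith) (p := 5 / 3) (by norm_num)
      have h3 : 1 + -a / (t + a) = t / (t + a) := by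
        field_simp
        ring
      rw [h3, Real.div_rpow ht h0.le] at h2
      have h4 : 0 < (t + a) ^ (5 / 3 : ℝ) := Real.rpow_pos_of_pos h0 _
      rw [le_div_iff₀ h4] at h2
      have h5 : (t + a) ^ (5 / 3 : ℝ) = (t + a) ^ (2 / 3 : ℝ) * (t + a) := by
        rw [← Real.rpow_add_one h0.ne']
        norm_num
      have h6 : (1 + 5 / 3 * (-a / (t + a))) * (t + a) ^ (5 / 3 : ℝ) =
          (t + a) ^ (5 / 3 : ℝ) - 5 / 3 * a * (t + a) ^ (2 / 3 : ℝ) := by
        rw [h5]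
        field_simp
        ring
      rw [h6] at h2
      linarith
  have h2 : (t + a) ^ (2 / 3 : ℝ) ≤ t ^ (2 / 3 : ℝ) + a ^ (2 / 3 : ℝ) := by
    have := NNReal.rpow_add_le_add_rpow (p := 2 / 3) ⟨t, ht⟩ ⟨a, ha⟩ (by norm_num) (by norm_num)
    exact_mod_cast this
  have h3 : t ^ (2 / 3 : ℝ) ≤ r * t + (r ^ 2)⁻¹ := by
    have h0 : 0 ≤ r * t := mul_nonneg hr0.le ht
    have h0' : 0 ≤ (r ^ 2)⁻¹ := by positivity
    have e2 : ((r ^ 3)⁻¹) ^ (2 / 3 : ℝ) = (r ^ 2)⁻¹ := by
      rw [Real.inv_rpow (by positivity), ← Real.rpow_natCast, ← Real.rpow_natCast,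
        ← Real.rpow_mul hr0.le]
      norm_num
    rcases le_total t ((r ^ 3)⁻¹) with h4 | h4
    · have h5 := Real.rpow_le_rpow ht h4 (by norm_num : (0 : ℝ) ≤ 2 / 3)
      rw [e2] at h5
      linarith
    · have ht0 : 0 < t := lt_of_lt_of_le (by positivity) h4
      have e3 : ((r ^ 3)⁻¹) ^ (1 / 3 : ℝ) = r⁻¹ := by
        rw [Real.inv_rpow (by positivity), ← Real.rpow_natCast, ← Real.rpow_mul hr0.le]
        norm_num
      have h5 := Real.rpow_le_rpow (by positivity) h4 (by norm_num : (0 : ℝ) ≤ 1 / 3)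
      rw [e3] at h5
      have h6 : t = t ^ (2 / 3 : ℝ) * t ^ (1 / 3 : ℝ) := by
        rw [← Real.rpow_add ht0]
        norm_num
      have h7 : 0 ≤ t ^ (2 / 3 : ℝ) := Real.rpow_nonneg ht _
      have h8 : t ^ (2 / 3 : ℝ) * r⁻¹ ≤ t := by
        calc t ^ (2 / 3 : ℝ) * r⁻¹ ≤ t ^ (2 / 3 : ℝ) * t ^ (1 / 3 : ℝ) :=
              mul_le_mul_of_nonneg_left h5 h7
          _ = t := h6.symm
      have h9 : t ^ (2 / 3 : ℝ) ≤ r * t := by
        have := mul_le_mul_of_nonneg_left h8 hr0.le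
        have e4 : r * (t ^ (2 / 3 : ℝ) * r⁻¹) = t ^ (2 / 3 : ℝ) := by
          field_simp
        linarith
      linarith
  have h4 : 0 ≤ 5 / 3 * a := by positivity
  have h5 := mul_le_mul_of_nonneg_left (h2.trans (add_le_add h3 le_rfl)) h4
  linarith

/-- the shell: constant density `a` on the ball of radius `r` -/
private noncomputable def sh (r a : ℝ) : E3 → ℝ := (Metric.ball (0 : E3) r).indicator fun _ => a

private lemma sh_dn {r a : ℝ} (ha : 0 ≤ a) : DN (sh r a) := by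
  refine ⟨fun x => indicator_nonneg (fun _ _ => ha) x, ?_, ?_⟩
  · unfold sh
    rw [integrable_indicator_iff Metric.isOpen_ball.measurableSet]
    exact integrableOn_const measure_ball_lt_top.ne
  · have e : (fun x => sh r a x ^ (5 / 3 : ℝ)) =
        (Metric.ball (0 : E3) r).indicator fun _ => a ^ (5 / 3 : ℝ) := by
      funext x
      unfold sh
      by_cases h : x ∈ Metric.ball (0 : E3) r
      · rw [indicator_of_mem h, indicator_of_mem h]
      · rw [indicator_of_notMem h, indicator_of_notMem h, Real.zero_rpow (by norm_num)]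
    rw [e, integrable_indicator_iff Metric.isOpen_ball.measurableSet]
    exact integrableOn_const measure_ball_lt_top.ne

private lemma sh_int {r a : ℝ} (hr : 0 ≤ r) : ∫ x, sh r a x = a * (4 / 3 * Real.pi * r ^ 3) := by
  unfold sh
  rw [integral_indicator_const _ Metric.isOpen_ball.measurableSet, Measure.real,
    volume_ball_real 0 hr, ENNReal.toReal_ofReal (by positivity), smul_eq_mul]
  ring

private lemma sh_G {r a : ℝ} (hr : 0 ≤ r) (ha : 0 ≤ a) (x : E3) :
    G (sh r a) x ≤ a * (2 * Real.pi * r ^ 2) ∧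
      a * (2 * Real.pi * (r ^ 2 - ‖x‖ ^ 2)) ≤ G (sh r a) x := by
  have hne : ∀ᵐ y : E3, y ≠ x := by
    rw [ae_iff]
    simp
  have e : G (sh r a) x = a * (∫⁻ y in Metric.ball (0 : E3) r, ‖y - x‖ₑ⁻¹).toReal := by
    have e0 : G (sh r a) x = (ENNReal.ofReal a * ∫⁻ y in Metric.ball (0 : E3) r, ‖y - x‖ₑ⁻¹).toReal := by
      unfold G
      rw [integral_eq_lintegral_of_nonneg_ae _ ((sh_dn ha).ld.int_div x).aestronglyMeasurable]
      · congr 1
        rw [← lintegral_const_mul' _ _ ENNReal.ofReal_ne_top,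
          ← lintegral_indicator Metric.isOpen_ball.measurableSet]
        apply lintegral_congr_ae
        filter_upwards [hne] with y hy
        have hpos : 0 < ‖x - y‖ := norm_pos_iff.mpr (sub_ne_zero.mpr (Ne.symm hy))
        unfold sh
        by_cases h : y ∈ Metric.ball (0 : E3) r
        · rw [indicator_of_mem h, indicator_of_mem h, ENNReal.ofReal_div_of_pos hpos, ofReal_norm,
            div_eq_mul_inv, enorm_sub_rev]
        · rw [indicator_of_notMem h, indicator_of_notMem h, zero_div, ENNReal.ofReal_zero]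
      · exact Eventually.of_forall fun y => div_nonneg ((sh_dn ha).nonneg y) (norm_nonneg _)
    rw [e0, ENNReal.toReal_mul, ENNReal.toReal_ofReal ha]
  have h1 := ball_le x hr
  have h2 := ball_ge x hr
  have hfin : (∫⁻ y in Metric.ball (0 : E3) r, ‖y - x‖ₑ⁻¹) ≠ ∞ :=
    (h1.trans_lt ENNReal.ofReal_lt_top).ne
  rw [e]
  constructor
  · apply mul_le_mul_of_nonneg_left _ ha
    have h3 := ENNReal.toReal_mono ENNReal.ofReal_ne_top h1
    rwa [ENNReal.toReal_ofReal (by positivity)] at h3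
  · apply mul_le_mul_of_nonneg_left _ ha
    exact (ENNReal.ofReal_le_iff_le_toReal hfin).1 h2

theorem shell_drop (hγ : 0 < γ) (R : Fin k → E3) (hz : ∀ i, 0 ≤ z i) {N : ℝ} (hN : 0 ≤ N) (hNZ : N < ∑ i, z i) :
    ∃ δ : ℝ, 0 < δ ∧ ∀ ρ, Density N ρ → ∃ ρ', Density (∑ i, z i) ρ' ∧ tf γ R z ρ' ≤ tf γ R z ρ - δ := by
  set Z := ∑ i, z i with hZ
  obtain ⟨η, hη⟩ : ∃ η, η = Z - N := ⟨_, rfl⟩
  have hη0 : 0 < η := by linarith
  have hpi := Real.pi_pos
  obtain ⟨c, hc⟩ : ∃ c, c = 3 * η / (4 * Real.pi) := ⟨_, rfl⟩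
  have hc0 : 0 < c := by rw [hc]; positivity
  set C1 : ℝ := ∑ i, z i * ‖R i‖ ^ 2 with hC1
  have hC10 : 0 ≤ C1 := Finset.sum_nonneg fun i _ => mul_nonneg (hz i) (sq_nonneg _)
  set C2 : ℝ := 5 / 3 * (c * N + η + η * c ^ (2 / 3 : ℝ)) with hC2
  have hC20 : 0 ≤ C2 := by
    have : 0 ≤ c ^ (2 / 3 : ℝ) := Real.rpow_nonneg hc0.le _
    rw [hC2]
    positivity
  set K : ℝ := 3 * η / 2 * C1 + 3 / 5 * γ * C2 with hK
  have hK0 : 0 ≤ K := by rw [hK]; positivity
  obtain ⟨r, hr1, hrK⟩ : ∃ r : ℝ, 1 ≤ r ∧ 8 * K / (3 * η ^ 2) ≤ r :=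
    ⟨max 1 (8 * K / (3 * η ^ 2)), le_max_left _ _, le_max_right _ _⟩
  have hr0 : 0 < r := by linarith
  obtain ⟨a, ha⟩ : ∃ a, a = c / r ^ 3 := ⟨_, rfl⟩
  have ha0 : 0 < a := by rw [ha]; positivity
  refine ⟨3 * η ^ 2 / 8 / r, by positivity, fun ρ hρ => ⟨fun x => ρ x + sh r a x, ?_, ?_⟩⟩
  · have h1 : DN (fun x => ρ x + sh r a x) := (Density.dn hρ).add (sh_dn ha0.le)
    have h2 := h1.density
    have h3 : ∫ x, (ρ x + sh r a x) = Z := by
      rw [integral_add hρ.int (sh_dn ha0.le).int, hρ.mass, sh_int hr0.le, ha, hc]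
      have : 3 * η / (4 * Real.pi) / r ^ 3 * (4 / 3 * Real.pi * r ^ 3) = η := by
        field_simp
      rw [this, hη]
      ring
    rw [h3] at h2
    exact h2
  · have ls := (sh_dn (r := r) ha0.le).ld
    have lρ := (Density.dn hρ).ld
    -- kinetic energy
    have hkin : (∫ x, (ρ x + sh r a x) ^ (5 / 3 : ℝ)) - ∫ x, ρ x ^ (5 / 3 : ℝ) ≤ C2 / r ^ 2 := by
      rw [← integral_sub ((Density.dn hρ).add (sh_dn ha0.le)).int53 hρ.int53]
      have hi : Integrable (fun x => 5 / 3 * a * r * ρ x +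
          5 / 3 * ((r ^ 2)⁻¹ + a ^ (2 / 3 : ℝ)) * sh r a x) :=
        (hρ.int.const_mul _).add ((sh_dn ha0.le).int.const_mul _)
      have h1 : ∫ x, ((ρ x + sh r a x) ^ (5 / 3 : ℝ) - ρ x ^ (5 / 3 : ℝ)) ≤
          ∫ x, (5 / 3 * a * r * ρ x + 5 / 3 * ((r ^ 2)⁻¹ + a ^ (2 / 3 : ℝ)) * sh r a x) := by
        refine integral_mono (((Density.dn hρ).add (sh_dn ha0.le)).int53.sub hρ.int53) hi fun x => ?_
        simp only
        unfold sh
        by_cases h : x ∈ Metric.ball (0 : E3) r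
        · rw [indicator_of_mem h]
          have := pw hr1 (hρ.nonneg x) ha0.le
          refine this.trans (le_of_eq ?_)
          ring
        · rw [indicator_of_notMem h, add_zero, sub_self, mul_zero, add_zero]
          have := hρ.nonneg x
          positivity
      refine h1.trans (le_of_eq ?_)
      rw [integral_add (hρ.int.const_mul _) ((sh_dn ha0.le).int.const_mul _), integral_const_mul,
        integral_const_mul, hρ.mass, sh_int hr0.le]
      have e1 : a * (4 / 3 * Real.pi * r ^ 3) = η := by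
        rw [ha, hc]
        field_simp
      have e2 : a ^ (2 / 3 : ℝ) = c ^ (2 / 3 : ℝ) / r ^ 2 := by
        rw [ha, Real.div_rpow hc0.le (by positivity)]
        congr 1
        rw [← Real.rpow_natCast, ← Real.rpow_natCast, ← Real.rpow_mul hr0.le]
        norm_num
      rw [e1, e2, hC2, ha]
      field_simp
      ring
    -- the potential terms
    have hGle : ∀ x, G (sh r a) x ≤ 3 * η / (2 * r) := by
      intro x
      refine (sh_G hr0.le ha0.le x).1.trans (le_of_eq ?_)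
      rw [ha, hc]
      field_simp
      ring
    have hGge : ∀ x, 3 * η / (2 * r) * (1 - ‖x‖ ^ 2 / r ^ 2) ≤ G (sh r a) x := by
      intro x
      refine le_trans (le_of_eq ?_) (sh_G hr0.le ha0.le x).2
      rw [ha, hc]
      field_simp
      ring
    have hV : 3 * η / (2 * r) * (Z - C1 / r ^ 2) ≤ ∫ x, V R z x * sh r a x := by
      rw [int_V_mul ls R z]
      have : 3 * η / (2 * r) * (Z - C1 / r ^ 2) =
          ∑ i, z i * (3 * η / (2 * r) * (1 - ‖R i‖ ^ 2 / r ^ 2)) := by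
        rw [hZ, hC1, Finset.sum_div, ← Finset.sum_sub_distrib, Finset.mul_sum]
        refine Finset.sum_congr rfl fun i _ => ?_
        ring
      rw [this]
      exact Finset.sum_le_sum fun i _ => mul_le_mul_of_nonneg_left (hGge _) (hz i)
    have hρG : ∫ x, ρ x * G (sh r a) x ≤ 3 * η / (2 * r) * N := by
      have h1 : ∫ x, ρ x * G (sh r a) x ≤ ∫ x, 3 * η / (2 * r) * ρ x := by
        refine integral_mono (lρ.int_mul_G ls) (hρ.int.const_mul _) fun x => ?_
        have := mul_le_mul_of_nonneg_left (hGle x) (hρ.nonneg x)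
        simp only
        linarith
      rwa [integral_const_mul, hρ.mass] at h1
    have hsG : ∫ x, sh r a x * G (sh r a) x ≤ 3 * η / (2 * r) * η := by
      have h1 : ∫ x, sh r a x * G (sh r a) x ≤ ∫ x, 3 * η / (2 * r) * sh r a x := by
        refine integral_mono (ls.int_mul_G ls) ((sh_dn ha0.le).int.const_mul _) fun x => ?_
        have := mul_le_mul_of_nonneg_left (hGle x) ((sh_dn (r := r) ha0.le).nonneg x)
        simp only
        linarith
      rw [integral_const_mul, sh_int hr0.le] at h1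
      have e1 : a * (4 / 3 * Real.pi * r ^ 3) = η := by
        rw [ha, hc]
        field_simp
      rwa [e1] at h1
    have hsym := G_symm ls lρ
    rw [tf_eq, tf_eq]
    have a2 : ∫ x, V R z x * (ρ x + sh r a x) = (∫ x, V R z x * ρ x) + ∫ x, V R z x * sh r a x := by
      rw [← integral_add (lρ.int_V R z) (ls.int_V R z)]
      congr 1
      funext x
      ring
    have a3 : ∫ x, (ρ x + sh r a x) * G (fun x => ρ x + sh r a x) x =
        (∫ x, ρ x * G ρ x) + (∫ x, ρ x * G (sh r a) x) +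
          ((∫ x, sh r a x * G ρ x) + ∫ x, sh r a x * G (sh r a) x) := by
      have i1 : Integrable (fun x => ρ x * G ρ x + ρ x * G (sh r a) x) :=
        (lρ.int_mul_G lρ).add (lρ.int_mul_G ls)
      have i2 : Integrable (fun x => sh r a x * G ρ x + sh r a x * G (sh r a) x) :=
        (ls.int_mul_G lρ).add (ls.int_mul_G ls)
      rw [← integral_add (lρ.int_mul_G lρ) (lρ.int_mul_G ls),
        ← integral_add (ls.int_mul_G lρ) (ls.int_mul_G ls), ← integral_add i1 i2]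
      congr 1
      funext x
      rw [G_add lρ ls x]
      ring
    rw [a2, a3, hsym]
    have hkin' : 3 / 5 * γ * ((∫ x, (ρ x + sh r a x) ^ (5 / 3 : ℝ)) - ∫ x, ρ x ^ (5 / 3 : ℝ)) ≤
        3 / 5 * γ * (C2 / r ^ 2) := mul_le_mul_of_nonneg_left hkin (by positivity)
    -- the numbers
    have hnum : 3 / 5 * γ * (C2 / r ^ 2) - 3 * η / (2 * r) * (Z - C1 / r ^ 2) + 3 * η / (2 * r) * N +
        1 / 2 * (3 * η / (2 * r) * η) ≤ -(3 * η ^ 2 / 8 / r) := by
      have hZN : Z = N + η := by linarith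
      have e1 : 3 / 5 * γ * (C2 / r ^ 2) - 3 * η / (2 * r) * (Z - C1 / r ^ 2) +
          3 * η / (2 * r) * N + 1 / 2 * (3 * η / (2 * r) * η) =
          (3 / 5 * γ * C2 / r + 3 * η / 2 * C1 / r ^ 2 - 3 * η ^ 2 / 4) / r := by
        rw [hZN]
        field_simp
        ring
      have e2 : -(3 * η ^ 2 / 8 / r) = (-(3 * η ^ 2 / 8)) / r := by ring
      rw [e1, e2]
      apply div_le_div_of_nonneg_right _ hr0.le
      have h1 : 3 * η / 2 * C1 / r ^ 2 ≤ 3 * η / 2 * C1 / r := by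
        apply div_le_div_of_nonneg_left (by positivity) hr0
        nlinarith
      have h2 : K / r ≤ 3 * η ^ 2 / 8 := by
        rw [div_le_iff₀ hr0]
        rw [div_le_iff₀ (by positivity)] at hrK
        linarith
      have h3 : 3 / 5 * γ * C2 / r + 3 * η / 2 * C1 / r = K / r := by
        rw [hK]
        ring
      linarith
    linarith

theorem En_Z_lt (hγ : 0 < γ) (R : Fin k → E3) (hz : ∀ i, 0 ≤ z i) {N : ℝ} (hN : 0 ≤ N) (hNZ : N < ∑ i, z i) :
    En γ R z (∑ i, z i) < En γ R z N := by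
  obtain ⟨δ, hδ, h⟩ := shell_drop hγ R hz hN hNZ
  obtain ⟨ρ, hρ, hn⟩ := exists_near hγ R hz hN hδ
  obtain ⟨ρ', hρ', hd⟩ := h ρ hρ
  have h1 := En_le hγ R hz hρ'
  linarith

end Pool.Agent.H50.TM
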