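import Pool.Agent.H50.TM.Geo

/-!
# Module GCont: potentials are (equi)continuous and decay

* `near_le`: `∫_{‖x-y‖<δ} |f y|/‖x-y‖ dy ≤ t ∫ |f|^(5/3) + C_t δ^(1/2)`-type bound: Young for `0 < δ ≤ 1`, any `s > 0`:
  `|f|/‖x-y‖ ≤ s |f|^(5/3) + c(s) ‖x-y‖^(-5/2)` (`Real.young_inequality_of_nonneg`, exponents `5/3`, `5/2`, as in `div_bound` of H23/TF/A3_G), and
  `∫_{‖y‖<δ} ‖y‖^(-5/2) dy → 0` as `δ → 0` (`integrableOn_ball` and dominated convergence, or the explicit value `8 π δ^(1/2)`).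
  So: for every `A, ε > 0` there is `δ > 0` such that the near part is `≤ ε` for all `x` and all `f ∈ Ld` with `∫ |f|^(5/3) ≤ A` (choose `s` with `s A ≤ ε/2`
  first, then `δ`).
* `G_equi`: with `δ` for `ε/4`; the truncated kernel `k(u) = min(1/‖u‖, 1/δ)` satisfies `|k(u) - k(v)| ≤ ‖u-v‖/δ²`, so
  `|G f x - G f y| ≤ (near part at x) + (near part at y) + (‖x-y‖/δ²) ∫ |f|` (`k = 1/‖·‖` off the ball, `0 ≤ 1/‖u‖ - k(u) ≤ 1/‖u‖` on the ball).
* `G_decay`: for `‖x‖ ≥ 2r`, `‖y‖ ≤ r`: `‖x-y‖ ≥ ‖x‖/2`.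
-/

set_option autoImplicit false

open MeasureTheory Set Filter Topology
open scoped ENNReal NNReal

namespace Pool.Agent.H50.TM

open Pool.Agent.H23.TF

/-- integral of `‖y - x‖^(-5/2)` over a ball does not depend on the centre -/
private lemma int_ball_eq (x : E3) (δ : ℝ) :
    ∫ y in Metric.ball x δ, (‖y - x‖ ^ (5 / 2 : ℝ))⁻¹ =
    ∫ y in Metric.ball (0 : E3) δ, (‖y‖ ^ (5 / 2 : ℝ))⁻¹ := by
  rw [← integral_indicator Metric.isOpen_ball.measurableSet,
    ← integral_indicator Metric.isOpen_ball.measurableSet,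
    ← integral_sub_right_eq_self (μ := (volume : Measure E3))
    ((Metric.ball (0 : E3) δ).indicator (fun y : E3 => (‖y‖ ^ (5 / 2 : ℝ))⁻¹)) x]
  congr 1
  ext y
  simp only [indicator, mem_ball_iff_norm, sub_zero]

private lemma int_ball_tendsto :
    Tendsto (fun n : ℕ => ∫ y in Metric.ball (0 : E3) (1 / ((n : ℝ) + 1)), (‖y‖ ^ (5 / 2 : ℝ))⁻¹)
      atTop (𝓝 0) := by
  have h := tendsto_setIntegral_of_antitone (μ := (volume : Measure E3))
    (s := fun n : ℕ => Metric.ball (0 : E3) (1 / ((n : ℝ) + 1)))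
    (f := fun y : E3 => (‖y‖ ^ (5 / 2 : ℝ))⁻¹)
    (fun n => Metric.isOpen_ball.measurableSet)
    (fun m n hmn => Metric.ball_subset_ball (by
      have : (m : ℝ) ≤ n := by exact_mod_cast hmn
      apply one_div_le_one_div_of_le (by positivity) (by linarith)))
    ⟨0, by
      have := integrableOn_ball (p := 5 / 2) (by norm_num) (by norm_num) (0 : E3) (1 / (((0 : ℕ) : ℝ) + 1))
      simpa using this⟩
  have h0 : ∫ y in ⋂ n : ℕ, Metric.ball (0 : E3) (1 / ((n : ℝ) + 1)), (‖y‖ ^ (5 / 2 : ℝ))⁻¹ = 0 := by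
    apply setIntegral_measure_zero
    refine measure_mono_null (t := {(0 : E3)}) ?_ (by simp)
    intro y hy
    rw [mem_singleton_iff]
    rw [mem_iInter] at hy
    by_contra hne
    have hpos : 0 < ‖y‖ := norm_pos_iff.mpr hne
    obtain ⟨n, hn⟩ := exists_nat_one_div_lt hpos
    have := hy n
    rw [mem_ball_iff_norm, sub_zero] at this
    linarith
  rw [h0] at h
  exact h

private lemma young_s {s : ℝ} (hs : 0 < s) (t : ℝ) (x y : E3) :
    |t| / ‖x - y‖ ≤ s ^ (5 / 3 : ℝ) * |t| ^ (5 / 3 : ℝ) +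
      (s⁻¹) ^ (5 / 2 : ℝ) * (‖y - x‖ ^ (5 / 2 : ℝ))⁻¹ := by
  have h1 : 0 ≤ |t| := abs_nonneg t
  have hy : (s * |t|) * (s⁻¹ * ‖x - y‖⁻¹) ≤
      (s * |t|) ^ (5 / 3 : ℝ) / (5 / 3) + (s⁻¹ * ‖x - y‖⁻¹) ^ (5 / 2 : ℝ) / (5 / 2) :=
    Real.young_inequality_of_nonneg (by positivity) (by positivity) ⟨by norm_num, by norm_num, by norm_num⟩
  have e1 : (s * |t|) * (s⁻¹ * ‖x - y‖⁻¹) = |t| / ‖x - y‖ := by
    field_simp
  rw [e1, Real.mul_rpow hs.le h1, Real.mul_rpow (by positivity) (by positivity),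
    Real.inv_rpow (norm_nonneg (x - y)), norm_sub_rev x y] at hy
  rw [norm_sub_rev x y]
  have p1 : 0 ≤ s ^ (5 / 3 : ℝ) * |t| ^ (5 / 3 : ℝ) := by positivity
  have p2 : 0 ≤ (s⁻¹) ^ (5 / 2 : ℝ) * (‖y - x‖ ^ (5 / 2 : ℝ))⁻¹ := by positivity
  have q1 : s ^ (5 / 3 : ℝ) * |t| ^ (5 / 3 : ℝ) / (5 / 3) ≤ s ^ (5 / 3 : ℝ) * |t| ^ (5 / 3 : ℝ) :=
    div_le_self p1 (by norm_num)
  have q2 : (s⁻¹) ^ (5 / 2 : ℝ) * (‖y - x‖ ^ (5 / 2 : ℝ))⁻¹ / (5 / 2) ≤
      (s⁻¹) ^ (5 / 2 : ℝ) * (‖y - x‖ ^ (5 / 2 : ℝ))⁻¹ :=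
    div_le_self p2 (by norm_num)
  linarith

theorem near_le (A : ℝ) {ε : ℝ} (hε : 0 < ε) : ∃ δ : ℝ, 0 < δ ∧ ∀ f : E3 → ℝ, Ld f → (∫ y, |f y| ^ (5 / 3 : ℝ)) ≤ A →
    ∀ x, ∫ y in Metric.ball x δ, |f y| / ‖x - y‖ ≤ ε := by
  -- the parameter of the Young inequality
  set B : ℝ := |A| + 1 with hB
  have hBpos : 0 < B := by positivity
  set s : ℝ := (ε / (2 * B)) ^ (3 / 5 : ℝ) with hs
  have hspos : 0 < s := by positivity
  have hs53 : s ^ (5 / 3 : ℝ) = ε / (2 * B) := by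
    rw [hs, ← Real.rpow_mul (by positivity)]
    norm_num
  set c : ℝ := (s⁻¹) ^ (5 / 2 : ℝ) with hc
  have hcpos : 0 < c := by positivity
  have ht := (int_ball_tendsto.const_mul c)
  rw [mul_zero] at ht
  obtain ⟨n, hn⟩ := (ht.eventually (gt_mem_nhds (show (0 : ℝ) < ε / 2 by positivity))).exists
  refine ⟨1 / ((n : ℝ) + 1), by positivity, fun f hf hA x => ?_⟩
  set δ : ℝ := 1 / ((n : ℝ) + 1) with hδ
  have hi1 : IntegrableOn (fun y => s ^ (5 / 3 : ℝ) * |f y| ^ (5 / 3 : ℝ)) (Metric.ball x δ) :=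
    (hf.i2.const_mul _).integrableOn
  have hi2 : IntegrableOn (fun y : E3 => c * (‖y - x‖ ^ (5 / 2 : ℝ))⁻¹) (Metric.ball x δ) :=
    (integrableOn_ball (p := 5 / 2) (by norm_num) (by norm_num) x δ).const_mul c
  calc ∫ y in Metric.ball x δ, |f y| / ‖x - y‖
      ≤ ∫ y in Metric.ball x δ, (s ^ (5 / 3 : ℝ) * |f y| ^ (5 / 3 : ℝ) + c * (‖y - x‖ ^ (5 / 2 : ℝ))⁻¹) := by
        apply integral_mono (hf.int_abs_div x).integrableOn (hi1.add hi2)
        intro y
        exact young_s hspos (f y) x y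
    _ = s ^ (5 / 3 : ℝ) * (∫ y in Metric.ball x δ, |f y| ^ (5 / 3 : ℝ)) +
        c * ∫ y in Metric.ball (0 : E3) δ, (‖y‖ ^ (5 / 2 : ℝ))⁻¹ := by
        rw [integral_add hi1 hi2, integral_const_mul, integral_const_mul, int_ball_eq x δ]
    _ ≤ ε / 2 + ε / 2 := by
        refine add_le_add ?_ hn.le
        have h1 : ∫ y in Metric.ball x δ, |f y| ^ (5 / 3 : ℝ) ≤ ∫ y, |f y| ^ (5 / 3 : ℝ) :=
          setIntegral_le_integral hf.i2 (Eventually.of_forall fun y => by positivity)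
        have h2 : ∫ y in Metric.ball x δ, |f y| ^ (5 / 3 : ℝ) ≤ B := by
          have := le_abs_self A
          linarith
        rw [hs53]
        calc ε / (2 * B) * (∫ y in Metric.ball x δ, |f y| ^ (5 / 3 : ℝ)) ≤ ε / (2 * B) * B :=
              mul_le_mul_of_nonneg_left h2 (by positivity)
          _ = ε / 2 := by field_simp
    _ = ε := by ring

/-- the kernel `1/a` differs little from `1/b` unless one of them is small -/
private lemma kern_diff {δ a b : ℝ} (hδ : 0 < δ) (ha : 0 ≤ a) (hb : 0 ≤ b) :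
    |1 / a - 1 / b| ≤ (if a < δ then 1 / a else 0) + (if b < δ then 1 / b else 0) + |a - b| / δ ^ 2 := by
  have hc : 0 ≤ |a - b| / δ ^ 2 := by positivity
  have ha' : 0 ≤ 1 / a := by positivity
  have hb' : 0 ≤ 1 / b := by positivity
  have key : ∀ u v : ℝ, 0 ≤ u → u < δ → δ ≤ v → |1 / u - 1 / v| ≤ 1 / u + |u - v| / δ ^ 2 := by
    intro u v hu huδ hv
    have hvpos : 0 < v := lt_of_lt_of_le hδ hv
    rcases eq_or_lt_of_le hu with h0 | h0
    · rw [← h0]
      rw [div_zero, zero_sub, abs_neg, abs_of_nonneg (by positivity), zero_sub, abs_neg, abs_of_pos hvpos, zero_add,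
        div_le_div_iff₀ hvpos (by positivity)]
      nlinarith
    · have h1 : 1 / v ≤ 1 / u := one_div_le_one_div_of_le h0 (by linarith)
      rw [abs_of_nonneg (by linarith)]
      have h2 : 0 ≤ |u - v| / δ ^ 2 := by positivity
      have h3 : 0 ≤ 1 / v := by positivity
      linarith
  by_cases h1 : a < δ
  · by_cases h2 : b < δ
    · rw [if_pos h1, if_pos h2]
      have := abs_sub (1 / a) (1 / b)
      rw [abs_of_nonneg ha', abs_of_nonneg hb'] at this
      linarith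
    · rw [if_pos h1, if_neg h2, add_zero]
      exact key a b ha h1 (not_lt.mp h2)
  · by_cases h2 : b < δ
    · rw [if_neg h1, if_pos h2, zero_add, abs_sub_comm, abs_sub_comm a b]
      exact key b a hb h2 (not_lt.mp h1)
    · rw [if_neg h1, if_neg h2, zero_add, zero_add]
      have h1' := not_lt.mp h1
      have h2' := not_lt.mp h2
      have hapos : 0 < a := lt_of_lt_of_le hδ h1'
      have hbpos : 0 < b := lt_of_lt_of_le hδ h2'
      have e : 1 / a - 1 / b = (b - a) / (a * b) := by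
        field_simp
      rw [e, abs_div, abs_of_pos (mul_pos hapos hbpos), abs_sub_comm]
      apply div_le_div_of_nonneg_left (abs_nonneg _) (by positivity)
      rw [sq]
      exact mul_le_mul h1' h2' hδ.le hapos.le

private lemma ind_eq (f : E3 → ℝ) (x y : E3) (δ : ℝ) :
    (Metric.ball x δ).indicator (fun y => |f y| / ‖x - y‖) y =
      |f y| * (if ‖x - y‖ < δ then 1 / ‖x - y‖ else 0) := by
  by_cases h : y ∈ Metric.ball x δ
  · have h' := h
    rw [mem_ball_iff_norm, norm_sub_rev] at h'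
    rw [indicator_of_mem h, if_pos h', div_eq_mul_one_div]
  · have h' := h
    rw [mem_ball_iff_norm, norm_sub_rev] at h'
    rw [indicator_of_notMem h, if_neg h', mul_zero]

theorem G_equi (A : ℝ) {ε : ℝ} (hε : 0 < ε) : ∃ δ : ℝ, 0 < δ ∧ ∀ f : E3 → ℝ, Ld f → (∫ y, |f y|) ≤ A →
    (∫ y, |f y| ^ (5 / 3 : ℝ)) ≤ A → ∀ x y, ‖x - y‖ < δ → |G f x - G f y| < ε := by
  obtain ⟨δ, hδ, hnear⟩ := near_le A (show 0 < ε / 4 by positivity)
  set B : ℝ := |A| + 1 with hB
  have hBpos : 0 < B := by positivity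
  refine ⟨ε / 4 * δ ^ 2 / B, by positivity, fun f hf h1 h2 x y hxy => ?_⟩
  have n1 := hnear f hf h2 x
  have n2 := hnear f hf h2 y
  have i1 : Integrable ((Metric.ball x δ).indicator (fun w => |f w| / ‖x - w‖)) :=
    (hf.int_abs_div x).indicator Metric.isOpen_ball.measurableSet
  have i2 : Integrable ((Metric.ball y δ).indicator (fun w => |f w| / ‖y - w‖)) :=
    (hf.int_abs_div y).indicator Metric.isOpen_ball.measurableSet
  have i3 : Integrable (fun w => |f w| * (‖x - y‖ / δ ^ 2)) := hf.i1.abs.mul_const _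
  have i12 : Integrable (fun w => (Metric.ball x δ).indicator (fun w => |f w| / ‖x - w‖) w +
      (Metric.ball y δ).indicator (fun w => |f w| / ‖y - w‖) w) := i1.add i2
  have e : G f x - G f y = ∫ w, (f w / ‖x - w‖ - f w / ‖y - w‖) := by
    unfold G
    rw [integral_sub (hf.int_div x) (hf.int_div y)]
  have hle : |G f x - G f y| ≤ (∫ w in Metric.ball x δ, |f w| / ‖x - w‖) +
      (∫ w in Metric.ball y δ, |f w| / ‖y - w‖) + (∫ w, |f w|) * (‖x - y‖ / δ ^ 2) := by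
    rw [e]
    calc |∫ w, (f w / ‖x - w‖ - f w / ‖y - w‖)| ≤ ∫ w, |f w / ‖x - w‖ - f w / ‖y - w‖| :=
          abs_integral_le_integral_abs
      _ ≤ ∫ w, ((Metric.ball x δ).indicator (fun w => |f w| / ‖x - w‖) w +
          (Metric.ball y δ).indicator (fun w => |f w| / ‖y - w‖) w + |f w| * (‖x - y‖ / δ ^ 2)) := by
          apply integral_mono ((hf.int_div x).sub (hf.int_div y)).abs (i12.add i3)
          intro w
          show |f w / ‖x - w‖ - f w / ‖y - w‖| ≤ (Metric.ball x δ).indicator (fun w => |f w| / ‖x - w‖) w +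
            (Metric.ball y δ).indicator (fun w => |f w| / ‖y - w‖) w + |f w| * (‖x - y‖ / δ ^ 2)
          rw [ind_eq f x w δ, ind_eq f y w δ]
          have ef : f w / ‖x - w‖ - f w / ‖y - w‖ = f w * (1 / ‖x - w‖ - 1 / ‖y - w‖) := by ring
          rw [ef, abs_mul, ← mul_add, ← mul_add]
          apply mul_le_mul_of_nonneg_left _ (abs_nonneg _)
          refine (kern_diff hδ (norm_nonneg (x - w)) (norm_nonneg (y - w))).trans ?_
          have h3 : |‖x - w‖ - ‖y - w‖| ≤ ‖x - y‖ := by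
            have := abs_norm_sub_norm_le (x - w) (y - w)
            have e2 : x - w - (y - w) = x - y := by abel
            rwa [e2] at this
          have h4 : |‖x - w‖ - ‖y - w‖| / δ ^ 2 ≤ ‖x - y‖ / δ ^ 2 :=
            div_le_div_of_nonneg_right h3 (by positivity)
          linarith
      _ = _ := by
          rw [integral_add i12 i3, integral_add i1 i2, integral_indicator Metric.isOpen_ball.measurableSet,
            integral_indicator Metric.isOpen_ball.measurableSet, integral_mul_const]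
  have h5 : (∫ w, |f w|) * (‖x - y‖ / δ ^ 2) < ε / 2 := by
    have hb : ∫ w, |f w| ≤ B := by
      have := le_abs_self A
      linarith
    have hq : ‖x - y‖ / δ ^ 2 < ε / 4 / B := by
      rw [div_lt_div_iff₀ (by positivity) hBpos]
      rw [lt_div_iff₀ hBpos] at hxy
      exact hxy
    have hq0 : 0 ≤ ‖x - y‖ / δ ^ 2 := by positivity
    calc (∫ w, |f w|) * (‖x - y‖ / δ ^ 2) ≤ B * (‖x - y‖ / δ ^ 2) := mul_le_mul_of_nonneg_right hb hq0
      _ ≤ B * (ε / 4 / B) := mul_le_mul_of_nonneg_left hq.le hBpos.le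
      _ = ε / 4 := by field_simp
      _ < ε / 2 := by linarith
  linarith

theorem continuous_G {f : E3 → ℝ} (hf : Ld f) : Continuous (G f) := by
  rw [Metric.continuous_iff]
  intro x ε hε
  obtain ⟨δ, hδ, h⟩ := G_equi (max (∫ y, |f y|) (∫ y, |f y| ^ (5 / 3 : ℝ))) hε
  refine ⟨δ, hδ, fun y hy => ?_⟩
  rw [dist_eq_norm] at hy
  rw [Real.dist_eq]
  exact h f hf (le_max_left _ _) (le_max_right _ _) y x hy

theorem G_decay {f : E3 → ℝ} (hf : Ld f) {r : ℝ} (hr : ∀ x, r ≤ ‖x‖ → f x = 0) {x : E3} (hx0 : x ≠ 0) (hx : 2 * r ≤ ‖x‖) :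
    |G f x| ≤ 2 * (∫ y, |f y|) / ‖x‖ := by
  have hxpos : 0 < ‖x‖ := norm_pos_iff.mpr hx0
  have h1 : |G f x| ≤ ∫ y, |f y| * (2 / ‖x‖) := by
    unfold G
    calc |∫ y, f y / ‖x - y‖| ≤ ∫ y, |f y / ‖x - y‖| := abs_integral_le_integral_abs
      _ ≤ ∫ y, |f y| * (2 / ‖x‖) := by
        apply integral_mono (hf.int_div x).abs (hf.i1.abs.mul_const _)
        intro y
        show |f y / ‖x - y‖| ≤ |f y| * (2 / ‖x‖)
        by_cases hy : r ≤ ‖y‖
        · rw [hr y hy]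
          simp
        · rw [abs_div, abs_norm, div_eq_mul_one_div]
          apply mul_le_mul_of_nonneg_left _ (abs_nonneg _)
          have h2 : ‖x‖ / 2 ≤ ‖x - y‖ := by
            have := norm_sub_norm_le x y
            rw [not_le] at hy
            linarith
          calc 1 / ‖x - y‖ ≤ 1 / (‖x‖ / 2) := one_div_le_one_div_of_le (by positivity) h2
            _ = 2 / ‖x‖ := by field_simp
  rw [integral_mul_const] at h1
  calc |G f x| ≤ (∫ y, |f y|) * (2 / ‖x‖) := h1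
    _ = 2 * (∫ y, |f y|) / ‖x‖ := by ring

end Pool.Agent.H50.TM
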