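import Pool.Agent.H50.TM.GeoM
import Pool.Agent.H50.TM.GCont

/-!
# Module DG: the derivative of `G f` in the direction `e0`

`f ∈ Ld` measurable, `|f y| ≤ C` for `y₀ > -d`. `H x = ∫ f y (x₀-y₀)/‖x-y‖³ dy`.
* `dG_int`, `dG_bdd`: for `x₀ ≥ a > -d`: `|(x₀-y₀)/‖x-y‖³| ≤ ‖x-y‖^(-2)`; for `‖x-y‖ ≥ δ := min 1 ((a+d)/2)`: `≤ δ^(-2) |f y|`; for `‖x-y‖ < δ`: `y₀ > -d`, so
  `≤ C ‖x-y‖^(-2)`, integral `4πCδ`. (`integrableOn_ball`, `p = 2`.)
* `dG_cont`: `H` is continuous at every `x` with `x₀ > -d`: truncated kernel (multiply by the cut-off `min(‖u‖/ε, 1)` or use `q_ε(u) = u₀/max(‖u‖,ε)³`, continuous and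
  bounded, dominated convergence), remainder `≤ 2 C ∫_{‖u‖<ε} ‖u‖^(-2) = 8πCε` uniformly near `x`.
* `dG`: for `a.e. y` (not on the line `x + ℝ e0`): `1/‖x+t e0-y‖ - 1/‖x-y‖ = -∫_0^t (x₀+s-y₀)/‖x+s e0-y‖³ ds`; Fubini (`∫_0^t ∫ |f| ‖x+s e0-y‖^(-2) dy ds < ∞`):
  `G f (x + t e0) - G f x = -∫_0^t H(x + s e0) ds`; `H` is continuous, so the derivative at `t = 0` is `-H x`.
-/

set_option autoImplicit false

open MeasureTheory Set Filter Topology
open scoped ENNReal NNReal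

namespace Pool.Agent.H50.TM

open Pool.Agent.H23.TF

variable {f : E3 → ℝ} {d C : ℝ}

/-- singular kernel on a ball -/
private noncomputable def kb (x : E3) (δ : ℝ) (y : E3) : ℝ :=
  (Metric.ball x δ).indicator (fun y => (‖y - x‖ ^ 2)⁻¹) y

private lemma kb_nonneg (x : E3) (δ : ℝ) (y : E3) : 0 ≤ kb x δ y :=
  indicator_nonneg (fun y _ => by positivity) y

private lemma kb_int (x : E3) (δ : ℝ) : Integrable (kb x δ) := by
  have h := (integrable_indicator_iff (μ := (volume : Measure E3)) Metric.isOpen_ball.measurableSet).mpr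
    (integrableOn_ball (p := 2) (by norm_num) (by norm_num) x δ)
  refine h.congr (Eventually.of_forall fun y => ?_)
  unfold kb
  simp only [Real.rpow_two]

private lemma kb_eq (x : E3) (δ : ℝ) : ∫ y, kb x δ y = ∫ y, kb 0 δ y := by
  rw [← integral_sub_right_eq_self (μ := (volume : Measure E3)) (kb 0 δ) x]
  congr 1
  ext y
  unfold kb
  by_cases h : y ∈ Metric.ball x δ
  · have h' : y - x ∈ Metric.ball (0 : E3) δ := by
      rw [mem_ball_zero_iff]; rwa [mem_ball_iff_norm] at h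
    rw [indicator_of_mem h, indicator_of_mem h', sub_zero]
  · have h' : y - x ∉ Metric.ball (0 : E3) δ := by
      rw [mem_ball_zero_iff]; rwa [mem_ball_iff_norm] at h
    rw [indicator_of_notMem h, indicator_of_notMem h']

private lemma kb_small {ε : ℝ} (hε : 0 < ε) : ∃ δ0 : ℝ, 0 < δ0 ∧ ∀ δ, δ ≤ δ0 → ∫ y, kb 0 δ y < ε := by
  have h1 : Tendsto (fun n : ℕ => ∫ y in Metric.ball (0 : E3) (1 / ((n : ℝ) + 1)), (‖y - 0‖ ^ 2)⁻¹) atTop
      (𝓝 (∫ y in ⋂ n : ℕ, Metric.ball (0 : E3) (1 / ((n : ℝ) + 1)), (‖y - 0‖ ^ 2)⁻¹)) := by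
    apply tendsto_setIntegral_of_antitone
    · exact fun n => Metric.isOpen_ball.measurableSet
    · intro m n hmn
      apply Metric.ball_subset_ball
      apply one_div_le_one_div_of_le (by positivity)
      have : (m : ℝ) ≤ n := by exact_mod_cast hmn
      linarith
    · refine ⟨0, ?_⟩
      have h := (integrable_indicator_iff (μ := (volume : Measure E3)) Metric.isOpen_ball.measurableSet).mp
        (kb_int 0 (1 / (((0 : ℕ) : ℝ) + 1)))
      exact h
  have h2 : ⋂ n : ℕ, Metric.ball (0 : E3) (1 / ((n : ℝ) + 1)) ⊆ {0} := by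
    intro y hy
    rw [mem_iInter] at hy
    rw [mem_singleton_iff]
    by_contra hne
    have hpos : 0 < ‖y‖ := norm_pos_iff.mpr hne
    obtain ⟨n, hn⟩ := exists_nat_one_div_lt hpos
    have := hy n
    rw [mem_ball_zero_iff] at this
    linarith
  have h3 : ∫ y in ⋂ n : ℕ, Metric.ball (0 : E3) (1 / ((n : ℝ) + 1)), (‖y - 0‖ ^ 2)⁻¹ = 0 := by
    apply setIntegral_measure_zero
    exact measure_mono_null h2 (measure_singleton 0)
  rw [h3] at h1
  obtain ⟨n, hn⟩ := (h1.eventually_lt_const hε).exists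
  refine ⟨1 / ((n : ℝ) + 1), by positivity, fun δ hδ => lt_of_le_of_lt ?_ hn⟩
  have e : ∫ y in Metric.ball (0 : E3) (1 / ((n : ℝ) + 1)), (‖y - 0‖ ^ 2)⁻¹ = ∫ y, kb 0 (1 / ((n : ℝ) + 1)) y := by
    rw [← integral_indicator Metric.isOpen_ball.measurableSet]
    rfl
  rw [e]
  apply integral_mono (kb_int _ _) (kb_int _ _)
  intro y
  unfold kb
  exact indicator_le_indicator_of_subset (Metric.ball_subset_ball hδ) (fun y => by positivity) y

private lemma key_bound (hb : ∀ y : E3, -d < y 0 → |f y| ≤ C) {x : E3} {δ : ℝ} (hδ : 0 < δ) (hx : δ ≤ x 0 + d)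
    (y : E3) : |f y| * (‖x - y‖ ^ 2)⁻¹ ≤ (δ ^ 2)⁻¹ * |f y| + |C| * kb x δ y := by
  by_cases h : y ∈ Metric.ball x δ
  · have h' : ‖y - x‖ < δ := by rwa [mem_ball_iff_norm] at h
    have h0 : |(y - x) 0| ≤ ‖y - x‖ := abs_zero_le _
    have h1 : (y - x) 0 = y 0 - x 0 := by simp
    rw [h1] at h0
    have h2 : -d < y 0 := by
      have := neg_abs_le (y 0 - x 0)
      linarith
    have h3 := hb y h2
    unfold kb
    rw [indicator_of_mem h, norm_sub_rev x y]
    have h4 : |f y| * (‖y - x‖ ^ 2)⁻¹ ≤ |C| * (‖y - x‖ ^ 2)⁻¹ :=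
      mul_le_mul_of_nonneg_right (h3.trans (le_abs_self C)) (by positivity)
    have h5 : 0 ≤ (δ ^ 2)⁻¹ * |f y| := by positivity
    linarith
  · have h' : δ ≤ ‖x - y‖ := by
      rw [mem_ball_iff_norm, not_lt] at h
      rwa [norm_sub_rev]
    have h1 : (‖x - y‖ ^ 2)⁻¹ ≤ (δ ^ 2)⁻¹ := by
      apply inv_anti₀ (by positivity)
      exact pow_le_pow_left₀ hδ.le h' 2
    have h2 : |f y| * (‖x - y‖ ^ 2)⁻¹ ≤ (δ ^ 2)⁻¹ * |f y| := by
      rw [mul_comm]
      exact mul_le_mul_of_nonneg_right h1 (abs_nonneg _)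
    have h3 : 0 ≤ |C| * kb x δ y := mul_nonneg (abs_nonneg _) (kb_nonneg _ _ _)
    linarith

private lemma meas_ker (hm : Measurable f) (x : E3) : Measurable (fun y => |f y| * (‖x - y‖ ^ 2)⁻¹) := by
  fun_prop

private lemma key_int (hf : Ld f) (hm : Measurable f) (hb : ∀ y : E3, -d < y 0 → |f y| ≤ C) {x : E3} {δ : ℝ}
    (hδ : 0 < δ) (hx : δ ≤ x 0 + d) : Integrable (fun y => |f y| * (‖x - y‖ ^ 2)⁻¹) := by
  have h1 : Integrable (fun y => (δ ^ 2)⁻¹ * |f y| + |C| * kb x δ y) :=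
    (hf.i1.abs.const_mul _).add ((kb_int x δ).const_mul _)
  refine h1.mono' (meas_ker hm x).aestronglyMeasurable (Eventually.of_forall fun y => ?_)
  rw [Real.norm_eq_abs, abs_of_nonneg (by positivity)]
  exact key_bound hb hδ hx y

theorem dG_int (hf : Ld f) (hm : Measurable f) (hb : ∀ y : E3, -d < y 0 → |f y| ≤ C) {x : E3} (hx : -d < x 0) :
    Integrable (fun y => |f y| * (‖x - y‖ ^ 2)⁻¹) :=
  key_int hf hm hb (δ := x 0 + d) (by linarith) le_rfl

private lemma key_int_le (hf : Ld f) (hm : Measurable f) (hb : ∀ y : E3, -d < y 0 → |f y| ≤ C) {x : E3} {δ : ℝ}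
    (hδ : 0 < δ) (hx : δ ≤ x 0 + d) :
    ∫ y, |f y| * (‖x - y‖ ^ 2)⁻¹ ≤ (δ ^ 2)⁻¹ * (∫ y, |f y|) + |C| * ∫ y, kb 0 δ y := by
  have h1 : Integrable (fun y => (δ ^ 2)⁻¹ * |f y|) := hf.i1.abs.const_mul _
  have h2 : Integrable (fun y => |C| * kb x δ y) := (kb_int x δ).const_mul _
  calc ∫ y, |f y| * (‖x - y‖ ^ 2)⁻¹ ≤ ∫ y, ((δ ^ 2)⁻¹ * |f y| + |C| * kb x δ y) :=
        integral_mono (key_int hf hm hb hδ hx) (h1.add h2) (fun y => key_bound hb hδ hx y)
    _ = _ := by rw [integral_add h1 h2, integral_const_mul, integral_const_mul, kb_eq]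

theorem dG_bdd (hf : Ld f) (hm : Measurable f) (hb : ∀ y : E3, -d < y 0 → |f y| ≤ C) {a : ℝ} (ha : -d < a) :
    ∃ B : ℝ, ∀ x : E3, a ≤ x 0 → ∫ y, |f y| * (‖x - y‖ ^ 2)⁻¹ ≤ B :=
  ⟨_, fun x hx => key_int_le hf hm hb (δ := a + d) (by linarith) (by linarith)⟩

private lemma meas_H : Measurable (Function.uncurry fun x y : E3 => (x 0 - y 0) / ‖x - y‖ ^ 3) := by
  unfold Function.uncurry
  fun_prop

theorem dG_meas (hm : Measurable f) : Measurable (fun x : E3 => ∫ y, f y * ((x 0 - y 0) / ‖x - y‖ ^ 3)) := by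
  have h : StronglyMeasurable (Function.uncurry fun x y : E3 => f y * ((x 0 - y 0) / ‖x - y‖ ^ 3)) := by
    apply Measurable.stronglyMeasurable
    unfold Function.uncurry
    fun_prop
  exact (h.integral_prod_right (ν := (volume : Measure E3))).measurable

private lemma ker_le (x y : E3) : |(x 0 - y 0) / ‖x - y‖ ^ 3| ≤ (‖x - y‖ ^ 2)⁻¹ := by
  have h0 : |(x - y) 0| ≤ ‖x - y‖ := abs_zero_le _
  have h1 : (x - y) 0 = x 0 - y 0 := by simp
  rw [h1] at h0
  rw [abs_div, abs_of_nonneg (pow_nonneg (norm_nonneg _) 3)]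
  rcases eq_or_lt_of_le (norm_nonneg (x - y)) with h | h
  · rw [← h] at h0 ⊢
    simp
  · rw [div_le_iff₀ (by positivity)]
    calc |x 0 - y 0| ≤ ‖x - y‖ := h0
      _ = (‖x - y‖ ^ 2)⁻¹ * ‖x - y‖ ^ 3 := by field_simp

/-- the truncated kernel -/
private noncomputable def qk (δ : ℝ) (u : E3) : ℝ := u 0 / (max ‖u‖ δ) ^ 3

private lemma qk_cont {δ : ℝ} (hδ : 0 < δ) : Continuous (qk δ) := by
  unfold qk
  refine Continuous.div ?_ ?_ ?_
  · exact continuous_zero
  · fun_prop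
  · intro u
    have : 0 < max ‖u‖ δ := lt_max_of_lt_right hδ
    positivity

private lemma qk_bdd {δ : ℝ} (hδ : 0 < δ) (u : E3) : |qk δ u| ≤ (δ ^ 2)⁻¹ := by
  unfold qk
  have hM : 0 < max ‖u‖ δ := lt_max_of_lt_right hδ
  have h0 : |u 0| ≤ max ‖u‖ δ := (abs_zero_le u).trans (le_max_left _ _)
  rw [abs_div, abs_of_nonneg (by positivity : 0 ≤ (max ‖u‖ δ) ^ 3), div_le_iff₀ (by positivity)]
  have h1 : (δ ^ 2)⁻¹ * (δ ^ 2 * max ‖u‖ δ) = max ‖u‖ δ := by field_simp
  have h2 : δ ^ 2 * max ‖u‖ δ ≤ (max ‖u‖ δ) ^ 3 := by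
    have : δ ^ 2 ≤ (max ‖u‖ δ) ^ 2 := pow_le_pow_left₀ hδ.le (le_max_right _ _) 2
    nlinarith
  calc |u 0| ≤ max ‖u‖ δ := h0
    _ = (δ ^ 2)⁻¹ * (δ ^ 2 * max ‖u‖ δ) := h1.symm
    _ ≤ (δ ^ 2)⁻¹ * (max ‖u‖ δ) ^ 3 := mul_le_mul_of_nonneg_left h2 (by positivity)

private lemma qk_diff {δ : ℝ} (hδ : 0 < δ) (x y : E3) :
    |(x 0 - y 0) / ‖x - y‖ ^ 3 - qk δ (x - y)| ≤ kb x δ y := by
  have h1 : (x - y) 0 = x 0 - y 0 := by simp
  by_cases h : y ∈ Metric.ball x δ
  · have h' : ‖x - y‖ < δ := by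
      rw [mem_ball_iff_norm] at h
      rwa [norm_sub_rev]
    unfold kb qk
    rw [indicator_of_mem h, norm_sub_rev y x, max_eq_right h'.le, h1]
    rcases eq_or_lt_of_le (norm_nonneg (x - y)) with h2 | h2
    · have h3 : x 0 - y 0 = 0 := by
        have h0 : |(x - y) 0| ≤ ‖x - y‖ := abs_zero_le _
        rw [h1, ← h2] at h0
        exact abs_eq_zero.mp (le_antisymm h0 (abs_nonneg _))
      rw [h3, ← h2]
      simp
    · have h3 : (x 0 - y 0) / ‖x - y‖ ^ 3 - (x 0 - y 0) / δ ^ 3 =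
          ((x 0 - y 0) / ‖x - y‖ ^ 3) * (1 - ‖x - y‖ ^ 3 / δ ^ 3) := by
        field_simp
      rw [h3, abs_mul]
      have h4 : 0 ≤ ‖x - y‖ ^ 3 / δ ^ 3 := by positivity
      have h5 : ‖x - y‖ ^ 3 / δ ^ 3 ≤ 1 := by
        rw [div_le_one (by positivity)]
        exact pow_le_pow_left₀ (norm_nonneg _) h'.le 3
      have h6 : |1 - ‖x - y‖ ^ 3 / δ ^ 3| ≤ 1 := by
        rw [abs_le]; constructor <;> linarith
      calc |(x 0 - y 0) / ‖x - y‖ ^ 3| * |1 - ‖x - y‖ ^ 3 / δ ^ 3|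
          ≤ (‖x - y‖ ^ 2)⁻¹ * 1 := mul_le_mul (ker_le x y) h6 (abs_nonneg _) (by positivity)
        _ = _ := mul_one _
  · have h' : δ ≤ ‖x - y‖ := by
      rw [mem_ball_iff_norm, not_lt] at h
      rwa [norm_sub_rev]
    unfold kb qk
    rw [indicator_of_notMem h, max_eq_left h', h1, sub_self, abs_zero]

private lemma int_H (hf : Ld f) (hm : Measurable f) (hb : ∀ y : E3, -d < y 0 → |f y| ≤ C) {x : E3} (hx : -d < x 0) :
    Integrable (fun y => f y * ((x 0 - y 0) / ‖x - y‖ ^ 3)) := by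
  refine (dG_int hf hm hb hx).mono' ?_ (Eventually.of_forall fun y => ?_)
  · apply Measurable.aestronglyMeasurable
    fun_prop
  · rw [Real.norm_eq_abs, abs_mul]
    exact mul_le_mul_of_nonneg_left (ker_le x y) (abs_nonneg _)

private lemma int_Hq (hf : Ld f) {δ : ℝ} (hδ : 0 < δ) (x : E3) : Integrable (fun y => f y * qk δ (x - y)) := by
  refine (hf.i1.abs.mul_const (δ ^ 2)⁻¹).mono' ?_ (Eventually.of_forall fun y => ?_)
  · exact hf.i1.1.mul ((qk_cont hδ).comp (continuous_const.sub continuous_id)).aestronglyMeasurable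
  · rw [Real.norm_eq_abs, abs_mul]
    exact mul_le_mul_of_nonneg_left (qk_bdd hδ _) (abs_nonneg _)

private lemma diff_H (hf : Ld f) (hm : Measurable f) (hb : ∀ y : E3, -d < y 0 → |f y| ≤ C) {x : E3} {δ : ℝ}
    (hδ : 0 < δ) (hx : δ ≤ x 0 + d) :
    |(∫ y, f y * ((x 0 - y 0) / ‖x - y‖ ^ 3)) - ∫ y, f y * qk δ (x - y)| ≤ |C| * ∫ y, kb 0 δ y := by
  rw [← integral_sub (int_H hf hm hb (by linarith)) (int_Hq hf hδ x)]
  calc |∫ y, (f y * ((x 0 - y 0) / ‖x - y‖ ^ 3) - f y * qk δ (x - y))|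
      ≤ ∫ y, |f y * ((x 0 - y 0) / ‖x - y‖ ^ 3) - f y * qk δ (x - y)| := abs_integral_le_integral_abs
    _ ≤ ∫ y, |C| * kb x δ y := by
        apply integral_mono_of_nonneg (Eventually.of_forall fun y => abs_nonneg _) ((kb_int x δ).const_mul _)
        refine Eventually.of_forall fun y => ?_
        simp only
        rw [← mul_sub, abs_mul]
        by_cases h : y ∈ Metric.ball x δ
        · have h' : ‖y - x‖ < δ := by rwa [mem_ball_iff_norm] at h
          have h0 : |(y - x) 0| ≤ ‖y - x‖ := abs_zero_le _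
          have h1 : (y - x) 0 = y 0 - x 0 := by simp
          rw [h1] at h0
          have h2 : -d < y 0 := by
            have := neg_abs_le (y 0 - x 0)
            linarith
          exact mul_le_mul ((hb y h2).trans (le_abs_self C)) (qk_diff hδ x y) (abs_nonneg _) (abs_nonneg _)
        · have h3 := qk_diff hδ x y
          have h4 : kb x δ y = 0 := by
            unfold kb
            rw [indicator_of_notMem h]
          rw [h4] at h3 ⊢
          rw [le_antisymm h3 (abs_nonneg _)]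
          simp
    _ = |C| * ∫ y, kb 0 δ y := by rw [integral_const_mul, kb_eq]

theorem dG_cont (hf : Ld f) (hm : Measurable f) (hb : ∀ y : E3, -d < y 0 → |f y| ≤ C) {x : E3} (hx : -d < x 0) :
    ContinuousAt (fun x : E3 => ∫ y, f y * ((x 0 - y 0) / ‖x - y‖ ^ 3)) x := by
  rw [Metric.continuousAt_iff]
  intro ε hε
  obtain ⟨δ0, hδ0, hsm⟩ := kb_small (ε := ε / (4 * (|C| + 1))) (by positivity)
  obtain ⟨δ, hδ, hδ1, hδ2⟩ : ∃ δ : ℝ, 0 < δ ∧ δ ≤ δ0 ∧ δ ≤ (x 0 + d) / 2 :=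
    ⟨min δ0 ((x 0 + d) / 2), lt_min hδ0 (by linarith), min_le_left _ _, min_le_right _ _⟩
  have hK := hsm δ hδ1
  have hK2 : |C| * ∫ y, kb 0 δ y ≤ ε / 4 := by
    calc |C| * ∫ y, kb 0 δ y ≤ |C| * (ε / (4 * (|C| + 1))) := mul_le_mul_of_nonneg_left hK.le (abs_nonneg _)
      _ = (ε / 4) * (|C| / (|C| + 1)) := by field_simp
      _ ≤ (ε / 4) * 1 := by
          apply mul_le_mul_of_nonneg_left _ (by positivity)
          rw [div_le_one (by positivity)]
          linarith [abs_nonneg C]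
      _ = ε / 4 := mul_one _
  have hcont : Continuous (fun x : E3 => ∫ y, f y * qk δ (x - y)) := by
    apply continuous_of_dominated (bound := fun y => |f y| * (δ ^ 2)⁻¹)
    · intro x
      exact (int_Hq hf hδ x).1
    · intro x
      refine Eventually.of_forall fun y => ?_
      rw [Real.norm_eq_abs, abs_mul]
      exact mul_le_mul_of_nonneg_left (qk_bdd hδ _) (abs_nonneg _)
    · exact hf.i1.abs.mul_const _
    · refine Eventually.of_forall fun y => ?_
      exact continuous_const.mul ((qk_cont hδ).comp (continuous_id.sub continuous_const))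
  obtain ⟨η, hη, hη2⟩ := Metric.continuousAt_iff.mp (hcont.continuousAt (x := x)) (ε / 4) (by positivity)
  refine ⟨min η ((x 0 + d) / 2), lt_min hη (by linarith), fun {x'} hx' => ?_⟩
  have h1 : dist x' x < η := lt_of_lt_of_le hx' (min_le_left _ _)
  have h2 : dist x' x < (x 0 + d) / 2 := lt_of_lt_of_le hx' (min_le_right _ _)
  have h3 : δ ≤ x' 0 + d := by
    have h0 : |(x' - x) 0| ≤ ‖x' - x‖ := abs_zero_le _
    have h4 : (x' - x) 0 = x' 0 - x 0 := by simp
    rw [h4] at h0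
    rw [dist_eq_norm] at h2
    have := neg_abs_le (x' 0 - x 0)
    linarith
  have h4 := diff_H hf hm hb hδ h3
  have h5 := diff_H hf hm hb (x := x) hδ (by linarith)
  have h6 := hη2 h1
  rw [Real.dist_eq] at h6 ⊢
  have h7 := abs_le.mp h4
  have h8 := abs_le.mp h5
  have h9 := abs_lt.mp h6
  rw [abs_lt]
  constructor <;> linarith [h7.1, h7.2, h8.1, h8.2, h9.1, h9.2]

private lemma ae_off (x : E3) : ∀ᵐ y : E3, y 1 ≠ x 1 := by
  have h1 := Measure.ae_eval_ne (fun _ : Fin 3 => (volume : Measure ℝ)) 1 (x 1)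
  have h2 := (PiLp.volume_preserving_ofLp (Fin 3)).quasiMeasurePreserving.ae
    (p := fun y : Fin 3 → ℝ => y 1 ≠ x 1) (by rw [volume_pi]; exact h1)
  exact h2

private lemma norm_sq_three (x : E3) : ‖x‖ ^ 2 = x 0 ^ 2 + (x 1 ^ 2 + x 2 ^ 2) := by
  rw [EuclideanSpace.norm_sq_eq, Fin.sum_univ_three]
  simp
  ring

private lemma norm_line (u : E3) (s : ℝ) : ‖u + s • e0‖ = Real.sqrt ((u 0 + s) ^ 2 + (u 1 ^ 2 + u 2 ^ 2)) := by
  have h : ‖u + s • e0‖ ^ 2 = (u 0 + s) ^ 2 + (u 1 ^ 2 + u 2 ^ 2) := by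
    rw [norm_sq_three]
    simp [e0]
  rw [← h, Real.sqrt_sq (norm_nonneg _)]

private lemma deriv_line {u : E3} (hu : u 1 ≠ 0) (s : ℝ) :
    HasDerivAt (fun s : ℝ => 1 / ‖u + s • e0‖) (-((u 0 + s) / ‖u + s • e0‖ ^ 3)) s := by
  have hr : 0 < u 1 ^ 2 + u 2 ^ 2 := by positivity
  have e : (fun s : ℝ => 1 / ‖u + s • e0‖) =
      fun s : ℝ => (Real.sqrt ((u 0 + s) ^ 2 + (u 1 ^ 2 + u 2 ^ 2)))⁻¹ := by
    funext s
    rw [norm_line, one_div]
  rw [e, norm_line]
  have hw : 0 < (u 0 + s) ^ 2 + (u 1 ^ 2 + u 2 ^ 2) := by positivity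
  have h1 : HasDerivAt (fun s : ℝ => (u 0 + s) ^ 2 + (u 1 ^ 2 + u 2 ^ 2)) (2 * (u 0 + s)) s := by
    have := (((hasDerivAt_id s).const_add (u 0)).pow 2).add_const (u 1 ^ 2 + u 2 ^ 2)
    simpa using this
  have h2 := (h1.sqrt hw.ne').inv (Real.sqrt_pos.mpr hw).ne'
  refine h2.congr_deriv ?_
  have hs : 0 < Real.sqrt ((u 0 + s) ^ 2 + (u 1 ^ 2 + u 2 ^ 2)) := Real.sqrt_pos.mpr hw
  field_simp

private lemma pos_line {u : E3} (hu : u 1 ≠ 0) (s : ℝ) : 0 < ‖u + s • e0‖ := by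
  rw [norm_line]
  apply Real.sqrt_pos.mpr
  positivity

private lemma ftc_line {u : E3} (hu : u 1 ≠ 0) (t : ℝ) :
    ∫ s in (0 : ℝ)..t, -((u 0 + s) / ‖u + s • e0‖ ^ 3) = 1 / ‖u + t • e0‖ - 1 / ‖u‖ := by
  have h := intervalIntegral.integral_eq_sub_of_hasDerivAt (a := 0) (b := t)
    (f := fun s : ℝ => 1 / ‖u + s • e0‖) (f' := fun s : ℝ => -((u 0 + s) / ‖u + s • e0‖ ^ 3))
    (fun s _ => deriv_line hu s) ?_
  · rw [h]
    simp
  · apply Continuous.intervalIntegrable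
    refine (Continuous.div (by fun_prop) (by fun_prop) ?_).neg
    intro s
    have := pos_line hu s
    positivity

private lemma G_line (hf : Ld f) (hm : Measurable f) (hb : ∀ y : E3, -d < y 0 → |f y| ≤ C) {x : E3} (hx : -d < x 0)
    {t : ℝ} (ht : |t| ≤ (x 0 + d) / 2) :
    G f (x + t • e0) - G f x =
      ∫ s in (0 : ℝ)..t, -(∫ y, f y * (((x + s • e0) 0 - y 0) / ‖x + s • e0 - y‖ ^ 3)) := by
  have hmem : ∀ s ∈ Set.uIoc 0 t, (x 0 - d) / 2 ≤ (x + s • e0) 0 := by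
    intro s hs
    have h1 : |s| ≤ |t| := by
      rcases le_total 0 t with h | h
      · rw [uIoc_of_le h] at hs
        rw [abs_of_nonneg h, abs_of_nonneg hs.1.le]
        exact hs.2
      · rw [uIoc_of_ge h] at hs
        rw [abs_of_nonpos h, abs_of_nonpos hs.2]
        linarith [hs.1]
    have h2 := neg_abs_le s
    simp only [add_e0_zero]
    linarith
  obtain ⟨B, hB⟩ := dG_bdd hf hm hb (a := (x 0 - d) / 2) (by linarith)
  have hmeas : Measurable (Function.uncurry fun (s : ℝ) (y : E3) =>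
      f y * (((x + s • e0) 0 - y 0) / ‖x + s • e0 - y‖ ^ 3)) := by
    unfold Function.uncurry
    fun_prop
  have hint : Integrable (Function.uncurry fun (s : ℝ) (y : E3) =>
      f y * (((x + s • e0) 0 - y 0) / ‖x + s • e0 - y‖ ^ 3))
      ((volume.restrict (Set.uIoc 0 t)).prod (volume : Measure E3)) := by
    rw [integrable_prod_iff hmeas.aestronglyMeasurable]
    constructor
    · rw [ae_restrict_iff' measurableSet_uIoc]
      refine Eventually.of_forall fun s hs => ?_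
      exact int_H hf hm hb (lt_of_lt_of_le (by linarith) (hmem s hs))
    · have hms : AEStronglyMeasurable (fun s : ℝ => ∫ y, ‖Function.uncurry (fun (s : ℝ) (y : E3) =>
          f y * (((x + s • e0) 0 - y 0) / ‖x + s • e0 - y‖ ^ 3)) (s, y)‖) (volume.restrict (Set.uIoc 0 t)) := by
        have h := hmeas.norm.stronglyMeasurable.integral_prod_right' (ν := (volume : Measure E3))
        exact h.aestronglyMeasurable
      refine Integrable.mono' (g := fun _ => B) ?_ hms ?_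
      · exact integrableOn_const (by simp [Set.uIoc]) (by simp)
      · rw [ae_restrict_iff' measurableSet_uIoc]
        refine Eventually.of_forall fun s hs => ?_
        have h1 := hB _ (hmem s hs)
        rw [Real.norm_eq_abs, abs_of_nonneg (integral_nonneg fun y => norm_nonneg _)]
        refine le_trans ?_ h1
        apply integral_mono_of_nonneg (Eventually.of_forall fun y => norm_nonneg _)
          (dG_int hf hm hb (lt_of_lt_of_le (by linarith) (hmem s hs)))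
        refine Eventually.of_forall fun y => ?_
        simp only [Function.uncurry]
        rw [Real.norm_eq_abs, abs_mul]
        exact mul_le_mul_of_nonneg_left (ker_le _ y) (abs_nonneg _)
  have hsw := intervalIntegral_integral_swap hint
  rw [intervalIntegral.integral_neg, hsw]
  unfold G
  rw [← integral_sub (hf.int_div _) (hf.int_div _), ← integral_neg]
  apply integral_congr_ae
  filter_upwards [ae_off x] with y hy
  have hu : (x - y) 1 ≠ 0 := by
    have : (x - y) 1 = x 1 - y 1 := by simp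
    rw [this]
    exact sub_ne_zero.mpr (Ne.symm hy)
  have h1 := ftc_line hu t
  have h2 : ∀ s : ℝ, x - y + s • e0 = x + s • e0 - y := fun s => by abel
  have h3 : (x - y) 0 = x 0 - y 0 := by simp
  simp only [h2, h3] at h1
  have h4 : f y / ‖x + t • e0 - y‖ - f y / ‖x - y‖ = f y * (1 / ‖x + t • e0 - y‖ - 1 / ‖x - y‖) := by ring
  rw [h4, ← h1, ← intervalIntegral.integral_const_mul, ← intervalIntegral.integral_neg]
  apply intervalIntegral.integral_congr
  intro s _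
  simp only [add_e0_zero]
  ring

theorem dG (hf : Ld f) (hm : Measurable f) (hb : ∀ y : E3, -d < y 0 → |f y| ≤ C) {x : E3} (hx : -d < x 0) :
    HasDerivAt (fun t : ℝ => G f (x + t • e0)) (-∫ y, f y * ((x 0 - y 0) / ‖x - y‖ ^ 3)) 0 := by
  have hc : ContinuousAt (fun s : ℝ => -(∫ y, f y * (((x + s • e0) 0 - y 0) / ‖x + s • e0 - y‖ ^ 3))) 0 := by
    have h1 : ContinuousAt (fun s : ℝ => x + s • e0) 0 := by fun_prop
    have h2 := dG_cont hf hm hb hx
    have h3 : x + (0 : ℝ) • e0 = x := by simp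
    rw [← h3] at h2
    exact (ContinuousAt.comp (f := fun s : ℝ => x + s • e0) (x := (0 : ℝ)) h2 h1).neg
  have hms : Measurable (fun s : ℝ => -(∫ y, f y * (((x + s • e0) 0 - y 0) / ‖x + s • e0 - y‖ ^ 3))) := by
    have h1 : Measurable (fun s : ℝ => x + s • e0) := by fun_prop
    exact ((dG_meas hm).comp h1).neg
  have h1 := intervalIntegral.integral_hasDerivAt_right (a := 0) (b := 0)
    (f := fun s : ℝ => -(∫ y, f y * (((x + s • e0) 0 - y 0) / ‖x + s • e0 - y‖ ^ 3)))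
    IntervalIntegrable.refl hms.stronglyMeasurable.stronglyMeasurableAtFilter hc
  have h2 := h1.const_add (G f x)
  simp only [zero_smul, add_zero] at h2
  refine h2.congr_of_eventuallyEq ?_
  have h3 : ∀ᶠ t : ℝ in 𝓝 0, |t| < (x 0 + d) / 2 := by
    have : Tendsto (fun t : ℝ => |t|) (𝓝 0) (𝓝 |(0 : ℝ)|) := continuous_abs.tendsto 0
    rw [abs_zero] at this
    exact this.eventually_lt_const (by linarith)
  filter_upwards [h3] with t ht
  have h4 := G_line hf hm hb hx ht.le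
  linarith

end Pool.Agent.H50.TM
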