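import Pool.Agent.H23.TF.A4_Pos
import Pool.Agent.H23.TF.N3_Cons

/-!
# MP_037fc8_mp : the pressure of every Thomas-Fermi ion is positive (helper50)

Definitions of the problem and the internal notions of the proof.

THEOREM. `k` nuclei `R_i`, charges `z_i > 0`, `Z = ∑ z_i`, `E(N, R) = inf` of the Thomas-Fermi functional over `∫ ρ = N`.
* (dilation) for `0 < N < Z`, `k ≥ 2`: `l ↦ E(N, l R)` is strictly decreasing on `(0, ∞)`;
* (separation) for every unit vector `n`, every monotone `a`, `0 < N < Z`: `E(N, R_i + a(n·R_i) n) ≤ E(N, R)`, strict if `a(n·R_i)` is not constant;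
* (two equal nuclei, or a molecule and its mirror image) `E(N, ·)` is convex in the distance, for every `N ≥ 0`.

PROOF. Fix `μ > 0`, `φ = V - Gρ`, `ρ = jj(φ) = ((φ-μ)₊/γ)^(3/2)`, `JJ' = jj`. Let `P = {x₀ = 0}` contain no nucleus, `x* = rf x` the mirror image, `ν` the nuclear
charge, `s = ν - ρ`, `s_L, s_R` its parts on the two sides, `⟨m, n⟩ = br m n = ∬ (y₀-x₀)/|x-y|³ dm(x) dn(y)` (`x` left, `y` right), `S = ⟨s_L, s_R⟩ + ∫_P JJ(φ)`
(force between the two sides). `σ` = density of the EMPTY half space problem: `φ₀ = G(s_L + s_R*) - Gσ + Gσ*`, `σ = jj(φ₀)` on `{x₀ > 0}`, `σ = 0` elsewhere; `φ₀ = φ` on `P`.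
1. (`FBal`) force balance of `σ`: `∫_P JJ(φ) = ⟨s_L + s_R* + σ*, σ⟩`, hence `S = ⟨s_L + σ*, s_R + σ⟩`.
2. (`Pois`, `BrEq`) `⟨m, n⟩ = (1/2π) ∫_P fld m · fld n`, `fld m (p) = ∫ |y₀|/|p-y|³ dm(y)` (Poisson semigroup).
3. (`WNon`) `w = φ - φ₀ ≥ 0` on `{x₀ > 0}` (maximum principle), `w = 0` on `P`, `fld(s_R + σ) = lim w/(2 x₀) ≥ 0` (`FLim`), `> 0` far out if there is a nucleus on
   the right (`FFar`); by mirror symmetry the same for `fld(s_L + σ*)`. So `S > 0` (`SPos`).
4. (`TrE`) trial density: cut `ρ` along `P`, translate the right half (with its nuclei) by `e`, fill the slab with `ρ|_P`: `Om(R^e) ≤ Om(R) - e S + o(e)`.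
   (`Lsc`, `Dini`, `Step`) so `Om(μ, ·)` is strictly decreasing when the right nuclei are translated to the right.
5. (`Dual`) for `0 < N < Z` there is `μ > 0` with `E(N, R) = Om(μ, R) - μ N`; (`Comp`, `Dil`) composition of separations.
6. (`RPker`, `RPmid`) reflection positivity gives the convexity.
-/

open MeasureTheory Set Filter Topology
open scoped ENNReal NNReal

namespace Pool.Agent.H50.TM

open Pool.Agent.H23.TF

/-! ### The objects of the problem

From `Pool.Agent.H23.TF.Defs`: `E3 = EuclideanSpace ℝ (Fin 3)`, `V R z x = ∑ j, z j / ‖x - R j‖`, `U R z = ∑_{i<j} z i z j / ‖R i - R j‖`,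
`Density N ρ`: `ρ ≥ 0`, `ρ` and `ρ^(5/3)` integrable, `∫ ρ = N`. -/

/-- The Thomas-Fermi functional with constant `γ`. -/
noncomputable def tf (γ : ℝ) {k : ℕ} (R : Fin k → E3) (z : Fin k → ℝ) (ρ : E3 → ℝ) : ℝ :=
  3 / 5 * γ * (∫ x, ρ x ^ (5 / 3 : ℝ)) - (∫ x, V R z x * ρ x)
    + 1 / 2 * (∫ x, ∫ y, ρ x * ρ y / ‖x - y‖) + U R z

/-- The Thomas-Fermi energy `E(N; R)`: infimum over the densities with `∫ ρ = N`. -/
noncomputable def En (γ : ℝ) {k : ℕ} (R : Fin k → E3) (z : Fin k → ℝ) (N : ℝ) : ℝ :=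
  sInf {e | ∃ ρ, Density N ρ ∧ e = tf γ R z ρ}

/-! ### Internal notions -/

/-- densities without mass constraint -/
structure DN (ρ : E3 → ℝ) : Prop where
  nonneg : ∀ x, 0 ≤ ρ x
  int : Integrable ρ
  int53 : Integrable (fun x => ρ x ^ (5 / 3 : ℝ))

/-- grand canonical functional -/
noncomputable def gc (γ μ : ℝ) {k : ℕ} (R : Fin k → E3) (z : Fin k → ℝ) (ρ : E3 → ℝ) : ℝ :=
  tf γ R z ρ + μ * ∫ x, ρ x

/-- grand canonical energy -/
noncomputable def Om (γ μ : ℝ) {k : ℕ} (R : Fin k → E3) (z : Fin k → ℝ) : ℝ :=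
  sInf {e | ∃ ρ, DN ρ ∧ e = gc γ μ R z ρ}

/-- density as a function of the potential -/
noncomputable def jj (γ μ t : ℝ) : ℝ := (max (t - μ) 0 / γ) ^ (3 / 2 : ℝ)

/-- pressure as a function of the potential, `JJ' = jj` -/
noncomputable def JJ (γ μ t : ℝ) : ℝ := 2 / 5 * γ * (max (t - μ) 0 / γ) ^ (5 / 2 : ℝ)

/-- solution of the Thomas-Fermi equation with parameter `μ` -/
structure IsTF (γ μ : ℝ) {k : ℕ} (R : Fin k → E3) (z : Fin k → ℝ) (ρ : E3 → ℝ) : Prop where
  meas : Measurable ρ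
  ld : Ld ρ
  eq : ∀ x, ρ x = jj γ μ (V R z x - G ρ x)

/-- first basis vector -/
noncomputable def e0 : E3 := EuclideanSpace.single 0 1

/-- mirror image in the plane `x₀ = 0` -/
noncomputable def rf (x : E3) : E3 := x - (2 * x 0) • e0

/-- the plane -/
abbrev P2 := EuclideanSpace ℝ (Fin 2)

/-- the point with first coordinate `t` and the other coordinates `p` -/
noncomputable def mk (t : ℝ) (p : P2) : E3 := !₂[t, p 0, p 1]

/-- projection to the plane -/
noncomputable def pr (x : E3) : P2 := !₂[x 1, x 2]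

/-- open right half space -/
def Hp : Set E3 := {x | 0 < x 0}

/-- charges of the nuclei on the left -/
noncomputable def zL {k : ℕ} (R : Fin k → E3) (z : Fin k → ℝ) (i : Fin k) : ℝ := if (R i) 0 < 0 then z i else 0

/-- charges of the nuclei on the right -/
noncomputable def zR {k : ℕ} (R : Fin k → E3) (z : Fin k → ℝ) (i : Fin k) : ℝ := if 0 < (R i) 0 then z i else 0

/-- all nuclei folded to the left -/
noncomputable def fold {k : ℕ} (R : Fin k → E3) (i : Fin k) : E3 := if (R i) 0 < 0 then R i else rf (R i)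

/-- left part of a density -/
noncomputable def lp (ρ : E3 → ℝ) (x : E3) : ℝ := if x 0 < 0 then ρ x else 0

/-- right part of a density -/
noncomputable def rp (ρ : E3 → ℝ) (x : E3) : ℝ := if 0 < x 0 then ρ x else 0

/-- density folded to the left -/
noncomputable def foldf (ρ : E3 → ℝ) (x : E3) : ℝ := lp ρ x + rp ρ (rf x)

/-- solution of the half space problem: external potential `V R' z - G κ`, Dirichlet Green function -/
structure IsHalf (γ μ : ℝ) {k : ℕ} (R' : Fin k → E3) (z : Fin k → ℝ) (κ σ : E3 → ℝ) : Prop where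
  meas : Measurable σ
  ld : Ld σ
  zero : ∀ x, x 0 ≤ 0 → σ x = 0
  eq : ∀ x, 0 < x 0 → σ x = jj γ μ (V R' z x - G κ x - G σ x + G σ (rf x))

/-- standing assumptions: molecule with no nucleus on the plane, its density `ρ`, and the half space density `σ` -/
structure Cfg (γ μ : ℝ) {k : ℕ} (R : Fin k → E3) (z : Fin k → ℝ) (ρ σ : E3 → ℝ) : Prop where
  hγ : 0 < γ
  hμ : 0 < μ
  hz : ∀ i, 0 < z i
  off : ∀ i, (R i) 0 ≠ 0
  htf : IsTF γ μ R z ρ
  hhalf : IsHalf γ μ (fold R) z (foldf ρ) σ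

/-- the potential of the molecule -/
noncomputable def phi {k : ℕ} (R : Fin k → E3) (z : Fin k → ℝ) (ρ : E3 → ℝ) (x : E3) : ℝ := V R z x - G ρ x

/-- the potential of the half space problem -/
noncomputable def phi0 {k : ℕ} (R : Fin k → E3) (z : Fin k → ℝ) (ρ σ : E3 → ℝ) (x : E3) : ℝ :=
  V (fold R) z x - G (foldf ρ) x - G σ x + G σ (rf x)

/-- the charge density (without the nuclei) of `φ - φ₀` on the right -/
noncomputable def bb (ρ σ : E3 → ℝ) (x : E3) : ℝ := σ x - rp ρ x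

/-- the difference `w = φ - φ₀`, an odd function -/
noncomputable def ww {k : ℕ} (R : Fin k → E3) (z : Fin k → ℝ) (ρ σ : E3 → ℝ) (x : E3) : ℝ :=
  V R (zR R z) x - V R (zR R z) (rf x) + G (bb ρ σ) x - G (bb ρ σ) (rf x)

/-! #### Measures -/

/-- the nuclear charge -/
noncomputable def nu {k : ℕ} (R : Fin k → E3) (z : Fin k → ℝ) : Measure E3 :=
  ∑ i, ENNReal.ofReal (z i) • Measure.dirac (R i)

/-- the measure with density `ρ` -/
noncomputable def dens (ρ : E3 → ℝ) : Measure E3 := volume.withDensity (fun x => ENNReal.ofReal (ρ x))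

/-- finite measures with bounded density near the plane -/
structure Reg (m : Measure E3) : Prop where
  fin : m univ < ∞
  slab : ∃ d : ℝ, 0 < d ∧ ∃ C : ℝ≥0, m.restrict {x | |x 0| < d} ≤ (C : ℝ≥0∞) • volume

/-- (twice the) normal field on the plane: `∫ |y₀|/|p-y|³ dm(y)` -/
noncomputable def fld (m : Measure E3) (p : P2) : ℝ := ∫ y, |y 0| / ‖mk 0 p - y‖ ^ 3 ∂m

/-- force between a charge on the left and a charge on the right -/
noncomputable def br (m n : Measure E3) : ℝ := ∫ x, ∫ y, (y 0 - x 0) / ‖x - y‖ ^ 3 ∂n ∂m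

/-- interaction of `m` with the translate of `n` -/
noncomputable def Ie (e : ℝ) (m n : Measure E3) : ℝ := ∫ x, ∫ y, 1 / ‖x - (y + e • e0)‖ ∂n ∂m

/-- the field on the plane of the charges on the right of `φ - φ₀` -/
noncomputable def Fl {k : ℕ} (R : Fin k → E3) (z : Fin k → ℝ) (ρ σ : E3 → ℝ) (p : P2) : ℝ :=
  fld (nu R (zR R z)) p + fld (dens σ) p - fld (dens (rp ρ)) p

/-- the field on the plane of the charges on the left (of `φ - φ₀` for the mirrored molecule) -/
noncomputable def FlL {k : ℕ} (R : Fin k → E3) (z : Fin k → ℝ) (ρ σ : E3 → ℝ) (p : P2) : ℝ :=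
  fld (nu R (zL R z)) p + fld (dens σ) p - fld (dens (lp ρ)) p

/-- the force between the two sides of the plane (electrostatic force plus pressure) -/
noncomputable def SS (γ μ : ℝ) {k : ℕ} (R : Fin k → E3) (z : Fin k → ℝ) (ρ : E3 → ℝ) : ℝ :=
  br (nu R (zL R z)) (nu R (zR R z)) - br (nu R (zL R z)) (dens (rp ρ))
    - br (dens (lp ρ)) (nu R (zR R z)) + br (dens (lp ρ)) (dens (rp ρ))
    + ∫ p : P2, JJ γ μ (phi R z ρ (mk 0 p))

/-- nuclei on the right translated by `e` -/
noncomputable def shR {k : ℕ} (R : Fin k → E3) (e : ℝ) (i : Fin k) : E3 := if 0 < (R i) 0 then R i + e • e0 else R i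

/-- cut along the plane, translate the right half by `e`, fill the slab with the values on the plane -/
noncomputable def tr (e : ℝ) (h : E3 → ℝ) (x : E3) : ℝ :=
  if x 0 ≤ 0 then h x else if x 0 ≤ e then h (mk 0 (pr x)) else h (x - e • e0)

/-- slab density: `g` on `0 < x₀ ≤ e` -/
noncomputable def slb (e : ℝ) (g : P2 → ℝ) (x : E3) : ℝ := if 0 < x 0 ∧ x 0 ≤ e then g (pr x) else 0

/-- average of `1/|y - ·|` over a ball of radius `r` with centre at distance `d` -/
noncomputable def kap (r d : ℝ) : ℝ := if d < r then (3 * r ^ 2 - d ^ 2) / (2 * r ^ 3) else 1 / d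

/-- cross term of the energy: charges `z1, ρ1` and `z2, ρ2` -/
noncomputable def XX {k : ℕ} (R : Fin k → E3) (z1 z2 : Fin k → ℝ) (ρ1 ρ2 : E3 → ℝ) : ℝ :=
  (∑ i, ∑ j, z1 i * z2 j / ‖R i - R j‖) - (∫ x, V R z1 x * ρ2 x) - (∫ x, V R z2 x * ρ1 x) + ∫ x, ρ1 x * G ρ2 x

/-- mirrored cross term: the charges `z, ρ1` at `M1` (on the right) are reflected, interaction with `z, ρ2` at `M2` -/
noncomputable def CR {k : ℕ} (M1 M2 : Fin k → E3) (z : Fin k → ℝ) (ρ1 ρ2 : E3 → ℝ) : ℝ :=
  (∑ i, ∑ j, z i * z j / ‖rf (M1 i) - M2 j‖) - (∑ i, z i * G ρ2 (rf (M1 i))) - (∑ j, z j * G ρ1 (rf (M2 j)))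
    + ∫ x, ρ1 x * G ρ2 (rf x)

/-- a molecule `M` at distance `d` from the plane together with its mirror image -/
noncomputable def sym {k : ℕ} (M : Fin k → E3) (d : ℝ) : Fin (k + k) → E3 :=
  Fin.append (fun i => rf (M i + d • e0)) (fun i => M i + d • e0)

end Pool.Agent.H50.TM
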