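import Pool.Agent.H50.TM.GeoM

/-!
# Module DipN: first moment of `1/‖y - ·‖` over a ball not containing `y`

CLAIM: `∫_{u ∈ ball c r} (u₀ - c₀)/‖y - u‖ du = (4π/15) r⁵ (y₀ - c₀)/‖y - c‖³` for `‖y - c‖ > r`.
Translate to `c = 0`. Let `h(s) = (1/2) max(r² - s², 0)`, `f(u) = h(‖u‖)` (Lipschitz, bounded, support in the closed ball). By `G_out` (H23/TF/N3_Cons), for small
`ε > 0` (`‖y‖ > r + ε`) and `c = ±ε e0`: `∫ f(u - c)/‖y-u‖ du = M/‖y - c‖`, `M = ∫ f = (1/2) 4π (r⁵/3 - r⁵/5) = (4π/15) r⁵`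
(`integral_fun_norm_addHaar` or `lintegral_radial`). Hence
`∫ [f(u - ε e0) - f(u + ε e0)]/(2ε) · 1/‖y-u‖ du = M [1/‖y - ε e0‖ - 1/‖y + ε e0‖]/(2ε)`.
`ε → 0`: the bracket on the left tends to `-∂₀ f(u) = u₀ 1_{‖u‖<r}` for `‖u‖ ≠ r`, boundedly (`|f(a) - f(b)| ≤ (r+1) ‖a-b‖`), support in `ball 0 (r+ε₀)`, where
`1/‖y-u‖` is bounded; so dominated convergence. The right side tends to `M y₀/‖y‖³` (derivative of `t ↦ 1/‖y - t e0‖` at `t = 0`).
-/

set_option autoImplicit false

open MeasureTheory Set Filter Topology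
open scoped ENNReal NNReal

namespace Pool.Agent.H50.TM

open Pool.Agent.H23.TF

private noncomputable def dipN_h (r s : ℝ) : ℝ := 1 / 2 * max (r ^ 2 - s ^ 2) 0

private lemma dipN_nonneg (r s : ℝ) : 0 ≤ dipN_h r s := by
  unfold dipN_h
  have := le_max_right (r ^ 2 - s ^ 2) 0
  linarith

private lemma dipN_zero {r s : ℝ} (hr : 0 ≤ r) (h : r ≤ s) : dipN_h r s = 0 := by
  unfold dipN_h
  rw [max_eq_right (by nlinarith), mul_zero]

private lemma dipN_in {r s : ℝ} (hs : 0 ≤ s) (h : s ≤ r) : dipN_h r s = 1 / 2 * (r ^ 2 - s ^ 2) := by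
  unfold dipN_h
  rw [max_eq_left (by nlinarith)]

private lemma dipN_cont (r : ℝ) : Continuous (dipN_h r) := by
  unfold dipN_h
  fun_prop

private lemma dipN_lip {r a b : ℝ} (hr : 0 < r) (ha : 0 ≤ a) (hb : 0 ≤ b) :
    |dipN_h r a - dipN_h r b| ≤ r * |a - b| := by
  have key : ∀ a b : ℝ, 0 ≤ a → a ≤ b → |dipN_h r a - dipN_h r b| ≤ r * (b - a) := by
    intro a b ha hab
    rcases le_total b r with hbr | hbr
    · rw [dipN_in (ha.trans hab) hbr, dipN_in ha (hab.trans hbr), abs_of_nonneg (by nlinarith)]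
      nlinarith
    · rw [dipN_zero hr.le hbr, sub_zero, abs_of_nonneg (dipN_nonneg _ _)]
      rcases le_total a r with har | har
      · rw [dipN_in ha har]
        nlinarith
      · rw [dipN_zero hr.le har]
        exact mul_nonneg hr.le (sub_nonneg.mpr hab)
  rcases le_total a b with h | h
  · rw [abs_sub_comm a b, abs_of_nonneg (sub_nonneg.mpr h)]
    exact key a b ha h
  · rw [abs_sub_comm (dipN_h r a), abs_of_nonneg (sub_nonneg.mpr h)]
    exact key b a hb h

private lemma dipN_mass (c : E3) {r : ℝ} (hr : 0 < r) :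
    ∫ u : E3, dipN_h r ‖u - c‖ = 4 * Real.pi / 15 * r ^ 5 := by
  rw [integral_sub_right_eq_self (fun u : E3 => dipN_h r ‖u‖) c]
  have h1 := integral_fun_norm_addHaar (volume : Measure E3) (fun s => dipN_h r s)
  rw [h1]
  have hdim : Module.finrank ℝ E3 = 3 := by simp [E3]
  have hball : (volume : Measure E3).real (Metric.ball 0 1) = 4 * Real.pi / 3 := by
    rw [Measure.real, EuclideanSpace.volume_ball_fin_three, ENNReal.ofReal_one, one_pow, one_mul,
      ENNReal.toReal_ofReal (by positivity)]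
    ring
  have hint : ∫ s in Ioi (0 : ℝ), s ^ (3 - 1) • dipN_h r s = r ^ 5 / 15 := by
    have h2 : ∫ s in Ioi (0 : ℝ), s ^ (3 - 1) • dipN_h r s =
        ∫ s in Ioc (0 : ℝ) r, s ^ (3 - 1) • dipN_h r s := by
      refine setIntegral_eq_of_subset_of_forall_sdiff_eq_zero measurableSet_Ioi
        Ioc_subset_Ioi_self ?_
      rintro s ⟨hs, hs'⟩
      have hs0 : (0 : ℝ) < s := hs
      have hrs : r ≤ s := by
        by_contra hcon
        exact hs' ⟨hs0, (not_le.mp hcon).le⟩
      show s ^ (3 - 1) • dipN_h r s = 0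
      rw [dipN_zero hr.le hrs, smul_zero]
    have h3 : ∫ s in Ioc (0 : ℝ) r, s ^ (3 - 1) • dipN_h r s =
        ∫ s in Ioc (0 : ℝ) r, (r ^ 2 / 2 * s ^ 2 - 1 / 2 * s ^ 4) := by
      refine setIntegral_congr_fun measurableSet_Ioc ?_
      intro s hs
      show s ^ (3 - 1) • dipN_h r s = r ^ 2 / 2 * s ^ 2 - 1 / 2 * s ^ 4
      rw [dipN_in hs.1.le hs.2, smul_eq_mul]
      ring
    rw [h2, h3, ← intervalIntegral.integral_of_le hr.le, intervalIntegral.integral_sub,
      intervalIntegral.integral_const_mul, intervalIntegral.integral_const_mul, integral_pow,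
      integral_pow]
    · norm_num
      ring
    · exact (by fun_prop : Continuous fun s : ℝ => r ^ 2 / 2 * s ^ 2).intervalIntegrable _ _
    · exact (by fun_prop : Continuous fun s : ℝ => 1 / 2 * s ^ 4).intervalIntegrable _ _
  rw [hdim, hball, hint, nsmul_eq_mul, smul_eq_mul]
  push_cast
  ring

private lemma dipN_ld (c : E3) {r : ℝ} (hr : 0 < r) : Ld (fun u : E3 => dipN_h r ‖u - c‖) := by
  have hc : Continuous (fun u : E3 => dipN_h r ‖u - c‖) :=
    (dipN_cont r).comp (continuous_id.sub continuous_const).norm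
  have hz : ∀ u : E3, u ∉ Metric.closedBall c r → dipN_h r ‖u - c‖ = 0 := by
    intro u hu
    rw [mem_closedBall_iff_norm, not_le] at hu
    exact dipN_zero hr.le hu.le
  constructor
  · exact hc.integrable_of_hasCompactSupport (HasCompactSupport.intro (isCompact_closedBall c r) hz)
  · have hc2 : Continuous (fun u : E3 => |dipN_h r ‖u - c‖| ^ (5 / 3 : ℝ)) :=
      hc.abs.rpow_const fun _ => Or.inr (by norm_num)
    refine hc2.integrable_of_hasCompactSupport
      (HasCompactSupport.intro (isCompact_closedBall c r) ?_)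
    intro u hu
    show |dipN_h r ‖u - c‖| ^ (5 / 3 : ℝ) = 0
    rw [hz u hu, abs_zero, Real.zero_rpow (by norm_num)]

private lemma dipN_sq (v : E3) (t : ℝ) : ‖v - t • e0‖ ^ 2 = ‖v‖ ^ 2 - 2 * t * v 0 + t ^ 2 := by
  rw [norm_sub_sq_real, inner_smul_right, norm_smul, norm_e0]
  have h1 : inner ℝ v e0 = v 0 := by
    unfold e0
    rw [EuclideanSpace.inner_single_right]
    simp
  rw [h1, mul_one, Real.norm_eq_abs, sq_abs]
  ring

private lemma dipN_der (v : E3) (M : ℝ) (hv : 0 < ‖v‖) :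
    HasDerivAt (fun t : ℝ => M / ‖v - t • e0‖) (M * (v 0 / ‖v‖ ^ 3)) 0 := by
  have h1 : HasDerivAt (fun t : ℝ => ‖v‖ ^ 2 - 2 * t * v 0 + t ^ 2) (-(2 * v 0)) 0 := by
    have h2 : HasDerivAt (fun t : ℝ => 2 * t * v 0) (2 * v 0) 0 := by
      have h3 := ((hasDerivAt_id (0 : ℝ)).const_mul 2).mul_const (v 0)
      rw [mul_one] at h3
      exact h3
    have h4 : HasDerivAt (fun t : ℝ => t ^ 2) 0 0 := by
      have h5 := hasDerivAt_pow 2 (0 : ℝ)
      simpa using h5
    have h6 := (h2.const_sub (‖v‖ ^ 2)).add h4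
    rw [add_zero] at h6
    exact h6
  have h0 : ‖v‖ ^ 2 - 2 * 0 * v 0 + 0 ^ 2 = ‖v‖ ^ 2 := by ring
  have hne : ‖v‖ ^ 2 - 2 * 0 * v 0 + 0 ^ 2 ≠ 0 := by
    rw [h0]
    positivity
  have h7 := h1.sqrt hne
  have hne2 : Real.sqrt (‖v‖ ^ 2 - 2 * 0 * v 0 + 0 ^ 2) ≠ 0 := by
    rw [h0, Real.sqrt_sq hv.le]
    exact hv.ne'
  have h8 := (h7.inv hne2).const_mul M
  have h9 : (fun t : ℝ => M / ‖v - t • e0‖) =
      fun t : ℝ => M * (Real.sqrt (‖v‖ ^ 2 - 2 * t * v 0 + t ^ 2))⁻¹ := by
    funext t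
    rw [← dipN_sq, Real.sqrt_sq (norm_nonneg _), div_eq_mul_inv]
  rw [h9]
  refine HasDerivAt.congr_deriv h8 ?_
  rw [h0, Real.sqrt_sq hv.le]
  field_simp

theorem dip_newton (c y : E3) {r : ℝ} (hr : 0 < r) (hy : r < ‖y - c‖) :
    ∫ u in Metric.ball c r, (u 0 - c 0) / ‖y - u‖ = 4 * Real.pi / 15 * r ^ 5 * ((y 0 - c 0) / ‖y - c‖ ^ 3) := by
  obtain ⟨δ, hδ0, hδ⟩ : ∃ δ : ℝ, 0 < δ ∧ r + 2 * δ = ‖y - c‖ := ⟨(‖y - c‖ - r) / 2, by linarith, by ring⟩
  let F : ℝ → E3 → ℝ := fun t u => dipN_h r ‖u - (c + t • e0)‖ / ‖y - u‖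
  let F' : E3 → ℝ := (Metric.ball c r).indicator (fun u => (u 0 - c 0) / ‖y - u‖)
  let bd : E3 → ℝ := (Metric.closedBall c (r + δ)).indicator (fun _ => r / δ)
  have hsh : ∀ u : E3, ∀ t : ℝ, u - (c + t • e0) = (u - c) - t • e0 := fun u t => by abel
  have hnt : ∀ t : ℝ, ‖t • e0‖ = |t| := fun t => by
    rw [norm_smul, norm_e0, mul_one, Real.norm_eq_abs]
  have hfar : ∀ u : E3, ‖u - c‖ ≤ r + δ → δ ≤ ‖y - u‖ := by
    intro u hu
    have h1 : ‖y - c‖ ≤ ‖y - u‖ + ‖u - c‖ := by
      have h2 : y - c = (y - u) + (u - c) := by abel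
      rw [h2]
      exact norm_add_le _ _
    linarith
  have hout : ∀ u : E3, r + δ < ‖u - c‖ → ∀ t : ℝ, |t| < δ → F t u = 0 := by
    intro u hu t ht
    have h1 : r ≤ ‖u - (c + t • e0)‖ := by
      rw [hsh]
      have h2 := norm_sub_norm_le (u - c) (t • e0)
      rw [hnt] at h2
      linarith
    show dipN_h r ‖u - (c + t • e0)‖ / ‖y - u‖ = 0
    rw [dipN_zero hr.le h1, zero_div]
  have hFint : ∀ t, Integrable (F t) := fun t => (dipN_ld (c + t • e0) hr).int_div y
  have hF'meas : AEStronglyMeasurable F' (volume : Measure E3) := by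
    have h1 : Measurable (fun u : E3 => (u 0 - c 0) / ‖y - u‖) :=
      (continuous_zero.measurable.sub_const _).div (measurable_const.sub measurable_id).norm
    exact (h1.indicator measurableSet_ball).aestronglyMeasurable
  have hbd : Integrable bd (volume : Measure E3) := by
    refine (integrable_indicator_iff measurableSet_closedBall).mpr ?_
    exact integrableOn_const (measure_closedBall_lt_top).ne
  have hlip : ∀ u : E3, LipschitzOnWith (Real.nnabs (bd u)) (fun t => F t u) (Metric.ball 0 δ) := by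
    intro u
    apply LipschitzOnWith.of_dist_le_mul
    intro t ht t' ht'
    have ht : |t| < δ := by simpa using ht
    have ht' : |t'| < δ := by simpa using ht'
    rcases le_or_gt ‖u - c‖ (r + δ) with hu | hu
    · have hb : bd u = r / δ := indicator_of_mem (mem_closedBall_iff_norm.mpr hu) _
      have hyu : δ ≤ ‖y - u‖ := hfar u hu
      have hyu0 : 0 < ‖y - u‖ := hδ0.trans_le hyu
      rw [hb, Real.coe_nnabs, abs_of_pos (div_pos hr hδ0), Real.dist_eq, Real.dist_eq]
      show |dipN_h r ‖u - (c + t • e0)‖ / ‖y - u‖ - dipN_h r ‖u - (c + t' • e0)‖ / ‖y - u‖| ≤ _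
      rw [← sub_div, abs_div, abs_of_pos hyu0, div_le_iff₀ hyu0]
      have h1 := dipN_lip hr (norm_nonneg (u - (c + t • e0))) (norm_nonneg (u - (c + t' • e0)))
      have h2 : |‖u - (c + t • e0)‖ - ‖u - (c + t' • e0)‖| ≤ |t - t'| := by
        refine (abs_norm_sub_norm_le _ _).trans ?_
        have h3 : u - (c + t • e0) - (u - (c + t' • e0)) = (t' - t) • e0 := by
          rw [sub_smul]
          abel
        rw [h3, hnt, abs_sub_comm]
      calc |dipN_h r ‖u - (c + t • e0)‖ - dipN_h r ‖u - (c + t' • e0)‖| ≤ r * |t - t'| :=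
            h1.trans (mul_le_mul_of_nonneg_left h2 hr.le)
        _ = r / δ * |t - t'| * δ := by field_simp
        _ ≤ r / δ * |t - t'| * ‖y - u‖ := mul_le_mul_of_nonneg_left hyu (by positivity)
    · have h1 : F t u = 0 := hout u hu t ht
      have h2 : F t' u = 0 := hout u hu t' ht'
      show dist (F t u) (F t' u) ≤ _
      rw [h1, h2, dist_self]
      positivity
  have hdiff : ∀ᵐ u : E3, HasDerivAt (fun t => F t u) (F' u) 0 := by
    have hsph : ∀ᵐ u : E3, u ∉ Metric.sphere c r := by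
      rw [← measure_eq_zero_iff_ae_notMem]
      exact Measure.addHaar_sphere_of_ne_zero volume c hr.ne'
    filter_upwards [hsph] with u hu
    rw [mem_sphere_iff_norm] at hu
    have hcont : Continuous (fun t : ℝ => ‖u - (c + t • e0)‖) := by fun_prop
    have hz0 : ‖u - (c + (0 : ℝ) • e0)‖ = ‖u - c‖ := by rw [zero_smul, add_zero]
    rcases lt_or_gt_of_ne hu with hlt | hgt
    · have hF' : F' u = (u 0 - c 0) / ‖y - u‖ :=
        indicator_of_mem (mem_ball_iff_norm.mpr hlt) _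
      rw [hF']
      have hev : (fun t => F t u) =ᶠ[𝓝 0]
          fun t => 1 / 2 * (r ^ 2 - (‖u - c‖ ^ 2 - 2 * t * (u - c) 0 + t ^ 2)) / ‖y - u‖ := by
        have h1 : ∀ᶠ t in 𝓝 (0 : ℝ), ‖u - (c + t • e0)‖ < r := by
          apply hcont.continuousAt.eventually_lt_const
          show ‖u - (c + (0 : ℝ) • e0)‖ < r
          rw [hz0]
          exact hlt
        filter_upwards [h1] with t ht
        show dipN_h r ‖u - (c + t • e0)‖ / ‖y - u‖ = _
        rw [dipN_in (norm_nonneg _) ht.le, hsh, dipN_sq]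
      refine HasDerivAt.congr_of_eventuallyEq ?_ hev
      have h2 : HasDerivAt (fun t : ℝ => 2 * t * (u - c) 0) (2 * (u - c) 0) 0 := by
        have h3 := ((hasDerivAt_id (0 : ℝ)).const_mul 2).mul_const ((u - c) 0)
        rw [mul_one] at h3
        exact h3
      have h4 : HasDerivAt (fun t : ℝ => t ^ 2) 0 0 := by
        have h5 := hasDerivAt_pow 2 (0 : ℝ)
        simpa using h5
      have h6 := (((h2.const_sub (‖u - c‖ ^ 2)).add h4).const_sub (r ^ 2)).const_mul (1 / 2)
      have h7 := h6.div_const ‖y - u‖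
      refine HasDerivAt.congr_deriv h7 ?_
      rw [PiLp.sub_apply]
      ring
    · have hF' : F' u = 0 := indicator_of_notMem (by
        rw [mem_ball_iff_norm]
        exact not_lt.mpr hgt.le) _
      rw [hF']
      have hev : (fun t => F t u) =ᶠ[𝓝 0] fun _ => (0 : ℝ) := by
        have h1 : ∀ᶠ t in 𝓝 (0 : ℝ), r < ‖u - (c + t • e0)‖ := by
          apply hcont.continuousAt.eventually_const_lt
          show r < ‖u - (c + (0 : ℝ) • e0)‖
          rw [hz0]
          exact hgt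
        filter_upwards [h1] with t ht
        show dipN_h r ‖u - (c + t • e0)‖ / ‖y - u‖ = 0
        rw [dipN_zero hr.le ht.le, zero_div]
      exact (hasDerivAt_const (0 : ℝ) (0 : ℝ)).congr_of_eventuallyEq hev
  have hmain := (hasDerivAt_integral_of_dominated_loc_of_lip (μ := (volume : Measure E3))
    (F := F) (F' := F') (bound := bd) (x₀ := (0 : ℝ)) (Metric.ball_mem_nhds 0 hδ0)
    (Eventually.of_forall fun t => (hFint t).aestronglyMeasurable) (hFint 0) hF'meas
    (Eventually.of_forall hlip) hbd hdiff).2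
  have hval : (fun t : ℝ => ∫ u : E3, F t u) =ᶠ[𝓝 0]
      fun t => (4 * Real.pi / 15 * r ^ 5) / ‖(y - c) - t • e0‖ := by
    filter_upwards [Metric.ball_mem_nhds (0 : ℝ) hδ0] with t ht
    have ht : |t| < δ := by simpa using ht
    have h1 : r ≤ ‖y - (c + t • e0)‖ := by
      rw [hsh]
      have h2 := norm_sub_norm_le (y - c) (t • e0)
      rw [hnt] at h2
      linarith
    have h3 := G_out (dipN_cont r).measurable (dipN_nonneg r) hr (fun s hs => dipN_zero hr.le hs)
      (c + t • e0) (f := fun u : E3 => dipN_h r ‖u - (c + t • e0)‖) (EventuallyEq.refl _ _)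
      (dipN_ld _ hr) y h1
    rw [dipN_mass _ hr, hsh] at h3
    exact h3
  have hvpos : 0 < ‖y - c‖ := hr.trans hy
  have hd2 := (dipN_der (y - c) (4 * Real.pi / 15 * r ^ 5) hvpos).congr_of_eventuallyEq hval
  have huniq := hmain.unique hd2
  rw [← integral_indicator measurableSet_ball]
  rw [PiLp.sub_apply] at huniq
  exact huniq

end Pool.Agent.H50.TM
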