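import Pool.Agent.H50.TM.Defs

/-!
# Module ExA: uniform convexity of `t ↦ t^(5/3)` on `[0, m]`

`f(t) = t^(5/3)`, `f'' = (10/9) t^(-1/3) ≥ (10/9) m^(-1/3)` on `(0, m]`, so `f(t) - (5/9) m^(-1/3) t²` is convex on `[0, m]` and
`f((a+b)/2) ≤ (f a + f b)/2 - (5/36) m^(-1/3) (a-b)²`.
(`convexOn_of_deriv2_nonneg` on `Icc 0 m`, or an algebraic proof with `a = p³`, `b = q³`.)
Any smaller positive constant instead of `5/36` is NOT allowed (the constant is used with `3/5 · 5/36 = 1/12`).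
-/

set_option autoImplicit false

open MeasureTheory Set Filter Topology
open scoped ENNReal NNReal

namespace Pool.Agent.H50.TM

open Pool.Agent.H23.TF

private lemma pow53_convexOn {m c : ℝ} (hc : c = 5 / 9 * (m ^ (1 / 3 : ℝ))⁻¹) :
    ConvexOn ℝ (Icc 0 m) (fun t : ℝ => t ^ (5 / 3 : ℝ) - c * t ^ 2) := by
  have hd1 : ∀ t : ℝ, 0 < t → HasDerivAt (fun t : ℝ => t ^ (5 / 3 : ℝ) - c * t ^ 2)
      (5 / 3 * t ^ (2 / 3 : ℝ) - 2 * c * t) t := by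
    intro t ht
    have h1 := Real.hasDerivAt_rpow_const (x := t) (p := (5 / 3 : ℝ)) (Or.inl ht.ne')
    have h2 := (hasDerivAt_pow 2 t).const_mul c
    have h3 := h1.sub h2
    have e : 5 / 3 * t ^ (2 / 3 : ℝ) - 2 * c * t
        = (5 / 3 : ℝ) * t ^ ((5 / 3 : ℝ) - 1) - c * ((2 : ℕ) * t ^ (2 - 1)) := by
      norm_num
      ring
    rw [e]
    exact h3
  have hd2 : ∀ t : ℝ, 0 < t → HasDerivAt (fun t : ℝ => 5 / 3 * t ^ (2 / 3 : ℝ) - 2 * c * t)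
      (10 / 9 * t ^ (-(1 / 3) : ℝ) - 2 * c) t := by
    intro t ht
    have h1 := (Real.hasDerivAt_rpow_const (x := t) (p := (2 / 3 : ℝ)) (Or.inl ht.ne')).const_mul (5 / 3)
    have h2 := (hasDerivAt_id t).const_mul (2 * c)
    have h3 := h1.sub h2
    have e : 10 / 9 * t ^ (-(1 / 3) : ℝ) - 2 * c
        = 5 / 3 * ((2 / 3 : ℝ) * t ^ ((2 / 3 : ℝ) - 1)) - 2 * c * 1 := by
      rw [show (2 / 3 : ℝ) - 1 = -(1 / 3) by norm_num]
      ring
    rw [e]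
    exact h3
  refine convexOn_of_hasDerivWithinAt2_nonneg (convex_Icc 0 m) ?_
    (f' := fun t : ℝ => 5 / 3 * t ^ (2 / 3 : ℝ) - 2 * c * t)
    (f'' := fun t : ℝ => 10 / 9 * t ^ (-(1 / 3) : ℝ) - 2 * c) ?_ ?_ ?_
  · apply Continuous.continuousOn
    apply Continuous.sub
    · exact Real.continuous_rpow_const (by norm_num)
    · fun_prop
  · intro t ht
    rw [interior_Icc] at ht
    exact (hd1 t ht.1).hasDerivWithinAt
  · intro t ht
    rw [interior_Icc] at ht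
    exact (hd2 t ht.1).hasDerivWithinAt
  · intro t ht
    rw [interior_Icc] at ht
    have h1 : (m ^ (1 / 3 : ℝ))⁻¹ ≤ t ^ (-(1 / 3) : ℝ) := by
      rw [Real.rpow_neg ht.1.le]
      exact inv_anti₀ (Real.rpow_pos_of_pos ht.1 _)
        (Real.rpow_le_rpow ht.1.le ht.2.le (by norm_num))
    rw [hc]
    linarith

theorem pow53_conv {m a b : ℝ} (hm : 0 < m) (ha : 0 ≤ a) (ham : a ≤ m) (hb : 0 ≤ b) (hbm : b ≤ m) :
    ((a + b) / 2) ^ (5 / 3 : ℝ) + 5 / 36 * ((a - b) ^ 2 / m ^ (1 / 3 : ℝ)) ≤ (a ^ (5 / 3 : ℝ) + b ^ (5 / 3 : ℝ)) / 2 := by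
  have hcv := pow53_convexOn (m := m) rfl
  have h := hcv.2 (show a ∈ Icc 0 m from ⟨ha, ham⟩) (show b ∈ Icc 0 m from ⟨hb, hbm⟩)
    (show (0 : ℝ) ≤ 1 / 2 by norm_num) (show (0 : ℝ) ≤ 1 / 2 by norm_num) (by norm_num)
  simp only [smul_eq_mul] at h
  rw [show (1 / 2 : ℝ) * a + 1 / 2 * b = (a + b) / 2 by ring] at h
  rw [div_eq_mul_inv ((a - b) ^ 2)]
  nlinarith [h]

end Pool.Agent.H50.TM
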