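import Pool.Agent.H50.TM.Defs

/-!
# Module ExB: abstract existence of a minimiser in an order interval

`InC rb f`: `f` a.e. strongly measurable, `0 ≤ f ≤ rb` a.e. Let `I = inf {F f | InC rb f}` (bounded below by `m`, nonempty: `f = 0`), `f_n` with `F f_n ≤ I + 1/(n+1)`.
By `h2` for `f_n, f_l`: `c ∫ (f_n-f_l)²/rb^(1/3) ≤ 1/(n+1) + 1/(l+1)` (the midpoint is in the class). Cauchy-Schwarz:
`∫ |f_n - f_l| ≤ (∫ (f_n-f_l)²/rb^(1/3))^(1/2) (∫ rb^(1/3))^(1/2)` (where `rb = 0` both vanish; `(f_n-f_l)²/rb^(1/3) ≤ rb^(5/3)` is integrable), so `f_n` is Cauchy in `L¹` (`f_n ≤ rb` integrable); `L¹` is complete, a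
subsequence converges a.e. (`tendstoInMeasure ...exists_seq_tendsto_ae` / `exists_subseq_tendsto_ae`); the limit `f` is in the class, `h3`: `F f = I`.
-/

set_option autoImplicit false

open MeasureTheory Set Filter Topology
open scoped ENNReal NNReal

namespace Pool.Agent.H50.TM

open Pool.Agent.H23.TF

/-- the order interval `[0, rb]` -/
def InC (rb f : E3 → ℝ) : Prop := AEStronglyMeasurable f volume ∧ ∀ᵐ x, 0 ≤ f x ∧ f x ≤ rb x

private lemma InC.integrable {rb f : E3 → ℝ} (hb : Integrable rb) (hf : InC rb f) : Integrable f := by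
  refine hb.mono' hf.1 ?_
  filter_upwards [hf.2] with x hx
  rw [Real.norm_of_nonneg hx.1]
  exact hx.2

private lemma InC.mid {rb f g : E3 → ℝ} (hf : InC rb f) (hg : InC rb g) :
    InC rb (fun x => (f x + g x) / 2) := by
  refine ⟨?_, ?_⟩
  · exact ((hf.1.add hg.1).aemeasurable.div_const 2).aestronglyMeasurable
  · filter_upwards [hf.2, hg.2] with x h1 h2
    constructor <;> linarith [h1.1, h1.2, h2.1, h2.2]

private lemma sq_int {rb f g : E3 → ℝ} (hb0 : ∀ x, 0 ≤ rb x)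
    (hb3 : Integrable (fun x => rb x ^ (1 / 3 : ℝ))) (hb5 : Integrable (fun x => rb x ^ (5 / 3 : ℝ)))
    (hf : InC rb f) (hg : InC rb g) :
    Integrable (fun x => (f x - g x) ^ 2 / rb x ^ (1 / 3 : ℝ)) := by
  refine hb5.mono' ?_ ?_
  · exact (((hf.1.sub hg.1).pow 2).aemeasurable.div hb3.1.aemeasurable).aestronglyMeasurable
  · filter_upwards [hf.2, hg.2] with x h1 h2
    have h3 : 0 ≤ rb x ^ (1 / 3 : ℝ) := Real.rpow_nonneg (hb0 x) _
    rw [Real.norm_of_nonneg (div_nonneg (sq_nonneg _) h3)]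
    rcases (hb0 x).eq_or_lt with h0 | h0
    · rw [← h0] at h1 h2
      have h4 : f x - g x = 0 := by linarith [h1.1, h1.2, h2.1, h2.2]
      rw [h4, ← h0]
      norm_num
    · have h4 : 0 < rb x ^ (1 / 3 : ℝ) := Real.rpow_pos_of_pos h0 _
      rw [div_le_iff₀ h4, ← Real.rpow_add h0]
      have h5 : rb x ^ (5 / 3 + 1 / 3 : ℝ) = rb x ^ 2 := by
        rw [show (5 / 3 + 1 / 3 : ℝ) = (2 : ℕ) by norm_num, Real.rpow_natCast]
      rw [h5]
      apply sq_le_sq'
      · linarith [h1.1, h1.2, h2.1, h2.2]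
      · linarith [h1.1, h1.2, h2.1, h2.2]

private lemma abs_le_amgm {rb f g : E3 → ℝ} (hb0 : ∀ x, 0 ≤ rb x)
    (hf : InC rb f) (hg : InC rb g) {t : ℝ} (ht : 0 < t) :
    ∀ᵐ x, ‖f x - g x‖ ≤ t * ((f x - g x) ^ 2 / rb x ^ (1 / 3 : ℝ)) + (1 / t) * rb x ^ (1 / 3 : ℝ) := by
  filter_upwards [hf.2, hg.2] with x h1 h2
  rcases (hb0 x).eq_or_lt with h0 | h0
  · rw [← h0] at h1 h2
    have h4 : f x - g x = 0 := by linarith [h1.1, h1.2, h2.1, h2.2]
    rw [h4, ← h0]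
    norm_num
  · have h4 : 0 < rb x ^ (1 / 3 : ℝ) := Real.rpow_pos_of_pos h0 _
    rw [Real.norm_eq_abs]
    set a := rb x ^ (1 / 3 : ℝ)
    set d := |f x - g x| with hd
    have hd2 : (f x - g x) ^ 2 = d ^ 2 := (sq_abs _).symm
    rw [hd2]
    have h5 : 0 ≤ d := abs_nonneg _
    have h6 : t * (d ^ 2 / a) + 1 / t * a - 2 * d = (t * d - a) ^ 2 / (t * a) := by
      field_simp
      ring
    have h7 : 0 ≤ (t * d - a) ^ 2 / (t * a) := by positivity
    linarith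

theorem exists_min_dom {rb : E3 → ℝ} (hb : Integrable rb) (hb0 : ∀ x, 0 ≤ rb x)
    (hb3 : Integrable (fun x => rb x ^ (1 / 3 : ℝ))) (hb5 : Integrable (fun x => rb x ^ (5 / 3 : ℝ))) (F : (E3 → ℝ) → ℝ) {c m : ℝ} (hc : 0 < c)
    (h1 : ∀ f, InC rb f → m ≤ F f)
    (h2 : ∀ f g, InC rb f → InC rb g →
      F (fun x => (f x + g x) / 2) + c * ∫ x, (f x - g x) ^ 2 / rb x ^ (1 / 3 : ℝ) ≤ (F f + F g) / 2)
    (h3 : ∀ (fn : ℕ → E3 → ℝ) (f : E3 → ℝ), (∀ n, InC rb (fn n)) → InC rb f →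
      (∀ᵐ x, Tendsto (fun n => fn n x) atTop (𝓝 (f x))) → Tendsto (fun n => F (fn n)) atTop (𝓝 (F f))) :
    ∃ f, InC rb f ∧ ∀ g, InC rb g → F f ≤ F g := by
  classical
  set S : Set ℝ := {e | ∃ f, InC rb f ∧ F f = e} with hS
  have hSb : BddBelow S := by
    refine ⟨m, ?_⟩
    rintro _ ⟨f, hf, rfl⟩
    exact h1 f hf
  have h0C : InC rb (fun _ => 0) := ⟨aestronglyMeasurable_const, Eventually.of_forall fun x => ⟨le_rfl, hb0 x⟩⟩
  have hSne : S.Nonempty := ⟨_, _, h0C, rfl⟩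
  set I := sInf S with hI
  have hIle : ∀ f, InC rb f → I ≤ F f := fun f hf => csInf_le hSb ⟨f, hf, rfl⟩
  have hex : ∀ n : ℕ, ∃ f, InC rb f ∧ F f < I + 1 / ((n:ℝ) + 1) := by
    intro n
    have h4 : sInf S < I + 1 / ((n:ℝ) + 1) := by
      have : 0 < 1 / ((n:ℝ) + 1) := by positivity
      linarith
    obtain ⟨_, ⟨f, hf, rfl⟩, hf2⟩ := exists_lt_of_csInf_lt hSne h4
    exact ⟨f, hf, hf2⟩
  choose f hfC hfI using hex
  have hint : ∀ n, Integrable (f n) := fun n => (hfC n).integrable hb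
  -- square estimate
  have hsq : ∀ n l : ℕ, ∫ x, (f n x - f l x) ^ 2 / rb x ^ (1 / 3 : ℝ) ≤
      (1 / ((n:ℝ) + 1) + 1 / ((l:ℝ) + 1)) / (2 * c) := by
    intro n l
    have h4 := h2 (f n) (f l) (hfC n) (hfC l)
    have h5 := hIle _ ((hfC n).mid (hfC l))
    rw [le_div_iff₀ (by positivity)]
    have h6 := hfI n
    have h7 := hfI l
    nlinarith
  set B := ∫ x, rb x ^ (1 / 3 : ℝ) with hB
  have hB0 : 0 ≤ B := integral_nonneg fun x => Real.rpow_nonneg (hb0 x) _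
  have hL1 : ∀ (n l : ℕ) (t : ℝ), 0 < t → ∫ x, ‖f n x - f l x‖ ≤
      t * ((1 / ((n:ℝ) + 1) + 1 / ((l:ℝ) + 1)) / (2 * c)) + (1 / t) * B := by
    intro n l t ht
    have hs := sq_int hb0 hb3 hb5 (hfC n) (hfC l)
    calc ∫ x, ‖f n x - f l x‖
        ≤ ∫ x, (t * ((f n x - f l x) ^ 2 / rb x ^ (1 / 3 : ℝ)) + (1 / t) * rb x ^ (1 / 3 : ℝ)) := by
          apply integral_mono_ae ((hint n).sub (hint l)).norm ((hs.const_mul t).add (hb3.const_mul (1 / t)))
          exact abs_le_amgm hb0 (hfC n) (hfC l) ht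
      _ = t * (∫ x, (f n x - f l x) ^ 2 / rb x ^ (1 / 3 : ℝ)) + (1 / t) * B := by
          rw [integral_add (hs.const_mul t) (hb3.const_mul (1 / t)), integral_const_mul, integral_const_mul]
      _ ≤ _ := by
          have := hsq n l
          gcongr
  set u : ℕ → (E3 →₁[volume] ℝ) := fun n => (hint n).toL1 (f n) with hu
  have hdist : ∀ n l, dist (u n) (u l) = ∫ x, ‖f n x - f l x‖ := by
    intro n l
    rw [dist_eq_norm, hu]
    simp only
    rw [← Integrable.toL1_sub, L1.norm_of_fun_eq_integral_norm]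
    rfl
  have hcauchy : CauchySeq u := by
    rw [Metric.cauchySeq_iff']
    intro ε hε
    set t : ℝ := 2 * (B + 1) / ε with ht
    have ht0 : 0 < t := by positivity
    have h4 : (1 / t) * B < ε / 2 := by
      rw [ht]
      rw [one_div, inv_div, div_mul_eq_mul_div, div_lt_div_iff₀ (by positivity) (by norm_num)]
      nlinarith
    obtain ⟨N, hN⟩ := exists_nat_gt (2 * t / (c * ε))
    refine ⟨N, fun n hn => ?_⟩
    rw [hdist]
    refine lt_of_le_of_lt (hL1 n N t ht0) ?_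
    have h5 : 1 / ((n:ℝ) + 1) ≤ 1 / ((N:ℝ) + 1) := by
      apply one_div_le_one_div_of_le (by positivity)
      have : (N:ℝ) ≤ n := by exact_mod_cast hn
      linarith
    have h6 : t * ((1 / ((n:ℝ) + 1) + 1 / ((N:ℝ) + 1)) / (2 * c)) ≤ ε / 2 := by
      have h7 : t * ((1 / ((n:ℝ) + 1) + 1 / ((N:ℝ) + 1)) / (2 * c)) ≤ t * ((1 / ((N:ℝ) + 1) + 1 / ((N:ℝ) + 1)) / (2 * c)) := by
        gcongr
      refine h7.trans ?_
      have h8 : t * ((1 / ((N:ℝ) + 1) + 1 / ((N:ℝ) + 1)) / (2 * c)) = t / (c * ((N:ℝ) + 1)) := by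
        field_simp
        ring
      rw [h8, div_le_div_iff₀ (by positivity) (by norm_num)]
      rw [div_lt_iff₀ (by positivity)] at hN
      nlinarith [mul_pos hc hε]
    linarith
  obtain ⟨G, hG⟩ := cauchySeq_tendsto_of_complete hcauchy
  obtain ⟨ns, hns, hae⟩ := (tendstoInMeasure_of_tendsto_Lp hG).exists_seq_tendsto_ae
  have hae2 : ∀ᵐ x, Tendsto (fun i => f (ns i) x) atTop (𝓝 (G x)) := by
    have h4 : ∀ᵐ x, ∀ n, u n x = f n x := by
      rw [ae_all_iff]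
      intro n
      exact (hint n).coeFn_toL1
    filter_upwards [hae, h4] with x hx h4x
    refine hx.congr fun i => ?_
    exact h4x (ns i)
  have hGC : InC rb (fun x => G x) := by
    refine ⟨Lp.aestronglyMeasurable G, ?_⟩
    have h4 : ∀ᵐ x, ∀ n, 0 ≤ f n x ∧ f n x ≤ rb x := by
      rw [ae_all_iff]
      intro n
      exact (hfC n).2
    filter_upwards [hae2, h4] with x hx h4x
    exact ⟨ge_of_tendsto' hx fun i => (h4x (ns i)).1, le_of_tendsto' hx fun i => (h4x (ns i)).2⟩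
  have hlim := h3 (fun i => f (ns i)) (fun x => G x) (fun i => hfC (ns i)) hGC hae2
  have hlim2 : Tendsto (fun i => F (f (ns i))) atTop (𝓝 I) := by
    have h4 : Tendsto (fun i : ℕ => I + 1 / (((ns i : ℕ) : ℝ) + 1)) atTop (𝓝 (I + 0)) := by
      apply Tendsto.const_add
      exact tendsto_one_div_add_atTop_nhds_zero_nat.comp hns.tendsto_atTop
    rw [add_zero] at h4
    exact tendsto_of_tendsto_of_tendsto_of_le_of_le tendsto_const_nhds h4
      (fun i => hIle _ (hfC (ns i))) (fun i => (hfI (ns i)).le)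
  have hFG : F (fun x => G x) = I := tendsto_nhds_unique hlim hlim2
  exact ⟨_, hGC, fun g hg => by rw [hFG]; exact hIle g hg⟩

end Pool.Agent.H50.TM
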