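import Pool.Agent.H50.TM.Defs

/-!
# Module JJf: the functions `jj`, `JJ` (one variable)

`jj γ μ t = (max (t-μ) 0/γ)^(3/2)`, `JJ γ μ t = (2/5) γ (max (t-μ) 0/γ)^(5/2)`.
* `jj_lip`: for `s ≤ t ≤ M`, `μ ≤ M`: `jj t - jj s ≤ C (t - s)` with `C = (3/2) γ^(-3/2) (M-μ)^(1/2)`, or any constant (mean value / `s1_rpow_lip` in
  `H23/TF/S1_Scheme`: `a^(3/2) ≤ b^(3/2) + 3/2 √m (a-b)`).
* `JJ_deriv`: for `t > μ` chain rule; for `t < μ` locally zero; at `t = μ`: `JJ t ≤ c (t-μ)₊^(5/2)`, `HasDerivAt` with derivative `0`.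
* `JJ_eq`: for `t > μ`, `u = (t-μ)/γ`: `(t-μ) u^(3/2) - (3/5) γ u^(5/2) = (2/5) γ u^(5/2)`.
* `young_tf`: `(3/5) γ s^(5/3) - (t-μ) s ≥ (3/5) γ (jj t)^(5/3) - (t-μ) jj t` for all `s ≥ 0` (convexity of `s ↦ s^(5/3)`; `hh_nonneg` in H23/TF/U1_Min after scaling;
  if `t ≤ μ` both sides: `jj t = 0`).
-/

set_option autoImplicit false

open MeasureTheory Set Filter Topology
open scoped ENNReal NNReal

namespace Pool.Agent.H50.TM

open Pool.Agent.H23.TF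

variable {γ μ : ℝ}

private theorem pn (hγ : 0 < γ) (t : ℝ) : 0 ≤ max (t - μ) 0 / γ :=
  div_nonneg (le_max_right _ _) hγ.le

private theorem pmono (hγ : 0 < γ) {s t : ℝ} (h : s ≤ t) :
    max (s - μ) 0 / γ ≤ max (t - μ) 0 / γ :=
  div_le_div_of_nonneg_right (max_le_max (by linarith) le_rfl) hγ.le

private theorem pz {t : ℝ} (h : t ≤ μ) : max (t - μ) 0 / γ = 0 := by
  rw [max_eq_right (by linarith), zero_div]

private theorem pp {t : ℝ} (h : μ < t) : max (t - μ) 0 / γ = (t - μ) / γ := by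
  rw [max_eq_left (by linarith)]

theorem jj_nonneg (hγ : 0 < γ) (t : ℝ) : 0 ≤ jj γ μ t := Real.rpow_nonneg (pn hγ t) _

theorem jj_mono (hγ : 0 < γ) : Monotone (jj γ μ) := fun s _ h =>
  Real.rpow_le_rpow (pn hγ s) (pmono hγ h) (by norm_num)

theorem jj_of_le {t : ℝ} (h : t ≤ μ) : jj γ μ t = 0 := by
  unfold jj
  rw [pz h, Real.zero_rpow (by norm_num)]

theorem jj_pos (hγ : 0 < γ) {t : ℝ} (h : μ < t) : 0 < jj γ μ t := by
  unfold jj
  rw [pp h]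
  exact Real.rpow_pos_of_pos (div_pos (by linarith) hγ) _

private theorem pcont : Continuous fun t : ℝ => max (t - μ) 0 / γ := by fun_prop

theorem continuous_jj (hγ : 0 < γ) : Continuous (jj γ μ) :=
  pcont.rpow_const fun _ => Or.inr (by norm_num)

private theorem cube {c : ℝ} (hc : 0 ≤ c) : c ^ (3 / 2 : ℝ) = √c ^ 3 := by
  rw [Real.sqrt_eq_rpow, ← Real.rpow_natCast, ← Real.rpow_mul hc]
  norm_num

theorem jj_lip (hγ : 0 < γ) (M : ℝ) : ∃ C : ℝ, 0 ≤ C ∧ ∀ s t : ℝ, s ≤ t → t ≤ M → jj γ μ t - jj γ μ s ≤ C * (t - s) := by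
  refine ⟨3 / 2 * √(max (M - μ) 0 / γ) / γ, by positivity, fun s t hst htM => ?_⟩
  have hs := pn (μ := μ) hγ s
  have ht := pn (μ := μ) hγ t
  have h1 := pmono (μ := μ) hγ hst
  have h2 := pmono (μ := μ) hγ htM
  have h3 : max (t - μ) 0 / γ - max (s - μ) 0 / γ ≤ (t - s) / γ := by
    rw [← sub_div]
    refine div_le_div_of_nonneg_right ?_ hγ.le
    rcases max_cases (t - μ) 0 with ⟨e1, e2⟩ | ⟨e1, e2⟩
    · have := le_max_left (s - μ) 0
      rw [e1]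
      linarith
    · have := le_max_right (s - μ) 0
      rw [e1]
      linarith
  unfold jj
  rw [cube ht, cube hs]
  set x := max (s - μ) 0 / γ
  set y := max (t - μ) 0 / γ
  set m := max (M - μ) 0 / γ
  have ha : √x ≤ √y := Real.sqrt_le_sqrt h1
  have hb : √y ≤ √m := Real.sqrt_le_sqrt h2
  have hx0 := Real.sqrt_nonneg x
  have hx2 : √x ^ 2 = x := Real.sq_sqrt hs
  have hy2 : √y ^ 2 = y := Real.sq_sqrt ht
  have h4 : √y ^ 3 - √x ^ 3 ≤ 3 / 2 * √y * (√y ^ 2 - √x ^ 2) := by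
    have h5 : 0 ≤ (√y - √x) * ((√y - √x) * (√y + 2 * √x)) := by
      have : 0 ≤ √y - √x := by linarith
      positivity
    nlinarith
  rw [hx2, hy2] at h4
  calc √y ^ 3 - √x ^ 3 ≤ 3 / 2 * √y * (y - x) := h4
    _ ≤ 3 / 2 * √m * (y - x) := by
      refine mul_le_mul_of_nonneg_right ?_ (by linarith)
      linarith
    _ ≤ 3 / 2 * √m * ((t - s) / γ) := mul_le_mul_of_nonneg_left h3 (by positivity)
    _ = 3 / 2 * √m / γ * (t - s) := by ring

theorem jj_rpow (hγ : 0 < γ) (t : ℝ) : γ * jj γ μ t ^ (2 / 3 : ℝ) = max (t - μ) 0 := by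
  unfold jj
  rw [← Real.rpow_mul (pn hγ t)]
  norm_num
  field_simp

theorem jj_rpow53 (hγ : 0 < γ) (t : ℝ) : jj γ μ t ^ (5 / 3 : ℝ) = (max (t - μ) 0 / γ) ^ (5 / 2 : ℝ) := by
  unfold jj
  rw [← Real.rpow_mul (pn hγ t)]
  norm_num

theorem JJ_nonneg (hγ : 0 < γ) (t : ℝ) : 0 ≤ JJ γ μ t := by
  have := Real.rpow_nonneg (pn (μ := μ) hγ t) (5 / 2)
  unfold JJ
  positivity

theorem JJ_of_le {t : ℝ} (h : t ≤ μ) : JJ γ μ t = 0 := by
  unfold JJ
  rw [pz h, Real.zero_rpow (by norm_num), mul_zero]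

theorem continuous_JJ (hγ : 0 < γ) : Continuous (JJ γ μ) :=
  continuous_const.mul (pcont.rpow_const fun _ => Or.inr (by norm_num))

theorem JJ_deriv (hγ : 0 < γ) (t : ℝ) : HasDerivAt (JJ γ μ) (jj γ μ t) t := by
  refine hasDerivAt_of_hasDerivAt_of_ne' (x := μ) (fun y hy => ?_)
    (continuous_JJ hγ).continuousAt (continuous_jj hγ).continuousAt t
  rcases lt_or_gt_of_ne hy with h | h
  · rw [jj_of_le h.le]
    refine (hasDerivAt_const y (0 : ℝ)).congr_of_eventuallyEq ?_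
    filter_upwards [Iio_mem_nhds h] with x hx
    exact JJ_of_le (le_of_lt hx)
  · have h1 : HasDerivAt (fun x : ℝ => (x - μ) / γ) (1 / γ) y :=
      ((hasDerivAt_id y).sub_const μ).div_const γ
    have h0 : 0 < (y - μ) / γ := div_pos (by linarith) hγ
    have h2 := (h1.rpow_const (p := 5 / 2) (Or.inl h0.ne')).const_mul (2 / 5 * γ)
    have h3 : 2 / 5 * γ * (1 / γ * (5 / 2) * ((y - μ) / γ) ^ ((5 / 2 : ℝ) - 1)) = jj γ μ y := by
      unfold jj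
      rw [pp h]
      have e : (5 / 2 : ℝ) - 1 = 3 / 2 := by norm_num
      rw [e]
      field_simp
    rw [h3] at h2
    refine h2.congr_of_eventuallyEq ?_
    filter_upwards [Ioi_mem_nhds h] with x hx
    unfold JJ
    rw [pp hx]

theorem JJ_eq (hγ : 0 < γ) (t : ℝ) : (t - μ) * jj γ μ t - 3 / 5 * γ * jj γ μ t ^ (5 / 3 : ℝ) = JJ γ μ t := by
  rw [jj_rpow53 hγ]
  rcases le_or_gt t μ with h | h
  · rw [jj_of_le h, JJ_of_le h, pz h, Real.zero_rpow (by norm_num)]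
    ring
  · have h0 : 0 < (t - μ) / γ := div_pos (by linarith) hγ
    unfold jj JJ
    rw [pp h]
    have e1 : ((t - μ) / γ) ^ (5 / 2 : ℝ) = (t - μ) / γ * ((t - μ) / γ) ^ (3 / 2 : ℝ) := by
      rw [show (5 / 2 : ℝ) = 1 + 3 / 2 by norm_num, Real.rpow_add h0, Real.rpow_one]
    rw [e1]
    field_simp
    ring

theorem young_tf (hγ : 0 < γ) (t : ℝ) {s : ℝ} (hs : 0 ≤ s) :
    3 / 5 * γ * jj γ μ t ^ (5 / 3 : ℝ) - (t - μ) * jj γ μ t ≤ 3 / 5 * γ * s ^ (5 / 3 : ℝ) - (t - μ) * s := by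
  have h1 := JJ_eq (μ := μ) hγ t
  have hp := pn (μ := μ) hγ t
  have hc : (5 / 3 : ℝ).HolderConjugate (5 / 2) := by
    rw [Real.holderConjugate_iff]
    norm_num
  have h2 := Real.young_inequality_of_nonneg hs hp hc
  have h3 : t - μ ≤ γ * (max (t - μ) 0 / γ) := by
    have : γ * (max (t - μ) 0 / γ) = max (t - μ) 0 := by field_simp
    rw [this]
    exact le_max_left _ _
  have h4 : (t - μ) * s ≤ γ * (max (t - μ) 0 / γ) * s := mul_le_mul_of_nonneg_right h3 hs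
  have h5 : γ * (s * (max (t - μ) 0 / γ)) ≤
      γ * (s ^ (5 / 3 : ℝ) / (5 / 3) + (max (t - μ) 0 / γ) ^ (5 / 2 : ℝ) / (5 / 2)) :=
    mul_le_mul_of_nonneg_left h2 hγ.le
  have h6 : JJ γ μ t = 2 / 5 * γ * (max (t - μ) 0 / γ) ^ (5 / 2 : ℝ) := rfl
  linarith

end Pool.Agent.H50.TM
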