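import Pool.Agent.H50.TM.GCont
import Pool.Agent.H50.TM.GeoM
import Pool.Agent.H50.TM.JJf

/-!
# Module LocA: bounds for the densities `ρ`, `σ`

* `IsTF.le_V`: `G ρ ≥ 0` (`G_nonneg`), `jj_mono`.
* `V_far`: `V R z x ≤ (∑ z)/d` if `‖x - R i‖ ≥ d` for all `i`; `V_small`: for every `ε > 0` there is `r` with `V R z x ≤ ε` for `‖x‖ ≥ r`
  (`r = max ‖R i‖ + (∑ z)/ε + 1`).
* `IsTF.supp`: for `‖x‖ ≥ r`: `V ≤ μ`, so `ρ x ≤ jj μ = 0`.
* `Cfg.slab`: `d = (1/2) min |(R i) 0|` (or `1` if there is no nucleus); for `|x₀| < d`: `‖x - R i‖ ≥ |(R i) 0 - x₀| ≥ d`, so `ρ x ≤ jj ((∑ z)/d)`.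
* `Cfg.sig_le`: on `x₀ > 0`: `G (foldf ρ) x ≥ 0` and `G σ (rf x) ≤ G σ x` (for `y` with `σ y ≠ 0`: `y₀ > 0` and `‖x-y‖ ≤ ‖rf x - y‖`, `rf_dist_le`), so
  `σ x ≤ jj (V (fold R) z x)`; the folded nuclei are on the left at distance `≥ d` of the half space, so `σ` is bounded; support as before.
* `continuousAt_V`: finite sum.
-/

set_option autoImplicit false

open MeasureTheory Set Filter Topology
open scoped ENNReal NNReal

namespace Pool.Agent.H50.TM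

open Pool.Agent.H23.TF

variable {γ μ : ℝ} {k : ℕ} {R : Fin k → E3} {z : Fin k → ℝ} {ρ σ : E3 → ℝ}

theorem continuousAt_V {x : E3} (h : ∀ i, z i ≠ 0 → x ≠ R i) : ContinuousAt (V R z) x := by
  have h1 : ∀ j : Fin k, ContinuousAt (fun y : E3 => z j / ‖y - R j‖) x := by
    intro j
    by_cases hz : z j = 0
    · simp only [hz, zero_div]
      exact continuousAt_const
    · refine continuousAt_const.div (by fun_prop) ?_
      rw [norm_ne_zero_iff, sub_ne_zero]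
      exact h j hz
  exact tendsto_finsetSum Finset.univ fun j _ => h1 j

theorem V_far (hz : ∀ i, 0 ≤ z i) {d : ℝ} (hd : 0 < d) {x : E3} (h : ∀ i, d ≤ ‖x - R i‖) : V R z x ≤ (∑ i, z i) / d := by
  unfold V
  rw [Finset.sum_div]
  exact Finset.sum_le_sum fun i _ => div_le_div_of_nonneg_left (hz i) hd (h i)

theorem V_small (R : Fin k → E3) (hz : ∀ i, 0 ≤ z i) {ε : ℝ} (hε : 0 < ε) : ∃ r : ℝ, 0 < r ∧ ∀ x : E3, r ≤ ‖x‖ → V R z x ≤ ε := by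
  have hZ : 0 ≤ ∑ i, z i := Finset.sum_nonneg fun i _ => hz i
  have hR : 0 ≤ ∑ i, ‖R i‖ := Finset.sum_nonneg fun i _ => norm_nonneg _
  have hq : 0 ≤ (∑ i, z i) / ε := div_nonneg hZ hε.le
  have hD : 0 < (∑ i, z i) / ε + 1 := by linarith
  refine ⟨∑ i, ‖R i‖ + ((∑ i, z i) / ε + 1), by linarith, fun x hx => ?_⟩
  refine (V_far hz hD fun i => ?_).trans ?_
  · have h1 : ‖x‖ ≤ ‖x - R i‖ + ‖R i‖ := by
      have := norm_add_le (x - R i) (R i)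
      rwa [sub_add_cancel] at this
    have h2 : ‖R i‖ ≤ ∑ j, ‖R j‖ :=
      Finset.single_le_sum (f := fun j => ‖R j‖) (fun j _ => norm_nonneg _) (Finset.mem_univ i)
    linarith
  · rw [div_le_iff₀ hD, mul_add, mul_div_cancel₀ _ hε.ne']
    linarith

theorem G_refl_le {f : E3 → ℝ} (hf : Ld f) (h0 : ∀ x, 0 ≤ f x) (hz : ∀ x : E3, x 0 ≤ 0 → f x = 0) {x : E3} (hx : 0 ≤ x 0) :
    G f (rf x) ≤ G f x := by
  unfold G
  refine integral_mono_ae (hf.int_div (rf x)) (hf.int_div x) ?_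
  have h1 : ∀ᵐ y : E3, y ≠ x := compl_mem_ae_iff.2 (measure_singleton x)
  filter_upwards [h1] with y hy
  by_cases h2 : y 0 ≤ 0
  · rw [hz y h2, zero_div, zero_div]
  · push Not at h2
    have h3 : 0 < ‖x - y‖ := norm_pos_iff.2 (sub_ne_zero.2 (Ne.symm hy))
    exact div_le_div_of_nonneg_left (h0 y) h3 (rf_dist_le hx h2.le)

theorem IsTF.nonneg (hγ : 0 < γ) (h : IsTF γ μ R z ρ) (x : E3) : 0 ≤ ρ x := by
  rw [h.eq x]
  exact jj_nonneg hγ _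

theorem IsTF.le_V (hγ : 0 < γ) (h : IsTF γ μ R z ρ) (x : E3) : ρ x ≤ jj γ μ (V R z x) := by
  have h1 : 0 ≤ G ρ x := G_nonneg (Eventually.of_forall (h.nonneg hγ)) x
  calc ρ x = jj γ μ (V R z x - G ρ x) := h.eq x
    _ ≤ jj γ μ (V R z x) := jj_mono hγ (by linarith)

theorem IsTF.supp (hγ : 0 < γ) (hμ : 0 < μ) (hz : ∀ i, 0 ≤ z i) (h : IsTF γ μ R z ρ) : ∃ r : ℝ, 0 < r ∧ ∀ x : E3, r ≤ ‖x‖ → ρ x = 0 := by
  obtain ⟨r, hr, h1⟩ := V_small R hz hμ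
  refine ⟨r, hr, fun x hx => le_antisymm ?_ (h.nonneg hγ x)⟩
  have h2 := h.le_V hγ x
  rwa [jj_of_le (h1 x hx)] at h2

theorem IsTF.dn (hγ : 0 < γ) (h : IsTF γ μ R z ρ) : DN ρ := by
  refine ⟨h.nonneg hγ, h.ld.i1, ?_⟩
  have h1 := h.ld.i2
  have e : (fun x => |ρ x| ^ (5 / 3 : ℝ)) = fun x => ρ x ^ (5 / 3 : ℝ) := by
    funext x
    rw [abs_of_nonneg (h.nonneg hγ x)]
  rwa [e] at h1

theorem Cfg.slab (h : Cfg γ μ R z ρ σ) : ∃ d : ℝ, 0 < d ∧ (∀ i, d < |(R i) 0|) ∧ ∃ C : ℝ, ∀ x : E3, |x 0| < d → ρ x ≤ C := by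
  obtain ⟨m, hm0, hm⟩ : ∃ m : ℝ, 0 < m ∧ ∀ i, m ≤ |(R i) 0| := by
    rcases isEmpty_or_nonempty (Fin k) with he | he
    · exact ⟨1, one_pos, fun i => he.elim i⟩
    · obtain ⟨i0, hi0⟩ := Finite.exists_min (fun i => |(R i) 0|)
      exact ⟨|(R i0) 0|, abs_pos.2 (h.off i0), hi0⟩
  refine ⟨m / 2, by linarith, fun i => by have := hm i; linarith,
    jj γ μ ((∑ i, z i) / (m / 2)), fun x hx => ?_⟩
  refine (h.htf.le_V h.hγ x).trans (jj_mono h.hγ ?_)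
  refine V_far (fun i => (h.hz i).le) (by linarith) fun i => ?_
  have h1 := abs_zero_le (x - R i)
  have h2 : (x - R i) 0 = x 0 - (R i) 0 := rfl
  rw [h2] at h1
  have h3 : |(R i) 0| ≤ |x 0 - (R i) 0| + |x 0| := by
    have := abs_sub_abs_le_abs_sub ((R i) 0) (x 0)
    rw [abs_sub_comm] at this
    linarith
  have := hm i
  linarith

/-- the first coordinate of a folded nucleus -/
private theorem Cfg.fold_zero (h : Cfg γ μ R z ρ σ) (i : Fin k) : (fold R i) 0 = -|(R i) 0| := by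
  unfold fold
  by_cases h1 : (R i) 0 < 0
  · rw [if_pos h1, abs_of_neg h1, neg_neg]
  · have h2 : 0 ≤ (R i) 0 := not_lt.1 h1
    rw [if_neg h1, rf_zero, abs_of_nonneg h2]

theorem Cfg.fold_neg (h : Cfg γ μ R z ρ σ) (i : Fin k) : (fold R i) 0 < 0 := by
  rw [h.fold_zero i]
  have := abs_pos.2 (h.off i)
  linarith

theorem Cfg.sig_nonneg (h : Cfg γ μ R z ρ σ) (x : E3) : 0 ≤ σ x := by
  by_cases h1 : x 0 ≤ 0
  · rw [h.hhalf.zero x h1]
  · rw [h.hhalf.eq x (not_le.1 h1)]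
    exact jj_nonneg h.hγ _

/-- the folded density is nonnegative -/
private theorem Cfg.foldf_nonneg (h : Cfg γ μ R z ρ σ) (x : E3) : 0 ≤ foldf ρ x := by
  unfold foldf lp rp
  refine add_nonneg ?_ ?_
  · split_ifs
    · exact h.htf.nonneg h.hγ x
    · exact le_rfl
  · split_ifs
    · exact h.htf.nonneg h.hγ _
    · exact le_rfl

theorem Cfg.phi0_le (h : Cfg γ μ R z ρ σ) {x : E3} (hx : 0 ≤ x 0) : phi0 R z ρ σ x ≤ V (fold R) z x := by
  have h1 : 0 ≤ G (foldf ρ) x := G_nonneg (Eventually.of_forall h.foldf_nonneg) x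
  have h2 := G_refl_le h.hhalf.ld h.sig_nonneg h.hhalf.zero hx
  unfold phi0
  linarith

theorem Cfg.sig_eq (h : Cfg γ μ R z ρ σ) {x : E3} (hx : 0 < x 0) : σ x = jj γ μ (phi0 R z ρ σ x) :=
  h.hhalf.eq x hx

theorem Cfg.sig_bdd (h : Cfg γ μ R z ρ σ) : ∃ C : ℝ, ∀ x, σ x ≤ C := by
  obtain ⟨d, hd, hdR, -⟩ := h.slab
  refine ⟨jj γ μ ((∑ i, z i) / d), fun x => ?_⟩
  by_cases h1 : x 0 ≤ 0
  · rw [h.hhalf.zero x h1]
    exact jj_nonneg h.hγ _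
  · push Not at h1
    rw [h.sig_eq h1]
    refine jj_mono h.hγ ((h.phi0_le h1.le).trans ?_)
    refine V_far (fun i => (h.hz i).le) hd fun i => ?_
    have h2 := abs_zero_le (x - fold R i)
    have h3 : (x - fold R i) 0 = x 0 - (fold R i) 0 := rfl
    rw [h3, h.fold_zero i] at h2
    have h4 := le_abs_self (x 0 - -|(R i) 0|)
    have h5 := hdR i
    linarith

theorem Cfg.sig_supp (h : Cfg γ μ R z ρ σ) : ∃ r : ℝ, 0 < r ∧ ∀ x : E3, r ≤ ‖x‖ → σ x = 0 := by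
  obtain ⟨r, hr, h1⟩ := V_small (fold R) (fun i => (h.hz i).le) h.hμ
  refine ⟨r, hr, fun x hx => ?_⟩
  by_cases h2 : x 0 ≤ 0
  · exact h.hhalf.zero x h2
  · push Not at h2
    rw [h.sig_eq h2]
    exact jj_of_le ((h.phi0_le h2.le).trans (h1 x hx))

end Pool.Agent.H50.TM
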