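import Pool.Agent.H50.TM.ExA
import Pool.Agent.H50.TM.ExB
import Pool.Agent.H50.TM.LocA

/-!
# Module ExC: the functional of the existence proof

Two cases at once: full space (`θ = 0`, `D = univ`) and half space (`θ = 1`, `D = Hp`). `TT θ f x = G f x - θ G f (rf x)`, `W = V R z - G κ`,
`FE f = 3/5 γ ∫ f^(5/3) - ∫ (W-μ) f + 1/2 ∫ f TT f`, `rbd = jj (V R z)` on `D`, `0` elsewhere.
* `TT_symm`: `G_symm`; `∫ f(x) G g (rf x) = ∫ f(rf x) G g x = ∫ g G (f ∘ rf) = ∫ g(x) G f (rf x)`.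
* `TT_pos`: `∫ f TT f = (1-θ) ∫ f G f + (θ/2) ∫ (f - f∘rf) G (f - f∘rf)` and `pos` (H23/TF/A4_Pos).
* `rbd_ld`, `rbd_third`: `jj (V) = ((V-μ)₊/γ)^(3/2)`; `V ≤ μ` outside a ball (`V_small`); with `V ≤ ∑ z_i/‖x-R_i‖` and `(∑ t_i)^p ≤ C ∑ t_i^p`:
  `jj(V) ≤ C ∑ ‖x-R_i‖^(-3/2)`, `jj(V)^(5/3) ≤ C ∑ ‖x-R_i‖^(-5/2)`, `jj(V)^(1/3) ≤ C(1 + jj(V))` on the ball: all locally integrable (`integrableOn_ball`).
-/

set_option autoImplicit false

open MeasureTheory Set Filter Topology
open scoped ENNReal NNReal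

namespace Pool.Agent.H50.TM

open Pool.Agent.H23.TF

/-- Green operator: full space `θ = 0`, half space `θ = 1` -/
noncomputable def TT (θ : ℝ) (f : E3 → ℝ) (x : E3) : ℝ := G f x - θ * G f (rf x)

/-- the functional -/
noncomputable def FE (γ μ θ : ℝ) (W f : E3 → ℝ) : ℝ :=
  3 / 5 * γ * (∫ x, f x ^ (5 / 3 : ℝ)) - (∫ x, (W x - μ) * f x) + 1 / 2 * ∫ x, f x * TT θ f x

open Classical in
/-- the upper bound -/
noncomputable def rbd (γ μ : ℝ) {k : ℕ} (R : Fin k → E3) (z : Fin k → ℝ) (D : Set E3) (x : E3) : ℝ :=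
  if x ∈ D then jj γ μ (V R z x) else 0

variable {γ μ θ : ℝ} {k : ℕ} {R : Fin k → E3} {z : Fin k → ℝ} {κ f g : E3 → ℝ} {D : Set E3}

theorem InC_ld {rb : E3 → ℝ} (hb : Ld rb) (hf : InC rb f) : Ld f := by
  refine hb.mono hf.1 ?_
  filter_upwards [hf.2] with x hx
  rw [abs_of_nonneg hx.1, abs_of_nonneg (hx.1.trans hx.2)]
  exact hx.2

private theorem int_mul_G_rf (hf : Ld f) (hg : Ld g) : Integrable (fun x => f x * G g (rf x)) := by
  have h := hf.int_mul_G (Ld_rf hg)
  refine h.congr (Eventually.of_forall fun x => ?_)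
  show f x * G (fun x => g (rf x)) x = f x * G g (rf x)
  rw [G_rf]

theorem TT_int (hf : Ld f) (hg : Ld g) (θ : ℝ) : Integrable (fun x => f x * TT θ g x) := by
  have h := (hf.int_mul_G hg).sub ((int_mul_G_rf hf hg).const_mul θ)
  refine h.congr (Eventually.of_forall fun x => ?_)
  show f x * G g x - θ * (f x * G g (rf x)) = f x * (G g x - θ * G g (rf x))
  ring

private theorem TT_split (hf : Ld f) (hg : Ld g) (θ : ℝ) : ∫ x, f x * TT θ g x =
    (∫ x, f x * G g x) - θ * ∫ x, f x * G g (rf x) := by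
  rw [← integral_const_mul, ← integral_sub (hf.int_mul_G hg) ((int_mul_G_rf hf hg).const_mul θ)]
  refine integral_congr_ae (Eventually.of_forall fun x => ?_)
  show f x * (G g x - θ * G g (rf x)) = f x * G g x - θ * (f x * G g (rf x))
  ring

private theorem cross_symm (hf : Ld f) (hg : Ld g) : ∫ x, f x * G g (rf x) = ∫ x, g x * G f (rf x) := by
  have h1 : ∫ x, f x * G g (rf x) = ∫ x, f x * G (fun y => g (rf y)) x := by
    refine integral_congr_ae (Eventually.of_forall fun x => ?_)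
    show f x * G g (rf x) = f x * G (fun y => g (rf y)) x
    rw [G_rf]
  rw [h1, G_symm hf (Ld_rf hg), ← integral_rf]
  refine integral_congr_ae (Eventually.of_forall fun x => ?_)
  show g (rf (rf x)) * G f (rf x) = g x * G f (rf x)
  rw [rf_rf]

theorem TT_symm (hf : Ld f) (hg : Ld g) (θ : ℝ) : ∫ x, f x * TT θ g x = ∫ x, g x * TT θ f x := by
  rw [TT_split hf hg, TT_split hg hf, G_symm hf hg, cross_symm hf hg]

theorem TT_pos (hf : Ld f) (h0 : 0 ≤ θ) (h1 : θ ≤ 1) : 0 ≤ ∫ x, f x * TT θ f x := by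
  rw [TT_split hf hf]
  have hr := Ld_rf hf
  have hp := pos hf
  have hq := pos (hf.sub hr)
  have e1 : ∫ x, (f x - f (rf x)) * G (fun x => f x - f (rf x)) x =
      ((∫ x, f x * G f x) - ∫ x, f x * G f (rf x)) -
      ((∫ x, f x * G f (rf x)) - ∫ x, f x * G f x) := by
    have i1 := hf.int_mul_G hf
    have i2 := int_mul_G_rf hf hf
    have i3 := hr.int_mul_G hf
    have i4 := int_mul_G_rf hr hf
    have j3 : ∫ x, f (rf x) * G f x = ∫ x, f x * G f (rf x) := by
      rw [← integral_rf]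
      refine integral_congr_ae (Eventually.of_forall fun x => ?_)
      show f (rf (rf x)) * G f (rf x) = f x * G f (rf x)
      rw [rf_rf]
    have j4 : ∫ x, f (rf x) * G f (rf x) = ∫ x, f x * G f x :=
      integral_rf (fun x => f x * G f x)
    have e0 : ∫ x, (f x - f (rf x)) * G (fun x => f x - f (rf x)) x =
        ∫ x, ((f x * G f x - f x * G f (rf x)) - (f (rf x) * G f x - f (rf x) * G f (rf x))) := by
      refine integral_congr_ae (Eventually.of_forall fun x => ?_)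
      show (f x - f (rf x)) * G (fun x => f x - f (rf x)) x =
        (f x * G f x - f x * G f (rf x)) - (f (rf x) * G f x - f (rf x) * G f (rf x))
      rw [G_sub hf hr, G_rf]
      ring
    have s1 : ∫ x, ((f x * G f x - f x * G f (rf x)) - (f (rf x) * G f x - f (rf x) * G f (rf x))) =
        (∫ x, (f x * G f x - f x * G f (rf x))) - ∫ x, (f (rf x) * G f x - f (rf x) * G f (rf x)) :=
      integral_sub (i1.sub i2) (i3.sub i4)
    rw [e0, s1, integral_sub i1 i2, integral_sub i3 i4, j3, j4]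
  rw [e1] at hq
  nlinarith [mul_nonneg h0 hq, mul_nonneg (sub_nonneg.2 h1) hp]

theorem rbd_nonneg (hγ : 0 < γ) (x : E3) : 0 ≤ rbd γ μ R z D x := by
  unfold rbd
  split_ifs
  · exact jj_nonneg hγ _
  · exact le_rfl

theorem rbd_meas (hγ : 0 < γ) (hD : MeasurableSet D) : Measurable (rbd γ μ R z D) := by
  unfold rbd
  exact Measurable.ite hD ((continuous_jj hγ).measurable.comp (measurable_V R z)) measurable_const

/-- powers of the potential are locally integrable -/
private theorem int_V_pow (hz : ∀ i, 0 ≤ z i) {p : ℝ} (hp1 : 1 ≤ p) (hp : p < 3) (r : ℝ) :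
    IntegrableOn (fun x => V R z x ^ p) (Metric.ball 0 r) := by
  have hm : Measurable (fun x => V R z x ^ p) := (measurable_V R z).pow_const p
  have hi : ∀ i, IntegrableOn (fun x : E3 => (z i / ‖x - R i‖) ^ p) (Metric.ball 0 r) := by
    intro i
    have h1 : IntegrableOn (fun x : E3 => z i ^ p * (‖x - R i‖ ^ p)⁻¹) (Metric.ball (R i) (r + ‖R i‖)) :=
      (integrableOn_ball (by linarith) hp (R i) (r + ‖R i‖)).const_mul _
    have h2 : Metric.ball (0 : E3) r ⊆ Metric.ball (R i) (r + ‖R i‖) := by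
      intro x hx
      rw [mem_ball_zero_iff] at hx
      rw [mem_ball_iff_norm]
      calc ‖x - R i‖ ≤ ‖x‖ + ‖R i‖ := norm_sub_le _ _
        _ < r + ‖R i‖ := by linarith
    refine (h1.mono_set h2).congr_fun (fun x _ => ?_) Metric.isOpen_ball.measurableSet
    show z i ^ p * (‖x - R i‖ ^ p)⁻¹ = (z i / ‖x - R i‖) ^ p
    rw [Real.div_rpow (hz i) (norm_nonneg _), div_eq_mul_inv]
  have hs : IntegrableOn (fun x : E3 => ((Finset.univ : Finset (Fin k)).card : ℝ) ^ (p - 1) *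
      ∑ i, (z i / ‖x - R i‖) ^ p) (Metric.ball 0 r) := by
    refine Integrable.const_mul ?_ _
    exact integrable_finsetSum _ fun i _ => hi i
  refine hs.mono' hm.aestronglyMeasurable.restrict (Eventually.of_forall fun x => ?_)
  have hV : V R z x = ∑ i, z i / ‖x - R i‖ := rfl
  have h0 : ∀ i, 0 ≤ z i / ‖x - R i‖ := fun i => div_nonneg (hz i) (norm_nonneg _)
  have hV0 : 0 ≤ V R z x := by rw [hV]; exact Finset.sum_nonneg fun i _ => h0 i
  rw [Real.norm_eq_abs, abs_of_nonneg (Real.rpow_nonneg hV0 _), hV]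
  exact Real.rpow_sum_le_const_mul_sum_rpow_of_nonneg _ hp1 (fun i _ => h0 i)

private theorem V_nn (hz : ∀ i, 0 ≤ z i) (x : E3) : 0 ≤ V R z x :=
  Finset.sum_nonneg fun i _ => div_nonneg (hz i) (norm_nonneg _)

/-- outside of a ball `rbd` vanishes -/
private theorem rbd_off (hμ : 0 < μ) (hz : ∀ i, 0 ≤ z i) :
    ∃ r : ℝ, 0 < r ∧ ∀ x : E3, x ∉ Metric.ball (0 : E3) r → rbd γ μ R z D x = 0 := by
  obtain ⟨r, hr, h⟩ := V_small R hz hμ
  refine ⟨r, hr, fun x hx => ?_⟩
  rw [mem_ball_zero_iff, not_lt] at hx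
  unfold rbd
  rw [jj_of_le (h x hx)]
  simp

private theorem jj_pow_le (hγ : 0 < γ) (hμ : 0 < μ) {q t : ℝ} (hq : 0 ≤ q) (ht : 0 ≤ t) :
    jj γ μ t ^ q ≤ (1 / γ) ^ (3 / 2 * q) * t ^ (3 / 2 * q) := by
  unfold jj
  have h1 : 0 ≤ max (t - μ) 0 / γ := div_nonneg (le_max_right _ _) hγ.le
  rw [← Real.rpow_mul h1, ← Real.mul_rpow (by positivity) ht]
  refine Real.rpow_le_rpow h1 ?_ (by positivity)
  rw [div_mul_eq_mul_div, one_mul]
  refine div_le_div_of_nonneg_right (max_le (by linarith) ht) hγ.le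

private theorem int_rbd_pow (hγ : 0 < γ) (hμ : 0 < μ) (hz : ∀ i, 0 ≤ z i) (hD : MeasurableSet D)
    {q : ℝ} (hq : 1 ≤ q) (hq2 : q < 2) : Integrable (fun x => rbd γ μ R z D x ^ q) := by
  obtain ⟨r, hr, h⟩ := rbd_off (γ := γ) (R := R) (D := D) hμ hz
  have h1 : IntegrableOn (fun x => (1 / γ) ^ (3 / 2 * q) * V R z x ^ (3 / 2 * q)) (Metric.ball 0 r) :=
    (int_V_pow hz (by linarith) (by linarith) r).const_mul _
  have h2 : Integrable ((Metric.ball (0 : E3) r).indicator
      (fun x => (1 / γ) ^ (3 / 2 * q) * V R z x ^ (3 / 2 * q))) :=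
    (integrable_indicator_iff Metric.isOpen_ball.measurableSet).2 h1
  refine h2.mono' ((rbd_meas hγ hD).pow_const q).aestronglyMeasurable (Eventually.of_forall fun x => ?_)
  have hn := rbd_nonneg (γ := γ) (μ := μ) (R := R) (z := z) (D := D) hγ x
  rw [Real.norm_eq_abs, abs_of_nonneg (Real.rpow_nonneg hn _)]
  by_cases hx : x ∈ Metric.ball (0 : E3) r
  · rw [indicator_of_mem hx]
    unfold rbd
    split_ifs
    · exact jj_pow_le hγ hμ (by linarith) (V_nn hz x)
    · rw [Real.zero_rpow (by linarith)]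
      have := V_nn (R := R) hz x
      positivity
  · rw [indicator_of_notMem hx, h x hx, Real.zero_rpow (by linarith)]

theorem rbd_ld (hγ : 0 < γ) (hμ : 0 < μ) (hz : ∀ i, 0 ≤ z i) (hD : MeasurableSet D) : Ld (rbd γ μ R z D) := by
  refine Ld.of_nonneg (fun x => rbd_nonneg hγ x) ?_ (int_rbd_pow hγ hμ hz hD (by norm_num) (by norm_num))
  have h := int_rbd_pow (R := R) hγ hμ hz hD (q := 1) le_rfl (by norm_num)
  simpa only [Real.rpow_one] using h

theorem rbd_third (hγ : 0 < γ) (hμ : 0 < μ) (hz : ∀ i, 0 ≤ z i) (hD : MeasurableSet D) :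
    Integrable (fun x => rbd γ μ R z D x ^ (1 / 3 : ℝ)) := by
  obtain ⟨r, hr, h⟩ := rbd_off (γ := γ) (R := R) (D := D) hμ hz
  have h2 : Integrable ((Metric.ball (0 : E3) r).indicator (fun _ => (1:ℝ))) := by
    rw [integrable_indicator_iff Metric.isOpen_ball.measurableSet]
    exact integrableOn_const measure_ball_lt_top.ne
  refine (h2.add (rbd_ld (R := R) (z := z) hγ hμ hz hD).i1).mono'
    ((rbd_meas hγ hD).pow_const _).aestronglyMeasurable (Eventually.of_forall fun x => ?_)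
  have hn := rbd_nonneg (γ := γ) (μ := μ) (R := R) (z := z) (D := D) hγ x
  rw [Real.norm_eq_abs, abs_of_nonneg (Real.rpow_nonneg hn _)]
  show rbd γ μ R z D x ^ (1 / 3 : ℝ) ≤ (Metric.ball (0 : E3) r).indicator (fun _ => (1:ℝ)) x +
    rbd γ μ R z D x
  by_cases hx : x ∈ Metric.ball (0 : E3) r
  · rw [indicator_of_mem hx]
    rcases le_total (rbd γ μ R z D x) 1 with h3 | h3
    · have := Real.rpow_le_one hn h3 (by norm_num : (0:ℝ) ≤ 1 / 3)
      linarith
    · have := Real.rpow_le_rpow_of_exponent_le h3 (by norm_num : (1 / 3 : ℝ) ≤ 1)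
      rw [Real.rpow_one] at this
      linarith
  · rw [indicator_of_notMem hx, h x hx, Real.zero_rpow (by norm_num), zero_add]

end Pool.Agent.H50.TM
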