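import Pool.Agent.H50.TM.ExF

/-!
# Module ExD: Euler-Lagrange equation of the minimiser in the order interval

`exists_min_dom` with `rb = rbd`, `F = FE`, `c = γ/12` gives a minimiser `f`. For `g` in the class and `t ∈ [0,1]`, `f_t = f + t (g - f)` is in the class and
`0 ≤ (FE f_t - FE f)/t → ∫ h (g - f)`, `h = γ f^(2/3) - (W - μ) + TT f`:
kinetic term: `((f + t d)^(5/3) - f^(5/3))/t → (5/3) f^(2/3) d` pointwise, dominated by `(5/3) rb^(2/3) |d| ≤ (5/3) rb^(5/3)`; quadratic term: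
`t ∫ d TT f + t²/2 ∫ d TT d` (`TT_symm`). So `∫ h (g - f) ≥ 0` for all `g` in the class (`var_ineq`).
* `g = f` on `{h ≤ 0}`, `0` on `{h > 0}`: `f = 0` a.e. on `{h > 0}`.
* `g = rb` on `{h < 0}`, `f` elsewhere: `f = rb` a.e. on `{h < 0}`. But if `f x = rb x`, `x ∈ D`: `h x = γ jj(V)^(2/3) - (V - G κ - μ) + TT f x = (V-μ)₊ - (V-μ) + G κ + TT f x ≥ 0`
  (`jj_rpow`; `G κ ≥ 0`; `TT f x ≥ 0` on `D`: for `θ = 0` `G_nonneg`, for `θ = 1`, `D = Hp`: `G_refl_le` for a representative vanishing off `Hp`). So `h ≥ 0` a.e. on `D`.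
* so a.e. on `D`: either `f x > 0`, `h x = 0`, `γ f^(2/3) = φ - μ > 0`, or `f x = 0`, `φ x ≤ μ`, with `φ = W - TT f`: `f = jj(φ)` a.e. on `D`; and `f = 0` a.e. off `D`.
* finally redefine `f` on a null set: `f' x = jj (W x - TT f x)` for `x ∈ D`, `0` else; `TT f' = TT f` everywhere (`G_congr`), `f'` is measurable (`measurable_G` for a
  measurable representative).
-/

set_option autoImplicit false

open MeasureTheory Set Filter Topology
open scoped ENNReal NNReal

namespace Pool.Agent.H50.TM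

open Pool.Agent.H23.TF

variable {γ μ θ : ℝ} {k : ℕ} {R : Fin k → E3} {z : Fin k → ℝ} {κ f g : E3 → ℝ} {D : Set E3}

/-- tangent inequality for `s ↦ s^(5/3)` -/
private theorem tan53 {a b : ℝ} (ha : 0 ≤ a) (hb : 0 ≤ b) :
    b ^ (5 / 3 : ℝ) - a ^ (5 / 3 : ℝ) ≤ 5 / 3 * (b ^ (2 / 3 : ℝ) * (b - a)) := by
  rcases eq_or_lt_of_le hb with h0 | h0
  · rw [← h0, Real.zero_rpow (by norm_num), Real.zero_rpow (by norm_num)]
    have := Real.rpow_nonneg ha (5 / 3 : ℝ)
    linarith
  · have h1 := one_add_mul_self_le_rpow_one_add (s := a / b - 1) (p := (5 / 3 : ℝ))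
      (by have : 0 ≤ a / b := by positivity
          linarith) (by norm_num)
    have e1 : 1 + (a / b - 1) = a / b := by ring
    rw [e1, Real.div_rpow ha hb] at h1
    have hb5 : 0 < b ^ (5 / 3 : ℝ) := Real.rpow_pos_of_pos h0 _
    rw [le_div_iff₀ hb5] at h1
    have e2 : b ^ (5 / 3 : ℝ) = b ^ (2 / 3 : ℝ) * b := by
      rw [← Real.rpow_add_one h0.ne']; norm_num
    have e3 : (1 + 5 / 3 * (a / b - 1)) * b ^ (5 / 3 : ℝ) =
        b ^ (5 / 3 : ℝ) - 5 / 3 * (b ^ (2 / 3 : ℝ) * (b - a)) := by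
      rw [e2]; field_simp; ring
    rw [e3] at h1
    linarith

private theorem pow_ident {a : ℝ} (ha : 0 ≤ a) : a ^ (2 / 3 : ℝ) * a = a ^ (5 / 3 : ℝ) := by
  rcases eq_or_lt_of_le ha with h0 | h0
  · rw [← h0, Real.zero_rpow (by norm_num : (5 / 3 : ℝ) ≠ 0), mul_zero]
  · rw [← Real.rpow_add_one h0.ne']; norm_num

private theorem rbd5 (hγ : 0 < γ) (hμ : 0 < μ) (hz : ∀ i, 0 ≤ z i) (hD : MeasurableSet D) :
    Integrable (fun x => rbd γ μ R z D x ^ (5 / 3 : ℝ)) := by
  refine (rbd_ld hγ hμ hz hD (R := R)).i2.congr (Eventually.of_forall fun x => ?_)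
  simp only
  rw [abs_of_nonneg (rbd_nonneg hγ x)]

/-- integrability of `f^(2/3) (g - f)` type terms, with the bound by `rb^(5/3)` -/
private theorem int_kin (hγ : 0 < γ) (hμ : 0 < μ) (hz : ∀ i, 0 ≤ z i) (hD : MeasurableSet D)
    {u : E3 → ℝ} (hu : InC (rbd γ μ R z D) u) (hf : InC (rbd γ μ R z D) f) (hg : InC (rbd γ μ R z D) g) :
    Integrable (fun x => u x ^ (2 / 3 : ℝ) * (g x - f x)) := by
  refine (rbd5 hγ hμ hz hD (R := R)).mono' ?_ ?_
  · exact (hu.1.aemeasurable.pow_const _).aestronglyMeasurable.mul (hg.1.sub hf.1)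
  · filter_upwards [hu.2, hf.2, hg.2] with x h1 h2 h3
    rw [Real.norm_eq_abs, abs_mul, abs_of_nonneg (Real.rpow_nonneg h1.1 _),
      ← pow_ident (rbd_nonneg hγ x)]
    refine mul_le_mul (Real.rpow_le_rpow h1.1 h1.2 (by norm_num)) ?_ (abs_nonneg _)
      (Real.rpow_nonneg (rbd_nonneg hγ x) _)
    rw [abs_le]
    constructor <;> linarith [h2.1, h2.2, h3.1, h3.2]

private theorem ldd (hγ : 0 < γ) (hμ : 0 < μ) (hz : ∀ i, 0 ≤ z i) (hD : MeasurableSet D)
    (hf : InC (rbd γ μ R z D) f) (hg : InC (rbd γ μ R z D) g) : Ld (fun x => g x - f x) :=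
  (InC_ld (rbd_ld hγ hμ hz hD) hg).sub (InC_ld (rbd_ld hγ hμ hz hD) hf)

private theorem int_lin {d : E3 → ℝ} (hd : Ld d) (hκ : Ld κ) :
    Integrable (fun x => (V R z x - G κ x - μ) * d x) := by
  have h1 : Integrable (fun x => V R z x * d x) := hd.int_V R z
  have h2 : Integrable (fun x => d x * G κ x) := hd.int_mul_G hκ
  have h3 : Integrable (fun x => μ * d x) := hd.i1.const_mul μ
  refine ((h1.sub h2).sub h3).congr (Eventually.of_forall fun x => ?_)
  simp only [Pi.sub_apply]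
  ring

private theorem int_h (hγ : 0 < γ) (hμ : 0 < μ) (hz : ∀ i, 0 ≤ z i) (hD : MeasurableSet D) (hκ : Ld κ)
    (hf : InC (rbd γ μ R z D) f) (hg : InC (rbd γ μ R z D) g) :
    Integrable (fun x => (γ * f x ^ (2 / 3 : ℝ) - (V R z x - G κ x - μ) + TT θ f x) * (g x - f x)) := by
  have h1 := (int_kin hγ hμ hz hD hf hf hg).const_mul γ
  have h2 := int_lin (R := R) (z := z) (μ := μ) (ldd hγ hμ hz hD hf hg) hκ
  have h3 := TT_int (ldd hγ hμ hz hD hf hg) (InC_ld (rbd_ld hγ hμ hz hD) hf) θ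
  refine ((h1.sub h2).add h3).congr (Eventually.of_forall fun x => ?_)
  simp only [Pi.sub_apply, Pi.add_apply]
  ring

private theorem inC_seg (hf : InC (rbd γ μ R z D) f) (hg : InC (rbd γ μ R z D) g) {t : ℝ} (h0 : 0 ≤ t) (h1 : t ≤ 1) :
    InC (rbd γ μ R z D) (fun x => f x + t * (g x - f x)) := by
  refine ⟨hf.1.add ((hg.1.sub hf.1).const_mul t), ?_⟩
  filter_upwards [hf.2, hg.2] with x h2 h3
  have e : f x + t * (g x - f x) = (1 - t) * f x + t * g x := by ring
  rw [e]
  constructor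
  · have := mul_nonneg (sub_nonneg.2 h1) h2.1
    have := mul_nonneg h0 h3.1
    linarith
  · have := mul_le_mul_of_nonneg_left h2.2 (sub_nonneg.2 h1)
    have := mul_le_mul_of_nonneg_left h3.2 h0
    linarith

/-- difference quotient bound -/
private theorem quot (hγ : 0 < γ) (hμ : 0 < μ) (hz : ∀ i, 0 ≤ z i) (hD : MeasurableSet D) (hκ : Ld κ)
    (hf : InC (rbd γ μ R z D) f) (hg : InC (rbd γ μ R z D) g)
    (hmin : ∀ g, InC (rbd γ μ R z D) g → FE γ μ θ (fun x => V R z x - G κ x) f ≤ FE γ μ θ (fun x => V R z x - G κ x) g)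
    {t : ℝ} (h0 : 0 < t) (h1 : t ≤ 1) :
    0 ≤ γ * (∫ x, (f x + t * (g x - f x)) ^ (2 / 3 : ℝ) * (g x - f x))
      - (∫ x, (V R z x - G κ x - μ) * (g x - f x)) + (∫ x, (g x - f x) * TT θ f x)
      + t / 2 * ∫ x, (g x - f x) * TT θ (fun y => g y - f y) x := by
  have hrb : Ld (rbd γ μ R z D) := rbd_ld hγ hμ hz hD
  have hfl : Ld f := InC_ld hrb hf
  have hd : Ld (fun x => g x - f x) := ldd hγ hμ hz hD hf hg
  have hft := inC_seg hf hg h0.le h1
  have hftl : Ld (fun x => f x + t * (g x - f x)) := InC_ld hrb hft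
  have hm := hmin _ hft
  unfold FE at hm
  -- kinetic term
  have hk5 : ∀ {u : E3 → ℝ}, InC (rbd γ μ R z D) u → Integrable (fun x => u x ^ (5 / 3 : ℝ)) := by
    intro u hu
    refine (InC_ld hrb hu).i2.congr ?_
    filter_upwards [hu.2] with x hx
    rw [abs_of_nonneg hx.1]
  have hkin : (∫ x, (f x + t * (g x - f x)) ^ (5 / 3 : ℝ)) - ∫ x, f x ^ (5 / 3 : ℝ) ≤
      5 / 3 * (t * ∫ x, (f x + t * (g x - f x)) ^ (2 / 3 : ℝ) * (g x - f x)) := by
    rw [← integral_sub (hk5 hft) (hk5 hf), ← integral_const_mul, ← integral_const_mul]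
    refine integral_mono_ae ((hk5 hft).sub (hk5 hf)) (((int_kin hγ hμ hz hD hft hf hg).const_mul t).const_mul _) ?_
    filter_upwards [hf.2, hft.2] with x h2 h3
    refine (tan53 h2.1 h3.1).trans_eq ?_
    ring
  -- linear term
  have hlin : (∫ x, (V R z x - G κ x - μ) * (f x + t * (g x - f x))) =
      (∫ x, (V R z x - G κ x - μ) * f x) + t * ∫ x, (V R z x - G κ x - μ) * (g x - f x) := by
    rw [← integral_const_mul, ← integral_add (int_lin hfl hκ) ((int_lin hd hκ).const_mul t)]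
    refine integral_congr_ae (Eventually.of_forall fun x => ?_)
    simp only
    ring
  -- quadratic term
  have hTT : ∀ x, TT θ (fun y => f y + t * (g y - f y)) x = TT θ f x + t * TT θ (fun y => g y - f y) x := by
    intro x
    unfold TT
    rw [G_add hfl (hd.const_mul t), G_add hfl (hd.const_mul t), G_const_mul, G_const_mul]
    ring
  have hquad : (∫ x, (f x + t * (g x - f x)) * TT θ (fun y => f y + t * (g y - f y)) x) =
      (∫ x, f x * TT θ f x) + 2 * t * (∫ x, (g x - f x) * TT θ f x)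
        + t ^ 2 * ∫ x, (g x - f x) * TT θ (fun y => g y - f y) x := by
    have i1 := TT_int hfl hfl θ
    have i2 := TT_int hfl hd θ
    have i3 := TT_int hd hfl θ
    have i4 := TT_int hd hd θ
    have hs : (∫ x, f x * TT θ (fun y => g y - f y) x) = ∫ x, (g x - f x) * TT θ f x := TT_symm hfl hd θ
    have e : (∫ x, (f x + t * (g x - f x)) * TT θ (fun y => f y + t * (g y - f y)) x) =
        ∫ x, ((f x * TT θ f x + t * (f x * TT θ (fun y => g y - f y) x)) +
          (t * ((g x - f x) * TT θ f x) + t ^ 2 * ((g x - f x) * TT θ (fun y => g y - f y) x))) := by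
      refine integral_congr_ae (Eventually.of_forall fun x => ?_)
      simp only
      rw [hTT]
      ring
    have i12 : Integrable (fun x => f x * TT θ f x + t * (f x * TT θ (fun y => g y - f y) x)) :=
      i1.add (i2.const_mul t)
    have i34 : Integrable (fun x => t * ((g x - f x) * TT θ f x) +
        t ^ 2 * ((g x - f x) * TT θ (fun y => g y - f y) x)) := (i3.const_mul t).add (i4.const_mul (t ^ 2))
    rw [e, integral_add i12 i34,
      integral_add i1 (i2.const_mul t), integral_add (i3.const_mul t) (i4.const_mul (t ^ 2)),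
      integral_const_mul, integral_const_mul, integral_const_mul, hs]
    ring
  rw [hlin, hquad] at hm
  have hk2 := mul_le_mul_of_nonneg_left hkin (by positivity : (0 : ℝ) ≤ 3 / 5 * γ)
  have key : 0 ≤ t * (γ * (∫ x, (f x + t * (g x - f x)) ^ (2 / 3 : ℝ) * (g x - f x))
      - (∫ x, (V R z x - G κ x - μ) * (g x - f x)) + (∫ x, (g x - f x) * TT θ f x)
      + t / 2 * ∫ x, (g x - f x) * TT θ (fun y => g y - f y) x) := by
    nlinarith [hm, hk2]
  exact nonneg_of_mul_nonneg_right key h0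

theorem var_ineq (hγ : 0 < γ) (hμ : 0 < μ) (hz : ∀ i, 0 ≤ z i) (hD : MeasurableSet D) (hκ : Ld κ)
    (hf : InC (rbd γ μ R z D) f) (hg : InC (rbd γ μ R z D) g)
    (hmin : ∀ g, InC (rbd γ μ R z D) g → FE γ μ θ (fun x => V R z x - G κ x) f ≤ FE γ μ θ (fun x => V R z x - G κ x) g) :
    0 ≤ ∫ x, (γ * f x ^ (2 / 3 : ℝ) - (V R z x - G κ x - μ) + TT θ f x) * (g x - f x) := by
  have hrb : Ld (rbd γ μ R z D) := rbd_ld hγ hμ hz hD
  have hfl : Ld f := InC_ld hrb hf
  have hd : Ld (fun x => g x - f x) := ldd hγ hμ hz hD hf hg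
  set tn : ℕ → ℝ := fun n => 1 / ((n : ℝ) + 1) with htn
  have htn0 : ∀ n, 0 < tn n := fun n => by simp only [htn]; positivity
  have htn1 : ∀ n, tn n ≤ 1 := fun n => by
    simp only [htn]
    rw [div_le_one (by positivity)]
    have : (0 : ℝ) ≤ n := Nat.cast_nonneg n
    linarith
  have htt : Tendsto tn atTop (𝓝 0) := tendsto_one_div_add_atTop_nhds_zero_nat
  have hkin : Tendsto (fun n => ∫ x, (f x + tn n * (g x - f x)) ^ (2 / 3 : ℝ) * (g x - f x)) atTop
      (𝓝 (∫ x, f x ^ (2 / 3 : ℝ) * (g x - f x))) := by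
    refine tendsto_integral_of_dominated_convergence (fun x => rbd γ μ R z D x ^ (5 / 3 : ℝ))
      (fun n => (int_kin hγ hμ hz hD (inC_seg hf hg (htn0 n).le (htn1 n)) hf hg).1)
      (rbd5 hγ hμ hz hD) (fun n => ?_) ?_
    · filter_upwards [(inC_seg hf hg (htn0 n).le (htn1 n)).2, hf.2, hg.2] with x h1 h2 h3
      rw [Real.norm_eq_abs, abs_mul, abs_of_nonneg (Real.rpow_nonneg h1.1 _),
        ← pow_ident (rbd_nonneg hγ x)]
      refine mul_le_mul (Real.rpow_le_rpow h1.1 h1.2 (by norm_num)) ?_ (abs_nonneg _)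
        (Real.rpow_nonneg (rbd_nonneg hγ x) _)
      rw [abs_le]
      constructor <;> linarith [h2.1, h2.2, h3.1, h3.2]
    · refine Eventually.of_forall fun x => ?_
      refine Tendsto.mul_const _ ?_
      have h1 : Tendsto (fun n => f x + tn n * (g x - f x)) atTop (𝓝 (f x + 0 * (g x - f x))) :=
        tendsto_const_nhds.add (htt.mul_const _)
      rw [zero_mul, add_zero] at h1
      exact h1.rpow_const (Or.inr (by norm_num))
  have hlim : Tendsto (fun n => γ * (∫ x, (f x + tn n * (g x - f x)) ^ (2 / 3 : ℝ) * (g x - f x))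
      - (∫ x, (V R z x - G κ x - μ) * (g x - f x)) + (∫ x, (g x - f x) * TT θ f x)
      + tn n / 2 * ∫ x, (g x - f x) * TT θ (fun y => g y - f y) x) atTop
      (𝓝 (γ * (∫ x, f x ^ (2 / 3 : ℝ) * (g x - f x))
      - (∫ x, (V R z x - G κ x - μ) * (g x - f x)) + (∫ x, (g x - f x) * TT θ f x)
      + 0 / 2 * ∫ x, (g x - f x) * TT θ (fun y => g y - f y) x)) := by
    exact (((hkin.const_mul γ).sub tendsto_const_nhds).add tendsto_const_nhds).add
      ((htt.div_const 2).mul_const _)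
  have hge := ge_of_tendsto' hlim (fun n => quot hγ hμ hz hD hκ hf hg hmin (htn0 n) (htn1 n))
  have i1 := (int_kin hγ hμ hz hD hf hf hg).const_mul γ
  have i2 := int_lin (R := R) (z := z) (μ := μ) hd hκ
  have i3 := TT_int hd hfl θ
  have e : (∫ x, (γ * f x ^ (2 / 3 : ℝ) - (V R z x - G κ x - μ) + TT θ f x) * (g x - f x)) =
      ∫ x, (γ * (f x ^ (2 / 3 : ℝ) * (g x - f x)) - (V R z x - G κ x - μ) * (g x - f x)) +
        (g x - f x) * TT θ f x := by
    refine integral_congr_ae (Eventually.of_forall fun x => ?_)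
    simp only
    ring
  have i12 : Integrable (fun x => γ * (f x ^ (2 / 3 : ℝ) * (g x - f x)) - (V R z x - G κ x - μ) * (g x - f x)) := i1.sub i2
  rw [e, integral_add i12 i3, integral_sub i1 i2, integral_const_mul]
  linarith

/-- a measurable representative of the minimiser, with pointwise bounds -/
private theorem exists_rep (hγ : 0 < γ) (hμ : 0 < μ) (hz : ∀ i, 0 ≤ z i) (hD : MeasurableSet D) (hκ : Ld κ)
    (h0 : 0 ≤ θ) (h1 : θ ≤ 1) :
    ∃ f : E3 → ℝ, Measurable f ∧ (∀ x, 0 ≤ f x) ∧ (∀ x, f x ≤ rbd γ μ R z D x) ∧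
      ∀ g, InC (rbd γ μ R z D) g →
        0 ≤ ∫ x, (γ * f x ^ (2 / 3 : ℝ) - (V R z x - G κ x - μ) + TT θ f x) * (g x - f x) := by
  obtain ⟨m, hm⟩ := FE_bdd (θ := θ) (κ := κ) (R := R) hγ hμ hz hD hκ h0 h1
  obtain ⟨f, hf, hfmin⟩ := exists_min_dom (rb := rbd γ μ R z D) (rbd_ld hγ hμ hz hD).i1 (rbd_nonneg hγ)
    (rbd_third hγ hμ hz hD) (rbd5 hγ hμ hz hD) (FE γ μ θ (fun x => V R z x - G κ x)) (c := γ / 12) (m := m)
    (by positivity) hm (fun f g hf hg => FE_mid hγ hμ hz hD hκ h0 h1 hf hg)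
    (fun fn f hn hf ht => FE_tend hγ hμ hz hD hκ hn hf ht)
  have hrbm : Measurable (rbd γ μ R z D) := rbd_meas hγ hD
  set f₂ : E3 → ℝ := fun x => max 0 (min (hf.1.mk f x) (rbd γ μ R z D x)) with hf₂
  have hmk : Measurable (hf.1.mk f) := hf.1.stronglyMeasurable_mk.measurable
  have hae : f =ᵐ[volume] f₂ := by
    filter_upwards [hf.1.ae_eq_mk, hf.2] with x hx h2
    simp only [hf₂]
    rw [← hx, min_eq_left h2.2, max_eq_right h2.1]
  refine ⟨f₂, measurable_const.max (hmk.min hrbm), fun x => le_max_left _ _,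
    fun x => max_le (rbd_nonneg hγ x) (min_le_right _ _), fun g hg => ?_⟩
  have hv := var_ineq hγ hμ hz hD hκ hf hg hfmin
  have e : (∫ x, (γ * f x ^ (2 / 3 : ℝ) - (V R z x - G κ x - μ) + TT θ f x) * (g x - f x)) =
      ∫ x, (γ * f₂ x ^ (2 / 3 : ℝ) - (V R z x - G κ x - μ) + TT θ f₂ x) * (g x - f₂ x) := by
    have hG : G f = G f₂ := G_congr hae
    refine integral_congr_ae ?_
    filter_upwards [hae] with x hx
    unfold TT
    rw [hG, hx]
  rw [← e]
  exact hv

private theorem TT_nonneg_on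
    (hc : (θ = 0 ∧ D = univ) ∨ (θ = 1 ∧ D = Hp)) (h0 : ∀ x, 0 ≤ f x)
    (h1 : ∀ x, f x ≤ rbd γ μ R z D x) (hfl : Ld f) {x : E3} (hx : x ∈ D) : 0 ≤ TT θ f x := by
  rcases hc with ⟨rfl, rfl⟩ | ⟨rfl, rfl⟩
  · unfold TT
    have := G_nonneg (f := f) (Eventually.of_forall h0) x
    linarith
  · have hx0 : 0 < x 0 := hx
    have h := G_refl_le hfl h0 (fun y hy => ?_) hx0.le
    · unfold TT
      linarith
    · have h2 := h1 y
      have h3 : y ∉ Hp := by
        intro h
        exact absurd (show 0 < y 0 from h) (not_lt.2 hy)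
      unfold rbd at h2
      rw [if_neg h3] at h2
      exact le_antisymm h2 (h0 y)

theorem exists_gen (hγ : 0 < γ) (hμ : 0 < μ) (R : Fin k → E3) (hz : ∀ i, 0 ≤ z i) (hκ : Ld κ) (hκm : Measurable κ) (hκ0 : ∀ x, 0 ≤ κ x)
    (hc : (θ = 0 ∧ D = univ) ∨ (θ = 1 ∧ D = Hp)) :
    ∃ f : E3 → ℝ, Measurable f ∧ Ld f ∧ (∀ x, x ∉ D → f x = 0) ∧
      ∀ x, x ∈ D → f x = jj γ μ (V R z x - G κ x - TT θ f x) := by
  classical
  have hD : MeasurableSet D := by
    rcases hc with ⟨-, rfl⟩ | ⟨-, rfl⟩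
    · exact MeasurableSet.univ
    · exact isOpen_Hp.measurableSet
  have hθ : 0 ≤ θ ∧ θ ≤ 1 := by
    rcases hc with ⟨rfl, -⟩ | ⟨rfl, -⟩ <;> norm_num
  obtain ⟨f, hfm, hf0, hfr, hvar⟩ := exists_rep (R := R) hγ hμ hz hD hκ hθ.1 hθ.2
  have hrb : Ld (rbd γ μ R z D) := rbd_ld hγ hμ hz hD
  have hrbm : Measurable (rbd γ μ R z D) := rbd_meas hγ hD
  have hfC : InC (rbd γ μ R z D) f :=
    ⟨hfm.aestronglyMeasurable, Eventually.of_forall fun x => ⟨hf0 x, hfr x⟩⟩
  have hfl : Ld f := InC_ld hrb hfC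
  -- measurability of the potential
  have hTm : Measurable (TT θ f) := by
    unfold TT
    exact (measurable_G hfm).sub (((measurable_G hfm).comp continuous_rf.measurable).const_mul θ)
  have hWm : Measurable (fun x => V R z x - G κ x) := (measurable_V R z).sub (measurable_G hκm)
  set h : E3 → ℝ := fun x => γ * f x ^ (2 / 3 : ℝ) - (V R z x - G κ x - μ) + TT θ f x with hh
  have hhm : Measurable h :=
    (((hfm.pow_const _).const_mul γ).sub (hWm.sub measurable_const)).add hTm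
  -- first test function
  have hA : ∀ᵐ x, 0 < h x → f x = 0 := by
    set g₁ : E3 → ℝ := fun x => if h x ≤ 0 then f x else 0 with hg₁
    have hg₁m : Measurable g₁ :=
      Measurable.ite (measurableSet_le hhm measurable_const) hfm measurable_const
    have hg₁C : InC (rbd γ μ R z D) g₁ := by
      refine ⟨hg₁m.aestronglyMeasurable, Eventually.of_forall fun x => ?_⟩
      simp only [hg₁]
      split_ifs
      · exact ⟨hf0 x, hfr x⟩
      · exact ⟨le_rfl, rbd_nonneg hγ x⟩
    have h1 := hvar g₁ hg₁C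
    have hi : Integrable (fun x => h x * (g₁ x - f x)) := int_h hγ hμ hz hD hκ hfC hg₁C
    have hneg : ∀ x, 0 ≤ -(h x * (g₁ x - f x)) := by
      intro x
      simp only [hg₁]
      split_ifs with hx
      · simp
      · have := mul_nonneg (not_le.1 hx).le (hf0 x)
        linarith
    have h2 : (∫ x, -(h x * (g₁ x - f x))) = 0 := by
      refine le_antisymm ?_ (integral_nonneg hneg)
      rw [integral_neg]
      have h1' : 0 ≤ ∫ x, h x * (g₁ x - f x) := h1
      linarith
    have h3 := (integral_eq_zero_iff_of_nonneg hneg hi.neg).1 h2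
    filter_upwards [h3] with x hx hpos
    simp only [hg₁, Pi.zero_apply, if_neg (not_le.2 hpos)] at hx
    have h4 : h x * f x = 0 := by linarith
    rcases mul_eq_zero.1 h4 with h5 | h5
    · exact absurd h5 hpos.ne'
    · exact h5
  -- second test function
  have hB : ∀ᵐ x, h x < 0 → f x = rbd γ μ R z D x := by
    set g₂ : E3 → ℝ := fun x => if h x < 0 then rbd γ μ R z D x else f x with hg₂
    have hg₂m : Measurable g₂ :=
      Measurable.ite (measurableSet_lt hhm measurable_const) hrbm hfm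
    have hg₂C : InC (rbd γ μ R z D) g₂ := by
      refine ⟨hg₂m.aestronglyMeasurable, Eventually.of_forall fun x => ?_⟩
      simp only [hg₂]
      split_ifs
      · exact ⟨rbd_nonneg hγ x, le_rfl⟩
      · exact ⟨hf0 x, hfr x⟩
    have h1 := hvar g₂ hg₂C
    have hi : Integrable (fun x => h x * (g₂ x - f x)) := int_h hγ hμ hz hD hκ hfC hg₂C
    have hneg : ∀ x, 0 ≤ -(h x * (g₂ x - f x)) := by
      intro x
      simp only [hg₂]
      split_ifs with hx
      · have := mul_nonneg (neg_nonneg.2 hx.le) (sub_nonneg.2 (hfr x))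
        linarith
      · simp
    have h2 : (∫ x, -(h x * (g₂ x - f x))) = 0 := by
      refine le_antisymm ?_ (integral_nonneg hneg)
      rw [integral_neg]
      have h1' : 0 ≤ ∫ x, h x * (g₂ x - f x) := h1
      linarith
    have h3 := (integral_eq_zero_iff_of_nonneg hneg hi.neg).1 h2
    filter_upwards [h3] with x hx hlt
    simp only [hg₂, Pi.zero_apply, if_pos hlt] at hx
    have h4 : h x * (rbd γ μ R z D x - f x) = 0 := by linarith
    rcases mul_eq_zero.1 h4 with h5 | h5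
    · exact absurd h5 hlt.ne
    · linarith
  -- `f = jj φ` almost everywhere on `D`
  have hC : ∀ᵐ x, x ∈ D → f x = jj γ μ (V R z x - G κ x - TT θ f x) := by
    filter_upwards [hA, hB] with x hxA hxB hxD
    have hT := TT_nonneg_on hc hf0 hfr hfl hxD
    have hGκ : 0 ≤ G κ x := G_nonneg (Eventually.of_forall hκ0) x
    have hge : 0 ≤ h x := by
      by_contra hlt
      have hlt' := not_le.1 hlt
      have h1 := hxB hlt'
      have h2 : γ * f x ^ (2 / 3 : ℝ) = max (V R z x - μ) 0 := by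
        rw [h1]
        unfold rbd
        rw [if_pos hxD]
        exact jj_rpow hγ _
      have h3 : V R z x - μ ≤ max (V R z x - μ) 0 := le_max_left _ _
      have h4 : h x = γ * f x ^ (2 / 3 : ℝ) - (V R z x - G κ x - μ) + TT θ f x := rfl
      rw [h2] at h4
      linarith
    rcases eq_or_lt_of_le (hf0 x) with hfx | hfx
    · have h4 : h x = γ * f x ^ (2 / 3 : ℝ) - (V R z x - G κ x - μ) + TT θ f x := rfl
      rw [← hfx, Real.zero_rpow (by norm_num), mul_zero] at h4
      rw [← hfx, jj_of_le]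
      linarith
    · have h5 : h x = 0 := by
        by_contra hne
        have h6 := hxA (lt_of_le_of_ne hge (Ne.symm hne))
        exact absurd h6 hfx.ne'
      have h4 : h x = γ * f x ^ (2 / 3 : ℝ) - (V R z x - G κ x - μ) + TT θ f x := rfl
      rw [h5] at h4
      have h7 : V R z x - G κ x - TT θ f x - μ = γ * f x ^ (2 / 3 : ℝ) := by linarith
      unfold jj
      rw [h7, max_eq_left (by positivity), mul_div_cancel_left₀ _ hγ.ne', ← Real.rpow_mul hfx.le]
      norm_num
  -- final representative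
  set f' : E3 → ℝ := fun x => if x ∈ D then jj γ μ (V R z x - G κ x - TT θ f x) else 0 with hf'
  have hae : f =ᵐ[volume] f' := by
    filter_upwards [hC] with x hx
    simp only [hf']
    by_cases hxD : x ∈ D
    · rw [if_pos hxD]
      exact hx hxD
    · rw [if_neg hxD]
      have h2 := hfr x
      unfold rbd at h2
      rw [if_neg hxD] at h2
      exact le_antisymm h2 (hf0 x)
  have hG : G f = G f' := G_congr hae
  have hTT : TT θ f' = TT θ f := by
    funext x
    unfold TT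
    rw [hG]
  refine ⟨f', Measurable.ite hD ((continuous_jj hγ).measurable.comp (hWm.sub hTm)) measurable_const,
    hfl.congr hae, fun x hx => ?_, fun x hx => ?_⟩
  · simp only [hf']
    rw [if_neg hx]
  · rw [hTT]
    simp only [hf']
    rw [if_pos hx]

end Pool.Agent.H50.TM
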