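import Pool.Agent.H50.TM.ExC

/-!
# Module ExF: the functional `FE` is bounded below, uniformly convex and continuous on the order interval `[0, rbd]`

* `FE_bdd`: `FE f ≥ -∫ |W-μ| rbd` (`TT_pos`, `f^(5/3) ≥ 0`; `∫ |W-μ| rbd < ∞` by `Ld.int_V`, `Ld.G_bdd`).
* `FE_mid`: `pow53_conv` with `m = rbd x` (if `rbd x = 0` then `f x = g x = 0`), `3/5 · 5/36 = 1/12` (all functions are integrable: `(f-g)²/rbd^(1/3) ≤ rbd^(5/3)`); the
  quadratic term is convex by `TT_pos` (`(f+g)/2`, `(f-g)/2`, parallelogram identity with `TT_symm`), the linear term is linear.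
* `FE_tend`: dominated convergence in each term (bounds `rbd^(5/3)`, `|W-μ| rbd`); the quadratic term on `E3 × E3` with bound `rbd(x) rbd(y)/‖x-y‖` resp.
  `rbd(x) rbd(y)/‖rf x - y‖` (`Ld.int_prod`, `Ld_rf`).
-/

set_option autoImplicit false

open MeasureTheory Set Filter Topology
open scoped ENNReal NNReal

namespace Pool.Agent.H50.TM

open Pool.Agent.H23.TF

variable {γ μ θ : ℝ} {k : ℕ} {R : Fin k → E3} {z : Fin k → ℝ} {κ f g : E3 → ℝ} {D : Set E3}

private theorem rb_ld (hγ : 0 < γ) (hμ : 0 < μ) (hz : ∀ i, 0 ≤ z i) (hD : MeasurableSet D) :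
    Ld (rbd γ μ R z D) := rbd_ld hγ hμ hz hD

/-- the function `(W - μ) f` is integrable -/
private theorem int_lin {f : E3 → ℝ} (hf : Ld f) (hκ : Ld κ) (μ : ℝ) (R : Fin k → E3) (z : Fin k → ℝ) :
    Integrable (fun x => (V R z x - G κ x - μ) * f x) := by
  have h1 := hf.int_V R z
  have h2 := hf.int_mul_G hκ
  have h3 := hf.i1.const_mul μ
  refine ((h1.sub h2).sub h3).congr (Filter.Eventually.of_forall fun x => ?_)
  show V R z x * f x - f x * G κ x - μ * f x = _
  ring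

private theorem int_53 {f : E3 → ℝ} (hf : Ld f) (h0 : ∀ᵐ x, 0 ≤ f x) :
    Integrable (fun x => f x ^ (5 / 3 : ℝ)) := by
  refine hf.i2.congr ?_
  filter_upwards [h0] with x hx
  rw [abs_of_nonneg hx]

private theorem InC_ae0 {rb f : E3 → ℝ} (hf : InC rb f) : ∀ᵐ x, 0 ≤ f x := by
  filter_upwards [hf.2] with x hx
  exact hx.1

private theorem lin_le {rb f : E3 → ℝ} (hf : InC rb f) (W : E3 → ℝ) :
    ∀ᵐ x, |W x * f x| ≤ |W x * rb x| := by
  filter_upwards [hf.2] with x hx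
  rw [abs_mul, abs_mul]
  refine mul_le_mul_of_nonneg_left ?_ (abs_nonneg _)
  rw [abs_of_nonneg hx.1, abs_of_nonneg (hx.1.trans hx.2)]
  exact hx.2

theorem FE_bdd (hγ : 0 < γ) (hμ : 0 < μ) (hz : ∀ i, 0 ≤ z i) (hD : MeasurableSet D) (hκ : Ld κ) (h0 : 0 ≤ θ) (h1 : θ ≤ 1) :
    ∃ m : ℝ, ∀ f, InC (rbd γ μ R z D) f → m ≤ FE γ μ θ (fun x => V R z x - G κ x) f := by
  have hb := rb_ld hγ hμ hz hD (R := R)
  refine ⟨-∫ x, |(V R z x - G κ x - μ) * rbd γ μ R z D x|, fun f hf => ?_⟩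
  have hfl := InC_ld hb hf
  have e1 : 0 ≤ ∫ x, f x ^ (5 / 3 : ℝ) := by
    refine integral_nonneg_of_ae ?_
    filter_upwards [InC_ae0 hf] with x hx
    exact Real.rpow_nonneg hx _
  have e2 := TT_pos hfl h0 h1
  have e3 : ∫ x, (V R z x - G κ x - μ) * f x ≤ ∫ x, |(V R z x - G κ x - μ) * rbd γ μ R z D x| := by
    refine integral_mono_ae (int_lin hfl hκ μ R z) (int_lin hb hκ μ R z).abs ?_
    filter_upwards [lin_le hf (fun x => V R z x - G κ x - μ)] with x hx
    exact (le_abs_self _).trans hx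
  unfold FE
  have e4 : 0 ≤ 3 / 5 * γ * ∫ x, f x ^ (5 / 3 : ℝ) := by positivity
  linarith

private theorem TT_half (hf : Ld f) (hg : Ld g) (s : ℝ) (x : E3) :
    TT θ (fun x => (f x + s * g x) / 2) x = (TT θ f x + s * TT θ g x) / 2 := by
  have h1 : (fun x => (f x + s * g x) / 2) = fun x => (1 / 2) * (f x + s * g x) := by
    funext x; ring
  have h2 : ∀ y, G (fun x => (f x + s * g x) / 2) y = (G f y + s * G g y) / 2 := by
    intro y
    rw [h1, G_const_mul, G_add hf (hg.const_mul s), G_const_mul]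
    ring
  unfold TT
  rw [h2, h2]
  ring

private theorem quad_mid (hf : Ld f) (hg : Ld g) (h0 : 0 ≤ θ) (h1 : θ ≤ 1) :
    ∫ x, (f x + g x) / 2 * TT θ (fun x => (f x + g x) / 2) x ≤
      ((∫ x, f x * TT θ f x) + ∫ x, g x * TT θ g x) / 2 := by
  have k1 : Ld (fun x => (f x + g x) / 2) := by
    refine ((hf.add hg).const_mul (1 / 2)).congr (Filter.Eventually.of_forall fun x => ?_)
    show 1 / 2 * (f x + g x) = (f x + g x) / 2
    ring
  have k2 : Ld (fun x => (f x + (-1) * g x) / 2) := by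
    refine ((hf.add (hg.const_mul (-1))).const_mul (1 / 2)).congr (Filter.Eventually.of_forall fun x => ?_)
    show 1 / 2 * (f x + (-1) * g x) = (f x + (-1) * g x) / 2
    ring
  have k3 := TT_pos k2 h0 h1
  have i1 := TT_int k1 k1 θ
  have i2 := TT_int k2 k2 θ
  have j1 := TT_int hf hf θ
  have j2 := TT_int hg hg θ
  have e1 : (∫ x, (f x + g x) / 2 * TT θ (fun x => (f x + g x) / 2) x) +
      (∫ x, (f x + (-1) * g x) / 2 * TT θ (fun x => (f x + (-1) * g x) / 2) x) =
      ((∫ x, f x * TT θ f x) + ∫ x, g x * TT θ g x) / 2 := by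
    rw [← integral_add i1 i2, ← integral_add j1 j2, ← integral_div]
    refine integral_congr_ae (Filter.Eventually.of_forall fun x => ?_)
    have h3 := TT_half (θ := θ) hf hg 1 x
    have h4 := TT_half (θ := θ) hf hg (-1) x
    have h5 : (fun x => (f x + 1 * g x) / 2) = fun x => (f x + g x) / 2 := by
      funext x; rw [one_mul]
    rw [h5] at h3
    show (f x + g x) / 2 * TT θ (fun x => (f x + g x) / 2) x +
      (f x + (-1) * g x) / 2 * TT θ (fun x => (f x + (-1) * g x) / 2) x =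
      (f x * TT θ f x + g x * TT θ g x) / 2
    rw [h3, h4]
    ring
  linarith

private theorem sq_le_53 {a b m : ℝ} (ha : 0 ≤ a) (ham : a ≤ m) (hb : 0 ≤ b) (hbm : b ≤ m) :
    0 ≤ (a - b) ^ 2 / m ^ (1 / 3 : ℝ) ∧ (a - b) ^ 2 / m ^ (1 / 3 : ℝ) ≤ m ^ (5 / 3 : ℝ) := by
  have hm : 0 ≤ m := ha.trans ham
  have h1 : 0 ≤ m ^ (1 / 3 : ℝ) := Real.rpow_nonneg hm _
  refine ⟨by positivity, ?_⟩
  rcases hm.eq_or_lt with h | h
  · have h2 : a = 0 := le_antisymm (by rw [h]; exact ham) ha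
    have h3 : b = 0 := le_antisymm (by rw [h]; exact hbm) hb
    rw [h2, h3, sub_zero, zero_pow two_ne_zero, zero_div]
    exact Real.rpow_nonneg hm _
  · have h2 : 0 < m ^ (1 / 3 : ℝ) := Real.rpow_pos_of_pos h _
    rw [div_le_iff₀ h2, ← Real.rpow_add h]
    have h3 : (5 / 3 + 1 / 3 : ℝ) = (2 : ℕ) := by norm_num
    rw [h3, Real.rpow_natCast]
    have h4 : |a - b| ≤ m := by
      rw [abs_le]
      constructor <;> linarith
    calc (a - b) ^ 2 = |a - b| ^ 2 := (sq_abs _).symm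
      _ ≤ m ^ 2 := pow_le_pow_left₀ (abs_nonneg _) h4 2

private theorem conv_pt {a b m : ℝ} (ha : 0 ≤ a) (ham : a ≤ m) (hb : 0 ≤ b) (hbm : b ≤ m) :
    ((a + b) / 2) ^ (5 / 3 : ℝ) + 5 / 36 * ((a - b) ^ 2 / m ^ (1 / 3 : ℝ)) ≤
      (a ^ (5 / 3 : ℝ) + b ^ (5 / 3 : ℝ)) / 2 := by
  rcases (ha.trans ham).eq_or_lt with h | h
  · have h2 : a = 0 := le_antisymm (by rw [h]; exact ham) ha
    have h3 : b = 0 := le_antisymm (by rw [h]; exact hbm) hb
    rw [h2, h3, add_zero, zero_div, sub_zero, zero_pow two_ne_zero, zero_div, mul_zero, add_zero,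
      Real.zero_rpow (by norm_num), add_zero, zero_div]
  · exact pow53_conv h ha ham hb hbm

theorem FE_mid (hγ : 0 < γ) (hμ : 0 < μ) (hz : ∀ i, 0 ≤ z i) (hD : MeasurableSet D) (hκ : Ld κ) (h0 : 0 ≤ θ) (h1 : θ ≤ 1)
    (hf : InC (rbd γ μ R z D) f) (hg : InC (rbd γ μ R z D) g) :
    FE γ μ θ (fun x => V R z x - G κ x) (fun x => (f x + g x) / 2)
      + γ / 12 * ∫ x, (f x - g x) ^ 2 / rbd γ μ R z D x ^ (1 / 3 : ℝ) ≤
      (FE γ μ θ (fun x => V R z x - G κ x) f + FE γ μ θ (fun x => V R z x - G κ x) g) / 2 := by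
  have hb := rb_ld hγ hμ hz hD (R := R)
  have hbn : ∀ x, 0 ≤ rbd γ μ R z D x := fun x => rbd_nonneg hγ x
  have hbm : Measurable (rbd γ μ R z D) := rbd_meas hγ hD
  have hfl := InC_ld hb hf
  have hgl := InC_ld hb hg
  have k1 : Ld (fun x => (f x + g x) / 2) := by
    refine ((hfl.add hgl).const_mul (1 / 2)).congr (Filter.Eventually.of_forall fun x => ?_)
    show 1 / 2 * (f x + g x) = (f x + g x) / 2
    ring
  have i1 := int_53 hfl (InC_ae0 hf)
  have i2 := int_53 hgl (InC_ae0 hg)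
  have i3 : Integrable (fun x => ((f x + g x) / 2) ^ (5 / 3 : ℝ)) := by
    refine int_53 k1 ?_
    filter_upwards [InC_ae0 hf, InC_ae0 hg] with x h3 h4
    linarith
  have ib := int_53 hb (Filter.Eventually.of_forall hbn)
  have i4 : Integrable (fun x => (f x - g x) ^ 2 / rbd γ μ R z D x ^ (1 / 3 : ℝ)) := by
    refine ib.mono' ?_ ?_
    · have m1 : AEStronglyMeasurable (fun x => rbd γ μ R z D x ^ (1 / 3 : ℝ)) volume :=
        (hbm.pow_const _).aestronglyMeasurable
      have m2 : AEStronglyMeasurable (fun x => (f x - g x) ^ 2) volume := (hf.1.sub hg.1).pow 2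
      exact (m2.aemeasurable.div m1.aemeasurable).aestronglyMeasurable
    · filter_upwards [hf.2, hg.2] with x h3 h4
      have h5 := sq_le_53 h3.1 h3.2 h4.1 h4.2
      rw [Real.norm_eq_abs, abs_of_nonneg h5.1]
      exact h5.2
  -- the kinetic term
  have e1 : (∫ x, ((f x + g x) / 2) ^ (5 / 3 : ℝ)) +
      5 / 36 * (∫ x, (f x - g x) ^ 2 / rbd γ μ R z D x ^ (1 / 3 : ℝ)) ≤
      ((∫ x, f x ^ (5 / 3 : ℝ)) + ∫ x, g x ^ (5 / 3 : ℝ)) / 2 := by
    rw [← integral_const_mul, ← integral_add i3 (i4.const_mul _), ← integral_add i1 i2, ← integral_div]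
    refine integral_mono_ae (i3.add (i4.const_mul _)) ((i1.add i2).div_const 2) ?_
    filter_upwards [hf.2, hg.2] with x h3 h4
    exact conv_pt h3.1 h3.2 h4.1 h4.2
  -- the linear term
  have e2 : ∫ x, (V R z x - G κ x - μ) * ((f x + g x) / 2) =
      ((∫ x, (V R z x - G κ x - μ) * f x) + ∫ x, (V R z x - G κ x - μ) * g x) / 2 := by
    rw [← integral_add (int_lin hfl hκ μ R z) (int_lin hgl hκ μ R z), ← integral_div]
    refine integral_congr_ae (Filter.Eventually.of_forall fun x => ?_)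
    show (V R z x - G κ x - μ) * ((f x + g x) / 2) =
      ((V R z x - G κ x - μ) * f x + (V R z x - G κ x - μ) * g x) / 2
    ring
  have e3 := quad_mid hfl hgl h0 h1
  unfold FE
  rw [e2]
  have e4 := mul_le_mul_of_nonneg_left e1 (by positivity : (0 : ℝ) ≤ 3 / 5 * γ)
  linarith

private theorem G_tend {rb : E3 → ℝ} (hb : Ld rb) {fn : ℕ → E3 → ℝ} (hn : ∀ n, InC rb (fn n))
    (ht : ∀ᵐ x, Tendsto (fun n => fn n x) atTop (𝓝 (f x))) (x : E3) :
    Tendsto (fun n => G (fn n) x) atTop (𝓝 (G f x)) := by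
  unfold G
  refine tendsto_integral_of_dominated_convergence (fun y => |rb y| / ‖x - y‖) ?_ (hb.int_abs_div x) ?_ ?_
  · intro n
    exact aesm_div (hn n).1 x
  · intro n
    filter_upwards [(hn n).2] with y hy
    rw [Real.norm_eq_abs, abs_div, abs_norm]
    refine div_le_div_of_nonneg_right ?_ (norm_nonneg _)
    rw [abs_of_nonneg hy.1, abs_of_nonneg (hy.1.trans hy.2)]
    exact hy.2
  · filter_upwards [ht] with y hy
    exact hy.div_const _

theorem FE_tend (hγ : 0 < γ) (hμ : 0 < μ) (hz : ∀ i, 0 ≤ z i) (hD : MeasurableSet D) (hκ : Ld κ)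
    {fn : ℕ → E3 → ℝ} (hn : ∀ n, InC (rbd γ μ R z D) (fn n)) (hf : InC (rbd γ μ R z D) f)
    (ht : ∀ᵐ x, Tendsto (fun n => fn n x) atTop (𝓝 (f x))) :
    Tendsto (fun n => FE γ μ θ (fun x => V R z x - G κ x) (fn n)) atTop (𝓝 (FE γ μ θ (fun x => V R z x - G κ x) f)) := by
  have hb := rb_ld hγ hμ hz hD (R := R)
  have hbn : ∀ x, 0 ≤ rbd γ μ R z D x := fun x => rbd_nonneg hγ x
  have ib := int_53 hb (Filter.Eventually.of_forall hbn)
  have hnl : ∀ n, Ld (fn n) := fun n => InC_ld hb (hn n)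
  have hfl := InC_ld hb hf
  obtain ⟨C, hC⟩ := hb.G_bdd
  -- the kinetic term
  have t1 : Tendsto (fun n => ∫ x, fn n x ^ (5 / 3 : ℝ)) atTop (𝓝 (∫ x, f x ^ (5 / 3 : ℝ))) := by
    refine tendsto_integral_of_dominated_convergence (fun x => rbd γ μ R z D x ^ (5 / 3 : ℝ)) ?_ ib ?_ ?_
    · intro n
      exact (int_53 (hnl n) (InC_ae0 (hn n))).aestronglyMeasurable
    · intro n
      filter_upwards [(hn n).2] with x hx
      rw [Real.norm_eq_abs, abs_of_nonneg (Real.rpow_nonneg hx.1 _)]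
      exact Real.rpow_le_rpow hx.1 hx.2 (by norm_num)
    · filter_upwards [ht] with x hx
      exact hx.rpow_const (Or.inr (by norm_num))
  have t2 : Tendsto (fun n => ∫ x, (V R z x - G κ x - μ) * fn n x) atTop
      (𝓝 (∫ x, (V R z x - G κ x - μ) * f x)) := by
    refine tendsto_integral_of_dominated_convergence
      (fun x => |(V R z x - G κ x - μ) * rbd γ μ R z D x|) ?_ (int_lin hb hκ μ R z).abs ?_ ?_
    · intro n
      exact (int_lin (hnl n) hκ μ R z).aestronglyMeasurable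
    · intro n
      filter_upwards [lin_le (hn n) (fun x => V R z x - G κ x - μ)] with x hx
      exact hx
    · filter_upwards [ht] with x hx
      exact hx.const_mul _
  have hG : ∀ x, Tendsto (fun n => TT θ (fn n) x) atTop (𝓝 (TT θ f x)) := by
    intro x
    unfold TT
    exact (G_tend hb hn ht x).sub ((G_tend hb hn ht (rf x)).const_mul θ)
  have hGb : ∀ n x, |G (fn n) x| ≤ C := by
    intro n x
    have g1 := G_nonneg (InC_ae0 (hn n)) x
    have g2 : G (fn n) x ≤ G (rbd γ μ R z D) x := by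
      refine G_mono (hnl n) hb ?_ x
      filter_upwards [(hn n).2] with y hy
      exact hy.2
    rw [abs_of_nonneg g1]
    exact g2.trans ((le_abs_self _).trans (hC x))
  have hTb : ∀ n x, |TT θ (fn n) x| ≤ C + |θ| * C := by
    intro n x
    unfold TT
    refine (abs_sub _ _).trans ?_
    rw [abs_mul]
    have g1 := hGb n x
    have g2 := mul_le_mul_of_nonneg_left (hGb n (rf x)) (abs_nonneg θ)
    linarith
  have t3 : Tendsto (fun n => ∫ x, fn n x * TT θ (fn n) x) atTop (𝓝 (∫ x, f x * TT θ f x)) := by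
    refine tendsto_integral_of_dominated_convergence
      (fun x => rbd γ μ R z D x * (C + |θ| * C)) ?_ (hb.i1.mul_const _) ?_ ?_
    · intro n
      exact (TT_int (hnl n) (hnl n) θ).aestronglyMeasurable
    · intro n
      filter_upwards [(hn n).2] with x hx
      rw [Real.norm_eq_abs, abs_mul, abs_of_nonneg hx.1]
      exact mul_le_mul hx.2 (hTb n x) (abs_nonneg _) (hbn x)
    · filter_upwards [ht] with x hx
      exact hx.mul (hG x)
  unfold FE
  exact ((t1.const_mul _).sub t2).add (t3.const_mul _)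

end Pool.Agent.H50.TM
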