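import Pool.Agent.H50.TM.WEq
import Pool.Agent.H50.TM.DG
import Pool.Agent.H50.TM.BrEq

/-!
# Module FBal: force balance of the half space density

`φ₀ = V (fold R) z - G (foldf ρ) - G σ + G (σ ∘ rf)` (`G_rf`). Let `d` be as in `Cfg.slab`: the folded nuclei have `(fold R i) 0 ≤ -d`, `foldf ρ` is bounded on
`{y₀ > -d}` (zero for `y₀ ≥ 0`), `σ`, `σ ∘ rf` are bounded. Put
`E x = -∑ z_i (x₀ - (fold R i) 0)/‖x - fold R i‖³ + ∫ foldf ρ y (x₀-y₀)/‖x-y‖³ + ∫ σ y (x₀-y₀)/‖x-y‖³ - ∫ σ (rf y) (x₀-y₀)/‖x-y‖³`.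
(1) `HasDerivAt (t ↦ φ₀ (mk t p)) (E (mk t p)) t` for all `t > -d` (`dG`; `E` is bounded on `{x₀ ≥ 0}` and measurable).
(2) `t ↦ JJ (φ₀ (mk t p))` has the derivative `jj (φ₀) E` (`JJ_deriv`), which is `σ (mk t p) E (mk t p)` for `t > 0` (`Cfg.sig_eq`). For large `T` (uniformly in `p`)
`φ₀ (mk T p) ≤ V (fold R) ≤ μ` (`Cfg.phi0_le`, `V_small`), so `JJ = 0`. FTC: `JJ (φ₀ (mk 0 p)) = -∫_{t>0} σ E (mk t p) dt`.
(3) integrate over `p` (`integral_mk'`; `σ E` integrable, zero for `x₀ ≤ 0`): `∫_P JJ(φ₀) = -∫ σ E`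
`= ∑ z_i ∫ σ(x) (x₀-a_i)/‖x-fold R_i‖³ - ∫∫ σ(x) foldf ρ(y) (x₀-y₀)/‖x-y‖³ - ∫∫ σ(x) σ(y) (x₀-y₀)/‖x-y‖³ + ∫∫ σ(x) σ(rf y) (x₀-y₀)/‖x-y‖³`;
the third term is `0` (antisymmetric, absolutely convergent: `dG_bdd`), the others are the brackets (`integral_nu`, `integral_dens`, Fubini with `br_int`).
`phi_plane` replaces `φ₀` by `φ` on the plane.
-/

set_option autoImplicit false

open MeasureTheory Set Filter Topology
open scoped ENNReal NNReal

namespace Pool.Agent.H50.TM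

open Pool.Agent.H23.TF

variable {γ μ : ℝ} {k : ℕ} {R : Fin k → E3} {z : Fin k → ℝ} {ρ σ : E3 → ℝ}

private theorem foldR_zero (R : Fin k → E3) (i : Fin k) : (fold R i) 0 = -|(R i) 0| := by
  unfold fold
  split_ifs with h
  · rw [abs_of_neg h, neg_neg]
  · rw [rf_zero, abs_of_nonneg (not_lt.1 h)]

private theorem foldf_nonneg (h0 : ∀ x, 0 ≤ ρ x) (x : E3) : 0 ≤ foldf ρ x := by
  unfold foldf lp rp
  refine add_nonneg ?_ ?_
  · split_ifs
    · exact h0 _
    · exact le_rfl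
  · split_ifs
    · exact h0 _
    · exact le_rfl

private theorem foldf_bdd (h : Cfg γ μ R z ρ σ) : ∃ d : ℝ, 0 < d ∧ (∀ i, (fold R i) 0 < -d) ∧
    ∃ C : ℝ, ∀ y : E3, -d < y 0 → |foldf ρ y| ≤ C := by
  obtain ⟨d, hd, hR, C, hC⟩ := h.slab
  have h0 : ∀ x, 0 ≤ ρ x := fun x => h.htf.nonneg h.hγ x
  refine ⟨d, hd, fun i => ?_, 2 * |C|, fun y hy => ?_⟩
  · rw [foldR_zero]
    have := hR i
    linarith
  · rw [abs_of_nonneg (foldf_nonneg h0 y)]
    unfold foldf lp rp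
    rw [rf_zero]
    have hC0 := abs_nonneg C
    have hC1 := le_abs_self C
    by_cases hy0 : y 0 < 0
    · rw [if_pos hy0, if_pos (by linarith)]
      have e1 := hC y (by rw [abs_of_neg hy0]; linarith)
      have e2 := hC (rf y) (by rw [rf_zero, abs_neg, abs_of_neg hy0]; linarith)
      linarith
    · rw [if_neg hy0, if_neg (by linarith)]
      linarith

/-- the field of a density -/
private noncomputable def Df (f : E3 → ℝ) (x : E3) : ℝ := ∫ y, f y * ((x 0 - y 0) / ‖x - y‖ ^ 3)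

private theorem kern_le (x y : E3) : |(x 0 - y 0) / ‖x - y‖ ^ 3| ≤ (‖x - y‖ ^ 2)⁻¹ := by
  rcases eq_or_ne (‖x - y‖) 0 with h | h
  · rw [h]
    norm_num
  · have h1 : 0 < ‖x - y‖ := lt_of_le_of_ne (norm_nonneg _) (Ne.symm h)
    rw [abs_div, abs_of_pos (pow_pos h1 3), div_le_iff₀ (pow_pos h1 3)]
    have h2 : (‖x - y‖ ^ 2)⁻¹ * ‖x - y‖ ^ 3 = ‖x - y‖ := by
      field_simp
    rw [h2]
    have h3 := abs_zero_le (x - y)
    rwa [PiLp.sub_apply] at h3

/-- the data of a density with bounded field -/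
private structure FB (f : E3 → ℝ) : Prop where
  intro ::
  ld : Ld f
  meas : Measurable f
  bd : ∃ d : ℝ, 0 < d ∧ ∃ C : ℝ, ∀ y : E3, -d < y 0 → |f y| ≤ C

private theorem FB.bound {f : E3 → ℝ} (hf : FB f) : ∃ B : ℝ, 0 ≤ B ∧ ∀ x : E3, 0 ≤ x 0 →
    Integrable (fun y => f y * ((x 0 - y 0) / ‖x - y‖ ^ 3)) ∧
    (∫ y, |f y * ((x 0 - y 0) / ‖x - y‖ ^ 3)|) ≤ B ∧ |Df f x| ≤ B := by
  obtain ⟨d, hd, C, hC⟩ := hf.bd
  obtain ⟨B, hB⟩ := dG_bdd hf.ld hf.meas hC (a := 0) (by linarith)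
  refine ⟨|B|, abs_nonneg _, fun x hx => ?_⟩
  have h1 := dG_int hf.ld hf.meas hC (x := x) (by linarith)
  have hm : Measurable (fun y : E3 => f y * ((x 0 - y 0) / ‖x - y‖ ^ 3)) := by
    have m0 : Measurable (fun y : E3 => y 0) := continuous_zero.measurable
    have m1 : Measurable (fun y : E3 => ‖x - y‖ ^ 3) :=
      ((continuous_const.sub continuous_id).norm.pow 3).measurable
    exact hf.meas.mul ((measurable_const.sub m0).div m1)
  have hle : ∀ y : E3, |f y * ((x 0 - y 0) / ‖x - y‖ ^ 3)| ≤ |f y| * (‖x - y‖ ^ 2)⁻¹ := by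
    intro y
    rw [abs_mul]
    exact mul_le_mul_of_nonneg_left (kern_le x y) (abs_nonneg _)
  have hi : Integrable (fun y => f y * ((x 0 - y 0) / ‖x - y‖ ^ 3)) :=
    h1.mono' hm.aestronglyMeasurable (Filter.Eventually.of_forall fun y => by
      rw [Real.norm_eq_abs]; exact hle y)
  have hb : (∫ y, |f y * ((x 0 - y 0) / ‖x - y‖ ^ 3)|) ≤ |B| :=
    (integral_mono hi.abs h1 hle).trans ((hB x hx).trans (le_abs_self B))
  refine ⟨hi, hb, ?_⟩
  unfold Df
  exact (abs_integral_le_integral_abs).trans hb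

private theorem FB.measD {f : E3 → ℝ} (hf : FB f) : Measurable (Df f) := dG_meas hf.meas

private theorem FB.der {f : E3 → ℝ} (hf : FB f) (p : P2) {t : ℝ} (ht : 0 ≤ t) :
    HasDerivAt (fun s : ℝ => G f (mk s p)) (-Df f (mk t p)) t := by
  obtain ⟨d, hd, C, hC⟩ := hf.bd
  have h1 := dG hf.ld hf.meas hC (x := mk t p) (by rw [mk_zero]; linarith)
  have h2 : HasDerivAt (fun s : ℝ => G f (mk t p + s • e0)) (-Df f (mk t p)) (t - t) := by
    rw [sub_self]
    exact h1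
  have h3 := h2.comp_sub_const t t
  refine h3.congr_of_eventuallyEq (Filter.Eventually.of_forall fun s => ?_)
  show G f (mk s p) = G f (mk t p + (s - t) • e0)
  rw [mk_add_e0, add_sub_cancel]

/-- the weight: an integrable density on the right -/
private theorem wt_int {f : E3 → ℝ} (hσi : Integrable σ) (hσm : Measurable σ)
    (hσ0 : ∀ x : E3, x 0 ≤ 0 → σ x = 0) {B : ℝ} (hm : Measurable f)
    (hB : ∀ x : E3, 0 ≤ x 0 → |f x| ≤ B) : Integrable (fun x => σ x * f x) := by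
  refine (hσi.abs.mul_const B).mono' (hσm.mul hm).aestronglyMeasurable
    (Filter.Eventually.of_forall fun x => ?_)
  rw [Real.norm_eq_abs, abs_mul]
  rcases le_or_gt (x 0) 0 with h | h
  · rw [hσ0 x h, abs_zero, zero_mul, zero_mul]
  · exact mul_le_mul_of_nonneg_left (hB x h.le) (abs_nonneg _)

private theorem kern_meas : Measurable (fun q : E3 × E3 => (q.1 0 - q.2 0) / ‖q.1 - q.2‖ ^ 3) := by
  have m0 : Measurable (fun q : E3 × E3 => q.1 0) := (continuous_zero.comp continuous_fst).measurable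
  have m1 : Measurable (fun q : E3 × E3 => q.2 0) := (continuous_zero.comp continuous_snd).measurable
  have m2 : Measurable (fun q : E3 × E3 => ‖q.1 - q.2‖ ^ 3) :=
    ((continuous_fst.sub continuous_snd).norm.pow 3).measurable
  exact (m0.sub m1).div m2

private theorem prod_int {f : E3 → ℝ} (hf : FB f) (hσi : Integrable σ) (hσm : Measurable σ)
    (hσ0 : ∀ x : E3, x 0 ≤ 0 → σ x = 0) :
    Integrable (fun q : E3 × E3 => σ q.1 * (f q.2 * ((q.1 0 - q.2 0) / ‖q.1 - q.2‖ ^ 3)))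
      ((volume : Measure E3).prod volume) := by
  obtain ⟨B, hB0, hB⟩ := hf.bound
  have hm : Measurable (fun q : E3 × E3 => σ q.1 * (f q.2 * ((q.1 0 - q.2 0) / ‖q.1 - q.2‖ ^ 3))) :=
    (hσm.comp measurable_fst).mul ((hf.meas.comp measurable_snd).mul kern_meas)
  rw [integrable_prod_iff hm.aestronglyMeasurable]
  constructor
  · refine Filter.Eventually.of_forall fun x => ?_
    show Integrable (fun y => σ x * (f y * ((x 0 - y 0) / ‖x - y‖ ^ 3)))
    rcases le_or_gt (x 0) 0 with h | h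
    · rw [hσ0 x h]
      simp only [zero_mul]
      exact integrable_zero _ _ _
    · exact (hB x h.le).1.const_mul _
  · have m1 : Measurable (fun q : E3 × E3 =>
        ‖σ q.1 * (f q.2 * ((q.1 0 - q.2 0) / ‖q.1 - q.2‖ ^ 3))‖) := hm.norm
    have m2 : StronglyMeasurable (fun x : E3 =>
        ∫ y, ‖σ x * (f y * ((x 0 - y 0) / ‖x - y‖ ^ 3))‖) :=
      m1.stronglyMeasurable.integral_prod_right
    refine (hσi.abs.mul_const B).mono' m2.aestronglyMeasurable
      (Filter.Eventually.of_forall fun x => ?_)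
    show ‖∫ y, ‖σ x * (f y * ((x 0 - y 0) / ‖x - y‖ ^ 3))‖‖ ≤ |σ x| * B
    rw [Real.norm_eq_abs, abs_of_nonneg (integral_nonneg fun y => norm_nonneg _)]
    have e1 : (fun y => ‖σ x * (f y * ((x 0 - y 0) / ‖x - y‖ ^ 3))‖) =
        fun y => |σ x| * |f y * ((x 0 - y 0) / ‖x - y‖ ^ 3)| := by
      funext y
      rw [Real.norm_eq_abs, abs_mul]
    rw [e1, integral_const_mul]
    rcases le_or_gt (x 0) 0 with h | h
    · rw [hσ0 x h, abs_zero, zero_mul, zero_mul]
    · exact mul_le_mul_of_nonneg_left (hB x h.le).2.1 (abs_nonneg _)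

/-- Fubini for the bracket -/
private theorem br_dens {f : E3 → ℝ} (hf : FB f) (hf0 : ∀ x, 0 ≤ f x) (hσi : Integrable σ)
    (hσm : Measurable σ) (hσp : ∀ x, 0 ≤ σ x) (hσ0 : ∀ x : E3, x 0 ≤ 0 → σ x = 0) :
    br (dens f) (dens σ) = ∫ x, σ x * Df f x := by
  unfold br
  rw [integral_dens hf.meas hf0]
  have e1 : (fun x => f x * ∫ y, (y 0 - x 0) / ‖x - y‖ ^ 3 ∂(dens σ)) =
      fun x => ∫ y, σ y * (f x * ((y 0 - x 0) / ‖y - x‖ ^ 3)) := by
    funext x
    rw [integral_dens hσm hσp, ← integral_const_mul]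
    refine integral_congr_ae (Filter.Eventually.of_forall fun y => ?_)
    show f x * (σ y * ((y 0 - x 0) / ‖x - y‖ ^ 3)) = _
    rw [norm_sub_rev]
    ring
  rw [e1]
  have h1 := (prod_int hf hσi hσm hσ0).swap
  have h2 : Integrable (Function.uncurry fun (x y : E3) => σ y * (f x * ((y 0 - x 0) / ‖y - x‖ ^ 3)))
      ((volume : Measure E3).prod volume) := h1
  rw [integral_integral_swap h2]
  refine integral_congr_ae (Filter.Eventually.of_forall fun y => ?_)
  show (∫ x, σ y * (f x * ((y 0 - x 0) / ‖y - x‖ ^ 3))) = σ y * Df f y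
  rw [integral_const_mul]
  rfl

private theorem self_zero (hf : FB σ) (hσi : Integrable σ)
    (hσ0 : ∀ x : E3, x 0 ≤ 0 → σ x = 0) : ∫ x, σ x * Df σ x = 0 := by
  have h1 := prod_int hf hσi hf.meas hσ0
  have h2 : Integrable (Function.uncurry fun (x y : E3) => σ x * (σ y * ((x 0 - y 0) / ‖x - y‖ ^ 3)))
      ((volume : Measure E3).prod volume) := h1
  have h3 := integral_integral_swap h2
  have e1 : (∫ x, ∫ y, σ x * (σ y * ((x 0 - y 0) / ‖x - y‖ ^ 3))) = ∫ x, σ x * Df σ x := by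
    refine integral_congr_ae (Filter.Eventually.of_forall fun x => ?_)
    show (∫ y, σ x * (σ y * ((x 0 - y 0) / ‖x - y‖ ^ 3))) = σ x * Df σ x
    rw [integral_const_mul]
    rfl
  have e2 : (∫ y, ∫ x, σ x * (σ y * ((x 0 - y 0) / ‖x - y‖ ^ 3))) = -∫ x, σ x * Df σ x := by
    rw [← integral_neg]
    refine integral_congr_ae (Filter.Eventually.of_forall fun y => ?_)
    show (∫ x, σ x * (σ y * ((x 0 - y 0) / ‖x - y‖ ^ 3))) = -(σ y * Df σ y)
    unfold Df
    rw [← integral_const_mul, ← integral_neg]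
    refine integral_congr_ae (Filter.Eventually.of_forall fun x => ?_)
    show σ x * (σ y * ((x 0 - y 0) / ‖x - y‖ ^ 3)) = -(σ y * (σ x * ((y 0 - x 0) / ‖y - x‖ ^ 3)))
    rw [norm_sub_rev y x]
    ring
  rw [e1, e2] at h3
  linarith

/-- derivative of the nuclear potential -/
private theorem V_der (R' : Fin k → E3) (z : Fin k → ℝ) (hR : ∀ i, (R' i) 0 < 0) (p : P2) {t : ℝ}
    (ht : 0 ≤ t) : HasDerivAt (fun s : ℝ => V R' z (mk s p))
      (-∑ i, z i * (((mk t p) 0 - (R' i) 0) / ‖mk t p - R' i‖ ^ 3)) t := by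
  unfold V
  rw [← Finset.sum_neg_distrib]
  refine HasDerivAt.fun_sum fun i _ => ?_
  have hi := hR i
  have hn : ∀ s : ℝ, ‖mk s p - R' i‖ = √((s - (R' i) 0) ^ 2 + ‖p - pr (R' i)‖ ^ 2) := by
    intro s
    have h1 := norm_mk_sub_sq s ((R' i) 0) p (pr (R' i))
    rw [mk_pr] at h1
    rw [← h1, Real.sqrt_sq (norm_nonneg _)]
  have hpos : 0 < (t - (R' i) 0) ^ 2 + ‖p - pr (R' i)‖ ^ 2 := by
    have h1 : 0 < t - (R' i) 0 := by linarith
    positivity
  have hs : HasDerivAt (fun s : ℝ => √((s - (R' i) 0) ^ 2 + ‖p - pr (R' i)‖ ^ 2))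
      ((t - (R' i) 0) / √((t - (R' i) 0) ^ 2 + ‖p - pr (R' i)‖ ^ 2)) t := by
    have h1 := ((((hasDerivAt_id t).sub_const ((R' i) 0)).pow 2).add_const
      (‖p - pr (R' i)‖ ^ 2)).sqrt hpos.ne'
    refine h1.congr_deriv ?_
    simp only [id, Nat.cast_ofNat, Nat.add_one_sub_one, pow_one, mul_one, Pi.pow_apply]
    rw [mul_div_mul_left _ _ two_ne_zero]
  have hsq : √((t - (R' i) 0) ^ 2 + ‖p - pr (R' i)‖ ^ 2) ≠ 0 := (Real.sqrt_pos.2 hpos).ne'
  have hd := (hasDerivAt_const t (z i)).div hs hsq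
  have hfun : (fun s : ℝ => z i / ‖mk s p - R' i‖) =
      fun s : ℝ => z i / √((s - (R' i) 0) ^ 2 + ‖p - pr (R' i)‖ ^ 2) := by
    funext s
    rw [hn]
  rw [hfun]
  refine hd.congr_deriv ?_
  rw [hn t, mk_zero]
  generalize √((t - (R' i) 0) ^ 2 + ‖p - pr (R' i)‖ ^ 2) = w at hsq
  field_simp
  ring

/-- the derivative of the potential -/
private noncomputable def Ef (R : Fin k → E3) (z : Fin k → ℝ) (ρ σ : E3 → ℝ) (x : E3) : ℝ :=
  -(∑ i, z i * ((x 0 - (fold R i) 0) / ‖x - fold R i‖ ^ 3)) + Df (foldf ρ) x + Df σ x -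
    Df (fun y => σ (rf y)) x

private theorem fb_fold (h : Cfg γ μ R z ρ σ) : FB (foldf ρ) := by
  obtain ⟨d, hd, -, C, hC⟩ := foldf_bdd h
  exact ⟨Ld_foldf h.htf.ld, measurable_foldf h.htf.meas, d, hd, C, hC⟩

private theorem fb_sig (h : Cfg γ μ R z ρ σ) : FB σ := by
  obtain ⟨C, hC⟩ := h.sig_bdd
  refine ⟨h.hhalf.ld, h.hhalf.meas, 1, one_pos, C, fun y _ => ?_⟩
  rw [abs_of_nonneg (h.sig_nonneg y)]
  exact hC y

private theorem fb_rf (h : Cfg γ μ R z ρ σ) : FB (fun y => σ (rf y)) := by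
  obtain ⟨C, hC⟩ := h.sig_bdd
  refine ⟨Ld_rf h.hhalf.ld, h.hhalf.meas.comp continuous_rf.measurable, 1, one_pos, C, fun y _ => ?_⟩
  rw [abs_of_nonneg (h.sig_nonneg _)]
  exact hC _

private theorem phi0_der (h : Cfg γ μ R z ρ σ) (p : P2) {t : ℝ} (ht : 0 ≤ t) :
    HasDerivAt (fun s : ℝ => phi0 R z ρ σ (mk s p)) (Ef R z ρ σ (mk t p)) t := by
  have h1 := V_der (fold R) z h.fold_neg p ht
  have h2 := (fb_fold h).der p ht
  have h3 := (fb_sig h).der p ht
  have h4 := (fb_rf h).der p ht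
  have h5 := ((h1.sub h2).sub h3).add h4
  refine (h5.congr_deriv ?_).congr_of_eventuallyEq (Filter.Eventually.of_forall fun s => ?_)
  · unfold Ef
    ring
  · show phi0 R z ρ σ (mk s p) = V (fold R) z (mk s p) - G (foldf ρ) (mk s p) - G σ (mk s p) +
      G (fun y => σ (rf y)) (mk s p)
    rw [G_rf]
    rfl

private theorem nuc_bdd (h : Cfg γ μ R z ρ σ) (i : Fin k) : ∃ B : ℝ, ∀ x : E3, 0 ≤ x 0 →
    |(x 0 - (fold R i) 0) / ‖x - fold R i‖ ^ 3| ≤ B := by
  have hi := h.fold_neg i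
  refine ⟨(((fold R i) 0) ^ 2)⁻¹, fun x hx => (kern_le x (fold R i)).trans ?_⟩
  have h1 : |(fold R i) 0| ≤ ‖x - fold R i‖ := by
    have h2 := abs_zero_le (x - fold R i)
    rw [PiLp.sub_apply] at h2
    refine le_trans ?_ h2
    rw [abs_of_neg hi, abs_of_pos (by linarith)]
    linarith
  have h3 : ((fold R i) 0) ^ 2 ≤ ‖x - fold R i‖ ^ 2 := by
    rw [← sq_abs ((fold R i) 0)]
    exact pow_le_pow_left₀ (abs_nonneg _) h1 2
  have h4 : 0 < ((fold R i) 0) ^ 2 := by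
    have := hi.ne
    positivity
  exact inv_anti₀ h4 h3

private theorem nuc_meas (a : E3) : Measurable (fun x : E3 => (x 0 - a 0) / ‖x - a‖ ^ 3) := by
  have m0 : Measurable (fun y : E3 => y 0) := continuous_zero.measurable
  have m1 : Measurable (fun y : E3 => ‖y - a‖ ^ 3) :=
    ((continuous_id.sub continuous_const).norm.pow 3).measurable
  exact (m0.sub measurable_const).div m1

private theorem nuc_int (h : Cfg γ μ R z ρ σ) (i : Fin k) :
    Integrable (fun x => σ x * ((x 0 - (fold R i) 0) / ‖x - fold R i‖ ^ 3)) := by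
  obtain ⟨B, hB⟩ := nuc_bdd h i
  exact wt_int h.hhalf.ld.i1 h.hhalf.meas h.hhalf.zero (nuc_meas _) hB

private theorem df_int (h : Cfg γ μ R z ρ σ) {f : E3 → ℝ} (hf : FB f) :
    Integrable (fun x => σ x * Df f x) := by
  obtain ⟨B, -, hB⟩ := hf.bound
  exact wt_int h.hhalf.ld.i1 h.hhalf.meas h.hhalf.zero hf.measD (fun x hx => (hB x hx).2.2)

private theorem sE_eq (R : Fin k → E3) (z : Fin k → ℝ) (ρ σ : E3 → ℝ) (x : E3) :
    σ x * Ef R z ρ σ x = -(∑ i, z i * (σ x * ((x 0 - (fold R i) 0) / ‖x - fold R i‖ ^ 3))) +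
      σ x * Df (foldf ρ) x + σ x * Df σ x - σ x * Df (fun y => σ (rf y)) x := by
  unfold Ef
  have h1 : ∑ i, z i * (σ x * ((x 0 - (fold R i) 0) / ‖x - fold R i‖ ^ 3)) =
      σ x * ∑ i, z i * ((x 0 - (fold R i) 0) / ‖x - fold R i‖ ^ 3) := by
    rw [Finset.mul_sum]
    exact Finset.sum_congr rfl fun i _ => by ring
  rw [h1]
  ring

private theorem nsum_int (h : Cfg γ μ R z ρ σ) : Integrable (fun x =>
    ∑ i, z i * (σ x * ((x 0 - (fold R i) 0) / ‖x - fold R i‖ ^ 3))) :=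
  integrable_finsetSum _ fun i _ => (nuc_int h i).const_mul _

private theorem sE_int (h : Cfg γ μ R z ρ σ) : Integrable (fun x => σ x * Ef R z ρ σ x) := by
  have h1 := (((nsum_int h).neg.add (df_int h (fb_fold h))).add (df_int h (fb_sig h))).sub
    (df_int h (fb_rf h))
  refine h1.congr (Filter.Eventually.of_forall fun x => ?_)
  exact (sE_eq R z ρ σ x).symm

private theorem far (h : Cfg γ μ R z ρ σ) : ∃ r : ℝ, 0 < r ∧ ∀ x : E3, 0 ≤ x 0 → r ≤ ‖x‖ →
    JJ γ μ (phi0 R z ρ σ x) = 0 := by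
  obtain ⟨r, hr, hV⟩ := V_small (fold R) (fun i => (h.hz i).le) h.hμ
  exact ⟨r, hr, fun x hx hxr => JJ_of_le ((h.phi0_le hx).trans (hV x hxr))⟩

theorem JJ_int (h : Cfg γ μ R z ρ σ) : Integrable (fun p : P2 => JJ γ μ (phi R z ρ (mk 0 p))) := by
  have e1 : (fun p : P2 => JJ γ μ (phi R z ρ (mk 0 p))) =
      fun p : P2 => JJ γ μ (phi0 R z ρ σ (mk 0 p)) := by
    funext p
    rw [phi_plane h]
  rw [e1]
  obtain ⟨r, hr, hfar⟩ := far h
  have hmk : Continuous (fun p : P2 => mk 0 p) :=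
    continuous_mk.comp (continuous_const.prodMk continuous_id)
  have hV : Continuous (fun p : P2 => V (fold R) z (mk 0 p)) := by
    rw [continuous_iff_continuousAt]
    intro p
    have h1 : ContinuousAt (V (fold R) z) (mk 0 p) := by
      refine continuousAt_V fun i _ hc => ?_
      have h2 := h.fold_neg i
      rw [← hc, mk_zero] at h2
      exact lt_irrefl _ h2
    exact ContinuousAt.comp (f := fun p : P2 => mk 0 p) (x := p) h1 hmk.continuousAt
  have hphi : Continuous (fun p : P2 => phi0 R z ρ σ (mk 0 p)) := by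
    unfold phi0
    exact ((hV.sub ((continuous_G (fb_fold h).ld).comp hmk)).sub
      ((continuous_G h.hhalf.ld).comp hmk)).add
      ((continuous_G h.hhalf.ld).comp (continuous_rf.comp hmk))
  have hc : Continuous (fun p : P2 => JJ γ μ (phi0 R z ρ σ (mk 0 p))) :=
    (continuous_JJ h.hγ).comp hphi
  refine hc.integrable_of_hasCompactSupport ?_
  refine HasCompactSupport.intro (isCompact_closedBall (0 : P2) r) fun p hp => ?_
  refine hfar _ (by rw [mk_zero]) ?_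
  have h1 : r < ‖p‖ := by
    rw [mem_closedBall_zero_iff, not_le] at hp
    exact hp
  have h2 := norm_mk_sq 0 p
  rw [zero_pow two_ne_zero, zero_add] at h2
  have h3 : ‖mk 0 p‖ = ‖p‖ := (sq_eq_sq₀ (norm_nonneg _) (norm_nonneg _)).1 h2
  rw [h3]
  exact h1.le

private theorem line (h : Cfg γ μ R z ρ σ) (p : P2)
    (hi : Integrable (fun t : ℝ => σ (mk t p) * Ef R z ρ σ (mk t p))) :
    (∫ t : ℝ, σ (mk t p) * Ef R z ρ σ (mk t p)) = -JJ γ μ (phi0 R z ρ σ (mk 0 p)) := by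
  have h1 : (∫ t : ℝ, σ (mk t p) * Ef R z ρ σ (mk t p)) =
      ∫ t in Ioi (0 : ℝ), σ (mk t p) * Ef R z ρ σ (mk t p) := by
    rw [← integral_indicator measurableSet_Ioi]
    refine integral_congr_ae (Filter.Eventually.of_forall fun t => ?_)
    show σ (mk t p) * Ef R z ρ σ (mk t p) =
      (Ioi (0 : ℝ)).indicator (fun t => σ (mk t p) * Ef R z ρ σ (mk t p)) t
    by_cases ht : 0 < t
    · rw [indicator_of_mem (mem_Ioi.2 ht)]
    · have h0 : σ (mk t p) = 0 := h.hhalf.zero (mk t p) (by rw [mk_zero]; exact not_lt.1 ht)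
      rw [indicator_of_notMem (by rw [mem_Ioi]; exact ht), h0, zero_mul]
  obtain ⟨r, hr, hfar⟩ := far h
  have hder : ∀ t : ℝ, 0 ≤ t → HasDerivAt (fun s : ℝ => JJ γ μ (phi0 R z ρ σ (mk s p)))
      (jj γ μ (phi0 R z ρ σ (mk t p)) * Ef R z ρ σ (mk t p)) t := by
    intro t ht
    exact (JJ_deriv h.hγ _).comp t (phi0_der h p ht)
  have h2 := integral_Ioi_of_hasDerivAt_of_tendsto (a := (0 : ℝ)) (m := 0)
    (f := fun s : ℝ => JJ γ μ (phi0 R z ρ σ (mk s p)))
    (f' := fun t : ℝ => σ (mk t p) * Ef R z ρ σ (mk t p))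
    (hder 0 le_rfl).continuousAt.continuousWithinAt
    (fun t ht => by
      have h3 := hder t (le_of_lt ht)
      rw [← h.sig_eq (by rw [mk_zero]; exact ht)] at h3
      exact h3)
    hi.integrableOn ?_
  · rw [h1, h2, zero_sub]
  · refine tendsto_const_nhds.congr' ?_
    filter_upwards [Filter.eventually_ge_atTop r] with t ht
    refine (hfar _ (by rw [mk_zero]; linarith) ?_).symm
    have h3 := abs_zero_le (mk t p)
    rw [mk_zero] at h3
    exact ht.trans ((le_abs_self t).trans h3)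

theorem force_balance (h : Cfg γ μ R z ρ σ) :
    ∫ p : P2, JJ γ μ (phi R z ρ (mk 0 p)) =
      br (nu (fold R) z) (dens σ) - br (dens (foldf ρ)) (dens σ) + br (dens (fun x => σ (rf x))) (dens σ) := by
  have hσi := h.hhalf.ld.i1
  have hσm := h.hhalf.meas
  have hσ0 := h.hhalf.zero
  have hσp : ∀ x, 0 ≤ σ x := h.sig_nonneg
  have hint := sE_int h
  have e1 : (∫ x, σ x * Ef R z ρ σ x) = -∫ p : P2, JJ γ μ (phi R z ρ (mk 0 p)) := by
    rw [integral_mk' hint, ← integral_neg]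
    have h1 := (integrable_mk_iff.2 hint).prod_left_ae
    refine integral_congr_ae ?_
    filter_upwards [h1] with p hp
    show (∫ t : ℝ, σ (mk t p) * Ef R z ρ σ (mk t p)) = -JJ γ μ (phi R z ρ (mk 0 p))
    rw [line h p hp, phi_plane h]
  have e2 : (∫ x, σ x * Ef R z ρ σ x) =
      -(∑ i, z i * ∫ x, σ x * ((x 0 - (fold R i) 0) / ‖x - fold R i‖ ^ 3)) +
      (∫ x, σ x * Df (foldf ρ) x) + (∫ x, σ x * Df σ x) - ∫ x, σ x * Df (fun y => σ (rf y)) x := by
    have i0 : Integrable (fun x => -(∑ i, z i * (σ x * ((x 0 - (fold R i) 0) / ‖x - fold R i‖ ^ 3)))) :=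
      (nsum_int h).neg
    have i1 := df_int h (fb_fold h)
    have i2 := df_int h (fb_sig h)
    have i3 := df_int h (fb_rf h)
    have i01 : Integrable (fun x => -(∑ i, z i * (σ x * ((x 0 - (fold R i) 0) / ‖x - fold R i‖ ^ 3))) +
      σ x * Df (foldf ρ) x) := i0.add i1
    have i02 : Integrable (fun x => -(∑ i, z i * (σ x * ((x 0 - (fold R i) 0) / ‖x - fold R i‖ ^ 3))) +
      σ x * Df (foldf ρ) x + σ x * Df σ x) := i01.add i2
    have h2 : (fun x => σ x * Ef R z ρ σ x) = fun x =>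
        -(∑ i, z i * (σ x * ((x 0 - (fold R i) 0) / ‖x - fold R i‖ ^ 3))) +
        σ x * Df (foldf ρ) x + σ x * Df σ x - σ x * Df (fun y => σ (rf y)) x := by
      funext x
      exact sE_eq R z ρ σ x
    rw [h2, integral_sub i02 i3, integral_add i01 i2, integral_add i0 i1,
      integral_neg, integral_finsetSum _ fun i _ => (nuc_int h i).const_mul _]
    congr 4
    refine Finset.sum_congr rfl fun i _ => ?_
    rw [integral_const_mul]
  have e3 : br (nu (fold R) z) (dens σ) =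
      ∑ i, z i * ∫ x, σ x * ((x 0 - (fold R i) 0) / ‖x - fold R i‖ ^ 3) := by
    unfold br
    rw [integral_nu (fun i => (h.hz i).le)]
    refine Finset.sum_congr rfl fun i _ => ?_
    rw [integral_dens hσm hσp]
    congr 1
    refine integral_congr_ae (Filter.Eventually.of_forall fun x => ?_)
    show σ x * ((x 0 - (fold R i) 0) / ‖fold R i - x‖ ^ 3) = _
    rw [norm_sub_rev]
  have e4 := br_dens (fb_fold h) (foldf_nonneg fun x => h.htf.nonneg h.hγ x) hσi hσm hσp hσ0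
  have e5 := br_dens (fb_rf h) (fun x => hσp _) hσi hσm hσp hσ0
  have e6 := self_zero (fb_sig h) hσi hσ0
  rw [e3, e4, e5]
  rw [e1, e6] at e2
  linarith

end Pool.Agent.H50.TM
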