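import Pool.Agent.H50.TM.WNon
import Pool.Agent.H50.TM.DG

/-!
# Module FLim: `w(mk e p)/(2e) → Fl p`, so `Fl ≥ 0`

With `x = mk e p`, `e > 0`:
* nuclei: `green_eq` and the pointwise limit.
* density `b` (zero for `y₀ ≤ 0`, `|b y| ≤ C` for `y₀ < d`, `Cfg.slab`, `Cfg.sig_bdd`): `dG` (module DG) for `f = b ∘ rf`, `|f y| ≤ C` for `y₀ > -d`, so
  `F t = G b (mk t p)` has the derivative `∫ b y · y₀/‖mk 0 p-y‖³` at `0` and the symmetric difference quotient converges to it.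
* the limit is `fld (nu R zR) p + ∫ b y · y₀/‖mk 0 p-y‖³ = Fl p` (`integral_nu`, `integral_dens`, `b = σ - rp ρ`, `|y₀| = y₀` where `σ`, `rp ρ ≠ 0`).
* `Fl_nonneg`: `w(mk e p) ≥ 0` for small `e > 0` (`ww_nonneg`; `mk e p ≠ R i` as `e ≠ (R i) 0` for small `e`).
-/

set_option autoImplicit false

open MeasureTheory Set Filter Topology
open scoped ENNReal NNReal

namespace Pool.Agent.H50.TM

open Pool.Agent.H23.TF

variable {γ μ : ℝ} {k : ℕ} {R : Fin k → E3} {z : Fin k → ℝ} {ρ σ : E3 → ℝ}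

private theorem cont_mk1 (p : P2) : Continuous (fun t : ℝ => mk t p) :=
  continuous_mk.comp (continuous_id.prodMk continuous_const)

/-- the limit for one charge -/
private theorem lim_nuc {a : E3} (ha : 0 < a 0) (p : P2) :
    Tendsto (fun e : ℝ => (1 / ‖mk e p - a‖ - 1 / ‖rf (mk e p) - a‖) / (2 * e)) (𝓝[>] 0)
      (𝓝 (a 0 / ‖mk 0 p - a‖ ^ 3)) := by
  have hD : 0 < ‖mk 0 p - a‖ := by
    refine norm_pos_iff.2 (sub_ne_zero.2 fun hc => ?_)
    rw [← hc, mk_zero] at ha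
    exact lt_irrefl _ ha
  have h1 : Tendsto (fun e : ℝ => ‖mk e p - a‖) (𝓝[>] 0) (𝓝 ‖mk 0 p - a‖) := by
    have : Continuous (fun e : ℝ => ‖mk e p - a‖) := ((cont_mk1 p).sub continuous_const).norm
    exact (this.tendsto 0).mono_left nhdsWithin_le_nhds
  have h2 : Tendsto (fun e : ℝ => ‖rf (mk e p) - a‖) (𝓝[>] 0) (𝓝 ‖mk 0 p - a‖) := by
    have : Continuous (fun e : ℝ => ‖rf (mk e p) - a‖) :=
      ((continuous_rf.comp (cont_mk1 p)).sub continuous_const).norm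
    have h3 := (this.tendsto 0).mono_left (nhdsWithin_le_nhds (s := Ioi (0 : ℝ)))
    rw [rf_mk, neg_zero] at h3
    exact h3
  have h3 : Tendsto (fun e : ℝ => 2 * a 0 / (‖mk e p - a‖ * ‖rf (mk e p) - a‖ * (‖mk e p - a‖ + ‖rf (mk e p) - a‖)))
      (𝓝[>] 0) (𝓝 (2 * a 0 / (‖mk 0 p - a‖ * ‖mk 0 p - a‖ * (‖mk 0 p - a‖ + ‖mk 0 p - a‖)))) := by
    refine Tendsto.div tendsto_const_nhds ((h1.mul h2).mul (h1.add h2)) ?_
    positivity
  have h4 : 2 * a 0 / (‖mk 0 p - a‖ * ‖mk 0 p - a‖ * (‖mk 0 p - a‖ + ‖mk 0 p - a‖)) = a 0 / ‖mk 0 p - a‖ ^ 3 := by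
    field_simp
    ring
  rw [h4] at h3
  refine h3.congr' ?_
  have hev : ∀ᶠ e : ℝ in 𝓝[>] 0, e < a 0 := nhdsWithin_le_nhds (gt_mem_nhds ha)
  filter_upwards [hev, self_mem_nhdsWithin] with e he he0
  have he0' : 0 < e := he0
  have hne1 : mk e p ≠ a := fun hc => by
    rw [← hc, mk_zero] at he
    exact lt_irrefl _ he
  have hne2 : rf (mk e p) ≠ a := fun hc => by
    rw [← hc, rf_zero, mk_zero] at ha
    linarith
  rw [green_eq hne1 hne2, mk_zero]
  have hA : 0 < ‖mk e p - a‖ := norm_pos_iff.2 (sub_ne_zero.2 hne1)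
  have hB : 0 < ‖rf (mk e p) - a‖ := norm_pos_iff.2 (sub_ne_zero.2 hne2)
  field_simp
  ring

/-- the symmetric difference quotient -/
private theorem lim_sym {F : ℝ → ℝ} {I : ℝ} (hF : HasDerivAt F I 0) :
    Tendsto (fun e : ℝ => (F e - F (-e)) / (2 * e)) (𝓝[>] 0) (𝓝 I) := by
  have h1 := hasDerivAt_iff_tendsto_slope.1 hF
  have hle : 𝓝[>] (0 : ℝ) ≤ 𝓝[≠] 0 := nhdsWithin_mono _ fun x hx => ne_of_gt hx
  have h2 := h1.mono_left hle
  have h3 : Tendsto (fun e : ℝ => -e) (𝓝[>] (0 : ℝ)) (𝓝[≠] 0) := by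
    refine tendsto_nhdsWithin_iff.2 ⟨?_, ?_⟩
    · have := (continuous_neg (G := ℝ)).tendsto 0
      rw [neg_zero] at this
      exact this.mono_left nhdsWithin_le_nhds
    · filter_upwards [self_mem_nhdsWithin] with e he
      have : (0 : ℝ) < e := he
      simp only [mem_compl_iff, mem_singleton_iff, neg_eq_zero]
      exact this.ne'
  have h4 := h1.comp h3
  have h5 := (h2.add h4).div_const 2
  have h6 : (I + I) / 2 = I := by ring
  rw [h6] at h5
  refine h5.congr' ?_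
  filter_upwards [self_mem_nhdsWithin] with e he
  have : (0 : ℝ) < e := he
  simp only [Function.comp_apply, slope_def_field, sub_zero]
  field_simp
  ring

private theorem abs_ker_le (x y : E3) : |y 0 - x 0| / ‖x - y‖ ^ 3 ≤ (‖x - y‖ ^ 2)⁻¹ := by
  rcases eq_or_ne (‖x - y‖) 0 with h | h
  · rw [h]
    norm_num
  · have h1 : 0 < ‖x - y‖ := lt_of_le_of_ne (norm_nonneg _) (Ne.symm h)
    rw [div_le_iff₀ (pow_pos h1 3)]
    have h2 : (‖x - y‖ ^ 2)⁻¹ * ‖x - y‖ ^ 3 = ‖x - y‖ := by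
      field_simp
    rw [h2, abs_sub_comm]
    have h3 := abs_zero_le (x - y)
    rwa [PiLp.sub_apply] at h3

/-- the data of a density on the right -/
private structure RD (d C : ℝ) (f : E3 → ℝ) : Prop where
  intro ::
  ld : Ld f
  meas : Measurable f
  bd : ∀ y : E3, y 0 < d → |f y| ≤ C

private theorem RD.int {d C : ℝ} {f : E3 → ℝ} (hd : 0 < d) (h : RD d C f) (p : P2) :
    Integrable (fun y => f y * (y 0 / ‖mk 0 p - y‖ ^ 3)) := by
  have h1 : Integrable (fun y => |f (rf y)| * (‖mk 0 p - y‖ ^ 2)⁻¹) := by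
    refine dG_int (f := fun y => f (rf y)) (d := d) (C := C) (Ld_rf h.ld) (h.meas.comp continuous_rf.measurable) ?_ ?_
    · intro y hy
      refine h.bd (rf y) ?_
      rw [rf_zero]
      linarith
    · rw [mk_zero]
      linarith
  have h2 := integrable_rf h1
  simp only [rf_rf, norm_plane] at h2
  have hm : Measurable (fun y : E3 => f y * (y 0 / ‖mk 0 p - y‖ ^ 3)) := by
    have m0 : Measurable (fun y : E3 => y 0) := continuous_zero.measurable
    have m1 : Measurable (fun y : E3 => ‖mk 0 p - y‖ ^ 3) :=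
      ((continuous_const.sub continuous_id).norm.pow 3).measurable
    exact h.meas.mul (m0.div m1)
  refine h2.mono' hm.aestronglyMeasurable (Filter.Eventually.of_forall fun y => ?_)
  rw [Real.norm_eq_abs, abs_mul]
  refine mul_le_mul_of_nonneg_left ?_ (abs_nonneg _)
  have h3 := abs_ker_le (mk 0 p) y
  rw [mk_zero, sub_zero] at h3
  rw [abs_div, abs_of_nonneg (show (0 : ℝ) ≤ ‖mk 0 p - y‖ ^ 3 by positivity)]
  exact h3

private theorem RD.der {d C : ℝ} {f : E3 → ℝ} (hd : 0 < d) (h : RD d C f) (p : P2) :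
    HasDerivAt (fun t : ℝ => G f (mk t p)) (∫ y, f y * (y 0 / ‖mk 0 p - y‖ ^ 3)) 0 := by
  have h1 := dG (f := fun y => f (rf y)) (d := d) (C := C) (Ld_rf h.ld) (h.meas.comp continuous_rf.measurable)
    (fun y hy => h.bd (rf y) (by rw [rf_zero]; linarith)) (x := mk 0 p) (by rw [mk_zero]; linarith)
  have h2 : (fun t : ℝ => G (fun y => f (rf y)) (mk 0 p + t • e0)) = fun t : ℝ => G f (mk (-t) p) := by
    funext t
    rw [mk_add_e0, zero_add, G_rf, rf_mk]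
  have h3 : (∫ y, f (rf y) * (((mk 0 p) 0 - y 0) / ‖mk 0 p - y‖ ^ 3)) = ∫ y, f y * (y 0 / ‖mk 0 p - y‖ ^ 3) := by
    rw [← integral_rf (fun y => f y * (y 0 / ‖mk 0 p - y‖ ^ 3))]
    refine integral_congr_ae (Filter.Eventually.of_forall fun y => ?_)
    simp only [norm_plane, rf_zero, mk_zero, zero_sub]
  rw [h2, h3] at h1
  have h4 : HasDerivAt (fun t : ℝ => -t) (-1) (0 : ℝ) := hasDerivAt_neg 0
  have h5 : HasDerivAt (fun t : ℝ => G f (mk (-t) p)) (-∫ y, f y * (y 0 / ‖mk 0 p - y‖ ^ 3)) (-(0 : ℝ)) := by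
    rw [neg_zero]
    exact h1
  have h6 := HasDerivAt.comp (0 : ℝ) h5 h4
  have h7 : ((fun t : ℝ => G f (mk (-t) p)) ∘ fun t : ℝ => -t) = fun t : ℝ => G f (mk t p) := by
    funext t
    simp
  rw [h7] at h6
  have h8 : (-∫ y, f y * (y 0 / ‖mk 0 p - y‖ ^ 3)) * -1 = ∫ y, f y * (y 0 / ‖mk 0 p - y‖ ^ 3) := by ring
  rw [h8] at h6
  exact h6

private theorem fld_eq {d C : ℝ} {f : E3 → ℝ} (h : RD d C f) (h0 : ∀ x, 0 ≤ f x) (hz : ∀ x : E3, x 0 ≤ 0 → f x = 0) (p : P2) :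
    fld (dens f) p = ∫ y, f y * (y 0 / ‖mk 0 p - y‖ ^ 3) := by
  unfold fld
  rw [integral_dens h.meas h0]
  refine integral_congr_ae (Filter.Eventually.of_forall fun y => ?_)
  simp only
  rcases le_or_gt (y 0) 0 with hy | hy
  · rw [hz y hy, zero_mul, zero_mul]
  · rw [abs_of_pos hy]

private theorem rp_zero' {x : E3} (hx : x 0 ≤ 0) : rp ρ x = 0 := by
  unfold rp
  rw [if_neg (not_lt.2 hx)]

/-- the two densities -/
private theorem data (h : Cfg γ μ R z ρ σ) : ∃ d : ℝ, 0 < d ∧ (∃ C, RD d C σ) ∧ (∃ C, RD d C (rp ρ)) ∧ ∃ C, RD d C (bb ρ σ) := by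
  obtain ⟨d, hd, hR, C, hC⟩ := h.slab
  obtain ⟨B, hB⟩ := h.sig_bdd
  have h0 : ∀ x, 0 ≤ ρ x := fun x => h.htf.nonneg h.hγ x
  have h1 : ∀ y : E3, |σ y| ≤ B := fun y => by
    rw [abs_of_nonneg (h.sig_nonneg y)]
    exact hB y
  have h2 : ∀ y : E3, y 0 < d → |rp ρ y| ≤ |C| := fun y hy => by
    rcases le_or_gt (y 0) 0 with hy0 | hy0
    · rw [rp_zero' hy0, abs_zero]
      exact abs_nonneg _
    · unfold rp
      rw [if_pos hy0, abs_of_nonneg (h0 y)]
      exact (hC y (by rw [abs_of_pos hy0]; exact hy)).trans (le_abs_self C)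
  refine ⟨d, hd, ⟨B, h.hhalf.ld, h.hhalf.meas, fun y _ => h1 y⟩,
    ⟨|C|, Ld_rp h.htf.ld, measurable_rp h.htf.meas, h2⟩, ⟨B + |C|, bb_ld h, bb_meas h, fun y hy => ?_⟩⟩
  unfold bb
  exact (abs_sub _ _).trans (add_le_add (h1 y) (h2 y hy))

theorem Fl_lim (h : Cfg γ μ R z ρ σ) (p : P2) :
    Tendsto (fun e : ℝ => ww R z ρ σ (mk e p) / (2 * e)) (𝓝[>] 0) (𝓝 (Fl R z ρ σ p)) := by
  obtain ⟨d, hd, ⟨C1, hs⟩, ⟨C2, hr⟩, ⟨C3, hb⟩⟩ := data h
  have h0 : ∀ x, 0 ≤ ρ x := fun x => h.htf.nonneg h.hγ x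
  have hzR : ∀ i, 0 ≤ zR R z i := fun i => by
    unfold zR
    split_ifs
    · exact (h.hz i).le
    · exact le_rfl
  have e1 : Fl R z ρ σ p = (∑ i, zR R z i * ((R i) 0 / ‖mk 0 p - R i‖ ^ 3)) + ∫ y, bb ρ σ y * (y 0 / ‖mk 0 p - y‖ ^ 3) := by
    unfold Fl
    rw [fld_eq hs (fun x => h.sig_nonneg x) h.hhalf.zero p,
      fld_eq hr (fun x => by unfold rp; split_ifs; exacts [h0 x, le_rfl]) (fun x hx => rp_zero' hx) p]
    have e2 : (∫ y, bb ρ σ y * (y 0 / ‖mk 0 p - y‖ ^ 3)) =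
        (∫ y, σ y * (y 0 / ‖mk 0 p - y‖ ^ 3)) - ∫ y, rp ρ y * (y 0 / ‖mk 0 p - y‖ ^ 3) := by
      rw [← integral_sub (hs.int hd p) (hr.int hd p)]
      refine integral_congr_ae (Filter.Eventually.of_forall fun y => ?_)
      simp only [bb]
      ring
    rw [e2]
    have e3 : fld (nu R (zR R z)) p = ∑ i, zR R z i * ((R i) 0 / ‖mk 0 p - R i‖ ^ 3) := by
      unfold fld
      rw [integral_nu hzR]
      refine Finset.sum_congr rfl fun i _ => ?_
      by_cases hi : 0 < (R i) 0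
      · rw [abs_of_pos hi]
      · have : zR R z i = 0 := by
          unfold zR
          rw [if_neg hi]
        rw [this, zero_mul, zero_mul]
    rw [e3]
    ring
  rw [e1]
  have h1 : Tendsto (fun e : ℝ => ∑ i, zR R z i * ((1 / ‖mk e p - R i‖ - 1 / ‖rf (mk e p) - R i‖) / (2 * e))) (𝓝[>] 0)
      (𝓝 (∑ i, zR R z i * ((R i) 0 / ‖mk 0 p - R i‖ ^ 3))) := by
    refine tendsto_finsetSum _ fun i _ => ?_
    by_cases hi : 0 < (R i) 0
    · exact (lim_nuc hi p).const_mul _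
    · have : zR R z i = 0 := by
        unfold zR
        rw [if_neg hi]
      simp only [this, zero_mul]
      exact tendsto_const_nhds
  have h2 := h1.add (lim_sym (hb.der hd p))
  refine h2.congr' ?_
  filter_upwards [self_mem_nhdsWithin] with e he
  unfold ww V
  rw [← Finset.sum_sub_distrib, rf_mk]
  have h3 : (∑ i, zR R z i * ((1 / ‖mk e p - R i‖ - 1 / ‖mk (-e) p - R i‖) / (2 * e))) =
      (∑ i, (zR R z i / ‖mk e p - R i‖ - zR R z i / ‖mk (-e) p - R i‖)) / (2 * e) := by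
    rw [Finset.sum_div]
    refine Finset.sum_congr rfl fun i _ => ?_
    ring
  rw [h3]
  ring

theorem Fl_nonneg (h : Cfg γ μ R z ρ σ) (p : P2) : 0 ≤ Fl R z ρ σ p := by
  refine ge_of_tendsto (Fl_lim h p) ?_
  have h1 : ∀ᶠ e : ℝ in 𝓝[>] 0, ∀ i, e ≠ (R i) 0 := by
    rw [Filter.eventually_all]
    intro i
    exact nhdsWithin_le_nhds (isOpen_ne.mem_nhds (h.off i).symm)
  filter_upwards [h1, self_mem_nhdsWithin] with e he he0
  have he0' : 0 < e := he0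
  have h2 : 0 ≤ ww R z ρ σ (mk e p) := by
    refine ww_nonneg h (by rw [mk_zero]; exact he0') fun i hc => he i ?_
    rw [← hc, mk_zero]
  positivity

end Pool.Agent.H50.TM
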