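import Pool.Agent.H50.TM.WPos
import Pool.Agent.H50.TM.FLim
import Pool.Agent.H50.TM.DipN

/-!
# Module FFar: `Fl p > 0` for large `‖p‖` if there is a nucleus on the right

Let `r₂` be such that all nuclei and the support of `b` are in `ball 0 r₂` (`bb_supp`), `‖p‖ ≥ r₂ + 2`, `c = mk 0 p` (`‖c‖ = ‖p‖`), `B = ball c 1`. For `y` a right nucleus or
`b y ≠ 0`: `‖y - c‖ > 1`, `‖rf y - c‖ = ‖y - c‖ > 1`. `dip_newton` (with `c₀ = 0`) at `y` and at `rf y`:
`∫_B u₀ (1/‖y-u‖ - 1/‖rf y-u‖) du = (8π/15) y₀/‖y-c‖³`. Hence by Fubini (`B × E3`, `b ∈ Ld`, bounded kernels on `B × supp b`)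
`∫_B u₀ w(u) du = (8π/15) Fl p`. `u₀ w(u) > 0` for `u ∈ B`, `u₀ ≠ 0`: for `u₀ > 0` by `ww_pos`, for `u₀ < 0` by `ww_odd` (no nucleus and no mirrored nucleus in `B`).
So the integral is `> 0` (`setIntegral_pos_iff_support_of_nonneg_ae` or a strict monotonicity; the plane is a null set).
-/

set_option autoImplicit false

open MeasureTheory Set Filter Topology
open scoped ENNReal NNReal

namespace Pool.Agent.H50.TM

open Pool.Agent.H23.TF

variable {γ μ : ℝ} {k : ℕ} {R : Fin k → E3} {z : Fin k → ℝ} {ρ σ : E3 → ℝ}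

private theorem dist_ball {c y u : E3} (hu : ‖u - c‖ ≤ 1) : ‖y - c‖ - 1 ≤ ‖y - u‖ := by
  have h3 : ‖y - c‖ ≤ ‖y - u‖ + ‖u - c‖ := norm_sub_le_norm_sub_add_norm_sub _ _ _
  linarith

private theorem cont_ker {c y : E3} (hy : 1 < ‖y - c‖) :
    IntegrableOn (fun u : E3 => u 0 / ‖y - u‖) (Metric.ball c 1) := by
  have h1 : ContinuousOn (fun u : E3 => u 0 / ‖y - u‖) (Metric.closedBall c 1) := by
    intro u hu
    have h2 : ‖y - u‖ ≠ 0 := by
      rw [Metric.mem_closedBall, dist_eq_norm] at hu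
      have h3 := dist_ball (y := y) hu
      have h4 : 0 < ‖y - u‖ := by linarith
      exact h4.ne'
    have h5 : ContinuousAt (fun u : E3 => u 0) u := continuous_zero.continuousAt
    have h6 : ContinuousAt (fun u : E3 => ‖y - u‖) u := by fun_prop
    exact (h5.div h6 h2).continuousWithinAt
  exact (h1.integrableOn_compact (isCompact_closedBall c 1)).mono_set Metric.ball_subset_closedBall

private theorem far_rf {p : P2} (y : E3) : ‖rf y - mk 0 p‖ = ‖y - mk 0 p‖ := by
  rw [norm_sub_rev, norm_plane, norm_sub_rev]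

private theorem ker_eq (u y : E3) : u 0 * (1 / ‖u - y‖ - 1 / ‖rf u - y‖) = u 0 / ‖y - u‖ - u 0 / ‖rf y - u‖ := by
  rw [norm_rf_sub' u y, norm_sub_rev u y, norm_sub_rev u (rf y)]
  ring

private theorem K_int {p : P2} {y : E3} (hy : 1 < ‖y - mk 0 p‖) :
    IntegrableOn (fun u : E3 => u 0 * (1 / ‖u - y‖ - 1 / ‖rf u - y‖)) (Metric.ball (mk 0 p) 1) := by
  simp_rw [ker_eq]
  exact (cont_ker hy).sub (cont_ker (by rw [far_rf]; exact hy))

private theorem K_eq {p : P2} {y : E3} (hy : 1 < ‖y - mk 0 p‖) :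
    ∫ u in Metric.ball (mk 0 p) 1, u 0 * (1 / ‖u - y‖ - 1 / ‖rf u - y‖) =
      8 * Real.pi / 15 * (y 0 / ‖y - mk 0 p‖ ^ 3) := by
  have hy' : 1 < ‖rf y - mk 0 p‖ := by rw [far_rf]; exact hy
  have h1 := dip_newton (mk 0 p) y one_pos hy
  have h2 := dip_newton (mk 0 p) (rf y) one_pos hy'
  simp_rw [ker_eq]
  rw [integral_sub (cont_ker hy) (cont_ker hy')]
  simp only [mk_zero, sub_zero] at h1 h2
  rw [h1, h2, rf_zero, far_rf]
  ring

private theorem meas_rf : Measurable rf := by
  unfold rf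
  fun_prop

theorem Fl_pos (h : Cfg γ μ R z ρ σ) (hr : ∃ i, 0 < (R i) 0) : ∃ r : ℝ, 0 < r ∧ ∀ p : P2, r ≤ ‖p‖ → 0 < Fl R z ρ σ p := by
  obtain ⟨r1, hr1, hs⟩ := h.sig_supp
  obtain ⟨r2, hr2, hρs⟩ := h.htf.supp h.hγ h.hμ (fun i => (h.hz i).le)
  obtain ⟨r3, hr3, hR⟩ : ∃ r3 : ℝ, 0 < r3 ∧ ∀ i, ‖R i‖ < r3 := by
    refine ⟨∑ i, ‖R i‖ + 1, by positivity, fun i => ?_⟩
    have h1 : ‖R i‖ ≤ ∑ i, ‖R i‖ := Finset.single_le_sum (f := fun i => ‖R i‖) (fun i _ => norm_nonneg _) (Finset.mem_univ i)
    linarith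
  let r0 : ℝ := max r1 (max r2 r3)
  have h01 : r1 ≤ r0 := le_max_left _ _
  have h02 : r2 ≤ r0 := (le_max_left _ _).trans (le_max_right _ _)
  have h03 : r3 ≤ r0 := (le_max_right _ _).trans (le_max_right _ _)
  refine ⟨r0 + 2, by linarith, fun p hp => ?_⟩
  obtain ⟨c, hc⟩ : ∃ c, c = mk 0 p := ⟨_, rfl⟩
  have hcn : ‖c‖ = ‖p‖ := by
    have h1 := norm_mk_sq 0 p
    rw [← hc] at h1
    have h2 : ‖c‖ ^ 2 = ‖p‖ ^ 2 := by rw [h1]; ring
    exact (pow_left_inj₀ (norm_nonneg _) (norm_nonneg _) two_ne_zero).1 h2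
  have hfar : ∀ y : E3, ‖y‖ < r0 → 2 < ‖y - c‖ := by
    intro y hy
    have h1 : ‖c‖ ≤ ‖y‖ + ‖y - c‖ := by
      have h2 := norm_sub_le y (y - c)
      rw [sub_sub_cancel] at h2
      exact h2
    rw [hcn] at h1
    linarith
  have hbb : ∀ y : E3, r0 ≤ ‖y‖ → bb ρ σ y = 0 := by
    intro y hy
    unfold bb rp
    rw [hs y (h01.trans hy), hρs y (h02.trans hy)]
    simp
  have hbpos : ∀ x : E3, x 0 ≤ 0 → rp ρ x = 0 := by
    intro x hx
    unfold rp
    rw [if_neg (not_lt.2 hx)]
  -- bounded kernel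
  have hker : ∀ y : E3, ‖y‖ < r0 → |y 0 / ‖y - c‖ ^ 3| ≤ r0 := by
    intro y hy
    have h1 := hfar y hy
    have h2 : (1 : ℝ) ≤ ‖y - c‖ ^ 3 := one_le_pow₀ (by linarith)
    rw [abs_div, abs_of_nonneg (show (0 : ℝ) ≤ ‖y - c‖ ^ 3 by positivity)]
    rw [div_le_iff₀ (by linarith)]
    have h3 := abs_zero_le y
    have h4 : 0 < r0 := by linarith
    nlinarith
  have hmk : Measurable fun y : E3 => y 0 / ‖y - c‖ ^ 3 := by fun_prop
  have hint : ∀ f : E3 → ℝ, Integrable f → (∀ y : E3, r0 ≤ ‖y‖ → f y = 0) →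
      Integrable fun y => f y * (y 0 / ‖y - c‖ ^ 3) := by
    intro f hf hf0
    refine (hf.abs.const_mul r0).mono' (hf.aestronglyMeasurable.mul hmk.aestronglyMeasurable) (Eventually.of_forall fun y => ?_)
    rw [Real.norm_eq_abs, abs_mul]
    rcases lt_or_ge ‖y‖ r0 with hy | hy
    · rw [mul_comm]
      exact mul_le_mul_of_nonneg_right (hker y hy) (abs_nonneg _)
    · rw [hf0 y hy]
      simp
  -- the field
  have hFl : Fl R z ρ σ p = ∑ i, zR R z i * ((R i) 0 / ‖R i - c‖ ^ 3) + ∫ y, bb ρ σ y * (y 0 / ‖y - c‖ ^ 3) := by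
    have hz0 : ∀ i, 0 ≤ zR R z i := by
      intro i
      unfold zR
      split_ifs
      · exact (h.hz i).le
      · exact le_refl _
    have a1 : fld (nu R (zR R z)) p = ∑ i, zR R z i * ((R i) 0 / ‖R i - c‖ ^ 3) := by
      unfold fld
      rw [integral_nu hz0]
      refine Finset.sum_congr rfl fun i _ => ?_
      rw [← hc, norm_sub_rev c]
      unfold zR
      split_ifs with hi
      · rw [abs_of_pos hi]
      · rw [zero_mul, zero_mul]
    have a2 : fld (dens σ) p = ∫ y, σ y * (y 0 / ‖y - c‖ ^ 3) := by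
      unfold fld
      rw [integral_dens h.hhalf.meas h.sig_nonneg]
      refine integral_congr_ae (Eventually.of_forall fun y => ?_)
      simp only
      rw [← hc, norm_sub_rev c]
      rcases le_or_gt (y 0) 0 with hy | hy
      · rw [h.hhalf.zero y hy, zero_mul, zero_mul]
      · rw [abs_of_pos hy]
    have hrp0 : ∀ x, 0 ≤ rp ρ x := by
      intro x
      unfold rp
      split_ifs
      · exact h.htf.nonneg h.hγ x
      · exact le_refl _
    have a3 : fld (dens (rp ρ)) p = ∫ y, rp ρ y * (y 0 / ‖y - c‖ ^ 3) := by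
      unfold fld
      rw [integral_dens (measurable_rp h.htf.meas) hrp0]
      refine integral_congr_ae (Eventually.of_forall fun y => ?_)
      simp only
      rw [← hc, norm_sub_rev c]
      rcases le_or_gt (y 0) 0 with hy | hy
      · rw [hbpos y hy, zero_mul, zero_mul]
      · rw [abs_of_pos hy]
    have i2 := hint σ h.hhalf.ld.i1 fun y hy => hs y (h01.trans hy)
    have i3 := hint (rp ρ) (Ld_rp h.htf.ld).i1 fun y hy => by
      unfold rp
      rw [hρs y (h02.trans hy)]
      simp
    unfold Fl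
    rw [a1, a2, a3, add_sub_assoc, ← integral_sub i2 i3]
    congr 1
    refine integral_congr_ae (Eventually.of_forall fun y => ?_)
    simp only [bb]
    ring
  -- the mean
  have hRc : ∀ i, 1 < ‖R i - mk 0 p‖ := by
    intro i
    rw [← hc]
    linarith [hfar (R i) ((hR i).trans_le h03)]
  have hmean : ∫ u in Metric.ball c 1, u 0 * ww R z ρ σ u = 8 * Real.pi / 15 * Fl R z ρ σ p := by
    have b1 : ∀ u : E3, u 0 * ww R z ρ σ u = (∑ i, zR R z i * (u 0 * (1 / ‖u - R i‖ - 1 / ‖rf u - R i‖))) +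
        ∫ y, bb ρ σ y * (u 0 * (1 / ‖u - y‖ - 1 / ‖rf u - y‖)) := by
      intro u
      have c1 : ∫ y, bb ρ σ y * (u 0 * (1 / ‖u - y‖ - 1 / ‖rf u - y‖)) = u 0 * (G (bb ρ σ) u - G (bb ρ σ) (rf u)) := by
        unfold G
        rw [← integral_sub ((bb_ld h).int_div u) ((bb_ld h).int_div (rf u)), ← integral_const_mul]
        refine integral_congr_ae (Eventually.of_forall fun y => ?_)
        simp only
        ring
      have c2 : ∑ i, zR R z i * (u 0 * (1 / ‖u - R i‖ - 1 / ‖rf u - R i‖)) = u 0 * (V R (zR R z) u - V R (zR R z) (rf u)) := by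
        unfold V
        rw [← Finset.sum_sub_distrib, Finset.mul_sum]
        refine Finset.sum_congr rfl fun i _ => ?_
        ring
      rw [c1, c2]
      unfold ww
      ring
    have hF : Integrable (Function.uncurry fun (u y : E3) => bb ρ σ y * (u 0 * (1 / ‖u - y‖ - 1 / ‖rf u - y‖)))
        ((volume.restrict (Metric.ball c 1)).prod volume) := by
      have hfin : IsFiniteMeasure (volume.restrict (Metric.ball c (1 : ℝ)) : Measure E3) :=
        ⟨by rw [Measure.restrict_apply_univ]; exact measure_ball_lt_top⟩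
      have g1 : Integrable (fun q : E3 × E3 => (1 : ℝ) * (2 * |bb ρ σ q.2|))
          ((volume.restrict (Metric.ball c 1)).prod volume) :=
        Integrable.mul_prod (integrable_const (1 : ℝ)) (((bb_ld h).i1.abs).const_mul 2)
      refine g1.mono' ?_ ?_
      · have m1 := bb_meas h
        have m2 := meas_rf
        refine Measurable.aestronglyMeasurable ?_
        unfold Function.uncurry
        fun_prop
      · have g2 : ∀ᵐ q : E3 × E3 ∂((volume.restrict (Metric.ball c 1)).prod volume), q.1 ∈ Metric.ball c 1 :=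
          Measure.quasiMeasurePreserving_fst.ae (ae_restrict_mem measurableSet_ball)
        filter_upwards [g2] with q hq
        rw [Metric.mem_ball, dist_eq_norm] at hq
        unfold Function.uncurry
        rw [Real.norm_eq_abs, abs_mul, one_mul, mul_comm (2 : ℝ)]
        rcases lt_or_ge ‖q.2‖ r0 with hy | hy
        · refine mul_le_mul_of_nonneg_left ?_ (abs_nonneg _)
          have d1 := hfar q.2 hy
          have d2 : 1 ≤ ‖q.1 - q.2‖ := by
            rw [norm_sub_rev]
            linarith [dist_ball (y := q.2) hq.le]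
          have d3 : 1 ≤ ‖rf q.1 - q.2‖ := by
            rw [norm_rf_sub', norm_sub_rev]
            have d4 := dist_ball (y := rf q.2) hq.le
            rw [hc, far_rf, ← hc] at d4
            linarith
          have d5 : |q.1 0| ≤ 1 := by
            have d6 := abs_zero_le (q.1 - c)
            have d7 : (q.1 - c) 0 = q.1 0 := by
              rw [hc]
              simp
            rw [d7] at d6
            linarith
          have d6 : |1 / ‖q.1 - q.2‖ - 1 / ‖rf q.1 - q.2‖| ≤ 2 := by
            have e1 : 1 / ‖q.1 - q.2‖ ≤ 1 := by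
              rw [div_le_one (by linarith)]
              exact d2
            have e2 : 1 / ‖rf q.1 - q.2‖ ≤ 1 := by
              rw [div_le_one (by linarith)]
              exact d3
            have e3 : 0 ≤ 1 / ‖q.1 - q.2‖ := by positivity
            have e4 : 0 ≤ 1 / ‖rf q.1 - q.2‖ := by positivity
            rw [abs_le]
            constructor <;> linarith
          rw [abs_mul]
          nlinarith [abs_nonneg (q.1 0), abs_nonneg (1 / ‖q.1 - q.2‖ - 1 / ‖rf q.1 - q.2‖)]
        · rw [hbb _ hy]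
          simp
    have hsum : ∀ i ∈ (Finset.univ : Finset (Fin k)), Integrable (fun u : E3 => zR R z i * (u 0 * (1 / ‖u - R i‖ - 1 / ‖rf u - R i‖)))
        (volume.restrict (Metric.ball c 1)) := by
      intro i _
      rw [hc]
      exact (K_int (hRc i)).const_mul _
    have hl : Integrable (fun u : E3 => ∫ y, bb ρ σ y * (u 0 * (1 / ‖u - y‖ - 1 / ‖rf u - y‖)))
        (volume.restrict (Metric.ball c 1)) := hF.integral_prod_left
    simp_rw [b1]
    rw [integral_add (integrable_finsetSum _ hsum) hl, integral_finsetSum _ hsum,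
      integral_integral_swap hF, hFl, mul_add, Finset.mul_sum, ← integral_const_mul]
    congr 1
    · refine Finset.sum_congr rfl fun i _ => ?_
      rw [integral_const_mul, hc, K_eq (hRc i)]
      ring
    · refine integral_congr_ae (Eventually.of_forall fun y => ?_)
      simp only
      rw [integral_const_mul]
      rcases lt_or_ge ‖y‖ r0 with hy | hy
      · have d1 := hfar y hy
        rw [hc] at d1 ⊢
        rw [K_eq (by linarith)]
        ring
      · rw [hbb _ hy]
        simp
  -- positivity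
  have hne : ∀ u : E3, ‖u - c‖ ≤ 1 → ∀ i, u ≠ R i ∧ u ≠ rf (R i) := by
    intro u hu i
    have h1 : r0 < ‖u‖ := by
      have h2 : ‖c‖ ≤ ‖u‖ + ‖u - c‖ := by
        have h2 := norm_sub_le u (u - c)
        rw [sub_sub_cancel] at h2
        exact h2
      rw [hcn] at h2
      linarith
    have h2 := hR i
    constructor
    · rintro rfl
      linarith
    · intro h3
      rw [h3, norm_rf] at h1
      linarith
  have hpos : ∀ u : E3, ‖u - c‖ ≤ 1 → u 0 ≠ 0 → 0 < u 0 * ww R z ρ σ u := by
    intro u hu hu0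
    rcases lt_or_gt_of_ne hu0 with h1 | h1
    · have h2 : 0 < ww R z ρ σ (rf u) := by
        refine ww_pos h hr (by rw [rf_zero]; linarith) fun i h3 => ?_
        have h4 : u = rf (R i) := by rw [← h3, rf_rf]
        exact (hne u hu i).2 h4
      rw [ww_odd] at h2
      nlinarith
    · exact mul_pos h1 (ww_pos h hr h1 fun i => (hne u hu i).1)
  have hcont : IntegrableOn (fun u : E3 => u 0 * ww R z ρ σ u) (Metric.ball c 1) := by
    have h1 : ContinuousOn (fun u : E3 => u 0 * ww R z ρ σ u) (Metric.closedBall c 1) := by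
      intro u hu
      rw [Metric.mem_closedBall, dist_eq_norm] at hu
      have h2 : ContinuousAt (ww R z ρ σ) u := ww_cont h fun i _ => hne u hu i
      have h3 : ContinuousAt (fun u : E3 => u 0) u := continuous_zero.continuousAt
      exact (h3.mul h2).continuousWithinAt
    exact (h1.integrableOn_compact (isCompact_closedBall c 1)).mono_set Metric.ball_subset_closedBall
  have hge : 0 ≤ᵐ[volume.restrict (Metric.ball c 1)] fun u : E3 => u 0 * ww R z ρ σ u := by
    filter_upwards [ae_restrict_mem measurableSet_ball] with u hu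
    rw [Metric.mem_ball, dist_eq_norm] at hu
    rcases eq_or_ne (u 0) 0 with h0 | h0
    · rw [Pi.zero_apply, h0, zero_mul]
    · exact (hpos u hu.le h0).le
  have hI : 0 < ∫ u in Metric.ball c 1, u 0 * ww R z ρ σ u := by
    rw [setIntegral_pos_iff_support_of_nonneg_ae hge hcont]
    have h1 : Metric.ball c 1 \ {x : E3 | x 0 = 0} ⊆ (Function.support fun u : E3 => u 0 * ww R z ρ σ u) ∩ Metric.ball c 1 := by
      rintro u ⟨hu, hu0⟩
      refine ⟨?_, hu⟩
      rw [Metric.mem_ball, dist_eq_norm] at hu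
      exact (hpos u hu.le hu0).ne'
    refine lt_of_lt_of_le ?_ (measure_mono h1)
    rw [measure_sdiff_null plane_null]
    exact Metric.measure_ball_pos _ _ one_pos
  rw [hmean] at hI
  have hpi := Real.pi_pos
  exact (mul_pos_iff_of_pos_left (by positivity)).1 hI

end Pool.Agent.H50.TM
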