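import Pool.Agent.H50.TM.Defs

/-!
# Module Geo: coordinates, the reflection `rf`, the slice map `mk` (elementary)

`rf x = x - 2 x₀ e0`, `mk t p = !₂[t, p 0, p 1]`, `pr x = !₂[x 1, x 2]`. All statements are coordinate computations
(`EuclideanSpace.norm_eq`, `Fin.sum_univ_three`, `ext i; fin_cases i`).
* `norm_rf_sub`: `rf` is a linear isometry; `norm_rf_sub'`: apply it to `rf x - y`.
* `rf_dist_le`: `‖rf x - y‖² = ‖x - y‖² + 4 x₀ y₀`.
* `green_eq`: `1/a - 1/b = (b² - a²)/(a b (a + b))`, `a = ‖x-y‖`, `b = ‖rf x - y‖`.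
-/

set_option autoImplicit false

open MeasureTheory Set Filter Topology
open scoped ENNReal NNReal

namespace Pool.Agent.H50.TM

open Pool.Agent.H23.TF

@[simp] theorem e0_zero : e0 0 = 1 := by simp [e0]

theorem norm_e0 : ‖e0‖ = 1 := by simp [e0]

@[simp] theorem rf_zero (x : E3) : (rf x) 0 = -(x 0) := by
  simp [rf, e0]
  ring

@[simp] theorem rf_one (x : E3) : (rf x) 1 = x 1 := by
  simp [rf, e0]

@[simp] theorem rf_two (x : E3) : (rf x) 2 = x 2 := by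
  simp [rf, e0]

@[simp] theorem rf_rf (x : E3) : rf (rf x) = x := by
  ext i
  fin_cases i
  · simp
  · simp
  · simp

@[simp] theorem mk_zero (t : ℝ) (p : P2) : (mk t p) 0 = t := by simp [mk]

@[simp] theorem mk_one (t : ℝ) (p : P2) : (mk t p) 1 = p 0 := by simp [mk]

@[simp] theorem mk_two (t : ℝ) (p : P2) : (mk t p) 2 = p 1 := by simp [mk]

@[simp] theorem pr_mk (t : ℝ) (p : P2) : pr (mk t p) = p := by
  ext i
  fin_cases i
  · simp [pr]
  · simp [pr]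

@[simp] theorem mk_pr (x : E3) : mk (x 0) (pr x) = x := by
  ext i
  fin_cases i
  · simp
  · simp [pr]
  · simp [pr]

@[simp] theorem rf_mk (t : ℝ) (p : P2) : rf (mk t p) = mk (-t) p := by
  ext i
  fin_cases i
  · simp
  · simp
  · simp

theorem rf_sub (x y : E3) : rf x - rf y = rf (x - y) := by
  ext i
  fin_cases i
  · simp
    ring
  · simp
  · simp

private theorem norm_sq_three (x : E3) : ‖x‖ ^ 2 = x 0 ^ 2 + x 1 ^ 2 + x 2 ^ 2 := by
  rw [EuclideanSpace.norm_sq_eq, Fin.sum_univ_three]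
  simp

private theorem norm_sq_two (p : P2) : ‖p‖ ^ 2 = p 0 ^ 2 + p 1 ^ 2 := by
  rw [EuclideanSpace.norm_sq_eq, Fin.sum_univ_two]
  simp

private theorem eq_of_sq {a b : ℝ} (ha : 0 ≤ a) (hb : 0 ≤ b) (h : a ^ 2 = b ^ 2) : a = b :=
  (pow_left_inj₀ ha hb two_ne_zero).1 h

theorem norm_rf (x : E3) : ‖rf x‖ = ‖x‖ := by
  apply eq_of_sq (norm_nonneg _) (norm_nonneg _)
  rw [norm_sq_three, norm_sq_three]
  simp

theorem norm_rf_sub (x y : E3) : ‖rf x - rf y‖ = ‖x - y‖ := by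
  rw [rf_sub, norm_rf]

theorem norm_rf_sub' (x y : E3) : ‖rf x - y‖ = ‖x - rf y‖ := by
  rw [← norm_rf_sub (rf x) y, rf_rf]

theorem norm_plane (p : P2) (y : E3) : ‖mk 0 p - rf y‖ = ‖mk 0 p - y‖ := by
  rw [← norm_rf_sub', rf_mk, neg_zero]

theorem norm_mk_sub_sq (s t : ℝ) (p q : P2) : ‖mk s p - mk t q‖ ^ 2 = (s - t) ^ 2 + ‖p - q‖ ^ 2 := by
  rw [norm_sq_three, norm_sq_two]
  simp
  ring

theorem norm_mk_sq (s : ℝ) (p : P2) : ‖mk s p‖ ^ 2 = s ^ 2 + ‖p‖ ^ 2 := by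
  rw [norm_sq_three, norm_sq_two]
  simp
  ring

theorem abs_zero_le (x : E3) : |x 0| ≤ ‖x‖ := by
  apply abs_le_of_sq_le_sq _ (norm_nonneg _)
  rw [norm_sq_three]
  nlinarith [sq_nonneg (x 1), sq_nonneg (x 2)]

theorem norm_pr_le (x : E3) : ‖pr x‖ ≤ ‖x‖ := by
  apply le_of_sq_le_sq _ (norm_nonneg _)
  rw [norm_sq_three, norm_sq_two]
  simp [pr]
  nlinarith [sq_nonneg (x 0)]

theorem norm_rf_sub_sq (x y : E3) : ‖rf x - y‖ ^ 2 = ‖x - y‖ ^ 2 + 4 * x 0 * y 0 := by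
  rw [norm_sq_three, norm_sq_three]
  simp
  ring

theorem rf_dist_le {x y : E3} (hx : 0 ≤ x 0) (hy : 0 ≤ y 0) : ‖x - y‖ ≤ ‖rf x - y‖ := by
  apply le_of_sq_le_sq _ (norm_nonneg _)
  rw [norm_rf_sub_sq]
  nlinarith [mul_nonneg hx hy]

theorem add_le_rf_dist {x y : E3} (hx : 0 ≤ x 0) (hy : 0 ≤ y 0) : x 0 + y 0 ≤ ‖rf x - y‖ := by
  apply le_of_sq_le_sq _ (norm_nonneg _)
  rw [norm_sq_three]
  simp
  nlinarith [sq_nonneg (x 1 - y 1), sq_nonneg (x 2 - y 2)]

theorem green_eq {x y : E3} (h1 : x ≠ y) (h2 : rf x ≠ y) :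
    1 / ‖x - y‖ - 1 / ‖rf x - y‖ =
      4 * x 0 * y 0 / (‖x - y‖ * ‖rf x - y‖ * (‖x - y‖ + ‖rf x - y‖)) := by
  have ha : 0 < ‖x - y‖ := norm_pos_iff.2 (sub_ne_zero.2 h1)
  have hb : 0 < ‖rf x - y‖ := norm_pos_iff.2 (sub_ne_zero.2 h2)
  have hk := norm_rf_sub_sq x y
  have he : 4 * x 0 * y 0 = ‖rf x - y‖ ^ 2 - ‖x - y‖ ^ 2 := by rw [hk]; ring
  rw [he]
  generalize ‖x - y‖ = a at ha
  generalize ‖rf x - y‖ = b at hb
  have hab : a + b ≠ 0 := by positivity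
  field_simp
  ring

@[simp] theorem add_e0_zero (x : E3) (e : ℝ) : (x + e • e0) 0 = x 0 + e := by simp

@[simp] theorem sub_e0_zero (x : E3) (e : ℝ) : (x - e • e0) 0 = x 0 - e := by simp

@[simp] theorem pr_add_e0 (x : E3) (e : ℝ) : pr (x + e • e0) = pr x := by
  ext i
  fin_cases i
  · simp [pr, e0]
  · simp [pr, e0]

@[simp] theorem pr_sub_e0 (x : E3) (e : ℝ) : pr (x - e • e0) = pr x := by
  ext i
  fin_cases i
  · simp [pr, e0]
  · simp [pr, e0]

@[simp] theorem mk_add_e0 (t e : ℝ) (p : P2) : mk t p + e • e0 = mk (t + e) p := by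
  ext i
  fin_cases i
  · simp
  · simp [e0]
  · simp [e0]

@[simp] theorem mk_sub_e0 (t e : ℝ) (p : P2) : mk t p - e • e0 = mk (t - e) p := by
  ext i
  fin_cases i
  · simp
  · simp [e0]
  · simp [e0]

theorem continuous_zero : Continuous (fun x : E3 => x 0) := by fun_prop

@[fun_prop] theorem continuous_rf : Continuous rf := by
  unfold rf
  fun_prop

@[fun_prop] theorem continuous_pr : Continuous pr := by
  refine (PiLp.continuous_toLp 2 _).comp ?_
  refine continuous_pi ?_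
  intro i
  fin_cases i
  · simp
    fun_prop
  · simp
    fun_prop

theorem continuous_mk : Continuous (fun q : ℝ × P2 => mk q.1 q.2) := by
  refine (PiLp.continuous_toLp 2 _).comp ?_
  refine continuous_pi ?_
  intro i
  fin_cases i
  · simp
    fun_prop
  · simp
    fun_prop
  · simp
    fun_prop

theorem isOpen_Hp : IsOpen Hp := isOpen_lt continuous_const continuous_zero

theorem convex_Hp : Convex ℝ Hp := by
  intro x hx y hy a b ha hb hab
  have hx' : 0 < x 0 := hx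
  have hy' : 0 < y 0 := hy
  show 0 < (a • x + b • y) 0
  have e : (a • x + b • y) 0 = a * x 0 + b * y 0 := by simp
  rw [e]
  rcases ha.eq_or_lt with h | h
  · rw [← h] at hab ⊢
    have hb1 : b = 1 := by linarith
    rw [hb1]
    linarith
  · nlinarith [mul_pos h hx', mul_nonneg hb hy'.le]

end Pool.Agent.H50.TM
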