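import Pool.Agent.H50.TM.BrEq

/-!
# Module IExp: `(I_e(m, n) - I_0(m, n))/e → -⟨m, n⟩` as `e ↓ 0`

`I_e(m, n) = ∬ dm(x) dn(y)/‖x - y - e e0‖`. Put `a = y - x`, `a₀ ≥ 0` (`x₀ ≤ 0 < y₀` a.e.); `‖a + e e0‖ ≥ ‖a‖ > 0`, so
`|1/‖a + e e0‖ - 1/‖a‖| ≤ e/(‖a‖ ‖a+e e0‖) ≤ e/‖a‖²` and the quotient by `e` tends to `-a₀/‖a‖³`. Dominated convergence on `m.prod n` with bound `‖x-y‖^(-2)`
(`inv2_prod`). The integrals `I_e` are integrals over `m.prod n` (`integral_prod`; `1/‖x-y-e e0‖ ≤ 1/‖x-y‖ ≤ 1 + ‖x-y‖^(-2)` is integrable).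
-/

set_option autoImplicit false

open MeasureTheory Set Filter Topology
open scoped ENNReal NNReal

namespace Pool.Agent.H50.TM

open Pool.Agent.H23.TF

variable {m n : Measure E3}

private lemma iexp_norm (a : E3) (e : ℝ) :
    ‖a + e • e0‖ ^ 2 = ‖a‖ ^ 2 + 2 * a 0 * e + e ^ 2 := by
  rw [EuclideanSpace.norm_sq_eq, EuclideanSpace.norm_sq_eq]
  simp [Fin.sum_univ_three, e0]
  ring

private lemma iexp_rw (x y : E3) (e : ℝ) : ‖x - (y + e • e0)‖ = ‖(y - x) + e • e0‖ := by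
  rw [← norm_neg]
  congr 1
  abel

private lemma iexp_rw0 (x y : E3) : ‖x - y‖ = ‖y - x‖ := norm_sub_rev x y

private lemma iexp_ge {a : E3} (ha : 0 < a 0) {e : ℝ} (he : 0 ≤ e) : ‖a‖ ≤ ‖a + e • e0‖ := by
  have h := iexp_norm a e
  have h2 : ‖a‖ ^ 2 ≤ ‖a + e • e0‖ ^ 2 := by
    rw [h]; nlinarith [mul_nonneg ha.le he, sq_nonneg e]
  exact le_of_sq_le_sq h2 (norm_nonneg _)

private lemma iexp_pos {a : E3} (ha : 0 < a 0) : 0 < ‖a‖ := by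
  rw [norm_pos_iff]
  rintro rfl
  simp at ha

private lemma e0_norm : ‖e0‖ = 1 := by simp [e0]

private lemma iexp_bd {a : E3} (ha : 0 < a 0) {e : ℝ} (he : 0 ≤ e) :
    |1 / ‖a + e • e0‖ - 1 / ‖a‖| ≤ e * (‖a‖ ^ 2)⁻¹ := by
  have h1 := iexp_pos ha
  have h2 := iexp_ge ha he
  have h3 : 0 < ‖a + e • e0‖ := lt_of_lt_of_le h1 h2
  have h4 : ‖a + e • e0‖ ≤ ‖a‖ + e := by
    refine (norm_add_le _ _).trans ?_
    rw [norm_smul, e0_norm, mul_one, Real.norm_of_nonneg he]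
  have h5 : 1 / ‖a + e • e0‖ - 1 / ‖a‖ = -((‖a + e • e0‖ - ‖a‖) * (‖a + e • e0‖ * ‖a‖)⁻¹) := by
    field_simp
    ring
  rw [h5, abs_neg, abs_of_nonneg (mul_nonneg (by linarith) (by positivity))]
  have h6 : (‖a + e • e0‖ * ‖a‖)⁻¹ ≤ (‖a‖ ^ 2)⁻¹ := by
    apply inv_anti₀ (by positivity)
    rw [sq]
    exact mul_le_mul_of_nonneg_right h2 h1.le
  exact mul_le_mul (by linarith) h6 (by positivity) he

private lemma iexp_deriv {a : E3} (ha : 0 < a 0) :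
    HasDerivAt (fun e : ℝ => 1 / ‖a + e • e0‖) (-(a 0 / ‖a‖ ^ 3)) 0 := by
  have h1 := iexp_pos ha
  have hg : HasDerivAt (fun e : ℝ => ‖a‖ ^ 2 + 2 * a 0 * e + e ^ 2) (2 * a 0) 0 := by
    have h1 := ((hasDerivAt_id (0 : ℝ)).const_mul (2 * a 0)).const_add (‖a‖ ^ 2)
    have h2 := h1.add (hasDerivAt_pow 2 (0 : ℝ))
    have h3 : 2 * a 0 * 1 + ((2 : ℕ) : ℝ) * (0 : ℝ) ^ (2 - 1) = 2 * a 0 := by simp
    rw [h3] at h2
    exact h2
  have hg0 : (‖a‖ ^ 2 + 2 * a 0 * (0 : ℝ) + (0 : ℝ) ^ 2) ≠ 0 := by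
    simp only [mul_zero, add_zero, ne_eq, OfNat.ofNat_ne_zero, not_false_eq_true, zero_pow]
    positivity
  have hs := hg.sqrt hg0
  have hs0 : Real.sqrt (‖a‖ ^ 2 + 2 * a 0 * (0 : ℝ) + (0 : ℝ) ^ 2) = ‖a‖ := by
    simp [Real.sqrt_sq h1.le]
  have hi := hs.inv (by rw [hs0]; exact h1.ne')
  have hfun : (fun e : ℝ => 1 / ‖a + e • e0‖)
      = (fun e : ℝ => Real.sqrt (‖a‖ ^ 2 + 2 * a 0 * e + e ^ 2))⁻¹ := by
    funext e
    rw [Pi.inv_apply, ← iexp_norm, Real.sqrt_sq (norm_nonneg _), one_div]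
  rw [hfun]
  have hv : -(2 * a 0 / (2 * √(‖a‖ ^ 2 + 2 * a 0 * (0 : ℝ) + (0 : ℝ) ^ 2)))
      / √(‖a‖ ^ 2 + 2 * a 0 * (0 : ℝ) + (0 : ℝ) ^ 2) ^ 2 = -(a 0 / ‖a‖ ^ 3) := by
    rw [hs0]
    field_simp
  rw [hv] at hi
  exact hi

private lemma iexp_lim {a : E3} (ha : 0 < a 0) :
    Tendsto (fun e : ℝ => (1 / ‖a + e • e0‖ - 1 / ‖a‖) / e) (𝓝[>] 0) (𝓝 (-(a 0 / ‖a‖ ^ 3))) := by
  have h := (hasDerivAt_iff_tendsto_slope_zero.1 (iexp_deriv ha)).mono_left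
    (nhdsWithin_mono (0 : ℝ) (fun x (hx : 0 < x) => (ne_of_gt hx : x ≠ 0)))
  refine h.congr (fun e => ?_)
  simp only [zero_add, zero_smul, add_zero, smul_eq_mul]
  exact (div_eq_inv_mul _ _).symm

private lemma iexp_ae (hm0 : m Hp = 0) (hn0 : n {x | x 0 ≤ 0} = 0) [SFinite n] [SFinite m] :
    ∀ᵐ q : E3 × E3 ∂(m.prod n), 0 < (q.2 - q.1) 0 := by
  have h1 : ∀ᵐ x ∂m, x 0 ≤ 0 := by
    rw [ae_iff]
    convert hm0 using 2
    ext x; simp [Hp]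
  have h2 : ∀ᵐ y ∂n, 0 < y 0 := by
    rw [ae_iff]
    convert hn0 using 2
    ext x; simp
  have h3 := (Measure.quasiMeasurePreserving_fst (μ := m) (ν := n)).ae h1
  have h4 := (Measure.quasiMeasurePreserving_snd (μ := m) (ν := n)).ae h2
  filter_upwards [h3, h4] with q h5 h6
  simp only [PiLp.sub_apply]
  linarith

private lemma iexp_meas (e : ℝ) :
    Measurable (fun q : E3 × E3 => 1 / ‖q.1 - (q.2 + e • e0)‖) := by
  have : Measurable (fun q : E3 × E3 => ‖q.1 - (q.2 + e • e0)‖) := by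
    apply Continuous.measurable
    fun_prop
  exact measurable_const.div this

theorem Ie_lim (hm : Reg m) (hn : Reg n) (hm0 : m Hp = 0) (hn0 : n {x | x 0 ≤ 0} = 0) :
    Tendsto (fun e : ℝ => (Ie e m n - Ie 0 m n) / e) (𝓝[>] 0) (𝓝 (-br m n)) := by
  have : IsFiniteMeasure m := ⟨hm.fin⟩
  have : IsFiniteMeasure n := ⟨hn.fin⟩
  have hae := iexp_ae (m := m) (n := n) hm0 hn0
  have hI2 := inv2_prod hm hn hm0 hn0
  have hint : ∀ e : ℝ, 0 ≤ e →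
      Integrable (fun q : E3 × E3 => 1 / ‖q.1 - (q.2 + e • e0)‖) (m.prod n) := by
    intro e he
    have hb : Integrable (fun q : E3 × E3 => 1 + (‖q.1 - q.2‖ ^ 2)⁻¹) (m.prod n) :=
      (integrable_const (1 : ℝ)).add hI2
    refine hb.mono' (iexp_meas e).aestronglyMeasurable ?_
    filter_upwards [hae] with q hq
    have h1 := iexp_pos hq
    have h2 := iexp_ge hq he
    rw [iexp_rw, iexp_rw0 q.1 q.2, Real.norm_of_nonneg (by positivity)]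
    have h3 : 1 / ‖(q.2 - q.1) + e • e0‖ ≤ 1 / ‖q.2 - q.1‖ := one_div_le_one_div_of_le h1 h2
    refine h3.trans ?_
    rw [one_div, ← inv_pow]
    nlinarith [sq_nonneg (‖q.2 - q.1‖⁻¹ - 1), inv_nonneg.2 h1.le]
  have hIe : ∀ e : ℝ, 0 ≤ e → Ie e m n = ∫ q : E3 × E3, 1 / ‖q.1 - (q.2 + e • e0)‖ ∂(m.prod n) := by
    intro e he
    rw [integral_prod _ (hint e he)]
    rfl
  have hbr : -br m n = ∫ q : E3 × E3, -((q.2 0 - q.1 0) / ‖q.1 - q.2‖ ^ 3) ∂(m.prod n) := by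
    rw [integral_neg, integral_prod _ (br_int hm hn hm0 hn0)]
    rfl
  have hq : ∀ e : ℝ, 0 < e → (Ie e m n - Ie 0 m n) / e
      = ∫ q : E3 × E3, (1 / ‖q.1 - (q.2 + e • e0)‖ - 1 / ‖q.1 - (q.2 + (0 : ℝ) • e0)‖) / e
        ∂(m.prod n) := by
    intro e he
    rw [hIe e he.le, hIe 0 le_rfl, ← integral_sub (hint e he.le) (hint 0 le_rfl), integral_div]
  rw [hbr]
  have key : Tendsto (fun e : ℝ => ∫ q : E3 × E3,
      (1 / ‖q.1 - (q.2 + e • e0)‖ - 1 / ‖q.1 - (q.2 + (0 : ℝ) • e0)‖) / e ∂(m.prod n)) (𝓝[>] 0)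
      (𝓝 (∫ q : E3 × E3, -((q.2 0 - q.1 0) / ‖q.1 - q.2‖ ^ 3) ∂(m.prod n))) := by
    refine tendsto_integral_filter_of_dominated_convergence
      (fun q : E3 × E3 => (‖q.1 - q.2‖ ^ 2)⁻¹) ?_ ?_ hI2 ?_
    · exact Eventually.of_forall (fun e =>
        (((iexp_meas e).sub (iexp_meas 0)).div_const e).aestronglyMeasurable)
    · filter_upwards [self_mem_nhdsWithin] with e he
      have he' : 0 < e := he
      filter_upwards [hae] with q hq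
      rw [iexp_rw, iexp_rw, iexp_rw0 q.1 q.2, zero_smul, add_zero, norm_div, Real.norm_eq_abs,
        Real.norm_of_nonneg he'.le, div_le_iff₀ he', mul_comm]
      exact iexp_bd hq he'.le
    · filter_upwards [hae] with q hq
      have h := iexp_lim hq
      have hc : (q.2 - q.1) 0 = q.2 0 - q.1 0 := by simp
      rw [hc] at h
      rw [iexp_rw0 q.1 q.2]
      refine h.congr (fun e => ?_)
      rw [iexp_rw, iexp_rw, zero_smul, add_zero]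
  refine key.congr' ?_
  filter_upwards [self_mem_nhdsWithin] with e he
  exact (hq e he).symm

end Pool.Agent.H50.TM
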