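import Pool.Agent.H50.TM.RPmid
import Pool.Agent.H50.TM.TfC
import Pool.Agent.H50.TM.Dini

/-!
# Module SymC: convexity for mirror images and for two equal nuclei

* `conv_sym`: `mid_convex` with `en_mid`; continuity from `En_cont`: for `d > c` all `(M i) 0 + d > 0`, `sym M d` is injective (`M` injective; left and right parts are on
  different sides), `‖sym M d' i - sym M d i‖ = |d' - d|`.
* `diat`: `D = ‖R 0 - R 1‖ > 0`. For `l > 0` there is an isometry (linear isometry equivalence `L` with `L (R 1 - R 0) = D e0`, then a translation) mapping `l R 0` to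
  `-(l D/2) e0` and `l R 1` to `(l D/2) e0`: `L (l R i) + b` with `b = -(l/2) L (R 0 + R 1)`. So `En γ (l • R) z N = En γ (sym (fun _ : Fin 1 => 0) (l D/2)) (Fin.append ..) N`
  (`En_iso`), and `l ↦ l D/2` is linear: `conv_sym` with `k = 1`, `M = 0`, `c = 0` (`Fin (1+1) = Fin 2`).
-/

set_option autoImplicit false

open MeasureTheory Set Filter Topology
open scoped ENNReal NNReal

namespace Pool.Agent.H50.TM

open Pool.Agent.H23.TF

variable {γ : ℝ} {k : ℕ} {M : Fin k → E3} {z : Fin k → ℝ}

private theorem sc_inj (hM : Function.Injective M) {d : ℝ} (hd : ∀ i, 0 < (M i) 0 + d) :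
    Function.Injective (sym M d) := by
  intro i
  refine Fin.addCases (fun i => ?_) (fun i => ?_) i
  · intro j
    refine Fin.addCases (fun j => ?_) (fun j => ?_) j
    · intro h
      unfold sym at h
      rw [Fin.append_left, Fin.append_left] at h
      have h2 := congrArg rf h
      rw [rf_rf, rf_rf] at h2
      have h3 : M i = M j := add_right_cancel h2
      rw [hM h3]
    · intro h
      exfalso
      unfold sym at h
      rw [Fin.append_left, Fin.append_right] at h
      have h2 := congrArg (fun x : E3 => x 0) h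
      simp only [rf_zero, add_e0_zero] at h2
      linarith [hd i, hd j]
  · intro j
    refine Fin.addCases (fun j => ?_) (fun j => ?_) j
    · intro h
      exfalso
      unfold sym at h
      rw [Fin.append_left, Fin.append_right] at h
      have h2 := congrArg (fun x : E3 => x 0) h
      simp only [rf_zero, add_e0_zero] at h2
      linarith [hd i, hd j]
    · intro h
      unfold sym at h
      rw [Fin.append_right, Fin.append_right] at h
      have h3 : M i = M j := add_right_cancel h
      rw [hM h3]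

private theorem sc_dist (M : Fin k → E3) (d d' : ℝ) (i : Fin (k + k)) :
    ‖sym M d' i - sym M d i‖ = |d' - d| := by
  refine Fin.addCases (fun i => ?_) (fun i => ?_) i
  · unfold sym
    rw [Fin.append_left, Fin.append_left]
    have h : rf (M i + d' • e0) - rf (M i + d • e0) = (-(d' - d)) • e0 := by
      unfold rf
      rw [add_e0_zero, add_e0_zero]
      module
    rw [h, norm_smul, norm_e0, mul_one, Real.norm_eq_abs, abs_neg]
  · unfold sym
    rw [Fin.append_right, Fin.append_right]
    have h : (M i + d' • e0) - (M i + d • e0) = (d' - d) • e0 := by module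
    rw [h, norm_smul, norm_e0, mul_one, Real.norm_eq_abs]

private theorem sc_nn {z : Fin k → ℝ} (hz : ∀ i, 0 ≤ z i) : ∀ i, 0 ≤ Fin.append z z i := by
  intro i
  refine Fin.addCases (fun i => ?_) (fun i => ?_) i
  · rw [Fin.append_left]; exact hz i
  · rw [Fin.append_right]; exact hz i

theorem conv_sym (hγ : 0 < γ) (hM : Function.Injective M) (hz : ∀ i, 0 ≤ z i) {c : ℝ} (hc : ∀ i, 0 ≤ (M i) 0 + c)
    {N : ℝ} (hN : 0 ≤ N) : ConvexOn ℝ (Ioi c) (fun d : ℝ => En γ (sym M d) (Fin.append z z) N) := by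
  have hpos : ∀ d : ℝ, c < d → ∀ i, 0 < (M i) 0 + d := fun d hd i => by
    linarith [hc i]
  refine mid_convex ?_ ?_
  · intro d hd
    refine ContinuousAt.continuousWithinAt ?_
    rw [Metric.continuousAt_iff]
    intro ε hε
    obtain ⟨δ, hδ, h⟩ := En_cont hγ (sc_inj hM (hpos d hd)) (sc_nn hz) hN (half_pos hε)
    refine ⟨δ, hδ, fun d' hd' => ?_⟩
    rw [Real.dist_eq] at hd' ⊢
    refine lt_of_le_of_lt (h (sym M d') fun i => ?_) (half_lt_self hε)
    rw [sc_dist]
    exact hd'
  · intro a b ha hb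
    exact en_mid hγ M hz (hpos a ha) (hpos b hb) hN

private theorem sc_iso {n : E3} (hn : ‖n‖ = 1) : ∃ L : E3 ≃ₗᵢ[ℝ] E3, L n = e0 := by
  have h0 : ‖e0‖ = 1 := norm_e0
  exact ⟨(Submodule.span ℝ {n - e0})ᗮ.reflection, Submodule.reflection_sub (by rw [hn, h0])⟩

theorem diat (hγ : 0 < γ) {R : Fin 2 → E3} (hR : R 0 ≠ R 1) {q : ℝ} (hq : 0 ≤ q) {N : ℝ} (hN : 0 ≤ N) :
    ConvexOn ℝ (Ioi 0) (fun l : ℝ => En γ (fun i => l • R i) (fun _ => q) N) := by
  have hne : R 1 - R 0 ≠ 0 := sub_ne_zero.mpr (Ne.symm hR)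
  set D : ℝ := ‖R 1 - R 0‖ with hD
  have hD0 : 0 < D := norm_pos_iff.mpr hne
  obtain ⟨L, hL⟩ := sc_iso (n := D⁻¹ • (R 1 - R 0)) (by
    rw [norm_smul, norm_inv, Real.norm_eq_abs, abs_of_pos hD0, ← hD]
    exact inv_mul_cancel₀ hD0.ne')
  have hL' : L (R 1) - L (R 0) = D • e0 := by
    rw [map_smul, map_sub] at hL
    rw [← hL, smul_smul, mul_inv_cancel₀ hD0.ne', one_smul]
  have key : ∀ l : ℝ, En γ (fun i => l • R i) (fun _ => q) N =
      En γ (sym (fun _ : Fin 1 => (0 : E3)) (l * (D / 2))) (Fin.append (fun _ => q) (fun _ => q)) N := by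
    intro l
    rw [← En_iso γ (fun i => l • R i) (fun _ => q) L (-((l / 2) • (L (R 0) + L (R 1)))) N]
    have e1 : (fun i => L (l • R i) + -((l / 2) • (L (R 0) + L (R 1)))) =
        sym (fun _ : Fin 1 => (0 : E3)) (l * (D / 2)) := by
      funext i
      fin_cases i
      · show L (l • R 0) + -((l / 2) • (L (R 0) + L (R 1))) = rf (0 + (l * (D / 2)) • e0)
        have h1 : L (R 1) = L (R 0) + D • e0 := by rw [← hL']; abel
        rw [map_smul, h1]
        unfold rf
        rw [add_e0_zero]
        have h00 : (0 : E3) 0 = 0 := rfl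
        rw [h00]
        module
      · show L (l • R 1) + -((l / 2) • (L (R 0) + L (R 1))) = 0 + (l * (D / 2)) • e0
        have h1 : L (R 1) = L (R 0) + D • e0 := by rw [← hL']; abel
        rw [map_smul, h1]
        module
    have e2 : (Fin.append (fun _ : Fin 1 => q) (fun _ : Fin 1 => q) : Fin (1 + 1) → ℝ) = fun _ => q := by
      funext i
      fin_cases i <;> rfl
    rw [e1, e2]
  have hconv := conv_sym (M := fun _ : Fin 1 => (0 : E3)) (z := fun _ => q) hγ
    (fun i j _ => Subsingleton.elim i j) (fun _ => hq) (c := 0) (fun _ => by simp) hN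
  refine ⟨convex_Ioi 0, fun x hx y hy a b ha hb hab => ?_⟩
  simp only [key]
  have hD2 : 0 < D / 2 := half_pos hD0
  have hx0 : (0 : ℝ) < x := hx
  have hy0 : (0 : ℝ) < y := hy
  have h1 : x * (D / 2) ∈ Ioi (0 : ℝ) := mul_pos hx0 hD2
  have h2 : y * (D / 2) ∈ Ioi (0 : ℝ) := mul_pos hy0 hD2
  have h3 := hconv.2 h1 h2 ha hb hab
  have e3 : (a • x + b • y) * (D / 2) = a • (x * (D / 2)) + b • (y * (D / 2)) := by
    simp only [smul_eq_mul]
    ring
  rw [e3]
  exact h3

end Pool.Agent.H50.TM
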