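import Pool.Agent.H50.TM.Sep
import Pool.Agent.H50.TM.SymC
import Pool.Agent.H50.TM.SupC

/-!
# MP_037fc8_mp : the main theorems
-/

set_option autoImplicit false

open MeasureTheory Set Filter Topology

namespace Pool.Agent.H50.TM

open Pool.Agent.H23.TF

theorem inf_real {γ : ℝ} (hγ : 0 < γ) {k : ℕ} (R : Fin k → E3) {z : Fin k → ℝ} (hz : ∀ i, 0 < z i) {N : ℝ} (hN : 0 ≤ N) :
    {e | ∃ ρ, Density N ρ ∧ e = tf γ R z ρ}.Nonempty ∧ BddBelow {e | ∃ ρ, Density N ρ ∧ e = tf γ R z ρ} := by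
  refine ⟨?_, tf_bdd hγ R (fun i => (hz i).le) N⟩
  obtain ⟨ρ, hρ⟩ := exists_density hN
  exact ⟨_, ρ, hρ, rfl⟩

/-- two equal nuclei -/
theorem diat_two {γ : ℝ} (hγ : 0 < γ) {k : ℕ} {R : Fin k → E3} (hk : k = 2) (hR : Function.Injective R) {z : Fin k → ℝ}
    (hz : ∀ i, 0 < z i) (hzz : ∀ i j, z i = z j) {N : ℝ} (hN : 0 ≤ N) :
    ConvexOn ℝ (Ioi 0) (fun l : ℝ => En γ (fun i => l • R i) z N) := by
  subst hk
  have h1 : R 0 ≠ R 1 := fun h => absurd (hR h) (by decide)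
  have h2 : z = fun _ => z 0 := funext fun i => hzz i 0
  rw [h2]
  exact diat hγ h1 (hz 0).le hN

/-- **Dilation of a molecule**, all parts. -/
theorem dilation_thm (γ : ℝ) (hγ : 0 < γ) (k : ℕ) (hk : 2 ≤ k) (R : Fin k → E3) (hR : Function.Injective R) (z : Fin k → ℝ)
    (hz : ∀ i, 0 < z i) (N : ℝ) (hN : 0 < N) (hNZ : N < ∑ i, z i) :
    (∀ l : ℝ, {e | ∃ ρ, Density N ρ ∧ e = tf γ (fun i => l • R i) z ρ}.Nonempty ∧
      BddBelow {e | ∃ ρ, Density N ρ ∧ e = tf γ (fun i => l • R i) z ρ}) ∧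
    StrictAntiOn (fun l : ℝ => En γ (fun i => l • R i) z N) (Ioi 0) ∧
    ConvexOn ℝ {l : ℝ | 0 < l ∧ 0 ≤ En γ (fun i => l • R i) z N} (fun l : ℝ => En γ (fun i => l • R i) z N) ∧
    (∃ l0 : ℝ, 0 < l0 ∧ ∀ l : ℝ, 0 < l → l ≤ l0 → 0 ≤ En γ (fun i => l • R i) z N) ∧
    (k = 2 → (∀ i j, z i = z j) → ConvexOn ℝ (Ioi 0) (fun l : ℝ => En γ (fun i => l • R i) z N)) :=
  ⟨fun _ => inf_real hγ _ hz hN.le, dil hγ hk hR hz hN hNZ, conv_nonneg hγ hk hR hz hN hNZ, nonneg_near hγ hk hR hz hN hNZ,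
    fun h2 hzz => diat_two hγ h2 hR hz hzz hN.le⟩

/-- **Separation in a direction**. -/
theorem separation_thm (γ : ℝ) (hγ : 0 < γ) (k : ℕ) (R : Fin k → E3) (hR : Function.Injective R) (z : Fin k → ℝ)
    (hz : ∀ i, 0 < z i) (N : ℝ) (hN : 0 < N) (hNZ : N < ∑ i, z i) (n : E3) (hn : ‖n‖ = 1) (a : ℝ → ℝ) (ha : Monotone a) :
    En γ (fun i => R i + a (inner ℝ n (R i)) • n) z N ≤ En γ R z N ∧
      ((∃ i j, a (inner ℝ n (R i)) ≠ a (inner ℝ n (R j))) → En γ (fun i => R i + a (inner ℝ n (R i)) • n) z N < En γ R z N) :=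
  sep hγ hR hz hn ha hN hNZ

end Pool.Agent.H50.TM
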