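import Pool.Agent.H50.TM.TfB
import Pool.Agent.H50.TM.LocA

/-!
# Module MinG: solutions of the Thomas-Fermi equation minimise `gc`

`ρ = jj(φ)`, `φ = V - Gρ`. By `tf_eq`, with `δ = σ - ρ`:
`gc σ - gc ρ = ∫ [3/5 γ (σ^(5/3) - ρ^(5/3)) - (φ-μ) (σ-ρ)] + 1/2 ∫ δ G δ` (`∫ σGσ - ∫ ρGρ = 2 ∫ δ Gρ + ∫ δGδ`, `G_symm`); the bracket is `≥ 0` pointwise (`young_tf` with `t = φ x`,
`ρ x = jj (φ x)`), the last term by `pos`. (Compare `U1.JJ_diff` in H23/TF/U1_Min.)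
`Om_eq`: the infimum is attained. `Om_le`: any trial density (the set is bounded below by `gc ρ`; uses a solution).
-/

set_option autoImplicit false

open MeasureTheory Set Filter Topology
open scoped ENNReal NNReal

namespace Pool.Agent.H50.TM

open Pool.Agent.H23.TF

variable {γ μ : ℝ} {k : ℕ} {R : Fin k → E3} {z : Fin k → ℝ} {ρ σ : E3 → ℝ}

theorem gc_min (hγ : 0 < γ) (h : IsTF γ μ R z ρ) (hσ : DN σ) : gc γ μ R z ρ ≤ gc γ μ R z σ := by
  have hρ := h.dn hγ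
  have lρ := hρ.ld
  have lσ := hσ.ld
  have a1 : Integrable (fun x => V R z x * ρ x) := lρ.int_V R z
  have a2 : Integrable (fun x => V R z x * σ x) := lσ.int_V R z
  have b1 : Integrable (fun x => ρ x * G ρ x) := lρ.int_mul_G lρ
  have b2 : Integrable (fun x => σ x * G ρ x) := lσ.int_mul_G lρ
  have b3 : Integrable (fun x => σ x * G σ x) := lσ.int_mul_G lσ
  have b4 : Integrable (fun x => ρ x * G σ x) := lρ.int_mul_G lσ
  have key : ∀ τ : E3 → ℝ, DN τ → Integrable (fun x => V R z x * τ x) → Integrable (fun x => τ x * G ρ x) →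
      Integrable (fun x => 3 / 5 * γ * τ x ^ (5 / 3 : ℝ) - V R z x * τ x + τ x * G ρ x + μ * τ x) ∧
      ∫ x, (3 / 5 * γ * τ x ^ (5 / 3 : ℝ) - V R z x * τ x + τ x * G ρ x + μ * τ x) =
        3 / 5 * γ * (∫ x, τ x ^ (5 / 3 : ℝ)) - (∫ x, V R z x * τ x) + (∫ x, τ x * G ρ x) + μ * ∫ x, τ x := by
    intro τ hτ i1 i2
    have j1 : Integrable (fun x => 3 / 5 * γ * τ x ^ (5 / 3 : ℝ)) := hτ.int53.const_mul _
    have j2 : Integrable (fun x => μ * τ x) := hτ.int.const_mul _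
    have j3 : Integrable (fun x => 3 / 5 * γ * τ x ^ (5 / 3 : ℝ) - V R z x * τ x) := j1.sub i1
    have j4 : Integrable (fun x => 3 / 5 * γ * τ x ^ (5 / 3 : ℝ) - V R z x * τ x + τ x * G ρ x) := j3.add i2
    refine ⟨j4.add j2, ?_⟩
    rw [integral_add j4 j2, integral_add j3 i2, integral_sub j1 i1, integral_const_mul, integral_const_mul]
  obtain ⟨k1, k2⟩ := key ρ hρ a1 b1
  obtain ⟨k3, k4⟩ := key σ hσ a2 b2
  have k5 : ∫ x, (3 / 5 * γ * ρ x ^ (5 / 3 : ℝ) - V R z x * ρ x + ρ x * G ρ x + μ * ρ x) ≤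
      ∫ x, (3 / 5 * γ * σ x ^ (5 / 3 : ℝ) - V R z x * σ x + σ x * G ρ x + μ * σ x) := by
    refine integral_mono k1 k3 fun x => ?_
    have h1 := young_tf (μ := μ) hγ (V R z x - G ρ x) (hσ.nonneg x)
    rw [← h.eq x] at h1
    simp only
    linarith
  rw [k2, k4] at k5
  have e1 : ∫ x, (σ x - ρ x) * G (fun y => σ y - ρ y) x =
      (∫ x, σ x * G σ x) - (∫ x, σ x * G ρ x) - (∫ x, ρ x * G σ x) + ∫ x, ρ x * G ρ x := by
    have e0 : ∀ x, (σ x - ρ x) * G (fun y => σ y - ρ y) x =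
        σ x * G σ x - σ x * G ρ x - ρ x * G σ x + ρ x * G ρ x := by
      intro x
      rw [G_sub lσ lρ x]
      ring
    simp_rw [e0]
    have c1 : Integrable (fun x => σ x * G σ x - σ x * G ρ x) := b3.sub b2
    have c2 : Integrable (fun x => σ x * G σ x - σ x * G ρ x - ρ x * G σ x) := c1.sub b4
    rw [integral_add c2 b1, integral_sub c1 b4, integral_sub b3 b2]
  have e2 := G_symm lρ lσ
  have e3 := pos (lσ.sub lρ)
  rw [e1, e2] at e3
  unfold gc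
  rw [tf_eq, tf_eq]
  linarith

theorem Om_eq (hγ : 0 < γ) (h : IsTF γ μ R z ρ) : Om γ μ R z = gc γ μ R z ρ := by
  unfold Om
  apply IsLeast.csInf_eq
  refine ⟨⟨ρ, h.dn hγ, rfl⟩, ?_⟩
  rintro e ⟨τ, hτ, rfl⟩
  exact gc_min hγ h hτ

theorem Om_le (hγ : 0 < γ) (h : IsTF γ μ R z ρ) (hσ : DN σ) : Om γ μ R z ≤ gc γ μ R z σ := by
  rw [Om_eq hγ h]
  exact gc_min hγ h hσ

end Pool.Agent.H50.TM
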