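import Pool.Agent.H50.TM.LocA
import Pool.Agent.H50.TM.DenB

/-!
# Module Mir: the mirrored molecule has the same half space density

* `Cfg.mirror`: `V (rf ∘ R) z x = V R z (rf x)` (`norm_rf_sub'`), `G (ρ ∘ rf) x = G ρ (rf x)` (`G_rf`), so `ρ ∘ rf` solves the equation of `rf ∘ R`.
  `fold (rf ∘ R) = fold R` (no nucleus on the plane), `foldf (ρ ∘ rf) = foldf ρ` (`lp (ρ ∘ rf) x = rp ρ (rf x)`, `rp (ρ ∘ rf) (rf x) = lp ρ x`), so the same `σ`.
* `FlL_eq`: `zR (rf ∘ R) z = zL R z`, `fld (nu (rf ∘ R) w) = fld (nu R w)` (`integral_nu`, `norm_plane`), and `rp (ρ ∘ rf) = (lp ρ) ∘ rf`, `fld_rf`.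
-/

set_option autoImplicit false

open MeasureTheory Set Filter Topology
open scoped ENNReal NNReal

namespace Pool.Agent.H50.TM

open Pool.Agent.H23.TF

variable {γ μ : ℝ} {k : ℕ} {R : Fin k → E3} {z : Fin k → ℝ} {ρ σ : E3 → ℝ}

private lemma V_mirror (R : Fin k → E3) (z : Fin k → ℝ) (x : E3) :
    V (fun i => rf (R i)) z x = V R z (rf x) := by
  unfold V
  refine Finset.sum_congr rfl fun j _ => ?_
  rw [norm_rf_sub']

private lemma fold_mirror (hoff : ∀ i, (R i) 0 ≠ 0) : fold (fun i => rf (R i)) = fold R := by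
  funext i
  unfold fold
  rcases lt_or_gt_of_ne (hoff i) with h | h
  · rw [if_neg (by rw [rf_zero]; linarith), if_pos h, rf_rf]
  · rw [if_pos (by rw [rf_zero]; linarith), if_neg (by linarith)]

private lemma lp_mirror (ρ : E3 → ℝ) (x : E3) : lp (fun y => ρ (rf y)) x = rp ρ (rf x) := by
  unfold lp rp
  rw [rf_zero]
  by_cases h : x 0 < 0
  · rw [if_pos h, if_pos (by linarith)]
  · rw [if_neg h, if_neg (by linarith)]

private lemma rp_mirror (ρ : E3 → ℝ) (x : E3) : rp (fun y => ρ (rf y)) x = lp ρ (rf x) := by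
  unfold lp rp
  rw [rf_zero]
  by_cases h : 0 < x 0
  · rw [if_pos h, if_pos (by linarith)]
  · rw [if_neg h, if_neg (by linarith)]

private lemma foldf_mirror (ρ : E3 → ℝ) : foldf (fun y => ρ (rf y)) = foldf ρ := by
  funext x
  unfold foldf
  rw [lp_mirror, rp_mirror, rf_rf, add_comm]

theorem Cfg.mirror (h : Cfg γ μ R z ρ σ) : Cfg γ μ (fun i => rf (R i)) z (fun x => ρ (rf x)) σ where
  hγ := h.hγ
  hμ := h.hμ
  hz := h.hz
  off := fun i => by
    rw [rf_zero]
    exact neg_ne_zero.2 (h.off i)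
  htf :=
    { meas := h.htf.meas.comp continuous_rf.measurable
      ld := Ld_rf h.htf.ld
      eq := fun x => by
        rw [V_mirror, G_rf]
        exact h.htf.eq (rf x) }
  hhalf := by
    rw [fold_mirror h.off, foldf_mirror]
    exact h.hhalf

private lemma zR_mirror (R : Fin k → E3) (z : Fin k → ℝ) :
    zR (fun i => rf (R i)) z = zL R z := by
  funext i
  unfold zR zL
  rw [rf_zero]
  by_cases h : (R i) 0 < 0
  · rw [if_pos (by linarith), if_pos h]
  · rw [if_neg (by linarith), if_neg h]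

private lemma fld_nu_mirror (hz : ∀ i, 0 ≤ z i) (R : Fin k → E3) (p : P2) :
    fld (nu (fun i => rf (R i)) z) p = fld (nu R z) p := by
  unfold fld
  rw [integral_nu hz, integral_nu hz]
  refine Finset.sum_congr rfl fun i _ => ?_
  rw [norm_plane, rf_zero, abs_neg]

theorem FlL_eq (h : Cfg γ μ R z ρ σ) (p : P2) :
    FlL R z ρ σ p = Fl (fun i => rf (R i)) z (fun x => ρ (rf x)) σ p := by
  have hzL : ∀ i, 0 ≤ zL R z i := fun i => by
    unfold zL
    split_ifs
    · exact (h.hz i).le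
    · exact le_rfl
  have h1 : rp (fun x => ρ (rf x)) = fun x => lp ρ (rf x) := funext fun x => rp_mirror ρ x
  have h2 : ∀ x, 0 ≤ lp ρ x := fun x => by
    unfold lp
    split_ifs
    · exact h.htf.nonneg h.hγ x
    · exact le_rfl
  unfold FlL Fl
  rw [zR_mirror, fld_nu_mirror hzL, h1, fld_rf (measurable_lp h.htf.meas) h2]

end Pool.Agent.H50.TM
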