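import Pool.Agent.H50.TM.Geo

/-!
# Module PoisA: the Lévy densities form a convolution semigroup (one variable)

`L a u = (a/(2√π)) u^(-3/2) exp(-a²/(4u))` for `u > 0`, `0` for `u ≤ 0`.
CLAIM: `∫⁻ u, L a u * L b (T - u) = L (a+b) T` for `T > 0`.
Substitution `u = T x²/(1+x²)`, `x ∈ (0, ∞)`: `T - u = T/(1+x²)`, `du = 2 T x/(1+x²)² dx`,
`u^(-3/2) (T-u)^(-3/2) du = 2 T^(-2) (1 + x^(-2)) dx`, and with `α = a/√T`, `β = b/√T`:
`a²/(4u) + b²/(4(T-u)) = (α²(1+x^(-2)) + β²(1+x²))/4 = (α+β)²/4 + (βx - α/x)²/4`. So the integral is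
`(a b/(4π)) 2 T^(-2) exp(-(a+b)²/(4T)) ∫_0^∞ (1 + x^(-2)) exp(-(βx-α/x)²/4) dx`.
Cauchy-Schlömilch: with `v = βx - α/x` (increasing bijection `(0,∞) → ℝ`), `dv = (β + α/x²) dx`: `∫ (β + α x^(-2)) e^{-v²/4} dx = 2√π`; the involution
`x ↦ α/(βx)` maps `v` to `-v` and gives `∫ β e^{-v²/4} dx = ∫ α x^(-2) e^{-v²/4} dx`, so both are `√π`; hence `∫ (1 + x^(-2)) e^{-v²/4} dx = √π (1/β + 1/α)`
`= √π √T (a+b)/(ab)`. Total: `((a+b)/(2√π)) T^(-3/2) exp(-(a+b)²/(4T))`.
Change of variables: `lintegral_image_eq_lintegral_abs_deriv_mul` (or the monotone version), all integrands are nonnegative.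
-/

set_option autoImplicit false

open MeasureTheory Set Filter Topology
open scoped ENNReal NNReal

namespace Pool.Agent.H50.TM

open Pool.Agent.H23.TF

/-- the Lévy density -/
noncomputable def Lv (a u : ℝ) : ℝ :=
  if 0 < u then a / (2 * √Real.pi) * (u ^ (3 / 2 : ℝ))⁻¹ * Real.exp (-(a ^ 2 / (4 * u))) else 0

theorem Lv_nonneg {a : ℝ} (ha : 0 ≤ a) (u : ℝ) : 0 ≤ Lv a u := by
  unfold Lv
  split_ifs with h
  · positivity
  · exact le_rfl

theorem measurable_Lv (a : ℝ) : Measurable (Lv a) := by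
  unfold Lv
  refine Measurable.ite measurableSet_Ioi ?_ measurable_const
  refine ((measurable_id.pow_const _).inv.const_mul _).mul ?_
  exact Real.measurable_exp.comp (((measurable_const.mul measurable_id).const_div _).neg)

private theorem poisA_gauss :
    ∫⁻ v : ℝ, ENNReal.ofReal (Real.exp (-(v ^ 2 / 4))) = ENNReal.ofReal (2 * √Real.pi) := by
  have h1 : (fun v : ℝ => Real.exp (-(v ^ 2 / 4))) = fun v : ℝ => Real.exp (-(1 / 4) * v ^ 2) := by
    funext v
    congr 1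
    ring
  have h2 : Integrable (fun v : ℝ => Real.exp (-(v ^ 2 / 4))) := by
    rw [h1]
    exact integrable_exp_neg_mul_sq (by norm_num)
  rw [← ofReal_integral_eq_lintegral_ofReal h2 (Eventually.of_forall fun v => (Real.exp_pos _).le), h1,
    integral_gaussian]
  congr 1
  rw [show Real.pi / (1 / 4) = 2 ^ 2 * Real.pi by ring, Real.sqrt_mul (by norm_num),
    Real.sqrt_sq (by norm_num)]

private theorem poisA_range {α β : ℝ} (hα : 0 < α) (hβ : 0 < β) :
    (fun x : ℝ => β * x - α / x) '' Ioi 0 = univ := by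
  refine eq_univ_of_forall fun v => ?_
  refine ⟨(v + √(v ^ 2 + 4 * α * β)) / (2 * β), ?_, ?_⟩
  · have h1 : |v| < √(v ^ 2 + 4 * α * β) := by
      rw [← Real.sqrt_sq_eq_abs]
      exact Real.sqrt_lt_sqrt (sq_nonneg v) (by nlinarith [mul_pos hα hβ])
    have h2 := neg_abs_le v
    exact (div_pos (by linarith) (by linarith) : 0 < (v + √(v ^ 2 + 4 * α * β)) / (2 * β))
  · have h1 : |v| < √(v ^ 2 + 4 * α * β) := by
      rw [← Real.sqrt_sq_eq_abs]
      exact Real.sqrt_lt_sqrt (sq_nonneg v) (by nlinarith [mul_pos hα hβ])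
    have h2 := neg_abs_le v
    have h3 : √(v ^ 2 + 4 * α * β) ^ 2 = v ^ 2 + 4 * α * β :=
      Real.sq_sqrt (by nlinarith [mul_pos hα hβ, sq_nonneg v])
    set s := √(v ^ 2 + 4 * α * β)
    have h4 : v + s ≠ 0 := by linarith
    show β * ((v + s) / (2 * β)) - α / ((v + s) / (2 * β)) = v
    field_simp
    nlinarith

private theorem poisA_inj {α β : ℝ} (hα : 0 < α) (hβ : 0 < β) :
    InjOn (fun x : ℝ => β * x - α / x) (Ioi 0) := by
  intro x hx y hy h
  have hx' : 0 < x := hx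
  have hy' : 0 < y := hy
  have h' : β * x - α / x = β * y - α / y := h
  by_contra hne
  have h1 : (x - y) * (β * (x * y) + α) = 0 := by
    field_simp at h'
    linear_combination h'
  rcases mul_eq_zero.1 h1 with h2 | h2
  · exact hne (by linarith)
  · have : 0 < β * (x * y) + α := by positivity
    exact this.ne' h2

private theorem poisA_deriv {α β x : ℝ} (hx : x ≠ 0) :
    HasDerivAt (fun x : ℝ => β * x - α / x) (β + α * (x ^ 2)⁻¹) x := by
  have h := ((hasDerivAt_id x).const_mul β).sub ((hasDerivAt_inv hx).const_mul α)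
  have h2 : (fun x : ℝ => β * x - α / x) = (fun y => β * id y) - (fun y => α * y⁻¹) := by
    funext y
    simp [div_eq_mul_inv]
  rw [h2]
  exact h.congr_deriv (by ring)

/-- Cauchy-Schlömilch -/
theorem cauchy_schl {α β : ℝ} (hα : 0 < α) (hβ : 0 < β) :
    ∫⁻ x in Ioi (0 : ℝ), ENNReal.ofReal ((1 + (x ^ 2)⁻¹) * Real.exp (-((β * x - α / x) ^ 2 / 4))) =
      ENNReal.ofReal (√Real.pi * (1 / α + 1 / β)) := by
  set E : ℝ → ℝ := fun x => Real.exp (-((β * x - α / x) ^ 2 / 4)) with hE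
  have hE0 : ∀ x, 0 ≤ E x := fun x => (Real.exp_pos _).le
  have hEm : Measurable E := by
    refine Real.measurable_exp.comp (Measurable.neg (Measurable.div_const (Measurable.pow_const ?_ 2) 4))
    exact (measurable_const.mul measurable_id).sub (measurable_id.const_div α)
  -- the substitution `v = β x - α / x`
  have h1 : ∫⁻ x in Ioi (0 : ℝ), ENNReal.ofReal (β + α * (x ^ 2)⁻¹) * ENNReal.ofReal (E x) =
      ENNReal.ofReal (2 * √Real.pi) := by
    have h0 := lintegral_image_eq_lintegral_abs_deriv_mul measurableSet_Ioi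
        (fun x hx => (poisA_deriv (α := α) (β := β) (ne_of_gt hx)).hasDerivWithinAt) (poisA_inj hα hβ)
        (fun v => ENNReal.ofReal (Real.exp (-(v ^ 2 / 4))))
    rw [poisA_range hα hβ, setLIntegral_univ, poisA_gauss] at h0
    rw [h0]
    refine setLIntegral_congr_fun measurableSet_Ioi fun x hx => ?_
    have hx' : 0 < x := hx
    rw [abs_of_nonneg (by positivity)]
  -- the involution
  have h2 : ∫⁻ x in Ioi (0 : ℝ), ENNReal.ofReal (E x) =
      ∫⁻ x in Ioi (0 : ℝ), ENNReal.ofReal (α / β * (x ^ 2)⁻¹) * ENNReal.ofReal (E x) := by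
    have him : (fun x : ℝ => α / β * x⁻¹) '' Ioi 0 = Ioi 0 := by
      ext y
      constructor
      · rintro ⟨x, hx, rfl⟩
        have hx' : 0 < x := hx
        exact (show 0 < α / β * x⁻¹ by positivity)
      · intro hy
        have hy' : 0 < y := hy
        refine ⟨α / β * y⁻¹, (show 0 < α / β * y⁻¹ by positivity), ?_⟩
        show α / β * (α / β * y⁻¹)⁻¹ = y
        field_simp
    have hinj : InjOn (fun x : ℝ => α / β * x⁻¹) (Ioi 0) := by
      intro x hx y hy h
      have h' : α / β * x⁻¹ = α / β * y⁻¹ := h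
      have h3 := mul_left_cancel₀ (by positivity) h'
      exact inv_injective h3
    have hd : ∀ x ∈ Ioi (0 : ℝ), HasDerivWithinAt (fun x : ℝ => α / β * x⁻¹)
        (α / β * -(x ^ 2)⁻¹) (Ioi 0) x := fun x hx =>
      ((hasDerivAt_inv (ne_of_gt hx)).const_mul (α / β)).hasDerivWithinAt
    have h3 := lintegral_image_eq_lintegral_abs_deriv_mul measurableSet_Ioi hd hinj
      (fun x => ENNReal.ofReal (E x))
    rw [him] at h3
    rw [h3]
    refine setLIntegral_congr_fun measurableSet_Ioi fun x hx => ?_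
    have hx' : 0 < x := hx
    have e1 : |α / β * -(x ^ 2)⁻¹| = α / β * (x ^ 2)⁻¹ := by
      rw [mul_neg, abs_neg, abs_of_nonneg (by positivity)]
    have e2 : E (α / β * x⁻¹) = E x := by
      simp only [hE]
      congr 3
      field_simp
      ring
    show ENNReal.ofReal |α / β * -(x ^ 2)⁻¹| * ENNReal.ofReal (E (α / β * x⁻¹)) = _
    rw [e1, e2]
  set A := ∫⁻ x in Ioi (0 : ℝ), ENNReal.ofReal (E x) with hA
  set B := ∫⁻ x in Ioi (0 : ℝ), ENNReal.ofReal (x ^ 2)⁻¹ * ENNReal.ofReal (E x) with hB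
  have hm1 : Measurable fun x : ℝ => ENNReal.ofReal (E x) := hEm.ennreal_ofReal
  have hm2 : Measurable fun x : ℝ => ENNReal.ofReal (x ^ 2)⁻¹ * ENNReal.ofReal (E x) :=
    ((measurable_id.pow_const 2).inv.ennreal_ofReal).mul hm1
  have h3 : ENNReal.ofReal β * A + ENNReal.ofReal α * B = ENNReal.ofReal (2 * √Real.pi) := by
    rw [← h1, hA, hB, ← lintegral_const_mul _ hm1, ← lintegral_const_mul _ hm2,
      ← lintegral_add_left (hm1.const_mul _)]
    refine lintegral_congr fun x => ?_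
    rw [ENNReal.ofReal_add hβ.le (by positivity), ENNReal.ofReal_mul hα.le]
    ring
  have h4 : A = ENNReal.ofReal (α / β) * B := by
    rw [h2, hB, ← lintegral_const_mul _ hm2]
    refine lintegral_congr fun x => ?_
    rw [ENNReal.ofReal_mul (by positivity)]
    ring
  have h5 : ENNReal.ofReal β * A = ENNReal.ofReal α * B := by
    rw [h4, ← mul_assoc, ← ENNReal.ofReal_mul hβ.le, mul_div_cancel₀ _ hβ.ne']
  have hpi : 0 < √Real.pi := Real.sqrt_pos.2 Real.pi_pos
  have h6 : ENNReal.ofReal α * B = ENNReal.ofReal √Real.pi := by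
    rw [h5, ← two_mul, ENNReal.ofReal_mul (by norm_num)] at h3
    have h20 : ENNReal.ofReal 2 = 2 := by simp
    rw [h20] at h3
    exact (ENNReal.mul_right_inj (by norm_num) (by norm_num)).1 h3
  have h7 : ENNReal.ofReal β * A = ENNReal.ofReal √Real.pi := h5.trans h6
  have h8 : B = ENNReal.ofReal (√Real.pi / α) := by
    have h0 : ENNReal.ofReal α ≠ 0 := by simpa using hα
    refine (ENNReal.mul_right_inj h0 ENNReal.ofReal_ne_top).1 ?_
    rw [h6, ← ENNReal.ofReal_mul hα.le, mul_div_cancel₀ _ hα.ne']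
  have h9 : A = ENNReal.ofReal (√Real.pi / β) := by
    have h0 : ENNReal.ofReal β ≠ 0 := by simpa using hβ
    refine (ENNReal.mul_right_inj h0 ENNReal.ofReal_ne_top).1 ?_
    rw [h7, ← ENNReal.ofReal_mul hβ.le, mul_div_cancel₀ _ hβ.ne']
  have h10 : ∫⁻ x in Ioi (0 : ℝ), ENNReal.ofReal ((1 + (x ^ 2)⁻¹) * E x) = A + B := by
    rw [hA, hB, ← lintegral_add_left hm1]
    refine lintegral_congr fun x => ?_
    rw [ENNReal.ofReal_mul (by positivity), ENNReal.ofReal_add (by norm_num) (by positivity),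
      ENNReal.ofReal_one]
    ring
  rw [h10, h8, h9, ← ENNReal.ofReal_add (by positivity) (by positivity)]
  congr 1
  ring

theorem Lv_conv {a b : ℝ} (ha : 0 < a) (hb : 0 < b) {T : ℝ} (hT : 0 < T) :
    ∫⁻ u, ENNReal.ofReal (Lv a u) * ENNReal.ofReal (Lv b (T - u)) = ENNReal.ofReal (Lv (a + b) T) := by
  have hsT : 0 < √T := Real.sqrt_pos.2 hT
  have hsT2 : √T ^ 2 = T := Real.sq_sqrt hT.le
  have hpi : 0 < √Real.pi := Real.sqrt_pos.2 Real.pi_pos
  have hpi2 : √Real.pi ^ 2 = Real.pi := Real.sq_sqrt Real.pi_pos.le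
  set α := a / √T with hα
  set β := b / √T with hβ
  have hα0 : 0 < α := by positivity
  have hβ0 : 0 < β := by positivity
  -- restrict to `(0, T)`
  have h1 : ∫⁻ u, ENNReal.ofReal (Lv a u) * ENNReal.ofReal (Lv b (T - u)) =
      ∫⁻ u in Ioo 0 T, ENNReal.ofReal (Lv a u) * ENNReal.ofReal (Lv b (T - u)) := by
    rw [← lintegral_indicator measurableSet_Ioo]
    refine lintegral_congr fun u => ?_
    by_cases hu : u ∈ Ioo 0 T
    · rw [indicator_of_mem hu]
    · rw [indicator_of_notMem hu]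
      rcases not_and_or.1 hu with h | h
      · rw [Lv, if_neg h]
        simp
      · rw [Lv, Lv, if_neg (show ¬ 0 < T - u by linarith)]
        simp
  -- the substitution
  have him : (fun x : ℝ => T * x ^ 2 / (1 + x ^ 2)) '' Ioi 0 = Ioo 0 T := by
    ext y
    constructor
    · rintro ⟨x, hx, rfl⟩
      have hx' : 0 < x := hx
      refine ⟨(show 0 < T * x ^ 2 / (1 + x ^ 2) by positivity), ?_⟩
      show T * x ^ 2 / (1 + x ^ 2) < T
      rw [div_lt_iff₀ (by positivity)]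
      nlinarith
    · rintro ⟨h0, h2⟩
      have h3 : 0 < y / (T - y) := div_pos h0 (by linarith)
      refine ⟨√(y / (T - y)), Real.sqrt_pos.2 h3, ?_⟩
      show T * √(y / (T - y)) ^ 2 / (1 + √(y / (T - y)) ^ 2) = y
      rw [Real.sq_sqrt h3.le]
      have h4 : T - y ≠ 0 := by linarith
      have h5 : 1 + y / (T - y) = T / (T - y) := by
        field_simp
        ring
      rw [h5]
      field_simp
  have hinj : InjOn (fun x : ℝ => T * x ^ 2 / (1 + x ^ 2)) (Ioi 0) := by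
    intro x hx y hy h
    have hx' : 0 < x := hx
    have hy' : 0 < y := hy
    have h' : T * x ^ 2 / (1 + x ^ 2) = T * y ^ 2 / (1 + y ^ 2) := h
    rw [div_eq_div_iff (by positivity) (by positivity)] at h'
    have h2 : x ^ 2 = y ^ 2 := by
      have : T * (x ^ 2 - y ^ 2) = 0 := by linear_combination h'
      rcases mul_eq_zero.1 this with h3 | h3
      · exact absurd h3 hT.ne'
      · linarith
    exact (pow_left_inj₀ hx'.le hy'.le (by norm_num)).1 h2
  have hd : ∀ x ∈ Ioi (0 : ℝ), HasDerivWithinAt (fun x : ℝ => T * x ^ 2 / (1 + x ^ 2))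
      (2 * T * x / (1 + x ^ 2) ^ 2) (Ioi 0) x := by
    intro x _
    have e1 : HasDerivAt (fun x : ℝ => T * x ^ 2) (T * (2 * x)) x := by
      simpa using (hasDerivAt_pow 2 x).const_mul T
    have e2 : HasDerivAt (fun x : ℝ => 1 + x ^ 2) (2 * x) x := by
      simpa using (hasDerivAt_pow 2 x).const_add 1
    have e3 := e1.div e2 (by positivity)
    refine (HasDerivAt.congr_deriv e3 ?_).hasDerivWithinAt
    congr 1
    ring
  have h2 := lintegral_image_eq_lintegral_abs_deriv_mul measurableSet_Ioi hd hinj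
    (fun u => ENNReal.ofReal (Lv a u) * ENNReal.ofReal (Lv b (T - u)))
  rw [him] at h2
  rw [h1, h2]
  set C : ℝ := a * b / (4 * Real.pi) * (2 * (T ^ 2)⁻¹) * Real.exp (-((a + b) ^ 2 / (4 * T))) with hC
  have hC0 : 0 ≤ C := by positivity
  have h3 : ∀ x ∈ Ioi (0 : ℝ),
      ENNReal.ofReal |2 * T * x / (1 + x ^ 2) ^ 2| * (ENNReal.ofReal (Lv a (T * x ^ 2 / (1 + x ^ 2))) *
        ENNReal.ofReal (Lv b (T - T * x ^ 2 / (1 + x ^ 2)))) =
      ENNReal.ofReal C * ENNReal.ofReal ((1 + (x ^ 2)⁻¹) * Real.exp (-((β * x - α / x) ^ 2 / 4))) := by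
    intro x hx
    have hx' : 0 < x := hx
    have hq : 0 < 1 + x ^ 2 := by positivity
    have e0 : 0 < T * x ^ 2 / (1 + x ^ 2) := by positivity
    have e1 : T - T * x ^ 2 / (1 + x ^ 2) = T / (1 + x ^ 2) := by
      field_simp
      ring
    have e2 : 0 < T / (1 + x ^ 2) := by positivity
    rw [e1, Lv, Lv, if_pos e0, if_pos e2, abs_of_nonneg (by positivity),
      ← ENNReal.ofReal_mul (by positivity), ← ENNReal.ofReal_mul (by positivity),
      ← ENNReal.ofReal_mul hC0]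
    congr 1
    have e3 : ((T * x ^ 2 / (1 + x ^ 2)) ^ (3 / 2 : ℝ)) * ((T / (1 + x ^ 2)) ^ (3 / 2 : ℝ)) =
        (T * x / (1 + x ^ 2)) ^ 3 := by
      rw [← Real.mul_rpow e0.le e2.le]
      have e4 : T * x ^ 2 / (1 + x ^ 2) * (T / (1 + x ^ 2)) = (T * x / (1 + x ^ 2)) ^ (2 : ℝ) := by
        rw [Real.rpow_two]
        field_simp
      rw [e4, ← Real.rpow_mul (by positivity), show (2 : ℝ) * (3 / 2) = (3 : ℕ) by norm_num,
        Real.rpow_natCast]
    have e5 : Real.exp (-(a ^ 2 / (4 * (T * x ^ 2 / (1 + x ^ 2))))) *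
        Real.exp (-(b ^ 2 / (4 * (T / (1 + x ^ 2))))) =
        Real.exp (-((a + b) ^ 2 / (4 * T))) * Real.exp (-((β * x - α / x) ^ 2 / 4)) := by
      rw [← Real.exp_add, ← Real.exp_add]
      congr 1
      have e6 : (β * x - α / x) ^ 2 = (b ^ 2 * x ^ 2 - 2 * a * b + a ^ 2 / x ^ 2) / T := by
        rw [hα, hβ]
        have : (b / √T * x - a / √T / x) ^ 2 = (b * x - a / x) ^ 2 / √T ^ 2 := by
          field_simp
        rw [this, hsT2]
        field_simp
        ring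
      rw [e6]
      field_simp
      ring
    have e7 : ((T * x ^ 2 / (1 + x ^ 2)) ^ (3 / 2 : ℝ))⁻¹ * ((T / (1 + x ^ 2)) ^ (3 / 2 : ℝ))⁻¹ =
        ((T * x / (1 + x ^ 2)) ^ 3)⁻¹ := by
      rw [← mul_inv, e3]
    calc 2 * T * x / (1 + x ^ 2) ^ 2 * (a / (2 * √Real.pi) * ((T * x ^ 2 / (1 + x ^ 2)) ^ (3 / 2 : ℝ))⁻¹ *
          Real.exp (-(a ^ 2 / (4 * (T * x ^ 2 / (1 + x ^ 2))))) *
          (b / (2 * √Real.pi) * ((T / (1 + x ^ 2)) ^ (3 / 2 : ℝ))⁻¹ *
          Real.exp (-(b ^ 2 / (4 * (T / (1 + x ^ 2)))))))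
        = a * b / (4 * √Real.pi ^ 2) * (2 * T * x / (1 + x ^ 2) ^ 2 *
          (((T * x ^ 2 / (1 + x ^ 2)) ^ (3 / 2 : ℝ))⁻¹ * ((T / (1 + x ^ 2)) ^ (3 / 2 : ℝ))⁻¹)) *
          (Real.exp (-(a ^ 2 / (4 * (T * x ^ 2 / (1 + x ^ 2))))) *
          Real.exp (-(b ^ 2 / (4 * (T / (1 + x ^ 2)))))) := by
          field_simp
          ring
      _ = a * b / (4 * Real.pi) * (2 * T * x / (1 + x ^ 2) ^ 2 * ((T * x / (1 + x ^ 2)) ^ 3)⁻¹) *
          (Real.exp (-((a + b) ^ 2 / (4 * T))) * Real.exp (-((β * x - α / x) ^ 2 / 4))) := by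
          rw [e5, e7, hpi2]
      _ = C * ((1 + (x ^ 2)⁻¹) * Real.exp (-((β * x - α / x) ^ 2 / 4))) := by
          have e8 : 2 * T * x / (1 + x ^ 2) ^ 2 * ((T * x / (1 + x ^ 2)) ^ 3)⁻¹ =
              2 * (T ^ 2)⁻¹ * (1 + (x ^ 2)⁻¹) := by
            field_simp
            ring
          rw [e8, hC]
          ring
  rw [setLIntegral_congr_fun measurableSet_Ioi h3, lintegral_const_mul' _ _ ENNReal.ofReal_ne_top,
    cauchy_schl hα0 hβ0, ← ENNReal.ofReal_mul hC0]
  congr 1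
  rw [Lv, if_pos hT, hC, hα, hβ]
  have e9 : T ^ (3 / 2 : ℝ) = T * √T := by
    rw [Real.sqrt_eq_rpow, show (3 / 2 : ℝ) = 1 + 1 / 2 by norm_num, Real.rpow_add hT, Real.rpow_one]
  rw [e9]
  have e10 : Real.pi = √Real.pi ^ 2 := hpi2.symm
  have e11 : a * b / (4 * Real.pi) * (2 * (T ^ 2)⁻¹) * (√Real.pi * (1 / (a / √T) + 1 / (b / √T))) =
      (a + b) / (2 * √Real.pi) * (T * √T)⁻¹ := by
    set p := √Real.pi with hp
    set s := √T with hs
    rw [e10, ← hsT2]
    field_simp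
    ring
  calc a * b / (4 * Real.pi) * (2 * (T ^ 2)⁻¹) * Real.exp (-((a + b) ^ 2 / (4 * T))) *
        (√Real.pi * (1 / (a / √T) + 1 / (b / √T)))
      = a * b / (4 * Real.pi) * (2 * (T ^ 2)⁻¹) * (√Real.pi * (1 / (a / √T) + 1 / (b / √T))) *
        Real.exp (-((a + b) ^ 2 / (4 * T))) := by ring
    _ = _ := by rw [e11]

end Pool.Agent.H50.TM
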