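import Pool.Agent.H50.TM.PoisA

/-!
# Module PoisH: heat kernel of the plane and subordination

`gt u q = exp(-‖q‖²/(4u))/(4πu)` (heat kernel of `P2`, `u > 0`).
* `heat_conv`: `∫⁻ p, gt u (p-c) gt v (p-d) = gt (u+v) (c-d)` for `u, v > 0`: complete the square,
  `‖p-c‖²/(4u) + ‖p-d‖²/(4v) = ((u+v)/(4uv)) ‖p - m‖² + ‖c-d‖²/(4(u+v))`, `m = (v c + u d)/(u+v)`, and
  `GaussianFourier.integral_rexp_neg_mul_sq_norm` (dimension 2: `∫ exp(-b‖p‖²) = π/b`).
* `pois_rep`: for `a > 0`: `a/(2π (‖q‖²+a²)^(3/2)) = ∫⁻ u, Lv a u · gt u q` : `∫_0^∞ (a/(2√π)) u^(-3/2) (1/(4πu)) exp(-(a²+‖q‖²)/(4u)) du`; substitute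
  `s = 1/(4u)` (or `u = 1/(4s)`): `= (a/(8 π^(3/2))) ∫ u^(-5/2) e^{-A/(4u)} du = (a/(8π^(3/2))) · 8 ∫_0^∞ s^(1/2) e^{-A s} ds = (a/π^(3/2)) Γ(3/2) A^(-3/2)`
  `= a/(2π A^(3/2))` (`Γ(3/2) = √π/2`, `Real.integral_rpow_mul_exp_neg_mul_Ioi`).
-/

set_option autoImplicit false

open MeasureTheory Set Filter Topology
open scoped ENNReal NNReal

namespace Pool.Agent.H50.TM

open Pool.Agent.H23.TF

/-- heat kernel of the plane -/
noncomputable def gt (u : ℝ) (q : P2) : ℝ := Real.exp (-(‖q‖ ^ 2 / (4 * u))) / (4 * Real.pi * u)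

/-- Poisson kernel of the half space -/
noncomputable def Pk (a : ℝ) (q : P2) : ℝ := a / (2 * Real.pi * (‖q‖ ^ 2 + a ^ 2) ^ (3 / 2 : ℝ))

private theorem lint_of_int {α : Type*} [MeasurableSpace α] {μ : Measure α} {f : α → ℝ} (h0 : ∀ x, 0 ≤ f x)
    {I : ℝ} (hI : I ≠ 0) (h : ∫ x, f x ∂μ = I) : ∫⁻ x, ENNReal.ofReal (f x) ∂μ = ENNReal.ofReal I := by
  have hi : Integrable f μ := by
    by_contra hn
    rw [integral_undef hn] at h
    exact hI h.symm
  rw [← ofReal_integral_eq_lintegral_ofReal hi (Eventually.of_forall h0), h]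

private theorem gt_nonneg {u : ℝ} (hu : 0 < u) (q : P2) : 0 ≤ gt u q := by
  unfold gt
  have := Real.pi_pos
  positivity

theorem heat_conv {u v : ℝ} (hu : 0 < u) (hv : 0 < v) (c d : P2) :
    ∫⁻ p : P2, ENNReal.ofReal (gt u (p - c)) * ENNReal.ofReal (gt v (p - d)) = ENNReal.ofReal (gt (u + v) (c - d)) := by
  have hpi := Real.pi_pos
  have hb : 0 < (u + v) / (4 * u * v) := by positivity
  obtain ⟨m, hm⟩ : ∃ m : P2, m = (u + v)⁻¹ • (v • c + u • d) := ⟨_, rfl⟩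
  obtain ⟨C, hC⟩ : ∃ C : ℝ, C = Real.exp (-(‖c - d‖ ^ 2 / (4 * (u + v)))) / (16 * Real.pi ^ 2 * u * v) := ⟨_, rfl⟩
  have hprod : ∀ p : P2, gt u (p - c) * gt v (p - d) =
      C * Real.exp (-((u + v) / (4 * u * v)) * ‖p - m‖ ^ 2) := by
    intro p
    have key : ‖p - c‖ ^ 2 / (4 * u) + ‖p - d‖ ^ 2 / (4 * v) =
        (u + v) / (4 * u * v) * ‖p - m‖ ^ 2 + ‖c - d‖ ^ 2 / (4 * (u + v)) := by
      have e1 : ∀ x : P2, ‖x‖ ^ 2 = x 0 ^ 2 + x 1 ^ 2 := by
        intro x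
        rw [EuclideanSpace.norm_sq_eq, Fin.sum_univ_two]
        simp only [Real.norm_eq_abs, sq_abs]
      rw [e1, e1, e1, e1, hm]
      simp only [PiLp.sub_apply, PiLp.smul_apply, PiLp.add_apply, smul_eq_mul]
      have huv : u + v ≠ 0 := by positivity
      field_simp
      ring
    unfold gt
    rw [hC, div_mul_div_comm, ← Real.exp_add, div_mul_eq_mul_div, ← Real.exp_add]
    have e2 : -(‖p - c‖ ^ 2 / (4 * u)) + -(‖p - d‖ ^ 2 / (4 * v)) =
        -(‖c - d‖ ^ 2 / (4 * (u + v))) + -((u + v) / (4 * u * v)) * ‖p - m‖ ^ 2 := by linarith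
    rw [e2]
    congr 1
    ring
  have h1 : ∀ p : P2, ENNReal.ofReal (gt u (p - c)) * ENNReal.ofReal (gt v (p - d)) =
      ENNReal.ofReal (C * Real.exp (-((u + v) / (4 * u * v)) * ‖p - m‖ ^ 2)) := by
    intro p
    rw [← hprod, ENNReal.ofReal_mul (gt_nonneg hu _)]
  simp_rw [h1]
  have hCpos : 0 < C := by rw [hC]; positivity
  apply lint_of_int
  · intro p
    positivity
  · have := Real.pi_pos
    unfold gt
    positivity
  · rw [integral_const_mul]
    have h2 : ∫ p : P2, Real.exp (-((u + v) / (4 * u * v)) * ‖p - m‖ ^ 2) =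
        ∫ p : P2, Real.exp (-((u + v) / (4 * u * v)) * ‖p‖ ^ 2) :=
      integral_sub_right_eq_self (fun p : P2 => Real.exp (-((u + v) / (4 * u * v)) * ‖p‖ ^ 2)) m
    rw [h2, GaussianFourier.integral_rexp_neg_mul_sq_norm hb]
    have h3 : ((Module.finrank ℝ P2 : ℕ) : ℝ) / 2 = 1 := by
      rw [finrank_euclideanSpace_fin]
      norm_num
    rw [h3, Real.rpow_one, hC]
    unfold gt
    field_simp
    ring

theorem pois_rep {a : ℝ} (ha : 0 < a) (q : P2) :
    ∫⁻ u, ENNReal.ofReal (Lv a u) * ENNReal.ofReal (gt u q) = ENNReal.ofReal (Pk a q) := by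
  have hpi := Real.pi_pos
  obtain ⟨A, hA⟩ : ∃ A : ℝ, A = ‖q‖ ^ 2 + a ^ 2 := ⟨_, rfl⟩
  have hA0 : 0 < A := by rw [hA]; positivity
  -- reduction to the half line
  have h1 : ∫⁻ u, ENNReal.ofReal (Lv a u) * ENNReal.ofReal (gt u q) =
      ∫⁻ u in Ioi (0 : ℝ), ENNReal.ofReal (Lv a u * gt u q) := by
    rw [← lintegral_indicator measurableSet_Ioi]
    refine lintegral_congr fun u => ?_
    by_cases hu : 0 < u
    · rw [indicator_of_mem (show u ∈ Ioi (0 : ℝ) from hu), ENNReal.ofReal_mul (Lv_nonneg ha.le u)]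
    · rw [indicator_of_notMem (show u ∉ Ioi (0 : ℝ) from hu)]
      unfold Lv
      rw [if_neg hu]
      simp
  rw [h1]
  have h2 : ∫ u in Ioi (0 : ℝ), u ^ (-(5 / 2) : ℝ) * Real.exp (-(A / (4 * u))) =
      4 * √Real.pi * (A ^ (3 / 2 : ℝ))⁻¹ := by
    have h3 := integral_comp_rpow_Ioi (fun y : ℝ => y ^ (1 / 2 : ℝ) * Real.exp (-(A / 4 * y)))
      (show (-1 : ℝ) ≠ 0 by norm_num)
    have h4 := Real.integral_rpow_mul_exp_neg_mul_Ioi (a := 3 / 2) (r := A / 4) (by norm_num) (by positivity)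
    have h5 : ∫ u in Ioi (0 : ℝ), u ^ (-(5 / 2) : ℝ) * Real.exp (-(A / (4 * u))) =
        ∫ x in Ioi (0 : ℝ), (|(-1 : ℝ)| * x ^ ((-1 : ℝ) - 1)) •
          ((x ^ (-1 : ℝ)) ^ (1 / 2 : ℝ) * Real.exp (-(A / 4 * x ^ (-1 : ℝ)))) := by
      refine setIntegral_congr_fun measurableSet_Ioi fun x hx => ?_
      have hx' : (0 : ℝ) < x := hx
      simp only [smul_eq_mul, abs_neg, abs_one, one_mul]
      rw [← Real.rpow_mul hx'.le, ← mul_assoc, ← Real.rpow_add hx', Real.rpow_neg_one]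
      congr 2
      · norm_num
      · field_simp
    rw [h5, h3]
    have h6 : (3 / 2 : ℝ) - 1 = 1 / 2 := by norm_num
    rw [h6] at h4
    rw [h4]
    have h7 : Real.Gamma (3 / 2) = √Real.pi / 2 := by
      have h8 := Real.Gamma_add_one (s := 1 / 2) (by norm_num)
      have h9 : (1 / 2 : ℝ) + 1 = 3 / 2 := by norm_num
      rw [h9, Real.Gamma_one_half_eq] at h8
      rw [h8]
      ring
    rw [h7, one_div_div, Real.div_rpow (by norm_num) hA0.le]
    have h10 : (4 : ℝ) ^ (3 / 2 : ℝ) = 8 := by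
      have : (4 : ℝ) = 2 ^ (2 : ℝ) := by norm_num
      rw [this, ← Real.rpow_mul (by norm_num)]
      norm_num
    rw [h10]
    ring
  have h11 : ∫ u in Ioi (0 : ℝ), Lv a u * gt u q = Pk a q := by
    have h12 : ∫ u in Ioi (0 : ℝ), Lv a u * gt u q =
        ∫ u in Ioi (0 : ℝ), a / (2 * √Real.pi) / (4 * Real.pi) *
          (u ^ (-(5 / 2) : ℝ) * Real.exp (-(A / (4 * u)))) := by
      refine setIntegral_congr_fun measurableSet_Ioi fun u hu => ?_
      have hu' : (0 : ℝ) < u := hu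
      have e1 : u ^ (-(5 / 2) : ℝ) = (u ^ (3 / 2 : ℝ))⁻¹ * u⁻¹ := by
        rw [← Real.rpow_neg hu'.le, ← Real.rpow_neg_one u, ← Real.rpow_add hu']
        norm_num
      have e2 : Real.exp (-(A / (4 * u))) =
          Real.exp (-(a ^ 2 / (4 * u))) * Real.exp (-(‖q‖ ^ 2 / (4 * u))) := by
        rw [← Real.exp_add, hA]
        congr 1
        field_simp
        ring
      simp only [Lv, gt, if_pos hu']
      rw [e1, e2]
      field_simp
    rw [h12, integral_const_mul, h2]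
    unfold Pk
    rw [← hA]
    have e3 : √Real.pi ≠ 0 := by positivity
    have e4 : A ^ (3 / 2 : ℝ) ≠ 0 := by positivity
    field_simp
  have h13 : ∫⁻ u in Ioi (0 : ℝ), ENNReal.ofReal (Lv a u * gt u q) =
      ∫⁻ u in Ioi (0 : ℝ), ENNReal.ofReal (max (Lv a u * gt u q) 0) := by
    refine lintegral_congr fun u => ?_
    rcases le_total 0 (Lv a u * gt u q) with h | h
    · rw [max_eq_left h]
    · rw [max_eq_right h, ENNReal.ofReal_zero, ENNReal.ofReal_of_nonpos h]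
  rw [h13]
  apply lint_of_int
  · intro u
    exact le_max_right _ _
  · unfold Pk
    rw [← hA]
    positivity
  · rw [← h11]
    refine setIntegral_congr_fun measurableSet_Ioi fun u hu => ?_
    exact max_eq_left (mul_nonneg (Lv_nonneg ha.le u) (gt_nonneg hu q))

end Pool.Agent.H50.TM
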