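import Pool.Agent.H50.TM.TfI

/-!
# Module RPdec: energy of a molecule glued from a mirrored left part and a right part

`R = Fin.append (rf ∘ M1) M2`, charges `Fin.append z z = z1 + z2`, `z1 = Fin.append z 0`, `z2 = Fin.append 0 z`. `tf_dec` (the densities `ρ1 ∘ rf`, `ρ2` have disjoint supports:
`x₀ < 0`, resp. `x₀ > 0`). `V R z1 = V (rf ∘ M1) z`, `U R z1 = U (rf ∘ M1) z` (`U_bil`, `Fin.sum_univ_add`, `Fin.append_left`, `Fin.append_right`), similarly `z2`; so
`tf R z1 (ρ1 ∘ rf) = tf (rf ∘ M1) z (ρ1 ∘ rf) = tf M1 z ρ1` (`tf_iso` for the linear isometry equivalence `rf`, `rf ∘ rf = id`), `tf R z2 ρ2 = tf M2 z ρ2`, and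
`XX R z1 z2 (ρ1 ∘ rf) ρ2 = CR M1 M2 z ρ1 ρ2` (`int_V_mul`, `G_rf`, `integral_rf`).
`rfL`: `rf` as a linear isometry equivalence.
-/

set_option autoImplicit false

open MeasureTheory Set Filter Topology
open scoped ENNReal NNReal

namespace Pool.Agent.H50.TM

open Pool.Agent.H23.TF

variable {k : ℕ} {M1 M2 : Fin k → E3} {z : Fin k → ℝ} {ρ1 ρ2 : E3 → ℝ}

theorem exists_rfL : ∃ L : E3 ≃ₗᵢ[ℝ] E3, ∀ x, L x = rf x := by
  let A : E3 →ₗ[ℝ] E3 :=
    { toFun := rf
      map_add' := fun x y => by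
        have h := rf_sub x (-y)
        have h0 : ∀ w : E3, rf (-w) = -rf w := by
          intro w
          unfold rf
          simp only [PiLp.neg_apply, mul_neg, neg_smul]
          abel
        rw [h0, sub_neg_eq_add, sub_neg_eq_add] at h
        exact h.symm
      map_smul' := fun c x => by
        unfold rf
        simp only [PiLp.smul_apply, smul_eq_mul, RingHom.id_apply, smul_sub, smul_smul]
        congr 2
        ring }
  let B : E3 ≃ₗ[ℝ] E3 := LinearEquiv.ofInvolutive A rf_rf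
  exact ⟨⟨B, norm_rf⟩, fun x => rfl⟩

private lemma V_app_left (A B : Fin k → E3) (z : Fin k → ℝ) (x : E3) :
    V (Fin.append A B) (Fin.append z (fun _ => (0 : ℝ))) x = V A z x := by
  unfold V
  rw [Fin.sum_univ_add]
  simp only [Fin.append_left, Fin.append_right, zero_div, Finset.sum_const_zero, add_zero]

private lemma V_app_right (A B : Fin k → E3) (z : Fin k → ℝ) (x : E3) :
    V (Fin.append A B) (Fin.append (fun _ => (0 : ℝ)) z) x = V B z x := by
  unfold V
  rw [Fin.sum_univ_add]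
  simp only [Fin.append_left, Fin.append_right, zero_div, Finset.sum_const_zero, zero_add]

private lemma U_app_left (A B : Fin k → E3) (z : Fin k → ℝ) :
    U (Fin.append A B) (Fin.append z (fun _ => (0 : ℝ))) = U A z := by
  rw [U_bil, U_bil]
  congr 1
  rw [Fin.sum_univ_add]
  simp only [Fin.append_left, Fin.append_right, Fin.sum_univ_add, zero_mul, mul_zero, zero_div,
    Finset.sum_const_zero, add_zero]

private lemma U_app_right (A B : Fin k → E3) (z : Fin k → ℝ) :
    U (Fin.append A B) (Fin.append (fun _ => (0 : ℝ)) z) = U B z := by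
  rw [U_bil, U_bil]
  congr 1
  rw [Fin.sum_univ_add]
  simp only [Fin.append_left, Fin.append_right, Fin.sum_univ_add, zero_mul, mul_zero, zero_div,
    Finset.sum_const_zero, zero_add]

private lemma tf_app_left (γ : ℝ) (A B : Fin k → E3) (z : Fin k → ℝ) (ρ : E3 → ℝ) :
    tf γ (Fin.append A B) (Fin.append z (fun _ => (0 : ℝ))) ρ = tf γ A z ρ := by
  unfold tf
  simp only [V_app_left, U_app_left]

private lemma tf_app_right (γ : ℝ) (A B : Fin k → E3) (z : Fin k → ℝ) (ρ : E3 → ℝ) :
    tf γ (Fin.append A B) (Fin.append (fun _ => (0 : ℝ)) z) ρ = tf γ B z ρ := by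
  unfold tf
  simp only [V_app_right, U_app_right]

private lemma tf_rf (γ : ℝ) {m : ℕ} (R : Fin m → E3) (z : Fin m → ℝ) (ρ : E3 → ℝ) :
    tf γ (fun i => rf (R i)) z ρ = tf γ R z (fun x => ρ (rf x)) := by
  obtain ⟨L, hL⟩ := exists_rfL
  have h := tf_iso γ R z L 0 ρ
  simp only [hL, add_zero] at h
  exact h

private lemma append_add (z : Fin k → ℝ) : Fin.append z z =
    fun i => Fin.append z (fun _ => (0 : ℝ)) i + Fin.append (fun _ => (0 : ℝ)) z i := by
  funext i
  refine Fin.addCases (fun j => ?_) (fun j => ?_) i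
  · simp only [Fin.append_left, add_zero]
  · simp only [Fin.append_right, zero_add]

private lemma DN_rf {ρ : E3 → ℝ} (h : DN ρ) : DN (fun x => ρ (rf x)) :=
  ⟨fun _ => h.nonneg _, integrable_rf h.int, integrable_rf h.int53⟩

theorem tf_glue (γ : ℝ) (M1 M2 : Fin k → E3) (z : Fin k → ℝ) (d1 : DN ρ1) (d2 : DN ρ2)
    (s1 : ∀ x : E3, x 0 ≤ 0 → ρ1 x = 0) (s2 : ∀ x : E3, x 0 ≤ 0 → ρ2 x = 0) :
    tf γ (Fin.append (fun i => rf (M1 i)) M2) (Fin.append z z) (fun x => ρ1 (rf x) + ρ2 x) =
      tf γ M1 z ρ1 + tf γ M2 z ρ2 + CR M1 M2 z ρ1 ρ2 := by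
  have hdis : ∀ x, ρ1 (rf x) * ρ2 x = 0 := by
    intro x
    rcases le_or_gt (x 0) 0 with h | h
    · rw [s2 x h, mul_zero]
    · rw [s1 (rf x) (by rw [rf_zero]; linarith), zero_mul]
  rw [append_add, tf_dec γ _ _ _ (DN_rf d1) d2 hdis, tf_app_left, tf_app_right]
  have h1 : tf γ (fun i => rf (M1 i)) z (fun x => ρ1 (rf x)) = tf γ M1 z ρ1 := by
    rw [tf_rf]
    simp only [rf_rf]
  rw [h1]
  congr 1
  unfold XX CR
  simp only [V_app_left, V_app_right]
  rw [int_V_mul d2.ld, int_V_mul (DN_rf d1).ld]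
  simp only [G_rf]
  have h2 : ∫ x, ρ1 (rf x) * G ρ2 x = ∫ x, ρ1 x * G ρ2 (rf x) := by
    rw [← integral_rf (fun x => ρ1 x * G ρ2 (rf x))]
    simp only [rf_rf]
  rw [h2]
  congr 3
  rw [Fin.sum_univ_add]
  simp only [Fin.append_left, Fin.append_right, Fin.sum_univ_add, zero_mul, mul_zero, zero_div,
    Finset.sum_const_zero, zero_add, add_zero]

private lemma tf_swap (γ : ℝ) (A B : Fin k → E3) (z : Fin k → ℝ) (ρ : E3 → ℝ) :
    tf γ (Fin.append A B) (Fin.append z z) ρ = tf γ (Fin.append B A) (Fin.append z z) ρ := by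
  have hV : ∀ x, V (Fin.append A B) (Fin.append z z) x = V (Fin.append B A) (Fin.append z z) x := by
    intro x
    unfold V
    rw [Fin.sum_univ_add, Fin.sum_univ_add]
    simp only [Fin.append_left, Fin.append_right]
    rw [add_comm]
  have hU : U (Fin.append A B) (Fin.append z z) = U (Fin.append B A) (Fin.append z z) := by
    rw [U_bil, U_bil]
    congr 1
    rw [Fin.sum_univ_add, Fin.sum_univ_add]
    simp only [Fin.append_left, Fin.append_right, Fin.sum_univ_add]
    rw [add_comm]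
    congr 1 <;> exact Finset.sum_congr rfl fun i _ => add_comm _ _
  unfold tf
  simp only [hV, hU]

/-- the mirror image of a density has the same energy in a mirror symmetric molecule -/
theorem tf_sym_rf (γ : ℝ) (M : Fin k → E3) (z : Fin k → ℝ) (d : ℝ) (ρ : E3 → ℝ) :
    tf γ (sym M d) (Fin.append z z) (fun x => ρ (rf x)) = tf γ (sym M d) (Fin.append z z) ρ := by
  rw [← tf_rf]
  have h : (fun i => rf (sym M d i)) =
      Fin.append (fun i => M i + d • e0) (fun i => rf (M i + d • e0)) := by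
    funext i
    refine Fin.addCases (fun j => ?_) (fun j => ?_) i
    · simp only [sym, Fin.append_left, rf_rf]
    · simp only [sym, Fin.append_right]
  rw [h, tf_swap]
  rfl

end Pool.Agent.H50.TM
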