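import Pool.Agent.H50.TM.PoisB

/-!
# Module RPker: reflection positivity of the Coulomb kernel

For `x₀, y₀ > 0`, `q = pr x - pr y`, `s = x₀ + y₀`: `1/‖rf x - y‖ = 1/√(s²+‖q‖²) = ∫_0^∞ (s+u)/((s+u)²+‖q‖²)^(3/2) du = 2π ∫_0^∞ Pk (s+u) q du`
(antiderivative `-((s+u)²+‖q‖²)^(-1/2)`), and by `pois` with `a = x₀ + u/2`, `b = y₀ + u/2`: `Pk (s+u) q = ∫_p Pk a (p - pr x) Pk b (p - pr y)`. So, as lintegrals,
`1/‖rf x - y‖ = ∫_{ω=(u,p)} Ψ_ω(x) Ψ_ω(y) dω`, `Ψ_(u,p)(x) = √(2π) Pk (x₀ + u/2) (p - pr x) ≥ 0` (`rp_rep`), on `(0,∞) × P2`.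
`rp_pos`: `F_m(ω) = ∫ Ψ_ω dm`; by Tonelli `∬ dm dm'/‖rf x - y‖ = ∫ F_m F_m' dω < ∞` for `m, m' ∈ {m1, m2}`, and the sum is `∫ (F_{m1} - F_{m2})² ≥ 0`.
-/

set_option autoImplicit false

open MeasureTheory Set Filter Topology
open scoped ENNReal NNReal

namespace Pool.Agent.H50.TM

open Pool.Agent.H23.TF

/-- mirrored interaction -/
noncomputable def KK (m n : Measure E3) : ℝ := ∫ x, ∫ y, 1 / ‖rf x - y‖ ∂n ∂m

/-- the functions of the representation -/
private noncomputable def Ps (x : E3) (w : ℝ × P2) : ℝ≥0∞ :=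
  ENNReal.ofReal (√(2 * Real.pi) * Pk (x 0 + w.1 / 2) (w.2 - pr x))

private theorem measurable_Ps : Measurable (fun q : E3 × (ℝ × P2) => Ps q.1 q.2) := by
  unfold Ps Pk
  have h1 : Measurable (fun q : E3 × (ℝ × P2) => q.1 0 + q.2.1 / 2) :=
    (continuous_zero.measurable.comp measurable_fst).add
      ((measurable_fst.comp measurable_snd).div_const 2)
  have h2 : Measurable (fun q : E3 × (ℝ × P2) => ‖q.2.2 - pr q.1‖) :=
    ((measurable_snd.comp measurable_snd).sub (continuous_pr.measurable.comp measurable_fst)).norm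
  exact ENNReal.measurable_ofReal.comp (measurable_const.mul
    (h1.div (measurable_const.mul (((h2.pow_const 2).add (h1.pow_const 2)).pow_const _))))

/-- the one-dimensional integral -/
private theorem int_u {s A : ℝ} (hs : 0 < s) (hA : 0 ≤ A) :
    ∫⁻ u in Ioi (0 : ℝ), ENNReal.ofReal ((s + u) / (A + (s + u) ^ 2) ^ (3 / 2 : ℝ)) =
      ENNReal.ofReal (1 / √(A + s ^ 2)) := by
  have hpos : ∀ u : ℝ, 0 ≤ u → 0 < A + (s + u) ^ 2 := by
    intro u hu
    have : 0 < s + u := by linarith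
    positivity
  have hd : ∀ u ∈ Ici (0 : ℝ), HasDerivAt (fun u : ℝ => -(A + (s + u) ^ 2) ^ (-(1 / 2) : ℝ))
      ((s + u) / (A + (s + u) ^ 2) ^ (3 / 2 : ℝ)) u := by
    intro u hu
    have hu0 := hpos u hu
    have h1 : HasDerivAt (fun u : ℝ => A + (s + u) ^ 2) (2 * (s + u)) u := by
      have h2 : HasDerivAt (fun u : ℝ => s + u) 1 u := by
        simpa using (hasDerivAt_id u).const_add s
      have h3 := (h2.pow 2).const_add A
      simpa using h3
    have h4 : HasDerivAt (fun u : ℝ => -(A + (s + u) ^ 2) ^ (-(1 / 2) : ℝ))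
        (-(2 * (s + u) * (-(1 / 2) : ℝ) * (A + (s + u) ^ 2) ^ ((-(1 / 2) : ℝ) - 1))) u :=
      (h1.rpow_const (p := (-(1 / 2) : ℝ)) (Or.inl hu0.ne')).neg
    refine h4.congr_deriv ?_
    have e1 : (-(1 / 2) : ℝ) - 1 = -(3 / 2) := by norm_num
    rw [e1, Real.rpow_neg hu0.le]
    field_simp
  have hlim : Tendsto (fun u : ℝ => -(A + (s + u) ^ 2) ^ (-(1 / 2) : ℝ)) atTop (𝓝 0) := by
    have h1 : Tendsto (fun u : ℝ => A + (s + u) ^ 2) atTop atTop := by
      apply tendsto_atTop_add_const_left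
      exact (tendsto_pow_atTop two_ne_zero).comp (tendsto_atTop_add_const_left _ _ tendsto_id)
    have h2 := (tendsto_rpow_neg_atTop (y := 1 / 2) (by norm_num)).comp h1
    have h3 := h2.neg
    rw [neg_zero] at h3
    exact h3
  have hnn : ∀ u ∈ Ioi (0 : ℝ), 0 ≤ (s + u) / (A + (s + u) ^ 2) ^ (3 / 2 : ℝ) := by
    intro u hu
    have hu' : (0 : ℝ) < u := hu
    have := hpos u hu'.le
    positivity
  have hcont : ContinuousWithinAt (fun u : ℝ => -(A + (s + u) ^ 2) ^ (-(1 / 2) : ℝ)) (Ici 0) 0 :=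
    (hd 0 (mem_Ici.2 le_rfl)).continuousAt.continuousWithinAt
  have hint : IntegrableOn (fun u : ℝ => (s + u) / (A + (s + u) ^ 2) ^ (3 / 2 : ℝ)) (Ioi 0) :=
    integrableOn_Ioi_deriv_of_nonneg hcont (fun u hu => hd u (Ioi_subset_Ici_self hu)) hnn hlim
  have hval : ∫ u in Ioi (0 : ℝ), (s + u) / (A + (s + u) ^ 2) ^ (3 / 2 : ℝ) = 1 / √(A + s ^ 2) := by
    rw [integral_Ioi_of_hasDerivAt_of_nonneg hcont (fun u hu => hd u (Ioi_subset_Ici_self hu)) hnn hlim]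
    have h0 := hpos 0 le_rfl
    rw [add_zero] at h0 ⊢
    rw [Real.rpow_neg h0.le, ← Real.sqrt_eq_rpow]
    simp
  rw [← ofReal_integral_eq_lintegral_ofReal hint
    ((ae_restrict_iff' measurableSet_Ioi).2 (Eventually.of_forall hnn)), hval]

private theorem rp_rep {x y : E3} (hx : 0 < x 0) (hy : 0 < y 0) :
    ∫⁻ w, Ps x w * Ps y w ∂((volume.restrict (Ioi (0 : ℝ))).prod (volume : Measure P2)) =
      ENNReal.ofReal (1 / ‖rf x - y‖) := by
  have hpi := Real.pi_pos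
  have hm : Measurable (fun w : ℝ × P2 => Ps x w * Ps y w) :=
    (measurable_Ps.comp (measurable_const.prodMk measurable_id)).mul
      (measurable_Ps.comp (measurable_const.prodMk measurable_id))
  rw [lintegral_prod _ hm.aemeasurable]
  have hin : ∀ u ∈ Ioi (0 : ℝ), ∫⁻ p : P2, Ps x (u, p) * Ps y (u, p) =
      ENNReal.ofReal (((x 0 + y 0) + u) / (‖pr x - pr y‖ ^ 2 + ((x 0 + y 0) + u) ^ 2) ^ (3 / 2 : ℝ)) := by
    intro u hu
    have hu' : (0 : ℝ) < u := hu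
    have hs : (0 : ℝ) ≤ √(2 * Real.pi) := Real.sqrt_nonneg _
    have h1 := pois (a := x 0 + u / 2) (b := y 0 + u / 2) (by positivity) (by positivity) (pr x) (pr y)
    have h2 : ∀ p : P2, Ps x (u, p) * Ps y (u, p) = ENNReal.ofReal (2 * Real.pi) *
        (ENNReal.ofReal (Pk (x 0 + u / 2) (p - pr x)) * ENNReal.ofReal (Pk (y 0 + u / 2) (p - pr y))) := by
      intro p
      unfold Ps
      rw [ENNReal.ofReal_mul hs, ENNReal.ofReal_mul hs]
      have h3 : ENNReal.ofReal (2 * Real.pi) = ENNReal.ofReal (√(2 * Real.pi)) * ENNReal.ofReal (√(2 * Real.pi)) := by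
        rw [← ENNReal.ofReal_mul hs, Real.mul_self_sqrt (by positivity)]
      rw [h3]
      ring
    simp_rw [h2]
    rw [lintegral_const_mul', h1, ← ENNReal.ofReal_mul (by positivity)]
    · congr 1
      unfold Pk
      have e1 : x 0 + u / 2 + (y 0 + u / 2) = x 0 + y 0 + u := by ring
      rw [e1]
      have e2 : (0 : ℝ) < (‖pr x - pr y‖ ^ 2 + (x 0 + y 0 + u) ^ 2) ^ (3 / 2 : ℝ) := by positivity
      field_simp
    · exact ENNReal.ofReal_ne_top
  rw [setLIntegral_congr_fun measurableSet_Ioi hin, int_u (by positivity) (by positivity)]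
  congr 2
  have h1 : ‖rf x - y‖ ^ 2 = ‖pr x - pr y‖ ^ 2 + (x 0 + y 0) ^ 2 := by
    have h2 : rf x = mk (-(x 0)) (pr x) := by
      conv_lhs => rw [← mk_pr x, rf_mk]
    have h3 : y = mk (y 0) (pr y) := (mk_pr y).symm
    conv_lhs => rw [h2, h3, norm_mk_sub_sq]
    ring
  rw [← h1, Real.sqrt_sq (norm_nonneg _)]

private theorem two_mul_le (a b : ℝ≥0∞) : 2 * (a * b) ≤ a * a + b * b := by
  rcases eq_or_ne a ⊤ with ha | ha
  · rw [ha]
    simp
  rcases eq_or_ne b ⊤ with hb | hb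
  · rw [hb]
    simp
  lift a to ℝ≥0 using ha
  lift b to ℝ≥0 using hb
  norm_cast
  rw [← NNReal.coe_le_coe]
  push_cast
  nlinarith [sq_nonneg ((a : ℝ) - b)]

private theorem lint_eq {m n : Measure E3} (fm : IsFiniteMeasure m) (fn : IsFiniteMeasure n)
    (hm : m {x | x 0 ≤ 0} = 0) (hn : n {x | x 0 ≤ 0} = 0) :
    ∫⁻ q : E3 × E3, ENNReal.ofReal (1 / ‖rf q.1 - q.2‖) ∂(m.prod n) =
      ∫⁻ w, (∫⁻ x, Ps x w ∂m) * (∫⁻ y, Ps y w ∂n)
        ∂((volume.restrict (Ioi (0 : ℝ))).prod (volume : Measure P2)) := by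
  have hae : ∀ᵐ q : E3 × E3 ∂(m.prod n), 0 < q.1 0 ∧ 0 < q.2 0 := by
    have h1 : ∀ᵐ q : E3 × E3 ∂(m.prod n), 0 < q.1 0 := by
      have h2 : ∀ᵐ x ∂m, 0 < x 0 := by
        rw [ae_iff]
        simpa only [not_lt] using hm
      exact Measure.quasiMeasurePreserving_fst.ae h2
    have h3 : ∀ᵐ q : E3 × E3 ∂(m.prod n), 0 < q.2 0 := by
      have h2 : ∀ᵐ x ∂n, 0 < x 0 := by
        rw [ae_iff]
        simpa only [not_lt] using hn
      exact Measure.quasiMeasurePreserving_snd.ae h2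
    exact h1.and h3
  have e1 : ∫⁻ q : E3 × E3, ENNReal.ofReal (1 / ‖rf q.1 - q.2‖) ∂(m.prod n) =
      ∫⁻ q : E3 × E3, ∫⁻ w, Ps q.1 w * Ps q.2 w
        ∂((volume.restrict (Ioi (0 : ℝ))).prod (volume : Measure P2)) ∂(m.prod n) := by
    refine lintegral_congr_ae ?_
    filter_upwards [hae] with q hq
    exact (rp_rep hq.1 hq.2).symm
  rw [e1, lintegral_lintegral_swap]
  · refine lintegral_congr fun w => ?_
    have hmw : Measurable (fun x : E3 => Ps x w) :=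
      measurable_Ps.comp (measurable_id.prodMk measurable_const)
    exact lintegral_prod_mul hmw.aemeasurable hmw.aemeasurable
  · have h1 : Measurable (fun p : (E3 × E3) × (ℝ × P2) => Ps p.1.1 p.2 * Ps p.1.2 p.2) :=
      (measurable_Ps.comp ((measurable_fst.comp measurable_fst).prodMk measurable_snd)).mul
        (measurable_Ps.comp ((measurable_snd.comp measurable_fst).prodMk measurable_snd))
    exact h1.aemeasurable

private theorem KK_eq {m n : Measure E3} (fm : IsFiniteMeasure m) (fn : IsFiniteMeasure n)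
    (hm : m {x | x 0 ≤ 0} = 0) (hn : n {x | x 0 ≤ 0} = 0)
    (i : Integrable (fun q : E3 × E3 => 1 / ‖rf q.1 - q.2‖) (m.prod n)) :
    KK m n = (∫⁻ w, (∫⁻ x, Ps x w ∂m) * (∫⁻ y, Ps y w ∂n)
        ∂((volume.restrict (Ioi (0 : ℝ))).prod (volume : Measure P2))).toReal ∧
      ∫⁻ w, (∫⁻ x, Ps x w ∂m) * (∫⁻ y, Ps y w ∂n)
        ∂((volume.restrict (Ioi (0 : ℝ))).prod (volume : Measure P2)) ≠ ⊤ := by
  have hnn : ∀ q : E3 × E3, 0 ≤ 1 / ‖rf q.1 - q.2‖ := fun q => by positivity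
  rw [← lint_eq fm fn hm hn]
  constructor
  · unfold KK
    rw [← integral_prod _ i, integral_eq_lintegral_of_nonneg_ae (Eventually.of_forall hnn) i.1]
  · have h1 := i.2
    rw [hasFiniteIntegral_iff_ofReal (Eventually.of_forall hnn)] at h1
    exact h1.ne

theorem rp_pos {m1 m2 : Measure E3} (f1 : IsFiniteMeasure m1) (f2 : IsFiniteMeasure m2)
    (h1 : m1 {x | x 0 ≤ 0} = 0) (h2 : m2 {x | x 0 ≤ 0} = 0)
    (i11 : Integrable (fun q : E3 × E3 => 1 / ‖rf q.1 - q.2‖) (m1.prod m1))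
    (i12 : Integrable (fun q : E3 × E3 => 1 / ‖rf q.1 - q.2‖) (m1.prod m2))
    (i22 : Integrable (fun q : E3 × E3 => 1 / ‖rf q.1 - q.2‖) (m2.prod m2)) :
    2 * KK m1 m2 ≤ KK m1 m1 + KK m2 m2 := by
  obtain ⟨e11, t11⟩ := KK_eq f1 f1 h1 h1 i11
  obtain ⟨e12, t12⟩ := KK_eq f1 f2 h1 h2 i12
  obtain ⟨e22, t22⟩ := KK_eq f2 f2 h2 h2 i22
  have hF : ∀ m : Measure E3, IsFiniteMeasure m → Measurable (fun w : ℝ × P2 => ∫⁻ x, Ps x w ∂m) := by
    intro m hm
    exact Measurable.lintegral_prod_right' (f := fun q : (ℝ × P2) × E3 => Ps q.2 q.1)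
      (measurable_Ps.comp measurable_swap)
  have key : 2 * ∫⁻ w, (∫⁻ x, Ps x w ∂m1) * (∫⁻ y, Ps y w ∂m2)
        ∂((volume.restrict (Ioi (0 : ℝ))).prod (volume : Measure P2)) ≤
      (∫⁻ w, (∫⁻ x, Ps x w ∂m1) * (∫⁻ y, Ps y w ∂m1)
        ∂((volume.restrict (Ioi (0 : ℝ))).prod (volume : Measure P2))) +
      ∫⁻ w, (∫⁻ x, Ps x w ∂m2) * (∫⁻ y, Ps y w ∂m2)
        ∂((volume.restrict (Ioi (0 : ℝ))).prod (volume : Measure P2)) := by
    have e3 := lintegral_add_left (μ := (volume.restrict (Ioi (0 : ℝ))).prod (volume : Measure P2))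
      (f := fun w : ℝ × P2 => (∫⁻ x, Ps x w ∂m1) * (∫⁻ y, Ps y w ∂m1))
      ((hF m1 f1).mul (hF m1 f1)) (fun w => (∫⁻ x, Ps x w ∂m2) * (∫⁻ y, Ps y w ∂m2))
    rw [← lintegral_const_mul' _ _ (by norm_num), ← e3]
    exact lintegral_mono fun w => two_mul_le _ _
  have k2 := ENNReal.toReal_mono (ENNReal.add_ne_top.2 ⟨t11, t22⟩) key
  rw [ENNReal.toReal_mul, ENNReal.toReal_add t11 t22, ← e11, ← e12, ← e22] at k2
  simpa using k2

end Pool.Agent.H50.TM
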