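import Pool.Agent.H50.TM.RPpos
import Pool.Agent.H50.TM.RPdec
import Pool.Agent.H50.TM.Coer
import Pool.Agent.H50.TM.Comp

/-!
# Module RPmid: midpoint convexity in the distance

`d_a` (`a = 1, 2`), `ρ_a` near minimisers for `sym M d_a` (`exists_near`). Symmetrise: `ρ_a' = (ρ_a + ρ_a ∘ rf)/2` (`tf_conv` with `t = 1/2`, `tf_sym_rf`): `tf ρ_a' ≤ tf ρ_a`, the same
mass; replace by a measurable nonnegative symmetric representative (`tf_congr_ae`). Let `r_a = rp ρ_a'`: `ρ_a' = r_a ∘ rf + r_a` a.e., mass `N/2`. With `M_a = M + d_a e0`, `tf_glue`: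
`tf (sym M d_a) ρ_a' = 2 tf M_a z r_a + CR M_a M_a z r_a r_a`, and the glued density `r_1 ∘ rf + r_2` (mass `N`) for `Fin.append (rf ∘ M_1) M_2` has energy
`tf M_1 r_1 + tf M_2 r_2 + CR M_1 M_2 r_1 r_2 ≤ (1/2)(tf (sym M d_1) ρ_1' + tf (sym M d_2) ρ_2')` (`CR_pos`). Finally
`Fin.append (rf ∘ M_1) M_2 = sym M ((d_1+d_2)/2) + ((d_2-d_1)/2) e0`, so `En_iso` (with `L = id`); let `ε → 0`.
-/

set_option autoImplicit false

open MeasureTheory Set Filter Topology
open scoped ENNReal NNReal

namespace Pool.Agent.H50.TM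

open Pool.Agent.H23.TF

variable {γ : ℝ} {k : ℕ} {M : Fin k → E3} {z : Fin k → ℝ}

private theorem rm_dn_rf {ρ : E3 → ℝ} (h : DN ρ) : DN (fun x => ρ (rf x)) :=
  ⟨fun x => h.nonneg _, integrable_rf h.int, integrable_rf (f := fun x => ρ x ^ (5 / 3 : ℝ)) h.int53⟩

private theorem rm_append_nn (hz : ∀ i, 0 ≤ z i) : ∀ i, 0 ≤ Fin.append z z i := by
  intro i
  refine Fin.addCases (fun i => ?_) (fun i => ?_) i
  · rw [Fin.append_left]; exact hz i
  · rw [Fin.append_right]; exact hz i

/-- a measurable representative -/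
private theorem rm_meas {ρ : E3 → ℝ} (h : DN ρ) :
    ∃ ρm : E3 → ℝ, Measurable ρm ∧ (∀ x, 0 ≤ ρm x) ∧ ρm =ᵐ[volume] ρ := by
  refine ⟨fun x => max (h.int.aestronglyMeasurable.mk ρ x) 0,
    (h.int.aestronglyMeasurable.stronglyMeasurable_mk.measurable).max measurable_const,
    fun x => le_max_right _ _, ?_⟩
  filter_upwards [h.int.aestronglyMeasurable.ae_eq_mk] with x hx
  rw [← hx]
  exact max_eq_left (h.nonneg x)

private theorem rm_half (hγ : 0 < γ) (M : Fin k → E3) {d : ℝ} {N : ℝ} {ρ : E3 → ℝ}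
    (h : Density N ρ) :
    ∃ r : E3 → ℝ, Measurable r ∧ DN r ∧ (∀ x : E3, x 0 ≤ 0 → r x = 0) ∧ (∫ x, r x) = N / 2 ∧
      2 * tf γ (fun i => M i + d • e0) z r +
        CR (fun i => M i + d • e0) (fun i => M i + d • e0) z r r ≤
        tf γ (sym M d) (Fin.append z z) ρ := by
  have hd := Density.dn h
  obtain ⟨ρm, hm, hnn, hae⟩ := rm_meas hd
  have hdm : DN ρm := by
    refine ⟨hnn, hd.int.congr hae.symm, hd.int53.congr ?_⟩
    filter_upwards [hae] with x hx
    rw [hx]
  have hdr : DN (fun x => ρm (rf x)) := rm_dn_rf hdm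
  let s : E3 → ℝ := fun x => (1 - 1 / 2) * ρm (rf x) + 1 / 2 * ρm x
  have hs : DN s := (hdr.smul (c := 1 - 1 / 2) (by norm_num)).add (hdm.smul (c := 1 / 2) (by norm_num))
  let r : E3 → ℝ := fun x => if 0 < x 0 then s x else 0
  have hrf : Measurable rf := continuous_rf.measurable
  have hsm : Measurable s := ((hm.comp hrf).const_mul _).add (hm.const_mul _)
  have hset : MeasurableSet {x : E3 | 0 < x 0} := isOpen_Hp.measurableSet
  have hrm : Measurable r := Measurable.ite hset hsm measurable_const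
  have hr_eq : r = {x : E3 | 0 < x 0}.indicator s := by
    funext x
    by_cases hx : 0 < x 0
    · rw [indicator_of_mem (show x ∈ {x : E3 | 0 < x 0} from hx)]
      exact if_pos hx
    · rw [indicator_of_notMem (show x ∉ {x : E3 | 0 < x 0} from hx)]
      exact if_neg hx
  have hrdn : DN r := by
    refine ⟨fun x => ?_, ?_, ?_⟩
    · show 0 ≤ if 0 < x 0 then s x else 0
      split_ifs
      · exact hs.nonneg x
      · exact le_rfl
    · rw [hr_eq]
      exact hs.int.indicator hset
    · have : (fun x => r x ^ (5 / 3 : ℝ)) = {x : E3 | 0 < x 0}.indicator fun x => s x ^ (5 / 3 : ℝ) := by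
        funext x
        by_cases hx : 0 < x 0
        · rw [indicator_of_mem (show x ∈ {x : E3 | 0 < x 0} from hx)]
          show (if 0 < x 0 then s x else 0) ^ (5 / 3 : ℝ) = _
          rw [if_pos hx]
        · rw [indicator_of_notMem (show x ∉ {x : E3 | 0 < x 0} from hx)]
          show (if 0 < x 0 then s x else 0) ^ (5 / 3 : ℝ) = _
          rw [if_neg hx]
          exact Real.zero_rpow (by norm_num)
      rw [this]
      exact hs.int53.indicator hset
  have hr0 : ∀ x : E3, x 0 ≤ 0 → r x = 0 := fun x hx => if_neg (not_lt.mpr hx)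
  have hsrf : ∀ x, s (rf x) = s x := by
    intro x
    show (1 - 1 / 2) * ρm (rf (rf x)) + 1 / 2 * ρm (rf x) = (1 - 1 / 2) * ρm (rf x) + 1 / 2 * ρm x
    rw [rf_rf]
    ring
  have hglue : (fun x => r (rf x) + r x) =ᵐ[volume] s := by
    filter_upwards [plane_ae] with x hx
    rcases lt_or_gt_of_ne hx with h1 | h1
    · have h2 : 0 < (rf x) 0 := by rw [rf_zero]; linarith
      show (if 0 < (rf x) 0 then s (rf x) else 0) + r x = s x
      rw [if_pos h2, hr0 x h1.le, add_zero, hsrf]
    · have h2 : (rf x) 0 ≤ 0 := by rw [rf_zero]; linarith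
      show r (rf x) + (if 0 < x 0 then s x else 0) = s x
      rw [if_pos h1, hr0 _ h2, zero_add]
  have hs_int : (∫ x, s x) = N := by
    show (∫ x, ((1 - 1 / 2) * ρm (rf x) + 1 / 2 * ρm x)) = N
    rw [integral_add (hdr.int.const_mul _) (hdm.int.const_mul _), integral_const_mul,
      integral_const_mul, integral_rf ρm]
    have : (∫ x, ρm x) = N := by rw [integral_congr_ae hae, h.mass]
    rw [this]
    ring
  refine ⟨r, hrm, hrdn, hr0, ?_, ?_⟩
  · have h1 : (∫ x, (r (rf x) + r x)) = N := by rw [integral_congr_ae hglue, hs_int]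
    rw [integral_add (integrable_rf hrdn.int) hrdn.int, integral_rf r] at h1
    linarith
  · have h1 := tf_glue γ (fun i => M i + d • e0) (fun i => M i + d • e0) z hrdn hrdn hr0 hr0
    have h2 : tf γ (sym M d) (Fin.append z z) (fun x => r (rf x) + r x) =
        tf γ (fun i => M i + d • e0) z r + tf γ (fun i => M i + d • e0) z r +
          CR (fun i => M i + d • e0) (fun i => M i + d • e0) z r r := h1
    rw [tf_congr_ae γ _ _ hglue] at h2
    have h3 := tf_conv hγ (sym M d) (Fin.append z z) hdr hdm (t := 1 / 2) (by norm_num) (by norm_num)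
    rw [tf_sym_rf, tf_congr_ae γ (sym M d) (Fin.append z z) hae] at h3
    have h4 : tf γ (sym M d) (Fin.append z z) s ≤
        (1 - 1 / 2) * tf γ (sym M d) (Fin.append z z) ρ +
          1 / 2 * tf γ (sym M d) (Fin.append z z) ρ := h3
    linarith

theorem en_mid (hγ : 0 < γ) (M : Fin k → E3) (hz : ∀ i, 0 ≤ z i) {d1 d2 : ℝ} (h1 : ∀ i, 0 < (M i) 0 + d1) (h2 : ∀ i, 0 < (M i) 0 + d2)
    {N : ℝ} (hN : 0 ≤ N) :
    En γ (sym M ((d1 + d2) / 2)) (Fin.append z z) N ≤
      (En γ (sym M d1) (Fin.append z z) N + En γ (sym M d2) (Fin.append z z) N) / 2 := by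
  apply le_of_forall_pos_le_add
  intro ε hε
  have hzz := rm_append_nn hz
  obtain ⟨ρ1, hρ1, he1⟩ := exists_near hγ (sym M d1) hzz hN hε
  obtain ⟨ρ2, hρ2, he2⟩ := exists_near hγ (sym M d2) hzz hN hε
  obtain ⟨r1, m1, dn1, s1, i1, t1⟩ := rm_half (z := z) hγ M (d := d1) hρ1
  obtain ⟨r2, m2, dn2, s2, i2, t2⟩ := rm_half (z := z) hγ M (d := d2) hρ2
  have hCR := CR_pos (M1 := fun i => M i + d1 • e0) (M2 := fun i => M i + d2 • e0)
    (fun i => by rw [add_e0_zero]; exact h1 i) (fun i => by rw [add_e0_zero]; exact h2 i) hz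
    m1 m2 dn1 dn2 s1 s2
  have hgl := tf_glue γ (fun i => M i + d1 • e0) (fun i => M i + d2 • e0) z dn1 dn2 s1 s2
  have hdn : DN (fun x => r1 (rf x) + r2 x) := (rm_dn_rf dn1).add dn2
  have hdens : Density N (fun x => r1 (rf x) + r2 x) := by
    have h3 := DN.density hdn
    have h4 : (∫ x, (r1 (rf x) + r2 x)) = N := by
      rw [integral_add (integrable_rf dn1.int) dn2.int, integral_rf r1, i1, i2]
      ring
    rwa [h4] at h3
  have hle := En_le hγ (Fin.append (fun i => rf (M i + d1 • e0)) (fun i => M i + d2 • e0)) hzz hdens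
  rw [hgl] at hle
  have hiso : (fun i => (LinearIsometryEquiv.refl ℝ E3) (sym M ((d1 + d2) / 2) i) +
      ((d2 - d1) / 2) • e0) =
      Fin.append (fun i => rf (M i + d1 • e0)) (fun i => M i + d2 • e0) := by
    funext i
    refine Fin.addCases (fun i => ?_) (fun i => ?_) i
    · unfold sym
      rw [Fin.append_left, Fin.append_left]
      ext j
      fin_cases j
      · simp
        ring
      · simp [e0]
      · simp [e0]
    · unfold sym
      rw [Fin.append_right, Fin.append_right]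
      ext j
      fin_cases j
      · simp
        ring
      · simp [e0]
      · simp [e0]
  have hEn := En_iso γ (sym M ((d1 + d2) / 2)) (Fin.append z z) (LinearIsometryEquiv.refl ℝ E3)
    (((d2 - d1) / 2) • e0) N
  rw [hiso] at hEn
  rw [hEn] at hle
  linarith

end Pool.Agent.H50.TM
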