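import Pool.Agent.H50.TM.RPker
import Pool.Agent.H50.TM.DenB

/-!
# Module RPpos: reflection positivity for molecules

`K(m, n) = KK m n` is bilinear and symmetric on the measures `ν_a = nu (M_a) z`, `d_a = dens ρ_a` (`a = 1, 2`); all are finite and live on `x₀ > 0`; integrability on
the products: `ν ν`: finite sums (atoms with `x₀ > 0`, so `rf x ≠ y`); `ν d`: `1/‖rf x - y‖ ≤ 1/‖x-y‖`-type bound, `Ld.int_div`; `d d`: `Ld.int_prod` with `Ld_rf`.
`CR M_a M_b z ρ_a ρ_b = K(ν_a, ν_b) - K(ν_a, d_b) - K(ν_b, d_a) + K(d_a, d_b)` (`integral_nu`, `integral_dens`, definition of `G`).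
With `m1 = ν_1 + d_2`, `m2 = ν_2 + d_1`: `K(m1,m1) + K(m2,m2) - 2 K(m1,m2) = CR_11 + CR_22 - 2 CR_12` (expand; symmetry of `K`), and `rp_pos`.
-/

set_option autoImplicit false

open MeasureTheory Set Filter Topology
open scoped ENNReal NNReal

namespace Pool.Agent.H50.TM

open Pool.Agent.H23.TF

variable {k : ℕ} {M1 M2 : Fin k → E3} {z : Fin k → ℝ} {ρ1 ρ2 : E3 → ℝ}

private theorem rpp_DN_Ld {ρ : E3 → ℝ} (d : DN ρ) : Ld ρ := Ld.of_nonneg d.nonneg d.int d.int53

private theorem rpp_fin_nu (M : Fin k → E3) (z : Fin k → ℝ) : IsFiniteMeasure (nu M z) := by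
  refine ⟨?_⟩
  unfold nu
  rw [Measure.finsetSum_apply]
  refine ENNReal.sum_lt_top.mpr fun i _ => ?_
  rw [Measure.smul_apply, Measure.dirac_apply_of_mem (mem_univ _), smul_eq_mul, mul_one]
  exact ENNReal.ofReal_lt_top

private theorem rpp_fin_dens {ρ : E3 → ℝ} (d : DN ρ) : IsFiniteMeasure (dens ρ) := by
  unfold dens
  exact isFiniteMeasure_withDensity_ofReal d.int.2

private theorem rpp_null_nu {M : Fin k → E3} (hM : ∀ i, 0 < (M i) 0) (z : Fin k → ℝ) :
    (nu M z) {x | x 0 ≤ 0} = 0 := by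
  unfold nu
  rw [Measure.finsetSum_apply]
  refine Finset.sum_eq_zero fun i _ => ?_
  have hm : MeasurableSet {x : E3 | x 0 ≤ 0} := measurableSet_le (by fun_prop) measurable_const
  rw [Measure.smul_apply, Measure.dirac_apply' _ hm, indicator_of_notMem, smul_zero]
  simpa using hM i

private theorem rpp_null_dens {ρ : E3 → ℝ} (s : ∀ x : E3, x 0 ≤ 0 → ρ x = 0) : (dens ρ) {x | x 0 ≤ 0} = 0 := side_right s

private theorem rpp_cont_rf : Continuous rf := by
  unfold rf
  fun_prop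

private theorem rpp_meas : Measurable (fun q : E3 × E3 => 1 / ‖rf q.1 - q.2‖) := by
  have := rpp_cont_rf.measurable
  have h : Measurable (fun q : E3 × E3 => ‖rf q.1 - q.2‖) := by
    exact ((this.comp measurable_fst).sub measurable_snd).norm
  exact measurable_const.div h

private theorem rpp_ker_symm (x y : E3) : 1 / ‖rf x - y‖ = 1 / ‖rf y - x‖ := by
  rw [norm_rf_sub', norm_sub_rev]

/-- pointwise integrability in `y` -/
private theorem rpp_int_y {ρ : E3 → ℝ} (m : Measurable ρ) (d : DN ρ) (x : E3) :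
    Integrable (fun y => 1 / ‖rf x - y‖) (dens ρ) := by
  rw [integrable_dens m d.nonneg]
  refine ((rpp_DN_Ld d).int_div (rf x)).congr (Eventually.of_forall fun y => ?_)
  simp only
  ring

private theorem rpp_val_y {ρ : E3 → ℝ} (m : Measurable ρ) (d : DN ρ) (x : E3) :
    ∫ y, 1 / ‖rf x - y‖ ∂(dens ρ) = G ρ (rf x) := by
  rw [integral_dens m d.nonneg]
  unfold G
  refine integral_congr_ae (Eventually.of_forall fun y => ?_)
  simp only
  ring

private theorem rpp_nu_any {M : Fin k → E3} (z : Fin k → ℝ) {n : Measure E3} [IsFiniteMeasure n]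
    (h : ∀ x, Integrable (fun y => 1 / ‖rf x - y‖) n) :
    Integrable (fun q : E3 × E3 => 1 / ‖rf q.1 - q.2‖) ((nu M z).prod n) := by
  rw [integrable_prod_iff rpp_meas.aestronglyMeasurable]
  exact ⟨Eventually.of_forall h, integrable_nu _ _ _⟩

private theorem rpp_swap {m n : Measure E3} [IsFiniteMeasure m] [IsFiniteMeasure n]
    (h : Integrable (fun q : E3 × E3 => 1 / ‖rf q.1 - q.2‖) (m.prod n)) :
    Integrable (fun q : E3 × E3 => 1 / ‖rf q.1 - q.2‖) (n.prod m) := by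
  refine h.swap.congr (Eventually.of_forall fun q => ?_)
  simp only [Function.comp, Prod.fst_swap, Prod.snd_swap]
  exact rpp_ker_symm _ _

private theorem rpp_int_rho_G {ρ σ : E3 → ℝ} (m' : Measurable σ) (d : DN ρ) (d' : DN σ) :
    Integrable (fun x => ρ x * G σ (rf x)) := by
  obtain ⟨C, hC⟩ := (rpp_DN_Ld d').G_bdd
  exact d.int.mul_bdd (c := C)
    (((measurable_G m').comp rpp_cont_rf.measurable).aestronglyMeasurable)
    (Eventually.of_forall fun x => hC (rf x))

private theorem rpp_dd {ρ σ : E3 → ℝ} (m : Measurable ρ) (m' : Measurable σ) (d : DN ρ) (d' : DN σ) :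
    Integrable (fun q : E3 × E3 => 1 / ‖rf q.1 - q.2‖) ((dens ρ).prod (dens σ)) := by
  haveI := rpp_fin_dens d
  haveI := rpp_fin_dens d'
  rw [integrable_prod_iff rpp_meas.aestronglyMeasurable]
  refine ⟨Eventually.of_forall (rpp_int_y m' d'), ?_⟩
  rw [integrable_dens m d.nonneg]
  refine (rpp_int_rho_G m' d d').congr (Eventually.of_forall fun x => ?_)
  simp only
  congr 1
  rw [← rpp_val_y m' d']
  refine integral_congr_ae (Eventually.of_forall fun y => ?_)
  simp only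
  rw [Real.norm_of_nonneg (by positivity)]

private theorem rpp_int_prod {Ma Mc : Fin k → E3} {ρb ρe : E3 → ℝ} (mb : Measurable ρb) (me : Measurable ρe)
    (db : DN ρb) (de : DN ρe) :
    Integrable (fun q : E3 × E3 => 1 / ‖rf q.1 - q.2‖)
      ((nu Ma z + dens ρb).prod (nu Mc z + dens ρe)) := by
  haveI := rpp_fin_dens db
  haveI := rpp_fin_dens de
  haveI := rpp_fin_nu Ma z
  haveI := rpp_fin_nu Mc z
  rw [Measure.add_prod, Measure.prod_add, Measure.prod_add]
  have h1 : Integrable (fun q : E3 × E3 => 1 / ‖rf q.1 - q.2‖) ((nu Ma z).prod (nu Mc z)) :=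
    rpp_nu_any z (fun x => integrable_nu _ _ _)
  have h2 : Integrable (fun q : E3 × E3 => 1 / ‖rf q.1 - q.2‖) ((nu Ma z).prod (dens ρe)) :=
    rpp_nu_any z (rpp_int_y me de)
  have h3 : Integrable (fun q : E3 × E3 => 1 / ‖rf q.1 - q.2‖) ((dens ρb).prod (nu Mc z)) :=
    rpp_swap (rpp_nu_any z (rpp_int_y mb db))
  have h4 := rpp_dd mb me db de
  exact (h1.add_measure h2).add_measure (h3.add_measure h4)

private theorem rpp_KK (hz : ∀ i, 0 ≤ z i) {Ma Mc : Fin k → E3} {ρb ρe : E3 → ℝ} (mb : Measurable ρb) (me : Measurable ρe)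
    (db : DN ρb) (de : DN ρe) :
    KK (nu Ma z + dens ρb) (nu Mc z + dens ρe) =
      (∑ i, ∑ j, z i * z j / ‖rf (Ma i) - Mc j‖) + (∑ i, z i * G ρe (rf (Ma i))) +
        (∑ j, z j * G ρb (rf (Mc j))) + ∫ x, ρb x * G ρe (rf x) := by
  haveI := rpp_fin_dens db
  haveI := rpp_fin_dens de
  haveI := rpp_fin_nu Ma z
  haveI := rpp_fin_nu Mc z
  unfold KK
  have e1 : ∀ x, ∫ y, 1 / ‖rf x - y‖ ∂(nu Mc z + dens ρe) =
      (∑ j, z j * (1 / ‖rf x - Mc j‖)) + G ρe (rf x) := by
    intro x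
    rw [integral_add_measure (integrable_nu _ _ _) (rpp_int_y me de x), integral_nu hz, rpp_val_y me de]
  simp only [e1]
  have i1 : ∀ j, Integrable (fun x => ρb x * (z j * (1 / ‖rf x - Mc j‖))) := by
    intro j
    refine (((rpp_DN_Ld db).int_div (rf (Mc j))).const_mul (z j)).congr (Eventually.of_forall fun x => ?_)
    simp only
    rw [rpp_ker_symm x (Mc j)]
    ring
  have i2 : Integrable (fun x => ρb x * ∑ j, z j * (1 / ‖rf x - Mc j‖)) := by
    simp only [Finset.mul_sum]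
    exact integrable_finset_sum _ fun j _ => i1 j
  have i3 : Integrable (fun x => ρb x * ((∑ j, z j * (1 / ‖rf x - Mc j‖)) + G ρe (rf x))) := by
    simp only [mul_add]
    exact i2.add (rpp_int_rho_G me db de)
  rw [integral_add_measure (integrable_nu _ _ _) ((integrable_dens mb db.nonneg).2 i3), integral_nu hz,
    integral_dens mb db.nonneg]
  simp only [mul_add]
  rw [integral_add i2 (rpp_int_rho_G me db de), Finset.sum_add_distrib]
  have e2 : ∫ x, ρb x * ∑ j, z j * (1 / ‖rf x - Mc j‖) = ∑ j, z j * G ρb (rf (Mc j)) := by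
    simp only [Finset.mul_sum]
    rw [integral_finset_sum _ fun j _ => i1 j]
    refine Finset.sum_congr rfl fun j _ => ?_
    unfold G
    rw [← integral_const_mul]
    refine integral_congr_ae (Eventually.of_forall fun x => ?_)
    simp only
    rw [rpp_ker_symm x (Mc j)]
    ring
  have e3 : ∑ i, z i * ∑ j, z j * (1 / ‖rf (Ma i) - Mc j‖) = ∑ i, ∑ j, z i * z j / ‖rf (Ma i) - Mc j‖ := by
    refine Finset.sum_congr rfl fun i _ => ?_
    rw [Finset.mul_sum]
    refine Finset.sum_congr rfl fun j _ => ?_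
    ring
  rw [e2, e3]
  ring

private theorem rpp_symm {ρ σ : E3 → ℝ} (d : DN ρ) (d' : DN σ) :
    ∫ x, ρ x * G σ (rf x) = ∫ x, σ x * G ρ (rf x) := by
  have h1 : ∫ x, ρ x * G σ (rf x) = ∫ x, ρ x * G (fun y => σ (rf y)) x := by
    refine integral_congr_ae (Eventually.of_forall fun x => ?_)
    simp only
    rw [G_rf]
  rw [h1, G_symm (rpp_DN_Ld d) (Ld_rf (rpp_DN_Ld d'))]
  have h2 := integral_rf (fun x => σ (rf x) * G ρ x)
  simp only [rf_rf] at h2
  rw [← h2]

theorem CR_pos (hM1 : ∀ i, 0 < (M1 i) 0) (hM2 : ∀ i, 0 < (M2 i) 0) (hz : ∀ i, 0 ≤ z i)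
    (m1 : Measurable ρ1) (m2 : Measurable ρ2) (d1 : DN ρ1) (d2 : DN ρ2)
    (s1 : ∀ x : E3, x 0 ≤ 0 → ρ1 x = 0) (s2 : ∀ x : E3, x 0 ≤ 0 → ρ2 x = 0) :
    2 * CR M1 M2 z ρ1 ρ2 ≤ CR M1 M1 z ρ1 ρ1 + CR M2 M2 z ρ2 ρ2 := by
  haveI := rpp_fin_dens d1
  haveI := rpp_fin_dens d2
  haveI := rpp_fin_nu M1 z
  haveI := rpp_fin_nu M2 z
  have h := rp_pos (m1 := nu M1 z + dens ρ2) (m2 := nu M2 z + dens ρ1) inferInstance inferInstance
    (by rw [Measure.add_apply, rpp_null_nu hM1, rpp_null_dens s2, add_zero])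
    (by rw [Measure.add_apply, rpp_null_nu hM2, rpp_null_dens s1, add_zero])
    (rpp_int_prod m2 m2 d2 d2) (rpp_int_prod m2 m1 d2 d1) (rpp_int_prod m1 m1 d1 d1)
  rw [rpp_KK hz m2 m1 d2 d1, rpp_KK hz m2 m2 d2 d2, rpp_KK hz m1 m1 d1 d1, rpp_symm d2 d1] at h
  unfold CR
  linarith

end Pool.Agent.H50.TM
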