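import Pool.Agent.H50.TM.GeoM

/-!
# Module RegB: measures with bounded density near the plane

* `Reg.add`, `Reg.map_rf`: `{|x₀| < d}` is invariant under `rf` (`Measure.restrict_map`, `mp_rf.map_eq`).
* `Reg.plane`: `m {x₀ = 0} ≤ (m.restrict slab) {x₀ = 0} ≤ C vol {x₀ = 0} = 0` (`plane_null`).
* `inv2`: `n` Reg, `n {x₀ ≤ 0} = 0`, `x₀ ≤ 0`. Split `y`: (a) `‖x-y‖ ≥ 1`: `≤ n univ`; (b) `‖x-y‖ < 1`, `y₀ ≥ d`: `‖x-y‖ ≥ y₀ - x₀ ≥ d`, `≤ d^(-2) n univ`;
  (c) `‖x-y‖ < 1`, `|y₀| < d`: `≤ C ∫_{‖x-y‖<1} ‖x-y‖^(-2) dy`, a constant independent of `x` (`integrableOn_ball` in H23/TF/A1_Rad with `p = 2`).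
  As lintegrals; then `Integrable` and the bound. `inv2'` is the mirror image.
* `fld_int`: `|y₀| ≤ ‖mk 0 p - y‖`, so the integrand is `≤ ‖mk 0 p - y‖^(-2)`.
* `measurable_fld`: `StronglyMeasurable.integral_prod_right` (measurable integrand on `P2 × E3`, finite measure).
* `fld_map_rf`: `integral_map`, `|(rf y)₀| = |y₀|`, `norm_plane`.
-/

set_option autoImplicit false

open MeasureTheory Set Filter Topology
open scoped ENNReal NNReal

namespace Pool.Agent.H50.TM

open Pool.Agent.H23.TF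

variable {m n : Measure E3}

private theorem slab_meas (d : ℝ) : MeasurableSet {x : E3 | |x 0| < d} :=
  (isOpen_lt (continuous_zero.abs) continuous_const).measurableSet

private theorem rf_pre_slab (d : ℝ) : rf ⁻¹' {x : E3 | |x 0| < d} = {x : E3 | |x 0| < d} := by
  ext x; simp [abs_neg]

theorem Reg.isFin (hm : Reg m) : IsFiniteMeasure m := ⟨hm.fin⟩

theorem Reg.add (hm : Reg m) (hn : Reg n) : Reg (m + n) := by
  obtain ⟨d1, hd1, C1, h1⟩ := hm.slab
  obtain ⟨d2, hd2, C2, h2⟩ := hn.slab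
  refine ⟨?_, min d1 d2, lt_min hd1 hd2, C1 + C2, ?_⟩
  · rw [Measure.add_apply]; exact ENNReal.add_lt_top.2 ⟨hm.fin, hn.fin⟩
  · rw [Measure.restrict_add]
    have s1 : {x : E3 | |x 0| < min d1 d2} ⊆ {x : E3 | |x 0| < d1} := fun x hx => lt_of_lt_of_le (show |x 0| < min d1 d2 from hx) (min_le_left _ _)
    have s2 : {x : E3 | |x 0| < min d1 d2} ⊆ {x : E3 | |x 0| < d2} := fun x hx => lt_of_lt_of_le (show |x 0| < min d1 d2 from hx) (min_le_right _ _)
    have e1 : m.restrict {x : E3 | |x 0| < min d1 d2} ≤ (C1 : ℝ≥0∞) • volume := (Measure.restrict_mono s1 le_rfl).trans h1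
    have e2 : n.restrict {x : E3 | |x 0| < min d1 d2} ≤ (C2 : ℝ≥0∞) • volume := (Measure.restrict_mono s2 le_rfl).trans h2
    calc m.restrict {x : E3 | |x 0| < min d1 d2} + n.restrict {x : E3 | |x 0| < min d1 d2}
        ≤ (C1 : ℝ≥0∞) • volume + (C2 : ℝ≥0∞) • volume := add_le_add e1 e2
      _ = ((C1 + C2 : ℝ≥0) : ℝ≥0∞) • volume := by rw [← add_smul, ENNReal.coe_add]

theorem Reg.map_rf (hm : Reg m) : Reg (m.map rf) := by
  obtain ⟨d, hd, C, h⟩ := hm.slab
  have hme : Measurable rf := continuous_rf.measurable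
  refine ⟨?_, d, hd, C, ?_⟩
  · rw [Measure.map_apply hme MeasurableSet.univ, preimage_univ]; exact hm.fin
  · rw [Measure.restrict_map hme (slab_meas d), rf_pre_slab]
    refine (Measure.map_mono h hme).trans ?_
    rw [Measure.map_smul, mp_rf.map_eq]

theorem Reg.plane (hm : Reg m) : m {x | x 0 = 0} = 0 := by
  obtain ⟨d, hd, C, h⟩ := hm.slab
  have hms : MeasurableSet {x : E3 | x 0 = 0} := (isClosed_eq continuous_zero continuous_const).measurableSet
  have h1 : m {x : E3 | x 0 = 0} = m.restrict {x : E3 | |x 0| < d} {x : E3 | x 0 = 0} := by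
    rw [Measure.restrict_apply hms]
    congr 1
    ext x
    simp only [mem_ofPred_eq, mem_inter_iff]
    constructor
    · intro hx; exact ⟨hx, by rw [hx]; simpa using hd⟩
    · intro hx; exact hx.1
  rw [h1]
  refine le_antisymm ((h _).trans ?_) zero_le
  rw [Measure.smul_apply, plane_null]
  simp

private noncomputable def gk (y : E3) : ℝ≥0∞ := (Metric.ball (0 : E3) 1).indicator (fun y => ENNReal.ofReal ((‖y‖ ^ 2)⁻¹)) y

private theorem gk_meas : Measurable gk :=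
  Measurable.indicator (by fun_prop) Metric.isOpen_ball.measurableSet

private theorem gk_fin : ∫⁻ y, gk y < ∞ := by
  have h := integrableOn_ball (p := 2) (by norm_num) (by norm_num) (0 : E3) 1
  have h1 : ∫⁻ y, gk y = ∫⁻ y in Metric.ball (0 : E3) 1, ENNReal.ofReal ((‖y - 0‖ ^ (2 : ℝ))⁻¹) := by
    unfold gk
    rw [lintegral_indicator Metric.isOpen_ball.measurableSet]
    refine lintegral_congr fun y => ?_
    rw [sub_zero]
    norm_num
  rw [h1]
  have h2 := h.2
  rw [hasFiniteIntegral_iff_norm] at h2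
  refine lt_of_le_of_lt (lintegral_mono fun y => ?_) h2
  exact ENNReal.ofReal_le_ofReal (le_abs_self _)

private theorem gk_shift (x : E3) : ∫⁻ y, gk (y - x) = ∫⁻ y, gk y :=
  lintegral_sub_right_eq_self (fun y => gk y) x

theorem inv2 (hn : Reg n) (hn0 : n {x | x 0 ≤ 0} = 0) : ∃ B : ℝ, ∀ x : E3, x 0 ≤ 0 →
    Integrable (fun y => (‖x - y‖ ^ 2)⁻¹) n ∧ ∫ y, (‖x - y‖ ^ 2)⁻¹ ∂n ≤ B := by
  obtain ⟨d, hd, C, h⟩ := hn.slab
  have hfin := hn.isFin
  set K : ℝ≥0∞ := (1 + ENNReal.ofReal ((d ^ 2)⁻¹)) * n univ + (C : ℝ≥0∞) * ∫⁻ y, gk y with hK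
  have hKt : K < ∞ := by
    refine ENNReal.add_lt_top.2 ⟨ENNReal.mul_lt_top (ENNReal.add_lt_top.2 ⟨ENNReal.one_lt_top, ENNReal.ofReal_lt_top⟩) hn.fin,
      ENNReal.mul_lt_top ENNReal.coe_lt_top gk_fin⟩
  have key : ∀ x : E3, x 0 ≤ 0 → ∫⁻ y, ENNReal.ofReal ((‖x - y‖ ^ 2)⁻¹) ∂n ≤ K := by
    intro x hx
    have hae : ∀ᵐ y ∂n, 0 < y 0 := by
      rw [ae_iff]
      simpa only [not_lt] using hn0
    have h1 : ∀ᵐ y ∂n, ENNReal.ofReal ((‖x - y‖ ^ 2)⁻¹) ≤
        (1 + ENNReal.ofReal ((d ^ 2)⁻¹)) + ({x : E3 | |x 0| < d}).indicator (fun y => gk (y - x)) y := by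
      filter_upwards [hae] with y hy
      by_cases hb : 1 ≤ ‖x - y‖
      · have : ENNReal.ofReal ((‖x - y‖ ^ 2)⁻¹) ≤ 1 := by
          rw [← ENNReal.ofReal_one]
          refine ENNReal.ofReal_le_ofReal (inv_le_one_of_one_le₀ ?_)
          nlinarith
        exact this.trans (le_self_add.trans le_self_add)
      · by_cases hs : |y 0| < d
        · have e1 : gk (y - x) = ENNReal.ofReal ((‖x - y‖ ^ 2)⁻¹) := by
            unfold gk
            rw [indicator_of_mem, norm_sub_rev]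
            rw [mem_ball_zero_iff, norm_sub_rev]
            exact not_le.1 hb
          rw [indicator_of_mem (by exact hs), e1]
          exact le_add_self
        · have h2 : d ≤ ‖x - y‖ := by
            have h3 : |(x - y) 0| ≤ ‖x - y‖ := abs_zero_le _
            rw [abs_of_pos hy] at hs
            have h4 : (x - y) 0 = x 0 - y 0 := rfl
            rw [h4] at h3
            have h5 := neg_le_abs (x 0 - y 0)
            push Not at hs
            linarith
          have : ENNReal.ofReal ((‖x - y‖ ^ 2)⁻¹) ≤ ENNReal.ofReal ((d ^ 2)⁻¹) := by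
            refine ENNReal.ofReal_le_ofReal (inv_anti₀ (by positivity) ?_)
            nlinarith
          exact this.trans (le_add_self.trans le_self_add)
    calc ∫⁻ y, ENNReal.ofReal ((‖x - y‖ ^ 2)⁻¹) ∂n
        ≤ ∫⁻ y, ((1 + ENNReal.ofReal ((d ^ 2)⁻¹)) + ({x : E3 | |x 0| < d}).indicator (fun y => gk (y - x)) y) ∂n :=
          lintegral_mono_ae h1
      _ = (1 + ENNReal.ofReal ((d ^ 2)⁻¹)) * n univ + ∫⁻ y in {x : E3 | |x 0| < d}, gk (y - x) ∂n := by
          rw [lintegral_add_left measurable_const, lintegral_const, lintegral_indicator (slab_meas d)]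
      _ ≤ (1 + ENNReal.ofReal ((d ^ 2)⁻¹)) * n univ + ∫⁻ y, gk (y - x) ∂((C : ℝ≥0∞) • volume) := by
          refine add_le_add le_rfl (lintegral_mono' h le_rfl)
      _ = K := by
          rw [lintegral_smul_measure, gk_shift, hK, smul_eq_mul]
  refine ⟨K.toReal, fun x hx => ?_⟩
  have hmeas : Measurable (fun y : E3 => (‖x - y‖ ^ 2)⁻¹) := by fun_prop
  have hnn : ∀ y : E3, 0 ≤ (‖x - y‖ ^ 2)⁻¹ := fun y => by positivity
  constructor
  · refine ⟨hmeas.aestronglyMeasurable, ?_⟩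
    rw [hasFiniteIntegral_iff_ofReal (Eventually.of_forall hnn)]
    exact (key x hx).trans_lt hKt
  · rw [integral_eq_lintegral_of_nonneg_ae (Eventually.of_forall hnn) hmeas.aestronglyMeasurable]
    exact ENNReal.toReal_mono hKt.ne (key x hx)

private theorem map_rf_left (hm : Reg m) (hm0 : m Hp = 0) : (m.map rf) {x | x 0 ≤ 0} = 0 := by
  have hme : Measurable rf := continuous_rf.measurable
  have hms : MeasurableSet {x : E3 | x 0 ≤ 0} := (isClosed_le continuous_zero continuous_const).measurableSet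
  rw [Measure.map_apply hme hms]
  have h1 : rf ⁻¹' {x : E3 | x 0 ≤ 0} ⊆ Hp ∪ {x : E3 | x 0 = 0} := by
    intro x hx
    have h2 : (rf x) 0 ≤ 0 := hx
    rw [rf_zero] at h2
    rcases lt_or_eq_of_le (show 0 ≤ x 0 by linarith) with h3 | h3
    · exact Or.inl h3
    · exact Or.inr h3.symm
  exact measure_mono_null h1 (measure_union_null hm0 hm.plane)

theorem inv2' (hm : Reg m) (hm0 : m Hp = 0) : ∃ B : ℝ, ∀ x : E3, 0 ≤ x 0 →
    Integrable (fun y => (‖x - y‖ ^ 2)⁻¹) m ∧ ∫ y, (‖x - y‖ ^ 2)⁻¹ ∂m ≤ B := by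
  have hme : Measurable rf := continuous_rf.measurable
  obtain ⟨B, hB⟩ := inv2 hm.map_rf (map_rf_left hm hm0)
  refine ⟨B, fun x hx => ?_⟩
  have h1 := hB (rf x) (by rw [rf_zero]; linarith)
  have hmeas : Measurable (fun y : E3 => (‖rf x - y‖ ^ 2)⁻¹) := by fun_prop
  rw [integrable_map_measure hmeas.aestronglyMeasurable hme.aemeasurable,
    integral_map hme.aemeasurable hmeas.aestronglyMeasurable] at h1
  simpa only [Function.comp_def, norm_rf_sub] using h1

private theorem fld_le_inv (p : P2) (y : E3) : |y 0| / ‖mk 0 p - y‖ ^ 3 ≤ (‖mk 0 p - y‖ ^ 2)⁻¹ := by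
  have h1 : |y 0| ≤ ‖mk 0 p - y‖ := by
    have h2 := abs_zero_le (mk 0 p - y)
    have h3 : (mk 0 p - y) 0 = -(y 0) := by
      have : (mk 0 p - y) 0 = (mk 0 p) 0 - y 0 := rfl
      rw [this, mk_zero]; ring
    rwa [h3, abs_neg] at h2
  rcases eq_or_lt_of_le (norm_nonneg (mk 0 p - y)) with h0 | h0
  · rw [← h0]; simp
  · rw [div_le_iff₀ (by positivity)]
    have : (‖mk 0 p - y‖ ^ 2)⁻¹ * ‖mk 0 p - y‖ ^ 3 = ‖mk 0 p - y‖ := by field_simp
    rw [this]; exact h1

private theorem fld_meas (p : P2) : Measurable (fun y : E3 => |y 0| / ‖mk 0 p - y‖ ^ 3) := by fun_prop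

private theorem fld_both (hm : Reg m) (h : m Hp = 0 ∨ m {x | x 0 ≤ 0} = 0) : ∃ B : ℝ, ∀ p : P2,
    Integrable (fun y => |y 0| / ‖mk 0 p - y‖ ^ 3) m ∧ fld m p ≤ B := by
  have hinv : ∃ B : ℝ, ∀ p : P2, Integrable (fun y => (‖mk 0 p - y‖ ^ 2)⁻¹) m ∧ ∫ y, (‖mk 0 p - y‖ ^ 2)⁻¹ ∂m ≤ B := by
    rcases h with h | h
    · obtain ⟨B, hB⟩ := inv2' hm h
      exact ⟨B, fun p => hB _ (by rw [mk_zero])⟩
    · obtain ⟨B, hB⟩ := inv2 hm h
      exact ⟨B, fun p => hB _ (by rw [mk_zero])⟩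
  obtain ⟨B, hB⟩ := hinv
  refine ⟨B, fun p => ?_⟩
  have hi : Integrable (fun y => |y 0| / ‖mk 0 p - y‖ ^ 3) m := by
    refine (hB p).1.mono' (fld_meas p).aestronglyMeasurable (Eventually.of_forall fun y => ?_)
    rw [Real.norm_of_nonneg (by positivity)]
    exact fld_le_inv p y
  exact ⟨hi, (integral_mono hi (hB p).1 (fld_le_inv p)).trans (hB p).2⟩

theorem fld_int (hm : Reg m) (h : m Hp = 0 ∨ m {x | x 0 ≤ 0} = 0) (p : P2) :
    Integrable (fun y => |y 0| / ‖mk 0 p - y‖ ^ 3) m := by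
  obtain ⟨B, hB⟩ := fld_both hm h
  exact (hB p).1

theorem fld_nonneg (m : Measure E3) (p : P2) : 0 ≤ fld m p :=
  integral_nonneg fun y => by positivity

theorem fld_bdd (hm : Reg m) (h : m Hp = 0 ∨ m {x | x 0 ≤ 0} = 0) : ∃ B : ℝ, ∀ p, fld m p ≤ B := by
  obtain ⟨B, hB⟩ := fld_both hm h
  exact ⟨B, fun p => (hB p).2⟩

theorem measurable_fld (hm : Reg m) : Measurable (fld m) := by
  have hfin := hm.isFin
  have h1 : Measurable (fun q : P2 × E3 => |q.2 0| / ‖mk 0 q.1 - q.2‖ ^ 3) := by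
    have h2 : Measurable (fun q : P2 × E3 => mk 0 q.1) :=
      (continuous_mk.comp (continuous_const.prodMk continuous_fst)).measurable
    fun_prop
  have h3 : StronglyMeasurable (Function.uncurry (fun (p : P2) (y : E3) => |y 0| / ‖mk 0 p - y‖ ^ 3)) :=
    h1.stronglyMeasurable
  exact (h3.integral_prod_right (ν := m)).measurable

theorem fld_map_rf (m : Measure E3) (p : P2) : fld (m.map rf) p = fld m p := by
  unfold fld
  rw [integral_map continuous_rf.measurable.aemeasurable (fld_meas p).aestronglyMeasurable]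
  refine integral_congr_ae (Eventually.of_forall fun y => ?_)
  simp only [rf_zero, abs_neg, norm_plane]

theorem side_map_rf (hm : Reg m) (h : m {x | x 0 ≤ 0} = 0) : (m.map rf) Hp = 0 := by
  rw [Measure.map_apply continuous_rf.measurable isOpen_Hp.measurableSet]
  refine measure_mono_null (fun x hx => ?_) h
  have h2 : 0 < (rf x) 0 := hx
  rw [rf_zero] at h2
  show x 0 ≤ 0
  linarith

end Pool.Agent.H50.TM
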