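import Pool.Agent.H50.TM.Geo

/-!
# Module SMax: the strong maximum principle (by averages over balls)

`D` convex open, `F` a closed set of poles, `O = D \ F`. Let `Zs = {x ∈ O | u x = 0}`.
(1) `Zs` is open: `x ∈ Zs`, `r₀, C` from `h2`. For `s < r₀` put `Φ(s) = ∫_{ball x s} u y/‖x-y‖ dy < ∞` (increasing in `s`). By `h2`,
`∫_{ball x t} u ≤ (4π/3) t³ C Φ(t)` for `t < r₀`. Layer cake: `1/‖x-y‖ = 1/s + ∫_{‖x-y‖}^s t^(-2) dt` for `‖x-y‖ < s`, so by Tonelli
`Φ(s) = (1/s) ∫_{ball x s} u + ∫_0^s t^(-2) (∫_{ball x t} u) dt ≤ (4π/3) C Φ(s) (s² + s²/2)`. For small `s` this gives `Φ(s) = 0`, so `u = 0` a.e. on `ball x s`, by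
continuity everywhere. (`volume_ball_real` in H23/TF/A1_Rad.)
(2) `Zs` is relatively closed in `D`: if `x ∈ D`, `x_n → x`, `x_n ∈ Zs`: `x ∉ F` by `h3`, and `u x = 0` by continuity.
(3) `D` is convex, so preconnected; `Zs` is open and relatively closed in `D`; so `Zs = ∅` or `Zs = D`; in the second case `D ∩ F = ∅` (`h3`/definition).
-/

set_option autoImplicit false

open MeasureTheory Set Filter Topology
open scoped ENNReal NNReal

namespace Pool.Agent.H50.TM

open Pool.Agent.H23.TF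

/-- the weighted integral is controlled by itself -/
private theorem self_bound {u : E3 → ℝ} {x : E3} {r₀ C : ℝ} (hC : 0 ≤ C) (hx : u x = 0)
    (h0 : ∀ y ∈ Metric.ball x r₀, 0 ≤ u y)
    (h2 : ∀ r : ℝ, 0 < r → r < r₀ →
      IntegrableOn u (Metric.ball x r) ∧ IntegrableOn (fun y => u y / ‖x - y‖) (Metric.ball x r) ∧
      ⨍ y in Metric.ball x r, u y ≤ u x + C * ∫ y in Metric.ball x r, u y / ‖x - y‖)
    {s : ℝ} (hs : 0 < s) (hs0 : s < r₀) :
    ∫ y in Metric.ball x s, u y / ‖x - y‖ ≤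
      (32 / 9 * Real.pi * C * s ^ 2) * ∫ y in Metric.ball x s, u y / ‖x - y‖ := by
  set Φ : ℝ → ℝ := fun t => ∫ y in Metric.ball x t, u y / ‖x - y‖ with hΦ
  have hpos : ∀ t, t ≤ s → ∀ y ∈ Metric.ball x t, 0 ≤ u y := fun t ht y hy =>
    h0 y (Metric.ball_subset_ball (ht.trans hs0.le) hy)
  have hpos' : ∀ t, t ≤ s → ∀ y ∈ Metric.ball x t, 0 ≤ u y / ‖x - y‖ := fun t ht y hy =>
    div_nonneg (hpos t ht y hy) (norm_nonneg _)
  have hΦ0 : 0 ≤ Φ s := setIntegral_nonneg measurableSet_ball (hpos' s le_rfl)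
  -- the mass of a ball
  have hA : ∀ t, 0 < t → t ≤ s →
      ∫ y in Metric.ball x t, u y ≤ 4 / 3 * Real.pi * t ^ 3 * (C * Φ s) := by
    intro t ht hts
    obtain ⟨h3, h4, h5⟩ := h2 t ht (lt_of_le_of_lt hts hs0)
    have hvol : (volume : Measure E3).real (Metric.ball x t) = 4 / 3 * Real.pi * t ^ 3 := by
      rw [Measure.real, volume_ball_real x ht.le, ENNReal.toReal_ofReal (by positivity)]
    have hvpos : 0 < 4 / 3 * Real.pi * t ^ 3 := by positivity
    rw [setAverage_eq, hvol, hx, zero_add, smul_eq_mul, inv_mul_le_iff₀ hvpos] at h5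
    refine h5.trans ?_
    have hmono : ∫ y in Metric.ball x t, u y / ‖x - y‖ ≤ Φ s := by
      refine setIntegral_mono_set (h2 s hs hs0).2.1 ?_
        (Metric.ball_subset_ball hts).eventuallyLE
      exact (ae_restrict_mem measurableSet_ball).mono fun y hy => hpos' s le_rfl y hy
    exact mul_le_mul_of_nonneg_left (mul_le_mul_of_nonneg_left hmono hC) hvpos.le
  -- pointwise bound of the kernel
  have hpt : ∀ y ∈ Metric.ball x s, ENNReal.ofReal (u y / ‖x - y‖) ≤
      ∑' k : ℕ, ENNReal.ofReal (2 ^ (k + 1) / s) *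
        (Metric.ball x (s / 2 ^ k)).indicator (fun y => ENNReal.ofReal (u y)) y := by
    intro y hy
    rcases eq_or_ne y x with rfl | hne
    · rw [sub_self, norm_zero, div_zero, ENNReal.ofReal_zero]
      exact bot_le
    · have hn : 0 < ‖x - y‖ := norm_pos_iff.2 (sub_ne_zero.2 hne.symm)
      have hys : ‖x - y‖ < s := by
        rw [← dist_eq_norm, dist_comm]
        exact hy
      obtain ⟨m, hm1, hm2⟩ : ∃ m : ℕ, (2 ^ (m + 1))⁻¹ * s ≤ ‖x - y‖ ∧ ‖x - y‖ < (2 ^ m)⁻¹ * s := by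
        obtain ⟨k, hk1, hk2⟩ := exists_nat_pow_near_of_lt_one (x := ‖x - y‖ / s) (y := (1 / 2 : ℝ))
          (div_pos hn hs) ((div_le_one hs).2 hys.le) (by norm_num) (by norm_num)
        rw [one_div, inv_pow, lt_div_iff₀ hs] at hk1
        rw [one_div, inv_pow, div_le_iff₀ hs] at hk2
        rcases lt_or_eq_of_le hk2 with hk3 | hk3
        · exact ⟨k, hk1.le, hk3⟩
        · cases k with
          | zero =>
            rw [pow_zero, inv_one, one_mul] at hk3
            exact absurd hk3 hys.ne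
          | succ j =>
            refine ⟨j, hk3.ge, ?_⟩
            rw [hk3]
            refine mul_lt_mul_of_pos_right ?_ hs
            exact inv_strictAnti₀ (by positivity) (pow_lt_pow_right₀ (by norm_num) (Nat.lt_succ_self j))
      refine le_trans ?_ (ENNReal.le_tsum m)
      rw [indicator_of_mem (by
        rw [Metric.mem_ball, dist_comm, dist_eq_norm]
        calc ‖x - y‖ < (2 ^ m)⁻¹ * s := hm2
          _ = s / 2 ^ m := by ring),
        ← ENNReal.ofReal_mul (by positivity)]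
      refine ENNReal.ofReal_le_ofReal ?_
      have h6 : 1 / ‖x - y‖ ≤ 2 ^ (m + 1) / s := by
        rw [div_le_div_iff₀ hn hs, one_mul]
        have h7 : (2 : ℝ) ^ (m + 1) * ((2 ^ (m + 1))⁻¹ * s) ≤ 2 ^ (m + 1) * ‖x - y‖ :=
          mul_le_mul_of_nonneg_left hm1 (by positivity)
        rwa [← mul_assoc, mul_inv_cancel₀ (by positivity), one_mul] at h7
      calc u y / ‖x - y‖ = 1 / ‖x - y‖ * u y := by ring
        _ ≤ 2 ^ (m + 1) / s * u y := mul_le_mul_of_nonneg_right h6 (hpos s le_rfl y hy)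
  -- the mass of the ball number `k`
  have hmass : ∀ k : ℕ, ∫⁻ y in Metric.ball x s,
      (Metric.ball x (s / 2 ^ k)).indicator (fun y => ENNReal.ofReal (u y)) y ≤
      ENNReal.ofReal (4 / 3 * Real.pi * (s / 2 ^ k) ^ 3 * (C * Φ s)) := by
    intro k
    have hk0 : 0 < s / 2 ^ k := by positivity
    have hks : s / 2 ^ k ≤ s := div_le_self hs.le (one_le_pow₀ (by norm_num))
    have h6 : ∫⁻ y in Metric.ball x s,
        (Metric.ball x (s / 2 ^ k)).indicator (fun y => ENNReal.ofReal (u y)) y ≤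
        ∫⁻ y, (Metric.ball x (s / 2 ^ k)).indicator (fun y => ENNReal.ofReal (u y)) y :=
      setLIntegral_le_lintegral _ _
    have h7 : ∫⁻ y, (Metric.ball x (s / 2 ^ k)).indicator (fun y => ENNReal.ofReal (u y)) y =
        ∫⁻ y in Metric.ball x (s / 2 ^ k), ENNReal.ofReal (u y) :=
      lintegral_indicator measurableSet_ball _
    rw [h7] at h6
    refine h6.trans ?_
    rw [← ofReal_integral_eq_lintegral_ofReal (h2 _ hk0 (lt_of_le_of_lt hks hs0)).1
      ((ae_restrict_mem measurableSet_ball).mono fun y hy => hpos _ hks y hy)]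
    exact ENNReal.ofReal_le_ofReal (hA _ hk0 hks)
  have hae : ∀ k : ℕ, AEMeasurable (fun y => ENNReal.ofReal (2 ^ (k + 1) / s) *
      (Metric.ball x (s / 2 ^ k)).indicator (fun y => ENNReal.ofReal (u y)) y)
      (volume.restrict (Metric.ball x s)) := by
    intro k
    refine AEMeasurable.const_mul (AEMeasurable.indicator ?_ measurableSet_ball) _
    exact (h2 s hs hs0).1.aestronglyMeasurable.aemeasurable.ennreal_ofReal
  have hfin : ENNReal.ofReal (Φ s) ≤
      ENNReal.ofReal ((32 / 9 * Real.pi * C * s ^ 2) * Φ s) := by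
    calc ENNReal.ofReal (Φ s)
        = ∫⁻ y in Metric.ball x s, ENNReal.ofReal (u y / ‖x - y‖) :=
          ofReal_integral_eq_lintegral_ofReal (h2 s hs hs0).2.1
            ((ae_restrict_mem measurableSet_ball).mono fun y hy => hpos' s le_rfl y hy)
      _ ≤ ∫⁻ y in Metric.ball x s, ∑' k : ℕ, ENNReal.ofReal (2 ^ (k + 1) / s) *
            (Metric.ball x (s / 2 ^ k)).indicator (fun y => ENNReal.ofReal (u y)) y :=
          setLIntegral_mono_ae' measurableSet_ball (Eventually.of_forall hpt)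
      _ = ∑' k : ℕ, ∫⁻ y in Metric.ball x s, ENNReal.ofReal (2 ^ (k + 1) / s) *
            (Metric.ball x (s / 2 ^ k)).indicator (fun y => ENNReal.ofReal (u y)) y :=
          lintegral_tsum hae
      _ ≤ ∑' k : ℕ, ENNReal.ofReal ((8 / 3 * Real.pi * C * s ^ 2 * Φ s) * (1 / 4) ^ k) := by
          refine ENNReal.tsum_le_tsum fun k => ?_
          rw [lintegral_const_mul' _ _ ENNReal.ofReal_ne_top]
          refine (mul_le_mul_right (hmass k) _).trans ?_
          rw [← ENNReal.ofReal_mul (by positivity)]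
          refine ENNReal.ofReal_le_ofReal (le_of_eq ?_)
          have h8 : (1 / 4 : ℝ) ^ k = 1 / (2 ^ k) ^ 2 := by
            rw [one_div_pow, ← pow_mul, mul_comm k 2, pow_mul]
            norm_num
          rw [h8, pow_succ]
          field_simp
          ring
      _ = ENNReal.ofReal ((32 / 9 * Real.pi * C * s ^ 2) * Φ s) := by
          have hsum : Summable fun k : ℕ => (8 / 3 * Real.pi * C * s ^ 2 * Φ s) * (1 / 4 : ℝ) ^ k :=
            (summable_geometric_of_lt_one (by norm_num) (by norm_num)).mul_left _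
          rw [← ENNReal.ofReal_tsum_of_nonneg (fun k => by positivity) hsum, tsum_mul_left,
            tsum_geometric_of_lt_one (by norm_num) (by norm_num)]
          congr 1
          ring
  exact (ENNReal.ofReal_le_ofReal_iff (by positivity)).1 hfin

theorem strong_max {D F : Set E3} (hD : IsOpen D) (hDc : Convex ℝ D) (hF : IsClosed F) {u : E3 → ℝ}
    (hu : ContinuousOn u (D \ F)) (h0 : ∀ x ∈ D \ F, 0 ≤ u x)
    (h2 : ∀ x ∈ D \ F, ∃ r₀ C : ℝ, 0 < r₀ ∧ 0 ≤ C ∧ Metric.ball x r₀ ⊆ D \ F ∧ ∀ r : ℝ, 0 < r → r < r₀ →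
      IntegrableOn u (Metric.ball x r) ∧ IntegrableOn (fun y => u y / ‖x - y‖) (Metric.ball x r) ∧
      ⨍ y in Metric.ball x r, u y ≤ u x + C * ∫ y in Metric.ball x r, u y / ‖x - y‖)
    (h3 : ∀ a ∈ D ∩ F, ∃ r : ℝ, 0 < r ∧ ∀ x ∈ D \ F, ‖x - a‖ < r → 0 < u x)
    {x₁ : E3} (hx₁ : x₁ ∈ D \ F) (h : u x₁ = 0) : D ∩ F = ∅ := by
  have hO : IsOpen (D \ F) := hD.sdiff hF
  -- the zero set is open
  have hZ : IsOpen {x | x ∈ D \ F ∧ u x = 0} := by
    rw [Metric.isOpen_iff]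
    rintro x ⟨hx, hux⟩
    obtain ⟨r₀, C, hr₀, hC, hball, hint⟩ := h2 x hx
    obtain ⟨s, hs, hs0, hsC⟩ : ∃ s : ℝ, 0 < s ∧ s < r₀ ∧ 32 / 9 * Real.pi * C * s ^ 2 < 1 := by
      have h4 : Tendsto (fun s : ℝ => 32 / 9 * Real.pi * C * s ^ 2) (𝓝[>] 0)
          (𝓝 (32 / 9 * Real.pi * C * 0 ^ 2)) :=
        Tendsto.mono_left (Continuous.tendsto (by fun_prop) 0) nhdsWithin_le_nhds
      have h5 : ∀ᶠ s : ℝ in 𝓝[>] 0, 32 / 9 * Real.pi * C * s ^ 2 < 1 :=
        h4.eventually (gt_mem_nhds (by norm_num))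
      have h6 : ∀ᶠ s : ℝ in 𝓝[>] 0, s < r₀ :=
        (gt_mem_nhds hr₀).filter_mono nhdsWithin_le_nhds
      obtain ⟨s, h7, h8, h9⟩ := (h5.and (h6.and self_mem_nhdsWithin)).exists
      exact ⟨s, h9, h8, h7⟩
    have hb : ∀ y ∈ Metric.ball x r₀, 0 ≤ u y := fun y hy => h0 y (hball hy)
    have h4 := self_bound hC hux hb hint hs hs0
    have hss : Metric.ball x s ⊆ D \ F := (Metric.ball_subset_ball hs0.le).trans hball
    have hnn : ∀ y ∈ Metric.ball x s, 0 ≤ u y / ‖x - y‖ := fun y hy =>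
      div_nonneg (h0 y (hss hy)) (norm_nonneg _)
    have h5 : 0 ≤ ∫ y in Metric.ball x s, u y / ‖x - y‖ :=
      setIntegral_nonneg measurableSet_ball hnn
    have h6 : ∫ y in Metric.ball x s, u y / ‖x - y‖ = 0 := by
      by_contra hne
      have h7 : 0 < ∫ y in Metric.ball x s, u y / ‖x - y‖ := lt_of_le_of_ne h5 (Ne.symm hne)
      have h8 := mul_lt_mul_of_pos_right hsC h7
      rw [one_mul] at h8
      linarith
    have h7 := (setIntegral_eq_zero_iff_of_nonneg_ae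
      ((ae_restrict_mem measurableSet_ball).mono fun y hy => hnn y hy) (hint s hs hs0).2.1).1 h6
    have h8 : u =ᵐ[volume.restrict (Metric.ball x s)] fun _ => (0 : ℝ) := by
      have h9 : ∀ᵐ y ∂(volume.restrict (Metric.ball x s)), y ≠ x :=
        ae_restrict_of_ae (by simp [ae_iff])
      filter_upwards [h7, h9] with y hy1 hy2
      have hn : ‖x - y‖ ≠ 0 := norm_ne_zero_iff.2 (sub_ne_zero.2 hy2.symm)
      exact (div_eq_zero_iff.1 hy1).resolve_right hn
    have h9 := Measure.eqOn_open_of_ae_eq h8 Metric.isOpen_ball (hu.mono hss) continuousOn_const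
    exact ⟨s, hs, fun y hy => ⟨hss hy, h9 hy⟩⟩
  -- the complement is open
  have hP : IsOpen ({x | x ∈ D \ F ∧ 0 < u x} ∪ (D ∩ F)) := by
    rw [isOpen_iff_mem_nhds]
    rintro x (⟨hx, hux⟩ | hx)
    · have h4 : ∀ᶠ y in 𝓝 x, 0 < u y :=
        ((hu x hx).continuousAt (hO.mem_nhds hx)).eventually (lt_mem_nhds hux)
      filter_upwards [h4, hO.mem_nhds hx] with y hy1 hy2
      exact Or.inl ⟨hy2, hy1⟩
    · obtain ⟨r, hr, h4⟩ := h3 x hx
      filter_upwards [hD.mem_nhds hx.1, Metric.ball_mem_nhds x hr] with y hy1 hy2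
      by_cases hyF : y ∈ F
      · exact Or.inr ⟨hy1, hyF⟩
      · exact Or.inl ⟨⟨hy1, hyF⟩, h4 y ⟨hy1, hyF⟩ (by rw [← dist_eq_norm]; exact hy2)⟩
  have hdisj : Disjoint {x | x ∈ D \ F ∧ u x = 0} ({x | x ∈ D \ F ∧ 0 < u x} ∪ (D ∩ F)) := by
    rw [Set.disjoint_left]
    rintro x ⟨hx, hux⟩ (⟨_, h4⟩ | h4)
    · exact h4.ne' hux
    · exact hx.2 h4.2
  have hcov : D ⊆ {x | x ∈ D \ F ∧ u x = 0} ∪ ({x | x ∈ D \ F ∧ 0 < u x} ∪ (D ∩ F)) := by
    intro x hx
    by_cases hxF : x ∈ F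
    · exact Or.inr (Or.inr ⟨hx, hxF⟩)
    · rcases (h0 x ⟨hx, hxF⟩).eq_or_lt with h4 | h4
      · exact Or.inl ⟨⟨hx, hxF⟩, h4.symm⟩
      · exact Or.inr (Or.inl ⟨⟨hx, hxF⟩, h4⟩)
  have h4 := hDc.isPreconnected.subset_left_of_subset_union hZ hP hdisj hcov
    ⟨x₁, hx₁.1, hx₁, h⟩
  rw [Set.eq_empty_iff_forall_notMem]
  rintro x ⟨hx, hxF⟩
  exact (h4 hx).1.2 hxF

end Pool.Agent.H50.TM
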