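import Pool.Agent.H50.TM.FBal
import Pool.Agent.H50.TM.FFar
import Pool.Agent.H50.TM.Mir

/-!
# Module SPos: the force between the two sides of the plane is positive

* `SS_eq`: `SS = (1/2π) ∫ FlL · Fl`. All brackets by `br_eq` (Reg: `reg_nu`, `reg_dens` with `Cfg.slab`, `Cfg.sig_bdd`; sides: `side_nuL`, ...), `force_balance`,
  `fld_fold`, `fld_foldf`, `fld_rf`. With `nL = fld (nu R zL)`, `rL = fld (dens (lp ρ))`, `nR`, `rR` similarly and `s = fld (dens σ)`:
  `nL nR - nL rR - rL nR + rL rR + (nL + nR) s - (rL + rR) s + s² = (nL + s - rL) (nR + s - rR)` (`integral_add`, `fld_mul_int`).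
* `SS_pos`: `Fl ≥ 0`, `FlL ≥ 0` (`Fl_nonneg`, `FlL_eq`, `Cfg.mirror`), both `> 0` for `‖p‖ ≥ r` (`Fl_pos`; a left nucleus of `R` is a right nucleus of `rf ∘ R`), the product
  is integrable; `{p | r < ‖p‖}` is open and nonempty, so of positive measure: `integral_pos_iff_support_of_nonneg`.
-/

set_option autoImplicit false

open MeasureTheory Set Filter Topology
open scoped ENNReal NNReal

namespace Pool.Agent.H50.TM

open Pool.Agent.H23.TF

variable {γ μ : ℝ} {k : ℕ} {R : Fin k → E3} {z : Fin k → ℝ} {ρ σ : E3 → ℝ}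

private theorem rf0_lt {d : ℝ} {x : E3} (h : |x 0| < d) : |(rf x) 0| < d := by
  rw [rf_zero, abs_neg]; exact h

private theorem lin7 {f1 f2 f3 f4 f5 f6 f7 : P2 → ℝ} (i1 : Integrable f1) (i2 : Integrable f2) (i3 : Integrable f3)
    (i4 : Integrable f4) (i5 : Integrable f5) (i6 : Integrable f6) (i7 : Integrable f7) :
    Integrable (fun p => f1 p - f2 p - f3 p + f4 p + (f5 p - f6 p + f7 p)) ∧
    ∫ p, (f1 p - f2 p - f3 p + f4 p + (f5 p - f6 p + f7 p)) =
      (∫ p, f1 p) - (∫ p, f2 p) - (∫ p, f3 p) + (∫ p, f4 p) + ((∫ p, f5 p) - (∫ p, f6 p) + ∫ p, f7 p) := by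
  have a1 : Integrable (fun p => f1 p - f2 p) := i1.sub i2
  have a2 : Integrable (fun p => f1 p - f2 p - f3 p) := a1.sub i3
  have a3 : Integrable (fun p => f1 p - f2 p - f3 p + f4 p) := a2.add i4
  have b1 : Integrable (fun p => f5 p - f6 p) := i5.sub i6
  have b2 : Integrable (fun p => f5 p - f6 p + f7 p) := b1.add i7
  refine ⟨a3.add b2, ?_⟩
  rw [integral_add a3 b2, integral_add a2 i4, integral_sub a1 i3, integral_sub i1 i2, integral_add b1 i7,
    integral_sub i5 i6]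

theorem SS_eq (h : Cfg γ μ R z ρ σ) :
    Integrable (fun p : P2 => FlL R z ρ σ p * Fl R z ρ σ p) ∧
      SS γ μ R z ρ = 1 / (2 * Real.pi) * ∫ p : P2, FlL R z ρ σ p * Fl R z ρ σ p := by
  have hρ0 : ∀ x, 0 ≤ ρ x := h.htf.nonneg h.hγ
  have hσ0 : ∀ x, 0 ≤ σ x := h.sig_nonneg
  have hz0 : ∀ i, 0 ≤ z i := fun i => (h.hz i).le
  obtain ⟨d, hd, -, C, hC⟩ := h.slab
  obtain ⟨C', hC'⟩ := h.sig_bdd
  have hlp0 : ∀ x, 0 ≤ lp ρ x := fun x => by unfold lp; split_ifs <;> simp [hρ0 x]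
  have hrp0 : ∀ x, 0 ≤ rp ρ x := fun x => by unfold rp; split_ifs <;> simp [hρ0 x]
  have hlpC : ∀ x : E3, |x 0| < d → lp ρ x ≤ max C 0 := fun x hx => by
    unfold lp; split_ifs
    · exact (hC x hx).trans (le_max_left _ _)
    · exact le_max_right _ _
  have hrpC : ∀ x : E3, |x 0| < d → rp ρ x ≤ max C 0 := fun x hx => by
    unfold rp; split_ifs
    · exact (hC x hx).trans (le_max_left _ _)
    · exact le_max_right _ _
  have hff0 : ∀ x, 0 ≤ foldf ρ x := fun x => add_nonneg (hlp0 x) (hrp0 _)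
  have hm : Measurable ρ := h.htf.meas
  have hmr : Measurable rf := continuous_rf.measurable
  have RnL : Reg (nu R (zL R z)) := reg_nu (fun i _ => h.off i)
  have RnR : Reg (nu R (zR R z)) := reg_nu (fun i _ => h.off i)
  have RrL : Reg (dens (lp ρ)) := reg_dens (measurable_lp hm) hlp0 (Ld_lp h.htf.ld).i1 ⟨d, hd, _, hlpC⟩
  have RrR : Reg (dens (rp ρ)) := reg_dens (measurable_rp hm) hrp0 (Ld_rp h.htf.ld).i1 ⟨d, hd, _, hrpC⟩
  have Rs : Reg (dens σ) := reg_dens h.hhalf.meas hσ0 h.hhalf.ld.i1 ⟨1, one_pos, C', fun x _ => hC' x⟩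
  have Rsr : Reg (dens (fun x => σ (rf x))) :=
    reg_dens (h.hhalf.meas.comp hmr) (fun x => hσ0 _) (Ld_rf h.hhalf.ld).i1 ⟨1, one_pos, C', fun x _ => hC' _⟩
  have Rf : Reg (nu (fold R) z) := reg_nu (fun i _ => (h.fold_neg i).ne)
  have Rff : Reg (dens (foldf ρ)) := reg_dens (measurable_foldf hm) hff0 (Ld_foldf h.htf.ld).i1
    ⟨d, hd, max C 0 + max C 0, fun x hx => add_le_add (hlpC x hx) (hrpC _ (rf0_lt hx))⟩
  have SnL := side_nuL R z
  have SnR := side_nuR R z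
  have SrL : (dens (lp ρ)) Hp = 0 := side_left (fun x hx => by unfold lp; rw [if_neg (not_lt.2 hx.le)])
  have SrR : (dens (rp ρ)) {x | x 0 ≤ 0} = 0 := side_right (fun x hx => by unfold rp; rw [if_neg (not_lt.2 hx)])
  have Ss : (dens σ) {x | x 0 ≤ 0} = 0 := side_right h.hhalf.zero
  have Ssr : (dens (fun x => σ (rf x))) Hp = 0 := side_left (fun x hx => h.hhalf.zero _ (by rw [rf_zero]; linarith))
  have Sf := side_fold h.off z
  have Sff : (dens (foldf ρ)) Hp = 0 := side_left (fun x hx => by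
    unfold foldf lp rp
    rw [if_neg (not_lt.2 hx.le), rf_zero, if_neg (by linarith), add_zero])
  have i1 := fld_mul_int RnL RnR SnL SnR
  have i2 := fld_mul_int RnL RrR SnL SrR
  have i3 := fld_mul_int RrL RnR SrL SnR
  have i4 := fld_mul_int RrL RrR SrL SrR
  have i5 := fld_mul_int Rf Rs Sf Ss
  have i6 := fld_mul_int Rff Rs Sff Ss
  have i7 := fld_mul_int Rsr Rs Ssr Ss
  have key : ∀ p : P2, FlL R z ρ σ p * Fl R z ρ σ p =
      fld (nu R (zL R z)) p * fld (nu R (zR R z)) p - fld (nu R (zL R z)) p * fld (dens (rp ρ)) p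
      - fld (dens (lp ρ)) p * fld (nu R (zR R z)) p + fld (dens (lp ρ)) p * fld (dens (rp ρ)) p
      + (fld (nu (fold R) z) p * fld (dens σ) p - fld (dens (foldf ρ)) p * fld (dens σ) p
        + fld (dens (fun x => σ (rf x))) p * fld (dens σ) p) := by
    intro p
    rw [fld_fold h.off hz0 p, fld_foldf hm hρ0 h.htf.ld.i1 ⟨d, hd, C, hC⟩ p, fld_rf h.hhalf.meas hσ0 p]
    unfold FlL Fl
    ring
  obtain ⟨j1, j2⟩ := lin7 i1 i2 i3 i4 i5 i6 i7
  have hint : Integrable (fun p : P2 => FlL R z ρ σ p * Fl R z ρ σ p) :=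
    j1.congr (Eventually.of_forall fun p => (key p).symm)
  refine ⟨hint, ?_⟩
  have e := (integral_congr_ae (μ := (volume : Measure P2)) (Eventually.of_forall key)).trans j2
  rw [e]
  unfold SS
  rw [force_balance h, br_eq RnL RnR SnL SnR, br_eq RnL RrR SnL SrR, br_eq RrL RnR SrL SnR, br_eq RrL RrR SrL SrR,
    br_eq Rf Rs Sf Ss, br_eq Rff Rs Sff Ss, br_eq Rsr Rs Ssr Ss]
  ring

theorem SS_pos (h : Cfg γ μ R z ρ σ) (hl : ∃ i, (R i) 0 < 0) (hr : ∃ i, 0 < (R i) 0) : 0 < SS γ μ R z ρ := by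
  obtain ⟨hint, he⟩ := SS_eq h
  rw [he]
  refine mul_pos (by positivity) ?_
  obtain ⟨r1, h1, hp1⟩ := Fl_pos h hr
  obtain ⟨i, hi⟩ := hl
  obtain ⟨r2, h2, hp2⟩ := Fl_pos h.mirror ⟨i, by rw [rf_zero]; linarith⟩
  have hn : ∀ p, 0 ≤ FlL R z ρ σ p * Fl R z ρ σ p := fun p =>
    mul_nonneg (by rw [FlL_eq h]; exact Fl_nonneg h.mirror p) (Fl_nonneg h p)
  rw [integral_pos_iff_support_of_nonneg (fun p => hn p) hint]
  have ho : IsOpen {p : P2 | max r1 r2 < ‖p‖} := isOpen_lt continuous_const continuous_norm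
  have hne : ({p : P2 | max r1 r2 < ‖p‖}).Nonempty := by
    refine ⟨EuclideanSpace.single 0 (max r1 r2 + 1), ?_⟩
    change max r1 r2 < ‖_‖
    rw [PiLp.norm_single, Real.norm_eq_abs]
    exact lt_of_lt_of_le (by linarith) (le_abs_self _)
  refine lt_of_lt_of_le (ho.measure_pos volume hne) (measure_mono fun p hp => ?_)
  have hp' : max r1 r2 < ‖p‖ := hp
  have a1 := hp1 p ((le_max_left _ _).trans hp'.le)
  have a2 := hp2 p ((le_max_right _ _).trans hp'.le)
  rw [← FlL_eq h] at a2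
  exact (mul_pos a2 a1).ne'

end Pool.Agent.H50.TM
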