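import Pool.Agent.H50.TM.Comp

/-!
# Module Sep: separation in an arbitrary direction, and dilation

See the header of `Comp` (`sep`, `dil`).
* `sep`: a linear isometry equivalence `L` with `L n = e0` (if `n = e0` the identity, otherwise the reflection in the hyperplane orthogonal to `n - e0`,
  `reflection`; or `exists_linearIsometryEquiv...`); `⟪n, x⟫ = ⟪L n, L x⟫ = (L x) 0`; apply `sep_e0` to `L ∘ R` (`L (R i + a • n) = L (R i) + a • e0`), `En_iso` with `b = 0`.
* `dil`: `0 < l < l'`, `s = l'/l > 1`. Three separations in the coordinate directions `EuclideanSpace.single j 1` with `a(c) = (s-1) c` (`ha`: monotone), applied one after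
  another to `l • R`; the coordinates other than `j` are not changed, so the composition is `l' • R`; injectivity is preserved. Each step is `≤`; the step `j` is `<` if two
  nuclei differ in the coordinate `j`, and such `j` exists since `R` is injective and `k ≥ 2`.
-/

set_option autoImplicit false

open MeasureTheory Set Filter Topology
open scoped ENNReal NNReal

namespace Pool.Agent.H50.TM

open Pool.Agent.H23.TF

variable {γ : ℝ} {k : ℕ} {R : Fin k → E3} {z : Fin k → ℝ}

private theorem exists_iso {n : E3} (hn : ‖n‖ = 1) : ∃ L : E3 ≃ₗᵢ[ℝ] E3, L n = e0 := by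
  have h0 : ‖e0‖ = 1 := by
    unfold e0
    simp
  exact ⟨(Submodule.span ℝ {n - e0})ᗮ.reflection, Submodule.reflection_sub (by rw [hn, h0])⟩

private theorem inner_e0 (x : E3) : inner ℝ e0 x = x 0 := by
  unfold e0
  rw [EuclideanSpace.inner_single_left]
  simp

theorem sep (hγ : 0 < γ) (hR : Function.Injective R) (hz : ∀ i, 0 < z i) {n : E3} (hn : ‖n‖ = 1) {a : ℝ → ℝ} (ha : Monotone a)
    {N : ℝ} (hN : 0 < N) (hNZ : N < ∑ i, z i) :
    En γ (fun i => R i + a (inner ℝ n (R i)) • n) z N ≤ En γ R z N ∧
      ((∃ i j, a (inner ℝ n (R i)) ≠ a (inner ℝ n (R j))) → En γ (fun i => R i + a (inner ℝ n (R i)) • n) z N < En γ R z N) := by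
  obtain ⟨L, hL⟩ := exists_iso hn
  have hin : ∀ x : E3, inner ℝ n x = (L x) 0 := by
    intro x
    rw [← L.inner_map_map n x, hL, inner_e0]
  have h1 := sep_e0 hγ (R := fun i => L (R i)) (fun i j h => hR (L.injective h)) hz ha hN hNZ
  have e1 : En γ (fun i => L (R i)) z N = En γ R z N := by
    have h := En_iso γ R z L 0 N
    simpa using h
  have e2 : En γ (fun i => L (R i) + a ((L (R i)) 0) • e0) z N =
      En γ (fun i => R i + a (inner ℝ n (R i)) • n) z N := by
    have h := En_iso γ (fun i => R i + a (inner ℝ n (R i)) • n) z L 0 N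
    rw [← h]
    congr 1
    funext i
    rw [add_zero, map_add, map_smul, hL, hin]
  simp only [] at h1
  rw [e1, e2] at h1
  refine ⟨h1.1, fun h => h1.2 ?_⟩
  obtain ⟨i, j, hij⟩ := h
  refine ⟨i, j, ?_⟩
  rw [← hin, ← hin]
  exact hij

/-- the diagonal map -/
private noncomputable def dg (d : Fin 3 → ℝ) (x : E3) : E3 := WithLp.toLp 2 (fun c => d c * x c)

private theorem dg_apply (d : Fin 3 → ℝ) (x : E3) (c : Fin 3) : dg d x c = d c * x c := rfl

private theorem dg_const (l : ℝ) (x : E3) : dg (fun _ => l) x = l • x := by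
  ext c
  rw [dg_apply]
  rfl

private theorem dg_step (hγ : 0 < γ) (hR : Function.Injective R) (hz : ∀ i, 0 < z i)
    {N : ℝ} (hN : 0 < N) (hNZ : N < ∑ i, z i) {d d' : Fin 3 → ℝ} (hd : ∀ c, 0 < d c) (j : Fin 3)
    (hj : d j < d' j) (hc : ∀ c, c ≠ j → d' c = d c) :
    En γ (fun i => dg d' (R i)) z N ≤ En γ (fun i => dg d (R i)) z N ∧
      ((∃ i i', (R i) j ≠ (R i') j) →
        En γ (fun i => dg d' (R i)) z N < En γ (fun i => dg d (R i)) z N) := by
  have hinj : Function.Injective (fun i => dg d (R i)) := by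
    intro i i' h
    apply hR
    ext c
    have h1 : dg d (R i) c = dg d (R i') c := by
      have : dg d (R i) = dg d (R i') := h
      rw [this]
    rw [dg_apply, dg_apply] at h1
    exact mul_left_cancel₀ (hd c).ne' h1
  have hn : ‖(EuclideanSpace.single j (1 : ℝ) : E3)‖ = 1 := by simp
  have hin : ∀ x : E3, inner ℝ (EuclideanSpace.single j (1 : ℝ) : E3) x = x j := by
    intro x
    rw [EuclideanSpace.inner_single_left]
    simp
  have hs : 0 < d' j / d j - 1 := by
    rw [sub_pos, one_lt_div (hd j)]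
    exact hj
  have hmono : Monotone (fun c : ℝ => (d' j / d j - 1) * c) :=
    fun x y hxy => mul_le_mul_of_nonneg_left hxy hs.le
  have h1 := sep hγ hinj hz hn hmono hN hNZ
  have e1 : (fun i => dg d (R i) + ((d' j / d j - 1) *
      inner ℝ (EuclideanSpace.single j (1 : ℝ) : E3) (dg d (R i))) •
        (EuclideanSpace.single j (1 : ℝ) : E3)) = fun i => dg d' (R i) := by
    funext i
    ext c
    rw [hin, PiLp.add_apply, PiLp.smul_apply, dg_apply, dg_apply, dg_apply, smul_eq_mul,
      PiLp.single_apply]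
    by_cases hcj : c = j
    · subst hcj
      rw [if_pos rfl]
      have := (hd c).ne'
      field_simp
      ring
    · rw [if_neg hcj, hc c hcj, mul_zero, add_zero]
  rw [e1] at h1
  refine ⟨h1.1, fun h => h1.2 ?_⟩
  obtain ⟨i, i', hii⟩ := h
  refine ⟨i, i', fun h => hii ?_⟩
  rw [hin, hin, dg_apply, dg_apply] at h
  exact mul_left_cancel₀ (hd j).ne' (mul_left_cancel₀ hs.ne' h)

theorem dil (hγ : 0 < γ) (hk : 2 ≤ k) (hR : Function.Injective R) (hz : ∀ i, 0 < z i)
    {N : ℝ} (hN : 0 < N) (hNZ : N < ∑ i, z i) : StrictAntiOn (fun l : ℝ => En γ (fun i => l • R i) z N) (Ioi 0) := by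
  intro l hl l' _ hll
  rw [mem_Ioi] at hl
  have hl' : 0 < l' := hl.trans hll
  show En γ (fun i => l' • R i) z N < En γ (fun i => l • R i) z N
  have c0 : (fun i => l • R i) = fun i => dg (fun _ => l) (R i) := by
    funext i
    exact (dg_const l _).symm
  have c3 : (fun i => l' • R i) = fun i => dg (fun _ => l') (R i) := by
    funext i
    exact (dg_const l' _).symm
  rw [c0, c3]
  have s0 := dg_step hγ hR hz hN hNZ (d := fun _ => l) (d' := ![l', l, l]) (fun _ => hl) 0
    (by simpa using hll) (by intro c hc; fin_cases c <;> simp_all)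
  have s1 := dg_step hγ hR hz hN hNZ (d := ![l', l, l]) (d' := ![l', l', l])
    (by intro c; fin_cases c <;> simp [hl, hl']) 1
    (by simpa using hll) (by intro c hc; fin_cases c <;> simp_all)
  have s2 := dg_step hγ hR hz hN hNZ (d := ![l', l', l]) (d' := fun _ => l')
    (by intro c; fin_cases c <;> simp [hl, hl']) 2
    (by simpa using hll) (by intro c hc; fin_cases c <;> simp_all)
  have hex : ∃ j : Fin 3, ∃ i i' : Fin k, (R i) j ≠ (R i') j := by
    by_contra hcon
    push Not at hcon
    have h01 : (⟨0, by omega⟩ : Fin k) = ⟨1, by omega⟩ := by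
      apply hR
      ext j
      exact hcon j _ _
    have := congrArg Fin.val h01
    simp at this
  obtain ⟨j, hj⟩ := hex
  fin_cases j
  · exact (s2.1.trans s1.1).trans_lt (s0.2 hj)
  · exact s2.1.trans_lt ((s1.2 hj).trans_le s0.1)
  · exact (s2.2 hj).trans_le (s1.1.trans s0.1)

end Pool.Agent.H50.TM
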