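import Pool.Agent.H50.TM.GeoM

/-!
# Module TfB: elementary properties of the functional `tf`

* `tf_eq`: `∫ y, ρ x ρ y/‖x-y‖ = ρ x · G ρ x` (`integral_const_mul`).
* `tf_congr_ae`: all terms are integrals (`G_congr`).
* `U_bil`: `U R z = ∑_{i<j}` is half of the symmetric bilinear form `∑_i ∑_j z_i z_j/‖R i - R j‖` (the diagonal terms are `z²/0 = 0`).
* `tf_dec`: for `ρ1 ρ2 = 0` pointwise: `(ρ1+ρ2)^(5/3) = ρ1^(5/3) + ρ2^(5/3)`; `V` is linear in the charges, `G` linear, `G_symm`, `U_bil`.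
-/

set_option autoImplicit false

open MeasureTheory Set Filter Topology
open scoped ENNReal NNReal

namespace Pool.Agent.H50.TM

open Pool.Agent.H23.TF

variable {γ μ : ℝ} {k : ℕ} {R : Fin k → E3} {z : Fin k → ℝ} {ρ ρ1 ρ2 : E3 → ℝ}

theorem DN.ld (h : DN ρ) : Ld ρ := Ld.of_nonneg h.nonneg h.int h.int53

private theorem dn_of_ld (h0 : ∀ x, 0 ≤ ρ x) (h : Ld ρ) : DN ρ := by
  refine ⟨h0, h.i1, ?_⟩
  have e : (fun x => ρ x ^ (5 / 3 : ℝ)) = fun x => |ρ x| ^ (5 / 3 : ℝ) := by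
    funext x
    rw [abs_of_nonneg (h0 x)]
  rw [e]
  exact h.i2

theorem DN.add (h1 : DN ρ1) (h2 : DN ρ2) : DN (fun x => ρ1 x + ρ2 x) :=
  dn_of_ld (fun x => add_nonneg (h1.nonneg x) (h2.nonneg x)) (h1.ld.add h2.ld)

theorem DN.smul (h : DN ρ) {c : ℝ} (hc : 0 ≤ c) : DN (fun x => c * ρ x) :=
  dn_of_ld (fun x => mul_nonneg hc (h.nonneg x)) (h.ld.const_mul c)

theorem Density.dn {N : ℝ} (h : Density N ρ) : DN ρ := ⟨h.nonneg, h.int, h.int53⟩

theorem DN.density (h : DN ρ) : Density (∫ x, ρ x) ρ := ⟨h.nonneg, h.int, h.int53, rfl⟩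

theorem tf_eq (γ : ℝ) (R : Fin k → E3) (z : Fin k → ℝ) (ρ : E3 → ℝ) : tf γ R z ρ =
    3 / 5 * γ * (∫ x, ρ x ^ (5 / 3 : ℝ)) - (∫ x, V R z x * ρ x) + 1 / 2 * (∫ x, ρ x * G ρ x) + U R z := by
  unfold tf
  have e : ∀ x, ∫ y, ρ x * ρ y / ‖x - y‖ = ρ x * G ρ x := fun x => by
    unfold G
    rw [← integral_const_mul]
    simp only [mul_div_assoc]
  simp only [e]

theorem tf_congr_ae (γ : ℝ) (R : Fin k → E3) (z : Fin k → ℝ) {ρ ρ' : E3 → ℝ} (h : ρ =ᵐ[volume] ρ') : tf γ R z ρ = tf γ R z ρ' := by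
  rw [tf_eq, tf_eq, G_congr h]
  have h1 : ∫ x, ρ x ^ (5 / 3 : ℝ) = ∫ x, ρ' x ^ (5 / 3 : ℝ) := by
    apply integral_congr_ae
    filter_upwards [h] with x hx
    rw [hx]
  have h2 : ∫ x, V R z x * ρ x = ∫ x, V R z x * ρ' x := by
    apply integral_congr_ae
    filter_upwards [h] with x hx
    rw [hx]
  have h3 : ∫ x, ρ x * G ρ' x = ∫ x, ρ' x * G ρ' x := by
    apply integral_congr_ae
    filter_upwards [h] with x hx
    rw [hx]
  rw [h1, h2, h3]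

theorem U_bil (R : Fin k → E3) (z : Fin k → ℝ) : U R z = 1 / 2 * ∑ i, ∑ j, z i * z j / ‖R i - R j‖ := by
  have h0 : ∀ i j, z i * z j / ‖R i - R j‖ =
      (if i < j then z i * z j / ‖R i - R j‖ else 0) + (if j < i then z i * z j / ‖R i - R j‖ else 0) := by
    intro i j
    rcases lt_trichotomy i j with h | h | h
    · rw [if_pos h, if_neg (not_lt.2 h.le), add_zero]
    · subst h
      rw [if_neg (lt_irrefl _), sub_self, norm_zero, div_zero, add_zero]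
    · rw [if_neg (not_lt.2 h.le), if_pos h, zero_add]
  have h1 : U R z = ∑ i, ∑ j, (if i < j then z i * z j / ‖R i - R j‖ else 0) := by
    unfold U
    refine Finset.sum_congr rfl fun i _ => ?_
    rw [Finset.sum_filter]
  have h2 : ∑ i, ∑ j, (if j < i then z i * z j / ‖R i - R j‖ else 0) =
      ∑ i, ∑ j, (if i < j then z i * z j / ‖R i - R j‖ else 0) := by
    rw [Finset.sum_comm]
    refine Finset.sum_congr rfl fun i _ => Finset.sum_congr rfl fun j _ => ?_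
    rw [norm_sub_rev (R j) (R i), mul_comm (z j) (z i)]
  have h3 : ∑ i, ∑ j, z i * z j / ‖R i - R j‖ =
      (∑ i, ∑ j, (if i < j then z i * z j / ‖R i - R j‖ else 0)) +
        ∑ i, ∑ j, (if j < i then z i * z j / ‖R i - R j‖ else 0) := by
    rw [← Finset.sum_add_distrib]
    refine Finset.sum_congr rfl fun i _ => ?_
    rw [← Finset.sum_add_distrib]
    exact Finset.sum_congr rfl fun j _ => h0 i j
  rw [h3, h2, h1]
  ring

theorem U_nonneg (R : Fin k → E3) (hz : ∀ i, 0 ≤ z i) : 0 ≤ U R z := by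
  unfold U
  exact Finset.sum_nonneg fun i _ => Finset.sum_nonneg fun j _ =>
    div_nonneg (mul_nonneg (hz i) (hz j)) (norm_nonneg _)

theorem tf_dec (γ : ℝ) (R : Fin k → E3) (z1 z2 : Fin k → ℝ) (h1 : DN ρ1) (h2 : DN ρ2) (h12 : ∀ x, ρ1 x * ρ2 x = 0) :
    tf γ R (fun i => z1 i + z2 i) (fun x => ρ1 x + ρ2 x) = tf γ R z1 ρ1 + tf γ R z2 ρ2 + XX R z1 z2 ρ1 ρ2 := by
  have l1 := h1.ld
  have l2 := h2.ld
  rw [tf_eq, tf_eq, tf_eq]
  have a1 : ∫ x, (ρ1 x + ρ2 x) ^ (5 / 3 : ℝ) = (∫ x, ρ1 x ^ (5 / 3 : ℝ)) + ∫ x, ρ2 x ^ (5 / 3 : ℝ) := by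
    rw [← integral_add h1.int53 h2.int53]
    congr 1
    funext x
    rcases mul_eq_zero.1 (h12 x) with h | h
    · rw [h, zero_add, Real.zero_rpow (by norm_num), zero_add]
    · rw [h, add_zero, Real.zero_rpow (by norm_num), add_zero]
  have a2 : ∫ x, V R (fun i => z1 i + z2 i) x * (ρ1 x + ρ2 x) =
      (∫ x, V R z1 x * ρ1 x) + (∫ x, V R z1 x * ρ2 x) + ((∫ x, V R z2 x * ρ1 x) + ∫ x, V R z2 x * ρ2 x) := by
    have i1 : Integrable (fun x => V R z1 x * ρ1 x + V R z1 x * ρ2 x) :=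
      (l1.int_V R z1).add (l2.int_V R z1)
    have i2 : Integrable (fun x => V R z2 x * ρ1 x + V R z2 x * ρ2 x) :=
      (l1.int_V R z2).add (l2.int_V R z2)
    rw [← integral_add (l1.int_V R z1) (l2.int_V R z1), ← integral_add (l1.int_V R z2) (l2.int_V R z2),
      ← integral_add i1 i2]
    congr 1
    funext x
    have e := V_add R z1 z2 x
    have e' : V R (fun i => z1 i + z2 i) x = V R z1 x + V R z2 x := e
    rw [e']
    ring
  have a3 : ∫ x, (ρ1 x + ρ2 x) * G (fun x => ρ1 x + ρ2 x) x =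
      (∫ x, ρ1 x * G ρ1 x) + (∫ x, ρ1 x * G ρ2 x) + ((∫ x, ρ2 x * G ρ1 x) + ∫ x, ρ2 x * G ρ2 x) := by
    have i1 : Integrable (fun x => ρ1 x * G ρ1 x + ρ1 x * G ρ2 x) :=
      (l1.int_mul_G l1).add (l1.int_mul_G l2)
    have i2 : Integrable (fun x => ρ2 x * G ρ1 x + ρ2 x * G ρ2 x) :=
      (l2.int_mul_G l1).add (l2.int_mul_G l2)
    rw [← integral_add (l1.int_mul_G l1) (l1.int_mul_G l2), ← integral_add (l2.int_mul_G l1) (l2.int_mul_G l2),
      ← integral_add i1 i2]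
    congr 1
    funext x
    rw [G_add l1 l2 x]
    ring
  have a4 := G_symm l2 l1
  have a5 : ∑ i, ∑ j, z2 i * z1 j / ‖R i - R j‖ = ∑ i, ∑ j, z1 i * z2 j / ‖R i - R j‖ := by
    rw [Finset.sum_comm]
    refine Finset.sum_congr rfl fun i _ => Finset.sum_congr rfl fun j _ => ?_
    rw [norm_sub_rev (R j) (R i), mul_comm (z2 j) (z1 i)]
  have a6 : U R (fun i => z1 i + z2 i) = U R z1 + U R z2 + ∑ i, ∑ j, z1 i * z2 j / ‖R i - R j‖ := by
    rw [U_bil, U_bil, U_bil]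
    have e : ∑ i, ∑ j, (z1 i + z2 i) * (z1 j + z2 j) / ‖R i - R j‖ =
        (∑ i, ∑ j, z1 i * z1 j / ‖R i - R j‖) + (∑ i, ∑ j, z1 i * z2 j / ‖R i - R j‖) +
        ((∑ i, ∑ j, z2 i * z1 j / ‖R i - R j‖) + ∑ i, ∑ j, z2 i * z2 j / ‖R i - R j‖) := by
      simp only [← Finset.sum_add_distrib]
      refine Finset.sum_congr rfl fun i _ => Finset.sum_congr rfl fun j _ => ?_
      ring
    rw [e, a5]
    ring
  unfold XX
  rw [a1, a2, a3, a4, a6]
  ring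

end Pool.Agent.H50.TM
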