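import Pool.Agent.H50.TM.GeoM

/-!
# Module TrA: integrals of the trial density

* `slb_int`: `integral_mk'` / product measure: `slb e g (mk t p) = 1_{0<t≤e} g p`.
* `tr_ae`: pointwise for `x₀ ≠ 0` (`plane_ae`): `x₀ < 0`, `0 < x₀ ≤ e`, `x₀ > e`.
* `tr_int`: `tr e h` is a.e. `lp h + (rp h)(· - e e0) + slb e (h ∘ mk 0)`, translation invariance, `slb_int`, `h = lp h + rp h` a.e.
* `tr_comp`: `tr` commutes with pointwise functions (definition).
-/

set_option autoImplicit false

open MeasureTheory Set Filter Topology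
open scoped ENNReal NNReal

namespace Pool.Agent.H50.TM

open Pool.Agent.H23.TF

variable {h : E3 → ℝ} {e : ℝ}

private lemma tra_set1 (e : ℝ) : MeasurableSet {x : E3 | 0 < x 0 ∧ x 0 ≤ e} :=
  (measurableSet_lt measurable_const continuous_zero.measurable).inter
    (measurableSet_le continuous_zero.measurable measurable_const)

private lemma tra_neg : MeasurableSet {x : E3 | x 0 < 0} :=
  measurableSet_lt continuous_zero.measurable measurable_const

private lemma tra_pos : MeasurableSet {x : E3 | 0 < x 0} :=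
  measurableSet_lt measurable_const continuous_zero.measurable

theorem slb_meas {g : P2 → ℝ} (hg : Measurable g) (e : ℝ) : Measurable (slb e g) := by
  classical
  unfold slb
  exact Measurable.ite (tra_set1 e) (hg.comp continuous_pr.measurable) measurable_const

private lemma slb_mk (g : P2 → ℝ) (e t : ℝ) (p : P2) :
    slb e g (mk t p) = (Ioc 0 e).indicator (fun _ => (1 : ℝ)) t * g p := by
  unfold slb
  rw [mk_zero, pr_mk]
  by_cases h : 0 < t ∧ t ≤ e
  · rw [if_pos h, indicator_of_mem (show t ∈ Ioc 0 e from h), one_mul]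
  · rw [if_neg h, indicator_of_notMem (show t ∉ Ioc 0 e from h), zero_mul]

theorem slb_int {g : P2 → ℝ} (hg : Integrable g) (he : 0 ≤ e) : Integrable (slb e g) ∧ ∫ x, slb e g x = e * ∫ p, g p := by
  have hi : Integrable ((Ioc 0 e).indicator fun _ : ℝ => (1 : ℝ)) := by
    rw [integrable_indicator_iff measurableSet_Ioc]
    exact continuous_const.integrableOn_Ioc
  have h1 : Integrable (slb e g) := by
    rw [← integrable_mk_iff]
    refine (hi.mul_prod hg).congr (Eventually.of_forall fun q => ?_)
    exact (slb_mk g e q.1 q.2).symm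
  refine ⟨h1, ?_⟩
  rw [integral_mk h1]
  simp only [slb_mk]
  have h2 : ∀ t : ℝ, ∫ p : P2, (Ioc 0 e).indicator (fun _ => (1 : ℝ)) t * g p =
      (Ioc 0 e).indicator (fun _ => (1 : ℝ)) t * ∫ p : P2, g p := fun t => integral_const_mul _ _
  simp only [h2]
  rw [integral_mul_const, integral_indicator measurableSet_Ioc]
  simp [he]

theorem tr_ae (h : E3 → ℝ) (he : 0 < e) :
    tr e h =ᵐ[volume] fun x => lp h x + rp h (x - e • e0) + slb e (fun p => h (mk 0 p)) x := by
  filter_upwards [plane_ae] with x hx
  unfold tr lp rp slb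
  rw [sub_e0_zero]
  rcases lt_or_gt_of_ne hx with h1 | h1
  · rw [if_pos h1.le, if_pos h1, if_neg (by linarith), if_neg (fun h2 => by linarith [h2.1])]
    ring
  · rw [if_neg (not_le.2 h1), if_neg (not_lt.2 h1.le)]
    by_cases h2 : x 0 ≤ e
    · rw [if_pos h2, if_neg (by linarith), if_pos ⟨h1, h2⟩]
      ring
    · rw [if_neg h2, if_pos (by linarith), if_neg (fun h3 => h2 h3.2)]
      ring

theorem tr_comp (F : ℝ → ℝ) (h : E3 → ℝ) (e : ℝ) (x : E3) : tr e (fun y => F (h y)) x = F (tr e h x) := by
  unfold tr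
  split_ifs <;> rfl

theorem tr_int (hh : Integrable h) (hp : Integrable (fun p : P2 => h (mk 0 p))) (he : 0 < e) :
    Integrable (tr e h) ∧ ∫ x, tr e h x = (∫ x, h x) + e * ∫ p : P2, h (mk 0 p) := by
  have el : lp h = {x : E3 | x 0 < 0}.indicator h := by
    funext x
    unfold lp
    by_cases hx : x 0 < 0
    · rw [if_pos hx, indicator_of_mem (show x ∈ {x : E3 | x 0 < 0} from hx)]
    · rw [if_neg hx, indicator_of_notMem (show x ∉ {x : E3 | x 0 < 0} from hx)]
  have er : rp h = {x : E3 | 0 < x 0}.indicator h := by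
    funext x
    unfold rp
    by_cases hx : 0 < x 0
    · rw [if_pos hx, indicator_of_mem (show x ∈ {x : E3 | 0 < x 0} from hx)]
    · rw [if_neg hx, indicator_of_notMem (show x ∉ {x : E3 | 0 < x 0} from hx)]
  have il : Integrable (lp h) := by
    rw [el]
    exact hh.indicator tra_neg
  have ir : Integrable (rp h) := by
    rw [er]
    exact hh.indicator tra_pos
  have ir' : Integrable fun x => rp h (x - e • e0) := ir.comp_sub_right (e • e0)
  obtain ⟨is, es⟩ := slb_int hp he.le
  have hae := tr_ae h he
  refine ⟨((il.add ir').add is).congr hae.symm, ?_⟩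
  rw [integral_congr_ae hae]
  have e1 : ∫ x, (lp h x + rp h (x - e • e0) + slb e (fun p => h (mk 0 p)) x) =
      (∫ x, lp h x) + (∫ x, rp h (x - e • e0)) + ∫ x, slb e (fun p => h (mk 0 p)) x := by
    have ilr : Integrable (fun x => lp h x + rp h (x - e • e0)) := il.add ir'
    rw [integral_add ilr is, integral_add il ir']
  rw [e1, es, integral_sub_right_eq_self (rp h) (e • e0), ← integral_add il ir]
  congr 1
  refine integral_congr_ae ?_
  filter_upwards [plane_ae] with x hx
  unfold lp rp
  rcases lt_or_gt_of_ne hx with h1 | h1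
  · rw [if_pos h1, if_neg (not_lt.2 h1.le), add_zero]
  · rw [if_neg (not_lt.2 h1.le), if_pos h1, zero_add]

end Pool.Agent.H50.TM
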