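import Pool.Agent.H50.TM.IExp
import Pool.Agent.H50.TM.DenB
import Pool.Agent.H50.TM.LocA

/-!
# Module TrC: the interaction of the two halves when the right one is translated

`nL = nu R zL`, `nR = nu R zR`, `dL = dens (lp ρ)`, `dR = dens (rp ρ)`. For every `e ≥ 0`:
`XX (shR R e) zL zR (lp ρ) (rp ρ (· - e e0)) = I_e(nL, nR) - I_e(nL, dR) - I_e(dL, nR) + I_e(dL, dR)` (`XX_eq`):
* first sum: only `i` left, `j` right contribute, `shR R e i = R i`, `shR R e j = R j + e e0`; `integral_nu` twice;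
* `∫ V (shR R e) zL · rp ρ (x - e e0) dx = ∑ zL_i ∫ rp ρ(y)/‖R_i - y - e e0‖ dy` (`int_V_mul`, translation) `= I_e(nL, dR)` (`integral_nu`, `integral_dens`);
* `∫ V (shR R e) zR · lp ρ = ∑ zR_j G (lp ρ)(R_j + e e0) = I_e(dL, nR)`; * `∫ lp ρ · G (rp ρ (· - e e0)) = I_e(dL, dR)` (`G_shift`: `G (rp ρ)(x - e e0)`,
  `‖(x - e e0) - y‖ = ‖x - (y + e e0)‖`).
Then `Ie_lim` four times (`reg_nu`, `reg_dens`, `Cfg.slab`, sides).
-/

set_option autoImplicit false

open MeasureTheory Set Filter Topology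
open scoped ENNReal NNReal

namespace Pool.Agent.H50.TM

open Pool.Agent.H23.TF

variable {γ μ : ℝ} {k : ℕ} {R : Fin k → E3} {z : Fin k → ℝ} {ρ σ : E3 → ℝ}

private theorem trc_zL_nn (h : Cfg γ μ R z ρ σ) (i : Fin k) : 0 ≤ zL R z i := by
  unfold zL
  split_ifs
  · exact (h.hz i).le
  · exact le_rfl

private theorem trc_zR_nn (h : Cfg γ μ R z ρ σ) (i : Fin k) : 0 ≤ zR R z i := by
  unfold zR
  split_ifs
  · exact (h.hz i).le
  · exact le_rfl

private theorem trc_lp_nn (h : Cfg γ μ R z ρ σ) (x : E3) : 0 ≤ lp ρ x := by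
  unfold lp
  split_ifs
  · exact IsTF.nonneg h.hγ h.htf x
  · exact le_rfl

private theorem trc_rp_nn (h : Cfg γ μ R z ρ σ) (x : E3) : 0 ≤ rp ρ x := by
  unfold rp
  split_ifs
  · exact IsTF.nonneg h.hγ h.htf x
  · exact le_rfl

private theorem trc_shL (e : ℝ) (i : Fin k) (hi : zL R z i ≠ 0) : shR R e i = R i := by
  unfold shR
  rw [if_neg]
  intro h
  apply hi
  unfold zL
  rw [if_neg (not_lt.2 h.le)]

private theorem trc_shR (e : ℝ) (i : Fin k) (hi : zR R z i ≠ 0) : shR R e i = R i + e • e0 := by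
  unfold shR
  rw [if_pos]
  by_contra h
  apply hi
  unfold zR
  rw [if_neg h]

private theorem trc_G (f : E3 → ℝ) (x : E3) (e : ℝ) :
    ∫ y, f y * (1 / ‖x - (y + e • e0)‖) = G f (x - e • e0) := by
  unfold G
  congr 1
  ext y
  rw [show x - e • e0 - y = x - (y + e • e0) by abel]
  ring

theorem XX_eq (h : Cfg γ μ R z ρ σ) {e : ℝ} (he : 0 ≤ e) :
    XX (shR R e) (zL R z) (zR R z) (lp ρ) (fun x => rp ρ (x - e • e0)) =
      Ie e (nu R (zL R z)) (nu R (zR R z)) - Ie e (nu R (zL R z)) (dens (rp ρ))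
        - Ie e (dens (lp ρ)) (nu R (zR R z)) + Ie e (dens (lp ρ)) (dens (rp ρ)) := by
  have hzL := trc_zL_nn h
  have hzR := trc_zR_nn h
  have hl0 := trc_lp_nn h
  have hr0 := trc_rp_nn h
  have hlm := measurable_lp h.htf.meas
  have hrm := measurable_rp h.htf.meas
  have hLl : Ld (lp ρ) := Ld_lp h.htf.ld
  have hLr : Ld (rp ρ) := Ld_rp h.htf.ld
  have hLe : Ld (fun x => rp ρ (x - e • e0)) := Ld_shift hLr (e • e0)
  -- the four terms
  have t1 : Ie e (nu R (zL R z)) (nu R (zR R z)) =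
      ∑ i, ∑ j, zL R z i * zR R z j / ‖shR R e i - shR R e j‖ := by
    unfold Ie
    rw [integral_nu hzL]
    refine Finset.sum_congr rfl fun i _ => ?_
    rw [integral_nu hzR, Finset.mul_sum]
    refine Finset.sum_congr rfl fun j _ => ?_
    by_cases hi : zL R z i = 0
    · rw [hi]
      simp
    · by_cases hj : zR R z j = 0
      · rw [hj]
        simp
      · rw [trc_shL e i hi, trc_shR e j hj]
        ring
  have t2 : Ie e (nu R (zL R z)) (dens (rp ρ)) =
      ∫ x, V (shR R e) (zL R z) x * rp ρ (x - e • e0) := by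
    unfold Ie
    rw [integral_nu hzL, int_V_mul hLe]
    refine Finset.sum_congr rfl fun i _ => ?_
    by_cases hi : zL R z i = 0
    · rw [hi]
      simp
    · rw [trc_shL e i hi, G_shift, integral_dens hrm hr0, trc_G]
  have t3 : Ie e (dens (lp ρ)) (nu R (zR R z)) = ∫ x, V (shR R e) (zR R z) x * lp ρ x := by
    unfold Ie
    rw [integral_dens hlm hl0]
    have h1 : ∀ x, lp ρ x * ∫ y, 1 / ‖x - (y + e • e0)‖ ∂(nu R (zR R z)) =
        V (fun j => R j + e • e0) (zR R z) x * lp ρ x := by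
      intro x
      rw [integral_nu hzR, mul_comm]
      congr 1
      unfold V
      refine Finset.sum_congr rfl fun j _ => ?_
      ring
    rw [integral_congr_ae (Eventually.of_forall h1), int_V_mul hLl, int_V_mul hLl]
    refine Finset.sum_congr rfl fun j _ => ?_
    by_cases hj : zR R z j = 0
    · rw [hj]
      simp
    · rw [trc_shR e j hj]
  have t4 : Ie e (dens (lp ρ)) (dens (rp ρ)) = ∫ x, lp ρ x * G (fun x => rp ρ (x - e • e0)) x := by
    unfold Ie
    rw [integral_dens hlm hl0]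
    refine integral_congr_ae (Eventually.of_forall fun x => ?_)
    show lp ρ x * ∫ y, 1 / ‖x - (y + e • e0)‖ ∂(dens (rp ρ)) =
      lp ρ x * G (fun x => rp ρ (x - e • e0)) x
    rw [integral_dens hrm hr0, trc_G, G_shift]
  rw [t1, t2, t3, t4]
  rfl

theorem XX_lim (h : Cfg γ μ R z ρ σ) :
    Tendsto (fun e : ℝ => (XX (shR R e) (zL R z) (zR R z) (lp ρ) (fun x => rp ρ (x - e • e0))
        - XX R (zL R z) (zR R z) (lp ρ) (rp ρ)) / e) (𝓝[>] 0)
      (𝓝 (-(br (nu R (zL R z)) (nu R (zR R z)) - br (nu R (zL R z)) (dens (rp ρ))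
        - br (dens (lp ρ)) (nu R (zR R z)) + br (dens (lp ρ)) (dens (rp ρ))))) := by
  have hl0 := trc_lp_nn h
  have hr0 := trc_rp_nn h
  have hlm := measurable_lp h.htf.meas
  have hrm := measurable_rp h.htf.meas
  have hLl : Ld (lp ρ) := Ld_lp h.htf.ld
  have hLr : Ld (rp ρ) := Ld_rp h.htf.ld
  obtain ⟨d, hd, -, C, hC⟩ := h.slab
  have rnL : Reg (nu R (zL R z)) := reg_nu fun i _ => h.off i
  have rnR : Reg (nu R (zR R z)) := reg_nu fun i _ => h.off i
  have rdL : Reg (dens (lp ρ)) := by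
    refine reg_dens hlm hl0 hLl.i1 ⟨d, hd, max C 0, fun x hx => ?_⟩
    unfold lp
    split_ifs
    · exact (hC x hx).trans (le_max_left _ _)
    · exact le_max_right _ _
  have rdR : Reg (dens (rp ρ)) := by
    refine reg_dens hrm hr0 hLr.i1 ⟨d, hd, max C 0, fun x hx => ?_⟩
    unfold rp
    split_ifs
    · exact (hC x hx).trans (le_max_left _ _)
    · exact le_max_right _ _
  have snL := side_nuL R z
  have snR := side_nuR R z
  have sdL : (dens (lp ρ)) Hp = 0 := side_left fun x hx => if_neg (not_lt.2 hx.le)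
  have sdR : (dens (rp ρ)) {x | x 0 ≤ 0} = 0 := side_right fun x hx => if_neg (not_lt.2 hx)
  have l1 := Ie_lim rnL rnR snL snR
  have l2 := Ie_lim rnL rdR snL sdR
  have l3 := Ie_lim rdL rnR sdL snR
  have l4 := Ie_lim rdL rdR sdL sdR
  have h0 : XX R (zL R z) (zR R z) (lp ρ) (rp ρ) =
      Ie 0 (nu R (zL R z)) (nu R (zR R z)) - Ie 0 (nu R (zL R z)) (dens (rp ρ))
        - Ie 0 (dens (lp ρ)) (nu R (zR R z)) + Ie 0 (dens (lp ρ)) (dens (rp ρ)) := by
    have h1 := XX_eq h (le_refl (0 : ℝ))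
    have h2 : shR R 0 = R := by
      funext i
      unfold shR
      rw [zero_smul, add_zero, ite_self]
    have h3 : (fun x => rp ρ (x - (0 : ℝ) • e0)) = rp ρ := by
      funext x
      rw [zero_smul, sub_zero]
    rw [h2, h3] at h1
    exact h1
  have hl := ((l1.sub l2).sub l3).add l4
  have e1 : -br (nu R (zL R z)) (nu R (zR R z)) - -br (nu R (zL R z)) (dens (rp ρ))
        - -br (dens (lp ρ)) (nu R (zR R z)) + -br (dens (lp ρ)) (dens (rp ρ)) =
      -(br (nu R (zL R z)) (nu R (zR R z)) - br (nu R (zL R z)) (dens (rp ρ))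
        - br (dens (lp ρ)) (nu R (zR R z)) + br (dens (lp ρ)) (dens (rp ρ))) := by ring
  rw [e1] at hl
  refine hl.congr' ?_
  filter_upwards [self_mem_nhdsWithin] with e he
  have he' : (0 : ℝ) < e := he
  rw [XX_eq h he'.le, h0]
  ring

end Pool.Agent.H50.TM
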