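import Pool.Agent.H50.TM.TfB
import Pool.Agent.H50.TM.LocA
import Pool.Agent.H50.TM.TrA

/-!
# Module TrD: the energy of the slab

`g p = ρ (mk 0 p)`: continuous, bounded, zero for `‖p‖ ≥ r` (`ρ = jj(φ)`, `φ = V - Gρ` is continuous near the plane: `continuousAt_V`, `continuous_G`, `continuous_jj`;
`IsTF.supp`), `s = slb e g`, `ψ_e(x) = V (shR R e) z x - G (lp ρ) x - G (rp ρ) (x - e e0)` (`G_add`, `G_shift`). With charges `0`: `V R 0 = 0`, `U R 0 = 0`, so by `tf_eq` and the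
definition of `XX` (with `G_symm`): the quantity is `3/5 γ ∫ s^(5/3) - ∫ ψ_e s + 1/2 ∫ s G s`.
* `∫ s^(5/3) = e ∫ g^(5/3)` (`slb_int`, `s^(5/3) = slb e (g^(5/3))`).
* `V (shR R e) z x = V R (zL) x + V R (zR) (x - e e0)`. `(1/e) ∫ ψ_e s = ∫_P g(p) (1/e) ∫_0^e ψ_e(mk t p) dt dp`, `mk t p - e e0 = mk (t-e) p`:
  `ψ_e(mk t p) = [V R zL - G (lp ρ)](mk t p) + [V R zR - G (rp ρ)](mk (t-e) p)`; both brackets are continuous on the compact set `{|x₀| ≤ d', ‖pr x‖ ≤ r}`
  (`d' < |(R i) 0|`), so uniformly continuous: the average tends to `φ(mk 0 p) = phi R z ρ (mk 0 p)` uniformly in `‖p‖ ≤ r` (`lp ρ + rp ρ = ρ` a.e., `zL + zR = z`).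
* `0 ≤ ∫ s G s ≤ (∫ s) sup G s = e (∫ g) sup G s`, and `G s (x) ≤ ‖g‖_∞ ∫_{‖x-y‖<δ} 1/‖x-y‖ + (1/δ) e ∫ g ≤ C (δ² + e/δ)`: with `δ = e^(1/3)` (or for any fixed `δ`, let
  `e → 0`) this is `o(1)`.
-/

set_option autoImplicit false

open MeasureTheory Set Filter Topology
open scoped ENNReal NNReal

namespace Pool.Agent.H50.TM

open Pool.Agent.H23.TF

variable {γ μ : ℝ} {k : ℕ} {R : Fin k → E3} {z : Fin k → ℝ} {ρ σ : E3 → ℝ}

theorem plane_cont (h : Cfg γ μ R z ρ σ) : Continuous (fun p : P2 => ρ (mk 0 p)) ∧ Continuous (fun p : P2 => phi R z ρ (mk 0 p)) ∧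
    ∃ r : ℝ, 0 < r ∧ ∀ p : P2, r ≤ ‖p‖ → ρ (mk 0 p) = 0 := by
  have hmk : Continuous (fun p : P2 => mk 0 p) :=
    continuous_mk.comp (by fun_prop : Continuous (fun p : P2 => ((0:ℝ), p)))
  have hphi : Continuous (fun p : P2 => phi R z ρ (mk 0 p)) := by
    rw [continuous_iff_continuousAt]
    intro p
    have h1 : ContinuousAt (phi R z ρ) (mk 0 p) := by
      refine (continuousAt_V (R := R) (z := z) ?_).sub (continuous_G h.htf.ld).continuousAt
      intro i _ hi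
      apply h.off i
      rw [← hi]
      simp
    exact ContinuousAt.comp (f := fun p : P2 => mk 0 p) h1 hmk.continuousAt
  refine ⟨?_, hphi, ?_⟩
  · have : (fun p : P2 => ρ (mk 0 p)) = fun p => jj γ μ (phi R z ρ (mk 0 p)) := by
      funext p
      rw [h.htf.eq]
      rfl
    rw [this]
    exact (continuous_jj h.hγ).comp hphi
  · obtain ⟨r, hr, h1⟩ := IsTF.supp h.hγ h.hμ (fun i => (h.hz i).le) h.htf
    refine ⟨r, hr, fun p hp => h1 _ ?_⟩
    have h2 := norm_mk_sq 0 p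
    have h3 : ‖mk 0 p‖ = ‖p‖ := by
      have h4 : ‖mk 0 p‖ ^ 2 = ‖p‖ ^ 2 := by rw [h2]; ring
      exact (sq_eq_sq₀ (norm_nonneg _) (norm_nonneg _)).1 h4
    rw [h3]
    exact hp

theorem TrD_V_shR (hoff : ∀ i, (R i) 0 ≠ 0) (e : ℝ) (x : E3) :
    V (shR R e) z x = V R (zL R z) x + V R (zR R z) (x - e • e0) := by
  unfold V
  rw [← Finset.sum_add_distrib]
  refine Finset.sum_congr rfl fun i _ => ?_
  unfold shR zL zR
  rcases lt_or_gt_of_ne (hoff i) with h1 | h1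
  · rw [if_pos h1, if_neg (not_lt.2 h1.le), if_neg (not_lt.2 h1.le)]
    simp
  · rw [if_pos h1, if_neg (not_lt.2 h1.le), if_pos h1]
    have : x - (R i + e • e0) = x - e • e0 - R i := by abel
    rw [this]
    simp

theorem TrD_Ld_lp (hρ : Ld ρ) : Ld (lp ρ) := by
  have h1 : MeasurableSet {x : E3 | x 0 < 0} := (isOpen_lt continuous_zero continuous_const).measurableSet
  have h2 := hρ.indicator h1
  have h3 : {x : E3 | x 0 < 0}.indicator ρ = lp ρ := by
    funext x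
    unfold lp
    by_cases hx : x 0 < 0
    · rw [if_pos hx, Set.indicator_of_mem (show x ∈ {x : E3 | x 0 < 0} from hx)]
    · rw [if_neg hx, Set.indicator_of_notMem (show x ∉ {x : E3 | x 0 < 0} from hx)]
  rwa [h3] at h2

theorem TrD_Ld_rp (hρ : Ld ρ) : Ld (rp ρ) := by
  have h1 : MeasurableSet {x : E3 | 0 < x 0} := (isOpen_lt continuous_const continuous_zero).measurableSet
  have h2 := hρ.indicator h1
  have h3 : {x : E3 | 0 < x 0}.indicator ρ = rp ρ := by
    funext x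
    unfold rp
    by_cases hx : 0 < x 0
    · rw [if_pos hx, Set.indicator_of_mem (show x ∈ {x : E3 | 0 < x 0} from hx)]
    · rw [if_neg hx, Set.indicator_of_notMem (show x ∉ {x : E3 | 0 < x 0} from hx)]
  rwa [h3] at h2

theorem TrD_phi (hoff : ∀ i, (R i) 0 ≠ 0) (hρ : Ld ρ) (x : E3) :
    (V R (zL R z) x - G (lp ρ) x) + (V R (zR R z) x - G (rp ρ) x) = phi R z ρ x := by
  have h1 : V R (zL R z) x + V R (zR R z) x = V R z x := by
    rw [← V_add]
    congr 1
    funext i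
    unfold zL zR
    rw [Pi.add_apply]
    rcases lt_or_gt_of_ne (hoff i) with h1 | h1
    · rw [if_pos h1, if_neg (not_lt.2 h1.le)]; simp
    · rw [if_pos h1, if_neg (not_lt.2 h1.le)]; simp
  have h2 : G (lp ρ) x + G (rp ρ) x = G ρ x := by
    rw [← G_add (TrD_Ld_lp hρ) (TrD_Ld_rp hρ)]
    have h3 : (fun y => lp ρ y + rp ρ y) =ᵐ[volume] ρ := by
      filter_upwards [plane_ae] with y hy
      unfold lp rp
      rcases lt_or_gt_of_ne hy with h1 | h1
      · rw [if_pos h1, if_neg (not_lt.2 h1.le)]; simp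
      · rw [if_pos h1, if_neg (not_lt.2 h1.le)]; simp
    rw [G_congr h3]
  unfold phi
  rw [← h1, ← h2]
  ring

/-- the potentials of the two halves are continuous near the plane, uniformly on compact sets -/
theorem TrD_unif {w : Fin k → ℝ} {f : E3 → ℝ} (hf : Ld f) {d : ℝ} (hd : 0 < d) (hR : ∀ i, d < |(R i) 0|) (r : ℝ) {ε : ℝ} (hε : 0 < ε) :
    ∃ δ : ℝ, 0 < δ ∧ ∀ p : P2, ‖p‖ ≤ r → ∀ t : ℝ, |t| < δ →
      |(V R w (mk t p) - G f (mk t p)) - (V R w (mk 0 p) - G f (mk 0 p))| < ε := by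
  set K : Set E3 := {x | |x 0| ≤ d} ∩ Metric.closedBall 0 (r + d) with hK
  have hKc : IsCompact K := by
    have h1 : IsClosed {x : E3 | |x 0| ≤ d} := isClosed_le (continuous_abs.comp continuous_zero) continuous_const
    exact (isCompact_closedBall 0 (r + d)).inter_left h1
  have hc : ContinuousOn (fun x => V R w x - G f x) K := by
    intro x hx
    refine ContinuousAt.continuousWithinAt ?_
    refine (continuousAt_V (R := R) (z := w) ?_).sub (continuous_G hf).continuousAt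
    intro i _ hi
    have h1 : |x 0| ≤ d := hx.1
    have h2 := hR i
    rw [← hi] at h2
    linarith
  have hu := hKc.uniformContinuousOn_of_continuous hc
  rw [Metric.uniformContinuousOn_iff] at hu
  obtain ⟨δ, hδ, h1⟩ := hu ε hε
  refine ⟨min δ d, lt_min hδ hd, fun p hp t ht => ?_⟩
  have ht1 : |t| < δ := lt_of_lt_of_le ht (min_le_left _ _)
  have ht2 : |t| < d := lt_of_lt_of_le ht (min_le_right _ _)
  have hr0 : 0 ≤ r := (norm_nonneg p).trans hp
  have hmem : ∀ s : ℝ, |s| ≤ d → mk s p ∈ K := by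
    intro s hs
    refine ⟨?_, ?_⟩
    · simpa using hs
    · rw [mem_closedBall_zero_iff]
      have h2 := norm_mk_sq s p
      have h3 : ‖mk s p‖ ^ 2 ≤ (r + d) ^ 2 := by
        rw [h2]
        have h4 : s ^ 2 ≤ d ^ 2 := by
          rw [← sq_abs s]
          exact pow_le_pow_left₀ (abs_nonneg _) hs 2
        have h5 : ‖p‖ ^ 2 ≤ r ^ 2 := pow_le_pow_left₀ (norm_nonneg _) hp 2
        nlinarith
      exact (pow_le_pow_iff_left₀ (norm_nonneg _) (by linarith) two_ne_zero).1 h3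
  have hdist : dist (mk t p) (mk 0 p) < δ := by
    rw [dist_eq_norm]
    have h2 := norm_mk_sub_sq t 0 p p
    have h3 : ‖mk t p - mk 0 p‖ ^ 2 = |t| ^ 2 := by
      rw [h2, sq_abs]; simp
    have h4 : ‖mk t p - mk 0 p‖ = |t| := (sq_eq_sq₀ (norm_nonneg _) (abs_nonneg _)).1 h3
    rw [h4]; exact ht1
  have h2 := h1 _ (hmem t ht2.le) _ (hmem 0 (by simpa using hd.le)) hdist
  rwa [Real.dist_eq] at h2

theorem TrD_slb_pow {g : P2 → ℝ} (e : ℝ) : (fun x => slb e g x ^ (5 / 3 : ℝ)) = slb e (fun p => g p ^ (5 / 3 : ℝ)) := by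
  funext x
  unfold slb
  by_cases hx : 0 < x 0 ∧ x 0 ≤ e
  · rw [if_pos hx, if_pos hx]
  · rw [if_neg hx, if_neg hx, Real.zero_rpow (by norm_num)]

theorem TrD_slb_nonneg {g : P2 → ℝ} (hg0 : ∀ p, 0 ≤ g p) (e : ℝ) (x : E3) : 0 ≤ slb e g x := by
  unfold slb
  by_cases hx : 0 < x 0 ∧ x 0 ≤ e
  · rw [if_pos hx]; exact hg0 _
  · rw [if_neg hx]

theorem TrD_slb_ld {g : P2 → ℝ} (hg0 : ∀ p, 0 ≤ g p) (hg : Integrable g) (hg53 : Integrable (fun p => g p ^ (5 / 3 : ℝ))) {e : ℝ}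
    (he : 0 ≤ e) : Ld (slb e g) := by
  refine Ld.of_nonneg (TrD_slb_nonneg hg0 e) (slb_int hg he).1 ?_
  rw [TrD_slb_pow]
  exact (slb_int hg53 he).1

/-- the slab has small self potential -/
theorem TrD_self {g : P2 → ℝ} (hg0 : ∀ p, 0 ≤ g p) (hg : Integrable g) (hg53 : Integrable (fun p => g p ^ (5 / 3 : ℝ))) {ε : ℝ} (hε : 0 < ε) :
    ∃ δ : ℝ, 0 < δ ∧ ∀ e : ℝ, 0 < e → e < δ → ∀ x, G (slb e g) x ≤ ε := by
  obtain ⟨δ, hδ, h1⟩ := near_le (∫ p, g p ^ (5 / 3 : ℝ)) (half_pos hε)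
  have hI : 0 ≤ ∫ p, g p := integral_nonneg hg0
  have hI53 : 0 ≤ ∫ p, g p ^ (5 / 3 : ℝ) := integral_nonneg (fun p => Real.rpow_nonneg (hg0 p) _)
  refine ⟨min 1 (δ * (ε / 2) / ((∫ p, g p) + 1)), lt_min one_pos (by positivity), fun e he hlt x => ?_⟩
  have he1 : e ≤ 1 := (lt_of_lt_of_le hlt (min_le_left _ _)).le
  have he2 : e < δ * (ε / 2) / ((∫ p, g p) + 1) := lt_of_lt_of_le hlt (min_le_right _ _)
  have hs := TrD_slb_nonneg hg0 e
  have hLd := TrD_slb_ld hg0 hg hg53 he.le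
  have h53 : (∫ y, |slb e g y| ^ (5 / 3 : ℝ)) ≤ ∫ p, g p ^ (5 / 3 : ℝ) := by
    have : (fun y => |slb e g y| ^ (5 / 3 : ℝ)) = slb e (fun p => g p ^ (5 / 3 : ℝ)) := by
      rw [← TrD_slb_pow]
      funext y
      rw [abs_of_nonneg (hs y)]
    rw [this, (slb_int hg53 he.le).2]
    nlinarith
  have hnear := h1 _ hLd h53 x
  have hint := hLd.int_abs_div x
  have hsplit : G (slb e g) x = (∫ y in Metric.ball x δ, |slb e g y| / ‖x - y‖) + ∫ y in (Metric.ball x δ)ᶜ, |slb e g y| / ‖x - y‖ := by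
    rw [integral_add_compl Metric.isOpen_ball.measurableSet hint]
    unfold G
    simp only [abs_of_nonneg (hs _)]
  have hfar : ∫ y in (Metric.ball x δ)ᶜ, |slb e g y| / ‖x - y‖ ≤ ε / 2 := by
    have h2 : ∫ y in (Metric.ball x δ)ᶜ, |slb e g y| / ‖x - y‖ ≤ ∫ y in (Metric.ball x δ)ᶜ, |slb e g y| * δ⁻¹ := by
      refine setIntegral_mono_on hint.integrableOn (hLd.i1.abs.mul_const _).integrableOn Metric.isOpen_ball.measurableSet.compl fun y hy => ?_
      have hy1 : δ ≤ ‖x - y‖ := by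
        rw [mem_compl_iff, Metric.mem_ball, not_lt, dist_comm, dist_eq_norm] at hy
        exact hy
      rw [div_eq_mul_inv]
      exact mul_le_mul_of_nonneg_left (inv_anti₀ hδ hy1) (abs_nonneg _)
    have h3 : ∫ y in (Metric.ball x δ)ᶜ, |slb e g y| * δ⁻¹ ≤ ∫ y, |slb e g y| * δ⁻¹ :=
      setIntegral_le_integral (hLd.i1.abs.mul_const _) (Eventually.of_forall fun y => by positivity)
    have h4 : ∫ y, |slb e g y| * δ⁻¹ = e * (∫ p, g p) * δ⁻¹ := by
      rw [integral_mul_const, ← (slb_int hg he.le).2]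
      congr 1
      exact integral_congr_ae (Eventually.of_forall fun y => abs_of_nonneg (hs y))
    have h5 : e * (∫ p, g p) * δ⁻¹ ≤ ε / 2 := by
      rw [lt_div_iff₀ (by positivity)] at he2
      rw [← div_eq_mul_inv, div_le_iff₀ hδ]
      nlinarith
    linarith
  linarith

theorem TrD_psi (h : Cfg γ μ R z ρ σ) {e : ℝ} (he : 0 < e) {g : P2 → ℝ} (hg0 : ∀ p, 0 ≤ g p) (hg : Integrable g)
    (hg53 : Integrable (fun p => g p ^ (5 / 3 : ℝ))) :
    tf γ (shR R e) (fun _ => 0) (slb e g) + XX (shR R e) z (fun _ => 0) (fun x => lp ρ x + rp ρ (x - e • e0)) (slb e g)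
      = 3 / 5 * γ * (e * ∫ p, g p ^ (5 / 3 : ℝ))
        - (∫ x, ((V R (zL R z) x - G (lp ρ) x) + (V R (zR R z) (x - e • e0) - G (rp ρ) (x - e • e0))) * slb e g x)
        + 1 / 2 * ∫ x, slb e g x * G (slb e g) x := by
  have hLd := TrD_slb_ld hg0 hg hg53 he.le
  have hL := TrD_Ld_lp h.htf.ld
  have hRr : Ld (fun x => rp ρ (x - e • e0)) := Ld_shift (TrD_Ld_rp h.htf.ld) _
  have hκ : Ld (fun x => lp ρ x + rp ρ (x - e • e0)) := hL.add hRr
  rw [tf_eq, TrD_slb_pow, (slb_int hg53 he.le).2]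
  unfold XX
  have hV0 : ∀ x, V (shR R e) (fun _ => 0) x = 0 := by intro x; simp [V]
  have hU0 : U (shR R e) (fun _ => 0) = 0 := by simp [U]
  simp only [hV0, hU0, zero_mul, integral_zero, mul_zero, zero_div, Finset.sum_const_zero]
  rw [G_symm hκ hLd]
  have h1 : ∫ x, ((V R (zL R z) x - G (lp ρ) x) + (V R (zR R z) (x - e • e0) - G (rp ρ) (x - e • e0))) * slb e g x =
      (∫ x, V (shR R e) z x * slb e g x) - ∫ x, slb e g x * G (fun x => lp ρ x + rp ρ (x - e • e0)) x := by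
    rw [← integral_sub (hLd.int_V _ _) (hLd.int_mul_G hκ)]
    refine integral_congr_ae (Eventually.of_forall fun x => ?_)
    have h2 : G (fun x => lp ρ x + rp ρ (x - e • e0)) x = G (lp ρ) x + G (rp ρ) (x - e • e0) := by
      rw [G_add hL hRr, G_shift]
    simp only [h2, TrD_V_shR h.off]
    ring
  rw [h1]
  ring

theorem slab_lim (h : Cfg γ μ R z ρ σ) :
    Tendsto (fun e : ℝ => (tf γ (shR R e) (fun _ => 0) (slb e (fun p => ρ (mk 0 p)))
        + XX (shR R e) z (fun _ => 0) (fun x => lp ρ x + rp ρ (x - e • e0)) (slb e (fun p => ρ (mk 0 p)))) / e) (𝓝[>] 0)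
      (𝓝 (3 / 5 * γ * (∫ p : P2, ρ (mk 0 p) ^ (5 / 3 : ℝ)) - ∫ p : P2, phi R z ρ (mk 0 p) * ρ (mk 0 p))) := by
  obtain ⟨hgc, hΦc, r, hr, hsupp⟩ := plane_cont h
  set g : P2 → ℝ := fun p => ρ (mk 0 p) with hg_def
  set Φ : P2 → ℝ := fun p => phi R z ρ (mk 0 p) with hΦ_def
  have hg0 : ∀ p, 0 ≤ g p := fun p => h.htf.nonneg h.hγ _
  have hcs : ∀ f : P2 → ℝ, Continuous f → (∀ p, r ≤ ‖p‖ → f p = 0) → Integrable f := by
    intro f hf hf0
    refine hf.integrable_of_hasCompactSupport (HasCompactSupport.intro (isCompact_closedBall 0 r) fun p hp => hf0 p ?_)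
    rw [mem_closedBall_zero_iff, not_le] at hp
    exact hp.le
  have hg : Integrable g := hcs g hgc hsupp
  have hg53 : Integrable (fun p => g p ^ (5 / 3 : ℝ)) := by
    refine hcs _ (hgc.rpow_const fun p => Or.inr (by norm_num)) fun p hp => ?_
    rw [show g p = 0 from hsupp p hp, Real.zero_rpow (by norm_num)]
  have hΦg : Integrable (fun p => Φ p * g p) := by
    refine hcs _ (hΦc.mul hgc) fun p hp => ?_
    rw [show g p = 0 from hsupp p hp, mul_zero]
  obtain ⟨d, hd, hdR, -⟩ := h.slab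
  have hI : 0 ≤ ∫ p, g p := integral_nonneg hg0
  rw [Metric.tendsto_nhdsWithin_nhds]
  intro ε hε
  -- constants
  have hI1 : 0 < (∫ p, g p) + 1 := by linarith
  obtain ⟨δ1, hδ1, hA⟩ := TrD_unif (R := R) (w := zL R z) (TrD_Ld_lp h.htf.ld) hd hdR r (ε := ε / (4 * ((∫ p, g p) + 1))) (by positivity)
  obtain ⟨δ2, hδ2, hB⟩ := TrD_unif (R := R) (w := zR R z) (TrD_Ld_rp h.htf.ld) hd hdR r (ε := ε / (4 * ((∫ p, g p) + 1))) (by positivity)
  obtain ⟨δ3, hδ3, hS⟩ := TrD_self hg0 hg hg53 (ε := ε / (2 * ((∫ p, g p) + 1))) (by positivity)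
  refine ⟨min δ1 (min δ2 δ3), by positivity, fun {e} he hlt => ?_⟩
  rw [mem_Ioi] at he
  rw [Real.dist_eq, sub_zero, abs_of_pos he] at hlt
  have he1 : e < δ1 := lt_of_lt_of_le hlt (min_le_left _ _)
  have he2 : e < δ2 := lt_of_lt_of_le hlt ((min_le_right _ _).trans (min_le_left _ _))
  have he3 : e < δ3 := lt_of_lt_of_le hlt ((min_le_right _ _).trans (min_le_right _ _))
  have hLd := TrD_slb_ld hg0 hg hg53 he.le
  have hs0 := TrD_slb_nonneg hg0 e
  have hsI : ∫ x, slb e g x = e * ∫ p, g p := (slb_int hg he.le).2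
  rw [TrD_psi h he hg0 hg hg53]
  set ψ : E3 → ℝ := fun x => (V R (zL R z) x - G (lp ρ) x) + (V R (zR R z) (x - e • e0) - G (rp ρ) (x - e • e0)) with hψ_def
  -- first: the linear term
  have hL := TrD_Ld_lp h.htf.ld
  have hRr : Ld (fun x => rp ρ (x - e • e0)) := Ld_shift (TrD_Ld_rp h.htf.ld) _
  have hκ : Ld (fun x => lp ρ x + rp ρ (x - e • e0)) := hL.add hRr
  have hψint : Integrable (fun x => ψ x * slb e g x) := by
    refine ((hLd.int_V (shR R e) z).sub (hLd.int_mul_G hκ)).congr (Eventually.of_forall fun x => ?_)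
    have h2 : G (fun x => lp ρ x + rp ρ (x - e • e0)) x = G (lp ρ) x + G (rp ρ) (x - e • e0) := by
      rw [G_add hL hRr, G_shift]
    simp only [hψ_def, h2, TrD_V_shR h.off, Pi.sub_apply]
    ring
  have hΦint := slb_int hΦg he.le
  have hlin : |(∫ x, ψ x * slb e g x) - e * ∫ p, Φ p * g p| ≤ ε / (2 * ((∫ p, g p) + 1)) * (e * ∫ p, g p) := by
    rw [← hΦint.2, ← integral_sub hψint hΦint.1, ← hsI, ← integral_const_mul]
    refine (abs_integral_le_integral_abs).trans (integral_mono_of_nonneg (Eventually.of_forall fun x => abs_nonneg _)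
      (hLd.i1.const_mul _) (Eventually.of_forall fun x => ?_))
    show |ψ x * slb e g x - slb e (fun p => Φ p * g p) x| ≤ ε / (2 * ((∫ p, g p) + 1)) * slb e g x
    by_cases hx : 0 < x 0 ∧ x 0 ≤ e
    · have h1 : slb e g x = g (pr x) := by unfold slb; rw [if_pos hx]
      have h2 : slb e (fun p => Φ p * g p) x = Φ (pr x) * g (pr x) := by unfold slb; rw [if_pos hx]
      rw [h1, h2]
      by_cases hp : r ≤ ‖pr x‖
      · rw [show g (pr x) = 0 from hsupp _ hp]; simp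
      · push Not at hp
        have h3 := hA (pr x) hp.le (x 0) (by rw [abs_of_pos hx.1]; linarith [hx.2])
        have h4 := hB (pr x) hp.le (x 0 - e) (by rw [abs_lt]; constructor <;> linarith [hx.1, hx.2])
        rw [mk_pr] at h3
        have h5 : mk (x 0 - e) (pr x) = x - e • e0 := by
          rw [← mk_sub_e0, mk_pr]
        rw [h5] at h4
        have h6 := TrD_phi (z := z) h.off h.htf.ld (mk 0 (pr x))
        have h7 : |ψ x - Φ (pr x)| ≤ ε / (2 * ((∫ p, g p) + 1)) := by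
          have h8 : ψ x - Φ (pr x) = ((V R (zL R z) x - G (lp ρ) x) - (V R (zL R z) (mk 0 (pr x)) - G (lp ρ) (mk 0 (pr x))))
              + ((V R (zR R z) (x - e • e0) - G (rp ρ) (x - e • e0)) - (V R (zR R z) (mk 0 (pr x)) - G (rp ρ) (mk 0 (pr x)))) := by
            have : Φ (pr x) = phi R z ρ (mk 0 (pr x)) := rfl
            rw [this, ← h6]
            simp only [hψ_def]
            ring
          rw [h8]
          refine (abs_add_le _ _).trans ?_
          have h9 : ε / (4 * ((∫ p, g p) + 1)) + ε / (4 * ((∫ p, g p) + 1)) = ε / (2 * ((∫ p, g p) + 1)) := by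
            field_simp; ring
          linarith
        rw [← sub_mul, abs_mul, abs_of_nonneg (hg0 (pr x))]
        exact mul_le_mul_of_nonneg_right h7 (hg0 _)
    · have h1 : slb e g x = 0 := by unfold slb; rw [if_neg hx]
      have h2 : slb e (fun p => Φ p * g p) x = 0 := by unfold slb; rw [if_neg hx]
      rw [h1, h2]; simp
  -- second: the self energy
  have hself0 : 0 ≤ ∫ x, slb e g x * G (slb e g) x :=
    integral_nonneg fun x => mul_nonneg (hs0 x) (G_nonneg (Eventually.of_forall hs0) x)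
  have hself : ∫ x, slb e g x * G (slb e g) x ≤ ε / (2 * ((∫ p, g p) + 1)) * (e * ∫ p, g p) := by
    rw [← hsI, ← integral_const_mul]
    refine integral_mono (hLd.int_mul_G hLd) (hLd.i1.const_mul _) fun x => ?_
    show slb e g x * G (slb e g) x ≤ ε / (2 * ((∫ p, g p) + 1)) * slb e g x
    rw [mul_comm]
    exact mul_le_mul_of_nonneg_right (hS e he he3 x) (hs0 x)
  -- assemble
  have hbound : ε / (2 * ((∫ p, g p) + 1)) * (e * ∫ p, g p) ≤ ε / 2 * e := by
    have h1 : ε / (2 * ((∫ p, g p) + 1)) * (∫ p, g p) ≤ ε / 2 := by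
      rw [div_mul_eq_mul_div, div_le_div_iff₀ (by positivity) (by norm_num)]
      nlinarith
    calc ε / (2 * ((∫ p, g p) + 1)) * (e * ∫ p, g p) = ε / (2 * ((∫ p, g p) + 1)) * (∫ p, g p) * e := by ring
      _ ≤ ε / 2 * e := mul_le_mul_of_nonneg_right h1 he.le
  rw [Real.dist_eq]
  have hfin : (3 / 5 * γ * (e * ∫ p, g p ^ (5 / 3 : ℝ)) - (∫ x, ψ x * slb e g x) + 1 / 2 * ∫ x, slb e g x * G (slb e g) x) / e
      - (3 / 5 * γ * (∫ p, g p ^ (5 / 3 : ℝ)) - ∫ p, Φ p * g p)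
      = (-((∫ x, ψ x * slb e g x) - e * ∫ p, Φ p * g p) + 1 / 2 * ∫ x, slb e g x * G (slb e g) x) / e := by
    field_simp
    ring
  rw [hfin, abs_div, abs_of_pos he, div_lt_iff₀ he]
  refine (abs_add_le _ _).trans_lt ?_
  rw [abs_neg, abs_of_nonneg (by positivity : (0:ℝ) ≤ 1 / 2 * ∫ x, slb e g x * G (slb e g) x)]
  nlinarith

end Pool.Agent.H50.TM
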