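import Pool.Agent.H50.TM.TrC
import Pool.Agent.H50.TM.TrD
import Pool.Agent.H50.TM.SPos
import Pool.Agent.H50.TM.MinG
import Pool.Agent.H50.TM.TfI

/-!
# Module TrE: `Om` drops when the right nuclei are translated by a small `e > 0`

`ρ^e = tr e ρ` (`DN`: nonneg, `tr_int` for `ρ` and `ρ^(5/3)` with `tr_comp`, `plane_cont`).
`Om (shR R e) ≤ gc (shR R e) ρ^e` (`Om_le`; a solution for `shR R e` exists: `exists_full`, here hypothesis `hex`). By `tr_ae`, `tf_congr_ae` and `tf_dec` twice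
(`ρ1 = lp ρ + rp ρ (· - e e0)`, charges `z`, and `ρ2 = slb`, charges `0`; then `lp ρ`, charges `zL`, and `rp ρ (· - e e0)`, charges `zR`; `z = zL + zR`, products vanish
pointwise):
`tf (shR R e) z ρ^e = tf (shR R e) zL (lp ρ) + tf (shR R e) zR (rp ρ (·-e e0)) + XX(e) + [tf (shR R e) 0 slb + XX (shR R e) z 0 ...]`.
`tf (shR R e) zL (lp ρ) = tf R zL (lp ρ)` (only left nuclei carry charge; `U_bil`), `tf (shR R e) zR (rp ρ (· - e e0)) = tf R zR (rp ρ)` (replace `shR R e` by `R + e e0`,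
`tf_iso` with `L = id`), and `tf R z ρ = tf R zL (lp ρ) + tf R zR (rp ρ) + XX R zL zR (lp ρ) (rp ρ)` (`ρ = lp ρ + rp ρ` a.e.). `∫ ρ^e = ∫ ρ + e ∫ g`, `g p = ρ (mk 0 p)`.
So `(gc (shR R e) ρ^e - gc R ρ)/e → -(brackets) + 3/5 γ ∫ g^(5/3) - ∫ φ g + μ ∫ g = -SS` (`XX_lim`, `slab_lim`, `JJ_eq` at `t = φ(mk 0 p)`, `g = jj(φ)`), and `SS > 0`
(`SS_pos`), `Om R = gc R ρ` (`Om_eq`).
-/

set_option autoImplicit false

open MeasureTheory Set Filter Topology
open scoped ENNReal NNReal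

namespace Pool.Agent.H50.TM

open Pool.Agent.H23.TF

variable {γ μ : ℝ} {k : ℕ} {R : Fin k → E3} {z : Fin k → ℝ} {ρ σ : E3 → ℝ}

/-! private lemmas -/

private theorem tre_g_prop (h : Cfg γ μ R z ρ σ) {F : ℝ → ℝ} (hF : Continuous F) (hF0 : F 0 = 0) :
    Integrable (fun p : P2 => F (ρ (mk 0 p))) := by
  obtain ⟨h1, _, r, _, h3⟩ := plane_cont h
  refine (hF.comp h1).integrable_of_hasCompactSupport ?_
  refine HasCompactSupport.intro (isCompact_closedBall (0 : P2) r) fun p hp => ?_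
  rw [Metric.mem_closedBall, dist_zero_right, not_le] at hp
  show F (ρ (mk 0 p)) = 0
  rw [h3 p hp.le, hF0]

private theorem tre_g_int (h : Cfg γ μ R z ρ σ) : Integrable (fun p : P2 => ρ (mk 0 p)) :=
  tre_g_prop h (F := fun t => t) continuous_id rfl

private theorem tre_g53_int (h : Cfg γ μ R z ρ σ) :
    Integrable (fun p : P2 => ρ (mk 0 p) ^ (5 / 3 : ℝ)) :=
  tre_g_prop h (F := fun t => t ^ (5 / 3 : ℝ)) (Real.continuous_rpow_const (by norm_num))
    (Real.zero_rpow (by norm_num))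

private theorem tre_phig_int (h : Cfg γ μ R z ρ σ) :
    Integrable (fun p : P2 => phi R z ρ (mk 0 p) * ρ (mk 0 p)) := by
  obtain ⟨h1, h2, r, _, h3⟩ := plane_cont h
  refine (h2.mul h1).integrable_of_hasCompactSupport ?_
  refine HasCompactSupport.intro (isCompact_closedBall (0 : P2) r) fun p hp => ?_
  rw [Metric.mem_closedBall, dist_zero_right, not_le] at hp
  show phi R z ρ (mk 0 p) * ρ (mk 0 p) = 0
  rw [h3 p hp.le, mul_zero]

theorem tr_dn (h : Cfg γ μ R z ρ σ) {e : ℝ} (he : 0 < e) : DN (tr e ρ) := by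
  have hd := IsTF.dn h.hγ h.htf
  refine ⟨fun x => ?_, (tr_int hd.int (tre_g_int h) he).1, ?_⟩
  · unfold tr
    split_ifs <;> exact hd.nonneg _
  · have h1 := (tr_int hd.int53 (tre_g53_int h) he).1
    refine h1.congr (Eventually.of_forall fun x => ?_)
    exact tr_comp (fun t => t ^ (5 / 3 : ℝ)) ρ e x

private theorem tre_lp_dn (h : Cfg γ μ R z ρ σ) : DN (lp ρ) := by
  have hd := IsTF.dn h.hγ h.htf
  refine ⟨fun x => ?_, ?_, ?_⟩
  · unfold lp
    split_ifs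
    · exact hd.nonneg x
    · exact le_rfl
  · exact (Ld_lp h.htf.ld).i1
  · refine (Ld_lp h.htf.ld).i2.congr (Eventually.of_forall fun x => ?_)
    have h0 : 0 ≤ lp ρ x := by
      unfold lp
      split_ifs
      · exact hd.nonneg x
      · exact le_rfl
    show |lp ρ x| ^ (5 / 3 : ℝ) = lp ρ x ^ (5 / 3 : ℝ)
    rw [abs_of_nonneg h0]

private theorem tre_rp_nonneg (h : Cfg γ μ R z ρ σ) (x : E3) : 0 ≤ rp ρ x := by
  unfold rp
  split_ifs
  · exact (IsTF.dn h.hγ h.htf).nonneg x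
  · exact le_rfl

private theorem tre_rp_dn (h : Cfg γ μ R z ρ σ) : DN (rp ρ) := by
  refine ⟨tre_rp_nonneg h, (Ld_rp h.htf.ld).i1, ?_⟩
  refine (Ld_rp h.htf.ld).i2.congr (Eventually.of_forall fun x => ?_)
  show |rp ρ x| ^ (5 / 3 : ℝ) = rp ρ x ^ (5 / 3 : ℝ)
  rw [abs_of_nonneg (tre_rp_nonneg h x)]

private theorem tre_rpe_dn (h : Cfg γ μ R z ρ σ) (e : ℝ) : DN (fun x => rp ρ (x - e • e0)) := by
  have h1 := tre_rp_dn h
  exact ⟨fun x => h1.nonneg _, h1.int.comp_sub_right (e • e0), h1.int53.comp_sub_right (e • e0)⟩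

private theorem tre_slb_dn (h : Cfg γ μ R z ρ σ) {e : ℝ} (he : 0 < e) :
    DN (slb e (fun p => ρ (mk 0 p))) := by
  have hd := IsTF.dn h.hγ h.htf
  refine ⟨fun x => ?_, (slb_int (tre_g_int h) he.le).1, ?_⟩
  · unfold slb
    split_ifs
    · exact hd.nonneg _
    · exact le_rfl
  · refine (slb_int (tre_g53_int h) he.le).1.congr (Eventually.of_forall fun x => ?_)
    show slb e (fun p => ρ (mk 0 p) ^ (5 / 3 : ℝ)) x = slb e (fun p => ρ (mk 0 p)) x ^ (5 / 3 : ℝ)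
    unfold slb
    split_ifs
    · rfl
    · rw [Real.zero_rpow (by norm_num)]

private theorem tre_V_left (R : Fin k → E3) (z : Fin k → ℝ) (e : ℝ) :
    V (shR R e) (zL R z) = V R (zL R z) := by
  funext x
  unfold V
  refine Finset.sum_congr rfl fun i _ => ?_
  unfold zL shR
  by_cases h1 : (R i) 0 < 0
  · rw [if_neg (not_lt.2 h1.le)]
  · rw [if_neg h1, zero_div, zero_div]

private theorem tre_U_left (R : Fin k → E3) (z : Fin k → ℝ) (e : ℝ) :
    U (shR R e) (zL R z) = U R (zL R z) := by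
  rw [U_bil, U_bil]
  congr 1
  refine Finset.sum_congr rfl fun i _ => Finset.sum_congr rfl fun j _ => ?_
  unfold zL shR
  by_cases h1 : (R i) 0 < 0
  · by_cases h2 : (R j) 0 < 0
    · rw [if_neg (not_lt.2 h1.le), if_neg (not_lt.2 h2.le)]
    · rw [if_neg h2, mul_zero, zero_div, zero_div]
  · rw [if_neg h1, zero_mul, zero_div, zero_div]

private theorem tre_V_right (R : Fin k → E3) (z : Fin k → ℝ) (e : ℝ) :
    V (shR R e) (zR R z) = V (fun i => R i + e • e0) (zR R z) := by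
  funext x
  unfold V
  refine Finset.sum_congr rfl fun i _ => ?_
  unfold zR shR
  by_cases h1 : 0 < (R i) 0
  · simp only [h1, if_true]
  · rw [if_neg h1, zero_div, zero_div]

private theorem tre_U_right (R : Fin k → E3) (z : Fin k → ℝ) (e : ℝ) :
    U (shR R e) (zR R z) = U (fun i => R i + e • e0) (zR R z) := by
  rw [U_bil, U_bil]
  congr 1
  refine Finset.sum_congr rfl fun i _ => Finset.sum_congr rfl fun j _ => ?_
  unfold zR shR
  by_cases h1 : 0 < (R i) 0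
  · by_cases h2 : 0 < (R j) 0
    · simp only [h1, h2, if_true]
    · rw [if_neg h2, mul_zero, zero_div, zero_div]
  · rw [if_neg h1, zero_mul, zero_div, zero_div]

private theorem tre_tf_left (γ : ℝ) (R : Fin k → E3) (z : Fin k → ℝ) (e : ℝ) (f : E3 → ℝ) :
    tf γ (shR R e) (zL R z) f = tf γ R (zL R z) f := by
  unfold tf
  rw [tre_V_left, tre_U_left]

private theorem tre_tf_right (γ : ℝ) (R : Fin k → E3) (z : Fin k → ℝ) (e : ℝ) (f : E3 → ℝ) :
    tf γ (shR R e) (zR R z) (fun x => f (x - e • e0)) = tf γ R (zR R z) f := by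
  have h1 : tf γ (shR R e) (zR R z) (fun x => f (x - e • e0)) =
      tf γ (fun i => R i + e • e0) (zR R z) (fun x => f (x - e • e0)) := by
    unfold tf
    rw [tre_V_right, tre_U_right]
  rw [h1]
  have h2 := tf_iso γ R (zR R z) (LinearIsometryEquiv.refl ℝ E3) (e • e0)
    (fun x => f (x - e • e0))
  simp only [LinearIsometryEquiv.coe_refl, id_eq, add_sub_cancel_right] at h2
  exact h2

private theorem tre_z (h : Cfg γ μ R z ρ σ) : z = fun i => zL R z i + zR R z i := by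
  funext i
  unfold zL zR
  rcases lt_or_gt_of_ne (h.off i) with h1 | h1
  · rw [if_pos h1, if_neg (not_lt.2 h1.le), add_zero]
  · rw [if_neg (not_lt.2 h1.le), if_pos h1, zero_add]

private theorem tre_rho (ρ : E3 → ℝ) : ρ =ᵐ[volume] fun x => lp ρ x + rp ρ x := by
  filter_upwards [plane_ae] with x hx
  unfold lp rp
  rcases lt_or_gt_of_ne hx with h1 | h1
  · rw [if_pos h1, if_neg (not_lt.2 h1.le), add_zero]
  · rw [if_neg (not_lt.2 h1.le), if_pos h1, zero_add]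

private theorem tre_base (h : Cfg γ μ R z ρ σ) :
    tf γ R z ρ = tf γ R (zL R z) (lp ρ) + tf γ R (zR R z) (rp ρ) +
      XX R (zL R z) (zR R z) (lp ρ) (rp ρ) := by
  rw [tf_congr_ae γ R z (tre_rho ρ)]
  conv_lhs => rw [tre_z h]
  refine tf_dec γ R _ _ (tre_lp_dn h) (tre_rp_dn h) fun x => ?_
  unfold lp rp
  rcases lt_or_ge (x 0) 0 with h1 | h1
  · rw [if_neg (not_lt.2 h1.le), mul_zero]
  · rw [if_neg (not_lt.2 h1), zero_mul]

private theorem tre_trial (h : Cfg γ μ R z ρ σ) {e : ℝ} (he : 0 < e) :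
    tf γ (shR R e) z (tr e ρ) = tf γ R (zL R z) (lp ρ) + tf γ R (zR R z) (rp ρ) +
      XX (shR R e) (zL R z) (zR R z) (lp ρ) (fun x => rp ρ (x - e • e0)) +
      (tf γ (shR R e) (fun _ => 0) (slb e (fun p => ρ (mk 0 p)))
        + XX (shR R e) z (fun _ => 0) (fun x => lp ρ x + rp ρ (x - e • e0))
          (slb e (fun p => ρ (mk 0 p)))) := by
  have h0 : z = fun i => z i + (fun _ : Fin k => (0 : ℝ)) i := by
    funext i
    simp
  have h1 : tf γ (shR R e) z (tr e ρ) =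
      tf γ (shR R e) z (fun x => lp ρ x + rp ρ (x - e • e0)) +
        tf γ (shR R e) (fun _ => 0) (slb e (fun p => ρ (mk 0 p))) +
        XX (shR R e) z (fun _ => 0) (fun x => lp ρ x + rp ρ (x - e • e0))
          (slb e (fun p => ρ (mk 0 p))) := by
    rw [tf_congr_ae γ (shR R e) z (tr_ae ρ he)]
    have h2 := tf_dec γ (shR R e) z (fun _ => 0) ((tre_lp_dn h).add (tre_rpe_dn h e))
      (tre_slb_dn h he) (fun x => by
        unfold lp rp slb
        by_cases h3 : 0 < x 0 ∧ x 0 ≤ e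
        · rw [if_neg (not_lt.2 h3.1.le), if_neg, add_zero, zero_mul]
          rw [sub_e0_zero]
          linarith [h3.2]
        · rw [if_neg h3, mul_zero])
    rw [← h2]
    congr 1
  have h2 : tf γ (shR R e) z (fun x => lp ρ x + rp ρ (x - e • e0)) =
      tf γ (shR R e) (zL R z) (lp ρ) + tf γ (shR R e) (zR R z) (fun x => rp ρ (x - e • e0)) +
      XX (shR R e) (zL R z) (zR R z) (lp ρ) (fun x => rp ρ (x - e • e0)) := by
    conv_lhs => rw [tre_z h]
    refine tf_dec γ (shR R e) _ _ (tre_lp_dn h) (tre_rpe_dn h e) fun x => ?_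
    unfold lp rp
    rcases lt_or_ge (x 0) 0 with h1 | h1
    · rw [sub_e0_zero, if_neg (by linarith : ¬ (0 < x 0 - e)), mul_zero]
    · rw [if_neg (not_lt.2 h1), zero_mul]
  rw [h1, h2, tre_tf_left, tre_tf_right]
  ring

theorem tr_lim (h : Cfg γ μ R z ρ σ) :
    Tendsto (fun e : ℝ => (gc γ μ (shR R e) z (tr e ρ) - gc γ μ R z ρ) / e) (𝓝[>] 0) (𝓝 (-SS γ μ R z ρ)) := by
  have hd := IsTF.dn h.hγ h.htf
  have hkey : ∀ e : ℝ, 0 < e → (gc γ μ (shR R e) z (tr e ρ) - gc γ μ R z ρ) / e =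
      (XX (shR R e) (zL R z) (zR R z) (lp ρ) (fun x => rp ρ (x - e • e0))
        - XX R (zL R z) (zR R z) (lp ρ) (rp ρ)) / e +
      (tf γ (shR R e) (fun _ => 0) (slb e (fun p => ρ (mk 0 p)))
        + XX (shR R e) z (fun _ => 0) (fun x => lp ρ x + rp ρ (x - e • e0))
          (slb e (fun p => ρ (mk 0 p)))) / e + μ * ∫ p : P2, ρ (mk 0 p) := by
    intro e he
    unfold gc
    rw [tre_trial h he, tre_base h, (tr_int hd.int (tre_g_int h) he).2]
    field_simp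
    ring
  have hlim := ((XX_lim h).add (slab_lim h)).add_const (μ * ∫ p : P2, ρ (mk 0 p))
  have hval : -(br (nu R (zL R z)) (nu R (zR R z)) - br (nu R (zL R z)) (dens (rp ρ))
        - br (dens (lp ρ)) (nu R (zR R z)) + br (dens (lp ρ)) (dens (rp ρ))) +
      (3 / 5 * γ * (∫ p : P2, ρ (mk 0 p) ^ (5 / 3 : ℝ)) - ∫ p : P2, phi R z ρ (mk 0 p) * ρ (mk 0 p)) +
      μ * (∫ p : P2, ρ (mk 0 p)) = -SS γ μ R z ρ := by
    have h1 : ∫ p : P2, JJ γ μ (phi R z ρ (mk 0 p)) =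
        (∫ p : P2, phi R z ρ (mk 0 p) * ρ (mk 0 p)) - μ * (∫ p : P2, ρ (mk 0 p)) -
          3 / 5 * γ * (∫ p : P2, ρ (mk 0 p) ^ (5 / 3 : ℝ)) := by
      have e1 : ∫ p : P2, (phi R z ρ (mk 0 p) * ρ (mk 0 p) - μ * ρ (mk 0 p) -
          3 / 5 * γ * ρ (mk 0 p) ^ (5 / 3 : ℝ)) =
          (∫ p : P2, phi R z ρ (mk 0 p) * ρ (mk 0 p)) - μ * (∫ p : P2, ρ (mk 0 p)) -
          3 / 5 * γ * (∫ p : P2, ρ (mk 0 p) ^ (5 / 3 : ℝ)) := by
        rw [integral_sub (f := fun p : P2 => phi R z ρ (mk 0 p) * ρ (mk 0 p) - μ * ρ (mk 0 p))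
          ((tre_phig_int h).sub ((tre_g_int h).const_mul μ)) ((tre_g53_int h).const_mul _),
          integral_sub (tre_phig_int h) ((tre_g_int h).const_mul μ), integral_const_mul,
          integral_const_mul]
      rw [← e1]
      refine integral_congr_ae (Eventually.of_forall fun p => ?_)
      show JJ γ μ (phi R z ρ (mk 0 p)) = phi R z ρ (mk 0 p) * ρ (mk 0 p) - μ * ρ (mk 0 p) -
        3 / 5 * γ * ρ (mk 0 p) ^ (5 / 3 : ℝ)
      rw [← JJ_eq h.hγ, h.htf.eq (mk 0 p)]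
      unfold phi
      ring
    unfold SS
    rw [h1]
    ring
  rw [hval] at hlim
  refine hlim.congr' ?_
  filter_upwards [self_mem_nhdsWithin] with e he
  exact (hkey e he).symm

theorem local_drop (h : Cfg γ μ R z ρ σ) (hl : ∃ i, (R i) 0 < 0) (hr : ∃ i, 0 < (R i) 0)
    (hex : ∀ R' : Fin k → E3, ∃ ρ, IsTF γ μ R' z ρ) :
    ∃ e₀ : ℝ, 0 < e₀ ∧ ∀ e : ℝ, 0 < e → e < e₀ → Om γ μ (shR R e) z < Om γ μ R z := by
  have hS := SS_pos h hl hr
  have h1 : ∀ᶠ e in 𝓝[>] (0 : ℝ),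
      (gc γ μ (shR R e) z (tr e ρ) - gc γ μ R z ρ) / e < 0 :=
    (tr_lim h).eventually_lt_const (by linarith)
  rw [eventually_nhdsWithin_iff, Metric.eventually_nhds_iff] at h1
  obtain ⟨e₀, he₀, h1⟩ := h1
  refine ⟨e₀, he₀, fun e he hee => ?_⟩
  have h2 := h1 (y := e) (by rw [Real.dist_eq, sub_zero, abs_of_pos he]; exact hee) he
  obtain ⟨ρ', hρ'⟩ := hex (shR R e)
  have h3 := Om_le h.hγ hρ' (tr_dn h he)
  rw [Om_eq h.hγ h.htf]
  have h4 : gc γ μ (shR R e) z (tr e ρ) - gc γ μ R z ρ < 0 := by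
    by_contra hcon
    exact absurd h2 (not_lt.2 (div_nonneg (not_lt.1 hcon) he.le))
  linarith

end Pool.Agent.H50.TM
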