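import Pool.Agent.H50.TM.LocA
import Pool.Agent.H50.TM.DenB

/-!
# Module WEq: `w = φ - φ₀` as the Green potential of the charges on the right

* `ww_eq`: charges: `V R z x - V (fold R) z x = ∑_{right} z_i (1/‖x-R_i‖ - 1/‖x - rf R_i‖) = V R (zR) x - V R (zR) (rf x)` (`norm_rf_sub'`; also at the nuclei,
  with the convention `t/0 = 0`); densities: `ρ = lp ρ + rp ρ` a.e. (`plane_ae`), `G (foldf ρ) x = G (lp ρ) x + G (rp ρ) (rf x)` (`G_add`, `G_rf`), so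
  `-G ρ x + G (foldf ρ) x = -G (rp ρ) x + G (rp ρ) (rf x)`; `G (bb) = G σ - G (rp ρ)` (`G_sub`).
* `ww_odd`: `rf_rf`. `ww_plane`: `rf (mk 0 p) = mk 0 p`. `phi_plane` from `ww_eq`.
* `bb_eq`: definition of `ρ`, `σ` (`IsTF.eq`, `Cfg.sig_eq`).
-/

set_option autoImplicit false

open MeasureTheory Set Filter Topology
open scoped ENNReal NNReal

namespace Pool.Agent.H50.TM

open Pool.Agent.H23.TF

variable {γ μ : ℝ} {k : ℕ} {R : Fin k → E3} {z : Fin k → ℝ} {ρ σ : E3 → ℝ}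

/-- the charges -/
private theorem V_fold (hoff : ∀ i, (R i) 0 ≠ 0) (z : Fin k → ℝ) (x : E3) :
    V R z x - V (fold R) z x = V R (zR R z) x - V R (zR R z) (rf x) := by
  unfold V
  rw [← Finset.sum_sub_distrib, ← Finset.sum_sub_distrib]
  refine Finset.sum_congr rfl fun i _ => ?_
  unfold fold zR
  by_cases h1 : (R i) 0 < 0
  · have h2 : ¬ 0 < (R i) 0 := not_lt.2 h1.le
    rw [if_pos h1, if_neg h2]
    simp
  · have h2 : 0 < (R i) 0 := lt_of_le_of_ne (not_lt.1 h1) (Ne.symm (hoff i))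
    rw [if_neg h1, if_pos h2, norm_rf_sub']

/-- the potential of a density is the sum of those of its two parts -/
private theorem G_split (hρ : Ld ρ) (x : E3) : G ρ x = G (lp ρ) x + G (rp ρ) x := by
  rw [← G_add (Ld_lp hρ) (Ld_rp hρ)]
  refine congrFun (G_congr ?_) x
  filter_upwards [plane_ae] with y hy
  unfold lp rp
  rcases lt_or_gt_of_ne hy with h1 | h1
  · rw [if_pos h1, if_neg (not_lt.2 h1.le), add_zero]
  · rw [if_neg (not_lt.2 h1.le), if_pos h1, zero_add]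

/-- the potential of the folded density -/
private theorem G_foldf (hρ : Ld ρ) (x : E3) : G (foldf ρ) x = G (lp ρ) x + G (rp ρ) (rf x) := by
  rw [← G_rf (rp ρ) x, ← G_add (Ld_lp hρ) (Ld_rf (Ld_rp hρ))]
  rfl

theorem ww_eq (h : Cfg γ μ R z ρ σ) (x : E3) : ww R z ρ σ x = phi R z ρ x - phi0 R z ρ σ x := by
  have h1 := V_fold h.off z x
  have h2 := G_split h.htf.ld x
  have h3 := G_foldf h.htf.ld x
  have h4 : ∀ y, G (bb ρ σ) y = G σ y - G (rp ρ) y := fun y => G_sub h.hhalf.ld (Ld_rp h.htf.ld) y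
  have h5 := h4 x
  have h6 := h4 (rf x)
  unfold ww phi phi0
  linarith

theorem ww_odd (R : Fin k → E3) (z : Fin k → ℝ) (ρ σ : E3 → ℝ) (x : E3) : ww R z ρ σ (rf x) = -ww R z ρ σ x := by
  unfold ww
  rw [rf_rf]
  ring

theorem ww_plane (R : Fin k → E3) (z : Fin k → ℝ) (ρ σ : E3 → ℝ) {x : E3} (hx : x 0 = 0) : ww R z ρ σ x = 0 := by
  have h1 : rf x = x := by
    unfold rf
    rw [hx, mul_zero, zero_smul, sub_zero]
  have h2 := ww_odd R z ρ σ x
  rw [h1] at h2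
  linarith

theorem phi_plane (h : Cfg γ μ R z ρ σ) (p : P2) : phi R z ρ (mk 0 p) = phi0 R z ρ σ (mk 0 p) := by
  have h1 := ww_eq h (mk 0 p)
  rw [ww_plane R z ρ σ (mk_zero 0 p)] at h1
  linarith

theorem bb_zero (h : Cfg γ μ R z ρ σ) {x : E3} (hx : x 0 ≤ 0) : bb ρ σ x = 0 := by
  unfold bb rp
  rw [h.hhalf.zero x hx, if_neg (not_lt.2 hx), sub_zero]

theorem bb_ld (h : Cfg γ μ R z ρ σ) : Ld (bb ρ σ) := h.hhalf.ld.sub (Ld_rp h.htf.ld)

theorem bb_meas (h : Cfg γ μ R z ρ σ) : Measurable (bb ρ σ) := h.hhalf.meas.sub (measurable_rp h.htf.meas)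

theorem bb_supp (h : Cfg γ μ R z ρ σ) : ∃ r : ℝ, 0 < r ∧ ∀ x : E3, r ≤ ‖x‖ → bb ρ σ x = 0 := by
  obtain ⟨r1, hr1, h1⟩ := h.sig_supp
  obtain ⟨r2, hr2, h2⟩ := h.htf.supp h.hγ h.hμ fun i => (h.hz i).le
  refine ⟨max r1 r2, lt_max_of_lt_left hr1, fun x hx => ?_⟩
  unfold bb rp
  rw [h1 x ((le_max_left _ _).trans hx), h2 x ((le_max_right _ _).trans hx)]
  simp

theorem bb_eq (h : Cfg γ μ R z ρ σ) {x : E3} (hx : 0 < x 0) :
    bb ρ σ x = jj γ μ (phi0 R z ρ σ x) - jj γ μ (phi R z ρ x) := by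
  unfold bb rp
  rw [if_pos hx, h.sig_eq hx, h.htf.eq x]
  rfl

end Pool.Agent.H50.TM
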