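import Pool.Agent.H50.TM.WEq
import Pool.Agent.H50.TM.MeanV

/-!
# Module WMV: mean value formula for `w` on balls in the right half space containing no nucleus

`ball x r ⊆ Hp` gives `r ≤ x₀` (the point `x - t e0`, `t < r`, is in the ball). `w = V R (zR) - V R (zR) ∘ rf + G b - G b ∘ rf`:
* `V R (zR)`: `V_mv` (for right nuclei `r ≤ ‖x - R i‖`);
* `V R (zR) ∘ rf`: `avg_rf` and `V_mv` at `rf x`: `‖rf x - R i‖ ≥ x₀ + (R i) 0 ≥ r` for right nuclei;
* `G b`: `G_mv`; * `G b ∘ rf`: `avg_rf`, `G_mv` at `rf x`; the correction integral vanishes: if `b y ≠ 0` then `y₀ > 0`, `‖rf x - y‖ ≥ x₀ + y₀ ≥ r`, `kap_eq`.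
`integrableOn_ww`: `V_int_ball`, `G_int_ball` (for the reflected parts: `avg_rf`-type change of variables, `mp_rf` maps `ball x r` to `ball (rf x) r`).
-/

set_option autoImplicit false

open MeasureTheory Set Filter Topology
open scoped ENNReal NNReal

namespace Pool.Agent.H50.TM

open Pool.Agent.H23.TF

variable {γ μ : ℝ} {k : ℕ} {R : Fin k → E3} {z : Fin k → ℝ} {ρ σ : E3 → ℝ}

theorem ball_le_coord {x : E3} {r : ℝ} (hr : 0 < r) (h : Metric.ball x r ⊆ Hp) : r ≤ x 0 := by
  by_contra hlt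
  push Not at hlt
  have hx : 0 < x 0 := h (Metric.mem_ball_self hr)
  have hy : x - (x 0) • e0 ∈ Metric.ball x r := by
    rw [Metric.mem_ball, dist_eq_norm, sub_sub_cancel_left, norm_neg, norm_smul, norm_e0, mul_one,
      Real.norm_eq_abs, abs_of_pos hx]
    exact hlt
  have h2 : 0 < (x - (x 0) • e0) 0 := h hy
  rw [sub_e0_zero, sub_self] at h2
  exact lt_irrefl 0 h2

private theorem wmv_int_rf {f : E3 → ℝ} {x : E3} {r : ℝ} (hf : IntegrableOn f (Metric.ball (rf x) r)) :
    IntegrableOn (fun u => f (rf u)) (Metric.ball x r) := by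
  have e0 : ∀ u, u ∈ Metric.ball x r ↔ rf u ∈ Metric.ball (rf x) r := by
    intro u
    rw [Metric.mem_ball, Metric.mem_ball, dist_eq_norm, dist_eq_norm, norm_rf_sub]
  rw [← integrable_indicator_iff Metric.isOpen_ball.measurableSet] at hf ⊢
  refine (integrable_rf hf).congr (Eventually.of_forall fun u => ?_)
  by_cases h : u ∈ Metric.ball x r
  · simp only
    rw [indicator_of_mem h, indicator_of_mem ((e0 u).1 h)]
  · simp only
    rw [indicator_of_notMem h, indicator_of_notMem fun h' => h ((e0 u).2 h')]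

theorem integrableOn_ww (h : Cfg γ μ R z ρ σ) (x : E3) (r : ℝ) : IntegrableOn (ww R z ρ σ) (Metric.ball x r) :=
  (((V_int_ball R (zR R z) x r).sub (wmv_int_rf (V_int_ball R (zR R z) (rf x) r))).add
    (G_int_ball (bb_ld h) x r)).sub (wmv_int_rf (G_int_ball (bb_ld h) (rf x) r))

theorem ww_mv (h : Cfg γ μ R z ρ σ) {x : E3} {r : ℝ} (hr : 0 < r) (hb : Metric.ball x r ⊆ Hp) (hR : ∀ i, r ≤ ‖x - R i‖) :
    ww R z ρ σ x = (⨍ u in Metric.ball x r, ww R z ρ σ u) + ∫ y, (1 / ‖x - y‖ - kap r ‖x - y‖) * bb ρ σ y := by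
  have hx := ball_le_coord hr hb
  have hx0 : 0 ≤ x 0 := hr.le.trans hx
  have iV := V_int_ball R (zR R z) x r
  have iV' := wmv_int_rf (V_int_ball R (zR R z) (rf x) r)
  have iG := G_int_ball (bb_ld h) x r
  have iG' := wmv_int_rf (G_int_ball (bb_ld h) (rf x) r)
  have e1 : (⨍ u in Metric.ball x r, ww R z ρ σ u) =
      (⨍ u in Metric.ball x r, V R (zR R z) u) - (⨍ u in Metric.ball x r, V R (zR R z) (rf u))
        + (⨍ u in Metric.ball x r, G (bb ρ σ) u) - ⨍ u in Metric.ball x r, G (bb ρ σ) (rf u) := by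
    simp only [setAverage_eq, smul_eq_mul]
    have e : ∫ u in Metric.ball x r, ww R z ρ σ u =
        (∫ u in Metric.ball x r, V R (zR R z) u) - (∫ u in Metric.ball x r, V R (zR R z) (rf u))
          + (∫ u in Metric.ball x r, G (bb ρ σ) u) - ∫ u in Metric.ball x r, G (bb ρ σ) (rf u) := by
      have a1 := integral_sub iV iV'
      have a2 := integral_add (iV.sub iV') iG
      have a3 := integral_sub ((iV.sub iV').add iG) iG'
      have a4 : ∫ u in Metric.ball x r, ww R z ρ σ u = (∫ u in Metric.ball x r,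
          ((V R (zR R z) - fun u => V R (zR R z) (rf u)) + G (bb ρ σ)) u - G (bb ρ σ) (rf u)) := rfl
      rw [a4, a3, ← a1]
      congr 1
    rw [e]
    ring
  have h1 := V_mv R (zR R z) hr (x := x) (fun i _ => hR i)
  have h2 := V_mv R (zR R z) hr (x := rf x) (fun i hi => by
    have hRi : 0 < (R i) 0 := by
      by_contra hc
      exact hi (by unfold zR; rw [if_neg hc])
    have := add_le_rf_dist hx0 hRi.le
    linarith)
  have h3 := G_mv (bb_ld h) x hr
  have h4 := G_mv (bb_ld h) (rf x) hr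
  have h5 : ∫ y, (1 / ‖rf x - y‖ - kap r ‖rf x - y‖) * bb ρ σ y = 0 := by
    rw [← integral_zero E3 ℝ]
    congr 1
    funext y
    rcases le_or_gt (y 0) 0 with hy | hy
    · rw [bb_zero h hy, mul_zero]
    · have h6 := add_le_rf_dist hx0 hy.le
      rw [kap_eq (by linarith), sub_self, zero_mul]
  rw [h5, add_zero] at h4
  rw [e1, avg_rf (V R (zR R z)), avg_rf (G (bb ρ σ)), ← h1, ← h2, ← h4]
  unfold ww
  linarith

end Pool.Agent.H50.TM
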