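import Pool.Agent.H50.TM.WReg
import Pool.Agent.H50.TM.WMV
import Pool.Agent.H50.TM.CP

/-!
# Module WNon: `w ≥ 0` on the right half space

`max_principle` with `O = Hp \ {nuclei}` (`O = {x | 0 < x₀ ∧ ∀ i, x ≠ R i}`), `u = w`.
* `h1`: `K = {x ∈ O | w x ≤ -ε}` is bounded (`ww_decay`) and closed: let `x_n ∈ K → x`. `x₀ ≥ 0`. If `x` is a right nucleus: `ww_pole` with `M = 0` contradicts
  `w x_n ≤ -ε`. `x` is not `rf (R i)` for a right nucleus, since `(rf (R i)) 0 < 0`; so `w` is continuous at `x` (`ww_cont`) and `w x ≤ -ε < 0`; then `x₀ ≠ 0`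
  (`ww_plane`), so `x ∈ O` (`x` is not a left nucleus as `x₀ > 0`). `E3` is proper.
* `h2`: `x ∈ O`, `w x < 0`: choose `r₀` with `ball x r₀ ⊆ O`, `w < 0` on the ball (continuity) and `r₀ ≤ ‖x - R i‖`. `ww_mv`; the kernel is `≥ 0` (`kap_le`) and vanishes
  for `‖x-y‖ ≥ r` (`kap_eq`); on `ball x r`, `φ y < φ₀ y` (`ww_eq`), so `b y = jj (φ₀ y) - jj (φ y) ≥ 0` (`bb_eq`, `jj_mono`). So `w x ≥ ⨍ w`.
-/

set_option autoImplicit false

open MeasureTheory Set Filter Topology
open scoped ENNReal NNReal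

namespace Pool.Agent.H50.TM

open Pool.Agent.H23.TF

variable {γ μ : ℝ} {k : ℕ} {R : Fin k → E3} {z : Fin k → ℝ} {ρ σ : E3 → ℝ}

private theorem cont_zero : Continuous (fun x : E3 => x 0) := by fun_prop

private theorem isOpen_O (R : Fin k → E3) : IsOpen {x : E3 | 0 < x 0 ∧ ∀ i, x ≠ R i} := by
  have h1 : IsOpen {x : E3 | 0 < x 0} := isOpen_lt continuous_const cont_zero
  have h2 : IsOpen (⋂ i, {x : E3 | x ≠ R i}) := isOpen_iInter_of_finite fun i => isOpen_ne
  have : {x : E3 | 0 < x 0 ∧ ∀ i, x ≠ R i} = {x : E3 | 0 < x 0} ∩ ⋂ i, {x : E3 | x ≠ R i} := by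
    ext x
    simp
  rw [this]
  exact h1.inter h2

private theorem compact_O (h : Cfg γ μ R z ρ σ) {ε : ℝ} (hε : 0 < ε) :
    IsCompact {x | x ∈ {x : E3 | 0 < x 0 ∧ ∀ i, x ≠ R i} ∧ ww R z ρ σ x ≤ -ε} := by
  obtain ⟨r, hr, hdec⟩ := ww_decay h hε
  refine Metric.isCompact_of_isClosed_isBounded ?_ ?_
  · refine isClosed_of_closure_subset fun x hx => ?_
    obtain ⟨u, hu, hlim⟩ := mem_closure_iff_seq_limit.1 hx
    have h0 : 0 ≤ x 0 := by
      have ht : Tendsto (fun n => (u n) 0) atTop (𝓝 (x 0)) := (cont_zero.tendsto x).comp hlim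
      exact ge_of_tendsto' ht fun n => (hu n).1.1.le
    by_cases hc : ∃ i, 0 < (R i) 0 ∧ x = R i
    · exfalso
      obtain ⟨i, hi, hxi⟩ := hc
      obtain ⟨δ, hδ, hp⟩ := ww_pole h hi 0
      rw [hxi] at hlim
      have hev : ∀ᶠ n in atTop, dist (u n) (R i) < δ := by
        have := Metric.tendsto_nhds.1 hlim δ hδ
        exact this
      obtain ⟨n, hn⟩ := hev.exists
      rw [dist_eq_norm] at hn
      have := hp (u n) ((hu n).1.2 i) hn
      have := (hu n).2
      linarith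
    · push Not at hc
      have hca : ContinuousAt (ww R z ρ σ) x := by
        refine ww_cont h fun i hi => ⟨hc i hi, fun hxr => ?_⟩
        have : x 0 = -((R i) 0) := by rw [hxr, rf_zero]
        linarith
      have hle : ww R z ρ σ x ≤ -ε := le_of_tendsto' (hca.tendsto.comp hlim) fun n => (hu n).2
      have hx0 : 0 < x 0 := by
        rcases h0.lt_or_eq with h1 | h1
        · exact h1
        · exfalso
          have := ww_plane R z ρ σ h1.symm
          linarith
      refine ⟨⟨hx0, fun i hxi => ?_⟩, hle⟩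
      exact hc i (by rw [← hxi]; exact hx0) hxi
  · refine (Metric.isBounded_ball (x := (0 : E3)) (r := r)).subset fun x hx => ?_
    rw [mem_ball_zero_iff]
    by_contra hcon
    have h1 := hdec x (not_lt.1 hcon)
    have h2 := hx.2
    have h3 := neg_abs_le (ww R z ρ σ x)
    linarith

theorem ww_nonneg (h : Cfg γ μ R z ρ σ) {x : E3} (hx : 0 < x 0) (hR : ∀ i, x ≠ R i) : 0 ≤ ww R z ρ σ x := by
  have hO := isOpen_O R
  have hcont : ContinuousOn (ww R z ρ σ) {x : E3 | 0 < x 0 ∧ ∀ i, x ≠ R i} := by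
    intro y hy
    refine (ww_cont h fun i hi => ⟨hy.2 i, fun hxr => ?_⟩).continuousWithinAt
    have h1 : y 0 = -((R i) 0) := by rw [hxr, rf_zero]
    have h2 : 0 < y 0 := hy.1
    linarith
  refine max_principle hO hcont (fun ε hε => compact_O h hε) ?_ x ⟨hx, hR⟩
  intro x hxO hneg
  have hca : ContinuousAt (ww R z ρ σ) x := hcont.continuousAt (hO.mem_nhds hxO)
  have hev : ∀ᶠ y in 𝓝 x, y ∈ {x : E3 | 0 < x 0 ∧ ∀ i, x ≠ R i} ∧ ww R z ρ σ y < 0 :=
    Filter.Eventually.and (hO.mem_nhds hxO) (hca.eventually (gt_mem_nhds hneg))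
  obtain ⟨δ, hδ, hball⟩ := Metric.eventually_nhds_iff_ball.1 hev
  refine ⟨δ, hδ, fun y hy => (hball y hy).1, fun r hr hrδ => ⟨integrableOn_ww h x r, ?_⟩⟩
  have hsub : Metric.ball x r ⊆ Metric.ball x δ := Metric.ball_subset_ball hrδ.le
  have hb : Metric.ball x r ⊆ Hp := fun y hy => (hball y (hsub hy)).1.1
  have hRr : ∀ i, r ≤ ‖x - R i‖ := by
    intro i
    by_contra hcon
    rw [not_le] at hcon
    have hm : R i ∈ Metric.ball x δ := by
      rw [Metric.mem_ball, dist_comm, dist_eq_norm]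
      linarith
    exact (hball _ hm).1.2 i rfl
  have hmv := ww_mv h hr hb hRr
  have hint : 0 ≤ ∫ y, (1 / ‖x - y‖ - kap r ‖x - y‖) * bb ρ σ y := by
    refine integral_nonneg_of_ae ?_
    have hne : ∀ᵐ y : E3, y ≠ x := by
      have : (volume : Measure E3) {x} = 0 := measure_singleton x
      rw [ae_iff]
      simp
    filter_upwards [hne] with y hy
    rcases le_or_gt r ‖x - y‖ with hle | hlt
    · rw [kap_eq hle]
      simp
    · have hym : y ∈ Metric.ball x δ := by
        rw [Metric.mem_ball, dist_comm, dist_eq_norm]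
        linarith
      obtain ⟨⟨hy0, -⟩, hw⟩ := hball y hym
      have hd : 0 < ‖x - y‖ := norm_pos_iff.2 (sub_ne_zero.2 (Ne.symm hy))
      have h1 := kap_le hr hd
      have h2 : 0 ≤ bb ρ σ y := by
        rw [bb_eq h hy0]
        have h3 : phi R z ρ y ≤ phi0 R z ρ σ y := by
          rw [ww_eq h] at hw
          linarith
        have h4 := jj_mono (μ := μ) h.hγ h3
        linarith
      exact mul_nonneg (by linarith) h2
  linarith

end Pool.Agent.H50.TM
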