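import Pool.Agent.H50.TM.WNon
import Pool.Agent.H50.TM.SMax

/-!
# Module WPos: `w > 0` on the right half space if there is a nucleus on the right

`strong_max` with `D = Hp`, `F = range R` (finite, closed), `u = w`. `h0`: `ww_nonneg`. `hu`: `ww_cont`. `h3`: `ww_pole` with `M = 0`.
`h2`: `x ∈ Hp`, not a nucleus. Choose `r₀` with `closedBall x (2 r₀) ⊆ Hp`, `2 r₀ ≤ ‖x - R i‖` for all `i`. On `ball x r₀`: `φ ≤ V ≤ M` (`V_far` with `d = r₀`,
`G_nonneg`), `φ₀ ≤ φ` (`ww_eq`, `ww_nonneg`), so `0 ≤ jj φ - jj φ₀ ≤ C (φ - φ₀) = C w` (`jj_lip`), i.e. `b ≥ -C w`. By `ww_mv`: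
`⨍ w = w x - ∫ (1/‖x-y‖ - kap) b ≤ w x + C ∫_{ball x r} w y/‖x-y‖` (`0 ≤ 1/‖x-y‖ - kap ≤ 1/‖x-y‖`, `kap_nonneg`, `kap_le`). Integrability of `w/‖x-·‖` on the ball: `w`
is bounded on `ball x r₀` (continuous on the closed ball), `ball_int`.
If `w x₁ = 0` for some `x₁ ∈ Hp \ F` then `Hp ∩ F = ∅`, a contradiction.
-/

set_option autoImplicit false

open MeasureTheory Set Filter Topology
open scoped ENNReal NNReal

namespace Pool.Agent.H50.TM

open Pool.Agent.H23.TF

variable {γ μ : ℝ} {k : ℕ} {R : Fin k → E3} {z : Fin k → ℝ} {ρ σ : E3 → ℝ}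

private lemma ww_contOn (h : Cfg γ μ R z ρ σ) : ContinuousOn (ww R z ρ σ) (Hp \ range R) := by
  intro x hx
  refine (ww_cont h (fun i hi => ⟨fun he => hx.2 ⟨i, he.symm⟩, fun he => ?_⟩)).continuousWithinAt
  have h1 : 0 < x 0 := hx.1
  rw [he, rf_zero] at h1
  linarith

theorem ww_pos (h : Cfg γ μ R z ρ σ) (hr : ∃ i, 0 < (R i) 0) {x : E3} (hx : 0 < x 0) (hR : ∀ i, x ≠ R i) :
    0 < ww R z ρ σ x := by
  have hF : IsClosed (range R) := (Set.finite_range R).isClosed
  have hcont := ww_contOn h
  have hnn : ∀ y ∈ Hp \ range R, 0 ≤ ww R z ρ σ y := fun y hy =>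
    ww_nonneg h hy.1 (fun i he => hy.2 ⟨i, he.symm⟩)
  have hx₁ : x ∈ Hp \ range R := ⟨hx, fun ⟨i, hi⟩ => hR i hi.symm⟩
  rcases lt_or_eq_of_le (hnn x hx₁) with h1 | h1
  · exact h1
  exfalso
  have key : Hp ∩ range R = ∅ := by
    refine strong_max isOpen_Hp convex_Hp hF hcont hnn ?_ ?_ hx₁ h1.symm
    · intro y hy
      have hop : IsOpen (Hp \ range R) := isOpen_Hp.sdiff hF
      obtain ⟨e, he, hball⟩ := Metric.isOpen_iff.1 hop y hy
      set r₀ : ℝ := e / 2 with hr₀
      have hr₀0 : 0 < r₀ := by positivity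
      have hne : ∀ i, e ≤ ‖y - R i‖ := by
        intro i
        by_contra hc
        push Not at hc
        have : R i ∈ Metric.ball y e := by
          rw [Metric.mem_ball, dist_eq_norm, norm_sub_rev]
          exact hc
        exact (hball this).2 ⟨i, rfl⟩
      set M : ℝ := (∑ i, z i) / r₀ with hM
      obtain ⟨C, hC0, hC⟩ := jj_lip (μ := μ) h.hγ M
      have hsub : Metric.ball y r₀ ⊆ Hp \ range R :=
        (Metric.ball_subset_ball (by rw [hr₀]; linarith)).trans hball
      have hcsub : Metric.closedBall y r₀ ⊆ Hp \ range R :=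
        (Metric.closedBall_subset_ball (by rw [hr₀]; linarith)).trans hball
      -- bound of `b`
      have hb : ∀ u ∈ Metric.ball y r₀, -bb ρ σ u ≤ C * ww R z ρ σ u := by
        intro u hu
        have hu' := hsub hu
        have hfar : ∀ i, r₀ ≤ ‖u - R i‖ := by
          intro i
          have h2 : ‖y - R i‖ ≤ ‖y - u‖ + ‖u - R i‖ := by
            have := norm_sub_le_norm_sub_add_norm_sub y u (R i)
            exact this
          have h3 : ‖y - u‖ < r₀ := by
            rw [Metric.mem_ball, dist_eq_norm, norm_sub_rev] at hu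
            exact hu
          have h4 := hne i
          have h5 : e = 2 * r₀ := by rw [hr₀]; ring
          linarith
        have hV : V R z u ≤ M := V_far (fun i => (h.hz i).le) hr₀0 hfar
        have hG : 0 ≤ G ρ u := G_nonneg (Eventually.of_forall (fun v => IsTF.nonneg h.hγ h.htf v)) u
        have hphi : phi R z ρ u ≤ M := by
          unfold phi
          linarith
        have hw := hnn u hu'
        have hwe := ww_eq h u
        have hle : phi0 R z ρ σ u ≤ phi R z ρ u := by linarith
        have h6 := hC _ _ hle hphi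
        rw [bb_eq h hu'.1, hwe]
        linarith
      refine ⟨r₀, C, hr₀0, hC0, hsub, ?_⟩
      intro r hr hrr
      have hsubr : Metric.ball y r ⊆ Metric.ball y r₀ := Metric.ball_subset_ball hrr.le
      have hint1 : IntegrableOn (ww R z ρ σ) (Metric.ball y r) := integrableOn_ww h y r
      -- boundedness
      obtain ⟨B, hB⟩ := (isCompact_closedBall y r₀).exists_bound_of_continuousOn (hcont.mono hcsub)
      have hint2 : IntegrableOn (fun u => ww R z ρ σ u / ‖y - u‖) (Metric.ball y r) := by
        have h7 : IntegrableOn (fun u => B * (1 / ‖u - y‖)) (Metric.ball y r) :=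
          (ball_int y y r).const_mul B
        refine h7.mono' ?_ ?_
        · have h8 : AEStronglyMeasurable (ww R z ρ σ) (volume.restrict (Metric.ball y r)) :=
            hint1.aestronglyMeasurable
          have h9 : Measurable (fun u : E3 => ‖y - u‖) := (measurable_const.sub measurable_id).norm
          exact (h8.aemeasurable.div h9.aemeasurable).aestronglyMeasurable
        · refine (ae_restrict_mem Metric.isOpen_ball.measurableSet).mono (fun u hu => ?_)
          have h10 := hB u (Metric.ball_subset_closedBall (hsubr hu))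
          rw [norm_div, Real.norm_of_nonneg (norm_nonneg (y - u)), norm_sub_rev u y, div_eq_mul_one_div]
          exact mul_le_mul_of_nonneg_right h10 (by positivity)
      refine ⟨hint1, hint2, ?_⟩
      have hmv := ww_mv h hr (fun u hu => (hsub (hsubr hu)).1) (fun i => by
        have h4 := hne i
        have h5 : e = 2 * r₀ := by rw [hr₀]; ring
        linarith)
      have hK : ∫ u, (1 / ‖y - u‖ - kap r ‖y - u‖) * bb ρ σ u =
          ∫ u in Metric.ball y r, (1 / ‖y - u‖ - kap r ‖y - u‖) * bb ρ σ u := by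
        refine (setIntegral_eq_integral_of_forall_compl_eq_zero (fun u hu => ?_)).symm
        have h11 : r ≤ ‖y - u‖ := by
          rw [Metric.mem_ball, dist_eq_norm, norm_sub_rev, not_lt] at hu
          exact hu
        rw [kap_eq h11, sub_self, zero_mul]
      have hKint : IntegrableOn (fun u => (1 / ‖y - u‖ - kap r ‖y - u‖) * bb ρ σ u) (Metric.ball y r) :=
        (kap_int (bb_ld h) y hr).integrableOn
      have hfin : -(∫ u in Metric.ball y r, (1 / ‖y - u‖ - kap r ‖y - u‖) * bb ρ σ u) ≤
          C * ∫ u in Metric.ball y r, ww R z ρ σ u / ‖y - u‖ := by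
        rw [← integral_neg, ← integral_const_mul]
        refine setIntegral_mono_ae_restrict hKint.neg (hint2.const_mul C) ?_
        have hne' : ∀ᵐ u ∂(volume.restrict (Metric.ball y r)), u ≠ y := by
          refine ae_restrict_of_ae ?_
          exact compl_mem_ae_iff.2 (measure_singleton y)
        filter_upwards [hne', ae_restrict_mem Metric.isOpen_ball.measurableSet] with u hu1 hu2
        have hu3 : 0 < ‖y - u‖ := norm_pos_iff.2 (sub_ne_zero.2 (Ne.symm hu1))
        have hk0 : 0 ≤ 1 / ‖y - u‖ - kap r ‖y - u‖ := sub_nonneg.2 (kap_le hr hu3)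
        have hk1 : 1 / ‖y - u‖ - kap r ‖y - u‖ ≤ 1 / ‖y - u‖ := by
          have := kap_nonneg hr hu3.le
          linarith
        have hb1 := hb u (hsubr hu2)
        have hw := hnn u (hsub (hsubr hu2))
        show -((1 / ‖y - u‖ - kap r ‖y - u‖) * bb ρ σ u) ≤ C * (ww R z ρ σ u / ‖y - u‖)
        calc -((1 / ‖y - u‖ - kap r ‖y - u‖) * bb ρ σ u)
            = (1 / ‖y - u‖ - kap r ‖y - u‖) * (-bb ρ σ u) := by ring
          _ ≤ (1 / ‖y - u‖ - kap r ‖y - u‖) * (C * ww R z ρ σ u) := mul_le_mul_of_nonneg_left hb1 hk0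
          _ ≤ (1 / ‖y - u‖) * (C * ww R z ρ σ u) := mul_le_mul_of_nonneg_right hk1 (mul_nonneg hC0 hw)
          _ = C * (ww R z ρ σ u / ‖y - u‖) := by ring
      rw [← hK] at hfin
      linarith
    · rintro a ⟨ha, i, rfl⟩
      obtain ⟨r, hr, hr'⟩ := ww_pole h (i := i) ha 0
      exact ⟨r, hr, fun u hu hur => hr' u (fun he => hu.2 ⟨i, he.symm⟩) hur⟩
  obtain ⟨i, hi⟩ := hr
  have : R i ∈ Hp ∩ range R := ⟨hi, i, rfl⟩
  rw [key] at this
  exact this

end Pool.Agent.H50.TM
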