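import Pool.Agent.H50.TM.WEq

/-!
# Module WReg: continuity, poles and decay of `w`

* `ww_cont`: `continuousAt_V` (the poles of `V R (zR)` and of `V R (zR) ∘ rf`), `continuous_G`, `continuous_rf`.
* `ww_pole`: near `R_i` (`0 < (R i) 0`, so `zR i = z i > 0`): `V R (zR) x ≥ z_i/‖x-R_i‖`; the other terms are bounded: `V R (zR) (rf x)` is bounded for `x` near `R_i`
  (`‖rf x - R_j‖ ≥ x₀ + (R j) 0`, `add_le_rf_dist`), `G` is bounded (`Ld.G_bdd`).
* `ww_decay`: `V_small` for `zR` at `x` and `rf x` (`norm_rf`), both `≥ 0`; `G_decay` with `bb_supp`.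
-/

set_option autoImplicit false

open MeasureTheory Set Filter Topology
open scoped ENNReal NNReal

namespace Pool.Agent.H50.TM

open Pool.Agent.H23.TF

variable {γ μ : ℝ} {k : ℕ} {R : Fin k → E3} {z : Fin k → ℝ} {ρ σ : E3 → ℝ}

private lemma zR_ne {i : Fin k} (h : zR R z i ≠ 0) : 0 < (R i) 0 := by
  by_contra hc
  exact h (if_neg hc)

private lemma zR_nonneg (hz : ∀ i, 0 ≤ z i) (i : Fin k) : 0 ≤ zR R z i := by
  unfold zR
  split_ifs
  · exact hz i
  · exact le_rfl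

theorem ww_cont (h : Cfg γ μ R z ρ σ) {x : E3} (hx : ∀ i, 0 < (R i) 0 → x ≠ R i ∧ x ≠ rf (R i)) :
    ContinuousAt (ww R z ρ σ) x := by
  have h1 : ContinuousAt (V R (zR R z)) x := continuousAt_V (fun i hi => (hx i (zR_ne hi)).1)
  have h2 : ContinuousAt (V R (zR R z)) (rf x) := continuousAt_V (fun i hi => by
    intro he
    exact (hx i (zR_ne hi)).2 (by rw [← he, rf_rf]))
  have h3 : ContinuousAt (fun x => V R (zR R z) (rf x)) x :=
    ContinuousAt.comp (f := rf) (g := V R (zR R z)) h2 continuous_rf.continuousAt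
  have hG : Continuous (G (bb ρ σ)) := continuous_G (bb_ld h)
  have h4 : ContinuousAt (fun x => G (bb ρ σ) (rf x)) x := (hG.comp continuous_rf).continuousAt
  exact ((h1.sub h3).add hG.continuousAt).sub h4

theorem ww_pole (h : Cfg γ μ R z ρ σ) {i : Fin k} (hi : 0 < (R i) 0) (M : ℝ) :
    ∃ r : ℝ, 0 < r ∧ ∀ x : E3, x ≠ R i → ‖x - R i‖ < r → M < ww R z ρ σ x := by
  obtain ⟨C, hC⟩ := (bb_ld h).G_bdd
  have hC0 : 0 ≤ C := (abs_nonneg _).trans (hC 0)
  have hzn : ∀ j, 0 ≤ zR R z j := zR_nonneg (fun j => (h.hz j).le)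
  set a : ℝ := (R i) 0 / 2 with ha
  have ha0 : 0 < a := by positivity
  set S : ℝ := ∑ j, zR R z j / a with hS
  have hS0 : 0 ≤ S := Finset.sum_nonneg (fun j _ => div_nonneg (hzn j) ha0.le)
  set K : ℝ := |M| + S + 2 * C + 1 with hK
  have hK0 : 0 < K := by positivity
  have hzi : 0 < z i := h.hz i
  refine ⟨min a (z i / K), lt_min ha0 (div_pos hzi hK0), ?_⟩
  intro x hx hxr
  have hn : 0 < ‖x - R i‖ := norm_pos_iff.2 (sub_ne_zero.2 hx)
  have hx1 : ‖x - R i‖ < a := hxr.trans_le (min_le_left _ _)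
  have hx2 : ‖x - R i‖ < z i / K := hxr.trans_le (min_le_right _ _)
  have hx0 : a ≤ x 0 := by
    have h1 : |(x - R i) 0| ≤ ‖x - R i‖ := abs_zero_le _
    have h2 : (x - R i) 0 = x 0 - (R i) 0 := rfl
    rw [h2] at h1
    have h3 := (abs_le.1 h1).1
    linarith
  -- the pole
  have hV1 : z i / ‖x - R i‖ ≤ V R (zR R z) x := by
    have h1 : zR R z i / ‖x - R i‖ ≤ V R (zR R z) x := by
      unfold V
      exact Finset.single_le_sum (f := fun j => zR R z j / ‖x - R j‖)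
        (fun j _ => div_nonneg (hzn j) (norm_nonneg _)) (Finset.mem_univ i)
    have h2 : zR R z i = z i := if_pos hi
    rwa [h2] at h1
  have hV1' : K < z i / ‖x - R i‖ := by
    rw [lt_div_iff₀ hn]
    rw [lt_div_iff₀ hK0] at hx2
    linarith
  -- the mirror image
  have hV2 : V R (zR R z) (rf x) ≤ S := by
    unfold V
    refine Finset.sum_le_sum (fun j _ => ?_)
    by_cases hj : 0 < (R j) 0
    · have h1 : x 0 + (R j) 0 ≤ ‖rf x - R j‖ := add_le_rf_dist (ha0.le.trans hx0) hj.le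
      exact div_le_div_of_nonneg_left (hzn j) ha0 (by linarith)
    · have h2 : zR R z j = 0 := if_neg hj
      rw [h2]
      simp
  have hG1 := abs_le.1 (hC x)
  have hG2 := abs_le.1 (hC (rf x))
  have hM : M ≤ |M| := le_abs_self M
  unfold ww
  linarith [hG1.1, hG2.2]

theorem ww_decay (h : Cfg γ μ R z ρ σ) {ε : ℝ} (hε : 0 < ε) : ∃ r : ℝ, 0 < r ∧ ∀ x : E3, r ≤ ‖x‖ → |ww R z ρ σ x| < ε := by
  have hzn : ∀ j, 0 ≤ zR R z j := zR_nonneg (fun j => (h.hz j).le)
  have hε5 : 0 < ε / 5 := by positivity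
  obtain ⟨r1, hr1, h1⟩ := V_small (z := zR R z) R hzn hε5
  obtain ⟨r2, hr2, h2⟩ := bb_supp h
  set I : ℝ := ∫ y, |bb ρ σ y| with hI
  have hI0 : 0 ≤ I := integral_nonneg (fun y => abs_nonneg _)
  refine ⟨max r1 (max (2 * r2) (2 * I / (ε / 5) + 1)), lt_max_of_lt_left hr1, ?_⟩
  intro x hx
  have hxr1 : r1 ≤ ‖x‖ := (le_max_left _ _).trans hx
  have hxr2 : 2 * r2 ≤ ‖x‖ := ((le_max_left _ _).trans (le_max_right _ _)).trans hx
  have hxr3 : 2 * I / (ε / 5) + 1 ≤ ‖x‖ := ((le_max_right _ _).trans (le_max_right _ _)).trans hx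
  have hVn : ∀ y : E3, 0 ≤ V R (zR R z) y := fun y =>
    Finset.sum_nonneg (fun j _ => div_nonneg (hzn j) (norm_nonneg _))
  have hGd : ∀ y : E3, ‖y‖ = ‖x‖ → |G (bb ρ σ) y| ≤ ε / 5 := by
    intro y hy
    have hy0 : 0 < ‖y‖ := by
      rw [hy]
      have : 0 ≤ 2 * I / (ε / 5) := by positivity
      linarith
    refine (G_decay (bb_ld h) h2 (norm_pos_iff.1 hy0) (by rw [hy]; exact hxr2)).trans ?_
    rw [div_le_iff₀ hy0, hy]
    have h3 : 2 * I / (ε / 5) ≤ ‖x‖ := by linarith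
    rw [div_le_iff₀ hε5] at h3
    linarith
  have hV1 := h1 x hxr1
  have hV2 := h1 (rf x) (by rw [norm_rf]; exact hxr1)
  have hG1 := abs_le.1 (hGd x rfl)
  have hG2 := abs_le.1 (hGd (rf x) (norm_rf x))
  have hn1 := hVn x
  have hn2 := hVn (rf x)
  unfold ww
  rw [abs_lt]
  constructor <;> linarith [hG1.1, hG1.2, hG2.1, hG2.2]

end Pool.Agent.H50.TM
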